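import Mathlib

set_option autoImplicit false

namespace Pool.Agent.Run7.h126

/-- the defect -/
noncomputable def Tc (c s : ℝ) : ℝ := (max (c - 2/3 - s) 0) ^ 2 + (max (s - 4/3 + c) 0) ^ 2

lemma Tc_neg {c s : ℝ} (hc0 : 0 ≤ c) (hc1 : c ≤ 2/3) (h1 : -(2/3) ≤ s) (h2 : s ≤ 0) :
    Tc c s ≤ 9 / 4 * c ^ 2 * s ^ 2 := by
  unfold Tc
  rw [max_eq_right (by linarith : s - 4/3 + c ≤ 0)]
  have h3 : c - 2/3 - s ≤ (3 * c / 2) * (-s) := by nlinarith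
  have h4 : max (c - 2/3 - s) 0 ≤ (3 * c / 2) * (-s) := by
    apply max_le h3
    apply mul_nonneg <;> linarith
  have h5 : (max (c - 2/3 - s) 0) ^ 2 ≤ ((3 * c / 2) * (-s)) ^ 2 :=
    pow_le_pow_left₀ (le_max_right _ _) h4 2
  nlinarith

lemma Tc_pos {c s : ℝ} (hc0 : 0 ≤ c) (hc1 : c ≤ 2/3) (h1 : 0 ≤ s) (h2 : s ≤ 4/3) :
    Tc c s ≤ 9 / 16 * c ^ 2 * s ^ 2 := by
  unfold Tc
  rw [max_eq_right (by linarith : c - 2/3 - s ≤ 0)]
  have h3 : s - 4/3 + c ≤ (3 * c / 4) * s := by nlinarith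
  have h4 : max (s - 4/3 + c) 0 ≤ (3 * c / 4) * s := by
    apply max_le h3
    apply mul_nonneg <;> linarith
  have h5 : (max (s - 4/3 + c) 0) ^ 2 ≤ ((3 * c / 4) * s) ^ 2 :=
    pow_le_pow_left₀ (le_max_right _ _) h4 2
  nlinarith

lemma Tc_zero {c s : ℝ} (hc1 : c ≤ 2/3) (h1 : 0 ≤ s) (h2 : s ≤ 2/3) :
    Tc c s = 0 := by
  unfold Tc
  rw [max_eq_right (by linarith : c - 2/3 - s ≤ 0), max_eq_right (by linarith : s - 4/3 + c ≤ 0)]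
  norm_num

lemma T1 {c x y z : ℝ} (hc0 : 0 ≤ c) (hc1 : c ≤ 2/3) (hx : -(2/3) ≤ x)
    (hx0 : x ≤ 0) (hy0 : 0 ≤ y) (hz0 : 0 ≤ z) (h : x + y + z = 0) :
    Tc c x + Tc c y + Tc c z ≤ 3 / 2 * c ^ 2 * (x ^ 2 + y ^ 2 + z ^ 2) := by
  rw [Tc_zero hc1 hy0 (by linarith), Tc_zero hc1 hz0 (by linarith)]
  have h1 := Tc_neg hc0 hc1 hx hx0
  have h2 : x = -(y + z) := by linarith
  subst h2
  have h3 : 0 ≤ c ^ 2 * (y - z) ^ 2 := by positivity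
  nlinarith

lemma T2 {c x y z : ℝ} (hc0 : 0 ≤ c) (hc1 : c ≤ 2/3) (hx : -(2/3) ≤ x) (hy : -(2/3) ≤ y)
    (hx0 : x ≤ 0) (hy0 : y ≤ 0) (h : x + y + z = 0) :
    Tc c x + Tc c y + Tc c z ≤ 3 / 2 * c ^ 2 * (x ^ 2 + y ^ 2 + z ^ 2) := by
  have h1 := Tc_neg hc0 hc1 hx hx0
  have h2 := Tc_neg hc0 hc1 hy hy0
  have h3 := Tc_pos (s := z) hc0 hc1 (by linarith) (by linarith)
  have h4 : z = -(x + y) := by linarith
  subst h4
  have h5 : 0 ≤ c ^ 2 * (x * y) := mul_nonneg (sq_nonneg c) (mul_nonneg_of_nonpos_of_nonpos hx0 hy0)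
  have h6 : 0 ≤ c ^ 2 * x ^ 2 := by positivity
  have h7 : 0 ≤ c ^ 2 * y ^ 2 := by positivity
  nlinarith

lemma Tsum {c x y z : ℝ} (hc0 : 0 ≤ c) (hc1 : c ≤ 2/3) (hx : -(2/3) ≤ x) (hy : -(2/3) ≤ y)
    (hz : -(2/3) ≤ z) (h : x + y + z = 0) :
    Tc c x + Tc c y + Tc c z ≤ 3 / 2 * c ^ 2 * (x ^ 2 + y ^ 2 + z ^ 2) := by
  rcases le_total x 0 with hx0 | hx0
  · rcases le_total y 0 with hy0 | hy0
    · exact T2 hc0 hc1 hx hy hx0 hy0 h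
    · rcases le_total z 0 with hz0 | hz0
      · have := T2 hc0 hc1 hx hz hx0 hz0 (z := y) (by linarith)
        linarith
      · exact T1 hc0 hc1 hx hx0 hy0 hz0 h
  · rcases le_total y 0 with hy0 | hy0
    · rcases le_total z 0 with hz0 | hz0
      · have := T2 hc0 hc1 hy hz hy0 hz0 (z := x) (by linarith)
        linarith
      · have := T1 hc0 hc1 hy hy0 hx0 hz0 (by linarith)
        linarith
    · rcases le_total z 0 with hz0 | hz0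
      · have := T1 hc0 hc1 hz hz0 hx0 hy0 (by linarith)
        linarith
      · have e1 : x = 0 := by linarith
        have e2 : y = 0 := by linarith
        have e3 : z = 0 := by linarith
        subst e1; subst e2; subst e3
        rw [Tc_zero hc1 le_rfl (by norm_num)]
        norm_num

/-- the circle lemma bound -/
noncomputable def Psi (c b b' : ℝ) : ℝ :=
  (max (b + b' - c) 0) ^ 2 - (max (|b - b'| - c) 0) ^ 2 - (max (b + b' - 2 + c) 0) ^ 2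

lemma Psi_eq {c b b' : ℝ} (hc0 : 0 ≤ c) (hc1 : c ≤ 1) (hb0 : 0 ≤ b) (hb1 : b ≤ 1)
    (hb0' : 0 ≤ b') (hb1' : b' ≤ 1) :
    (b + b' - c) ^ 2 - Tc c (b + b' - 2/3) - (1 - c) ^ 2 * (b - b') ^ 2 ≤ Psi c b b' := by
  unfold Psi Tc
  have h1 : (max (b + b' - c) 0) ^ 2 = (b + b' - c) ^ 2 - (max (c - 2/3 - (b + b' - 2/3)) 0) ^ 2 := by
    rcases le_total (b + b' - c) 0 with h | h
    · rw [max_eq_right h, max_eq_left (by linarith)]; ring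
    · rw [max_eq_left h, max_eq_right (by linarith)]; ring
  have h2 : b + b' - 2 + c = b + b' - 2/3 - 4/3 + c := by ring
  have habs : |b - b'| ≤ 1 := by rw [abs_le]; constructor <;> linarith
  have habs0 : 0 ≤ |b - b'| := abs_nonneg _
  have h3 : (max (|b - b'| - c) 0) ^ 2 ≤ (1 - c) ^ 2 * (b - b') ^ 2 := by
    have h4 : max (|b - b'| - c) 0 ≤ (1 - c) * |b - b'| := by
      apply max_le
      · nlinarith
      · apply mul_nonneg <;> linarith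
    have h5 := pow_le_pow_left₀ (le_max_right _ _) h4 2
    rw [mul_pow, sq_abs] at h5
    exact h5
  rw [h1, h2]
  linarith

/-- **The algebraic inequality.** -/
theorem cw0 {c : ℝ} (hc0 : 0 ≤ c) (hc1 : c ≤ 2/3) (b b' : Fin 3 → ℝ)
    (hb : ∀ i, 0 ≤ b i) (hb' : ∀ i, 0 ≤ b' i) (hs : ∑ i, b i = 1) (hs' : ∑ i, b' i = 1) :
    3 * (2/3 - c) ^ 2 + (1 - 3/2 * c ^ 2) * ∑ i, ((b i - 1/3) + (b' i - 1/3)) ^ 2
      - (1 - c) ^ 2 * ∑ i, ((b i - 1/3) - (b' i - 1/3)) ^ 2 ≤ ∑ i, Psi c (b i) (b' i) := by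
  simp only [Fin.sum_univ_three] at hs hs' ⊢
  have p0 := hb 0
  have p1 := hb 1
  have p2 := hb 2
  have q0 := hb' 0
  have q1 := hb' 1
  have q2 := hb' 2
  have e0 := Psi_eq hc0 (by linarith) p0 (by linarith) q0 (by linarith)
  have e1 := Psi_eq hc0 (by linarith) p1 (by linarith) q1 (by linarith)
  have e2 := Psi_eq hc0 (by linarith) p2 (by linarith) q2 (by linarith)
  have hT := Tsum (x := b 0 + b' 0 - 2/3) (y := b 1 + b' 1 - 2/3) (z := b 2 + b' 2 - 2/3)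
    hc0 hc1 (by linarith) (by linarith) (by linarith) (by linarith)
  have hI : (b 0 + b' 0 - c) ^ 2 + (b 1 + b' 1 - c) ^ 2 + (b 2 + b' 2 - c) ^ 2
      = (b 0 + b' 0 - 2/3) ^ 2 + (b 1 + b' 1 - 2/3) ^ 2 + (b 2 + b' 2 - 2/3) ^ 2
        + 3 * (2/3 - c) ^ 2 := by
    linear_combination (2 * (2/3 - c)) * hs + (2 * (2/3 - c)) * hs'
  have f0 : (b 0 - 1/3 + (b' 0 - 1/3)) = b 0 + b' 0 - 2/3 := by ring
  have f1 : (b 1 - 1/3 + (b' 1 - 1/3)) = b 1 + b' 1 - 2/3 := by ring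
  have f2 : (b 2 - 1/3 + (b' 2 - 1/3)) = b 2 + b' 2 - 2/3 := by ring
  have g0 : (b 0 - 1/3 - (b' 0 - 1/3)) = b 0 - b' 0 := by ring
  have g1 : (b 1 - 1/3 - (b' 1 - 1/3)) = b 1 - b' 1 := by ring
  have g2 : (b 2 - 1/3 - (b' 2 - 1/3)) = b 2 - b' 2 := by ring
  rw [f0, f1, f2, g0, g1, g2]
  linarith

end Pool.Agent.Run7.h126
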