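import Mathlib

set_option autoImplicit false

open MeasureTheory Set

namespace Pool.Agent.Run7.h126

/-- One crossing: if a 1-Lipschitz function goes from a value at most `v` to a value at least `v'`
on an interval, it spends measure at least `v' - v` with values in `[v, v')`. -/
lemma cross1_measure {N : ℝ → ℝ} (hN : LipschitzWith 1 N) {a b v v' : ℝ} (hab : a ≤ b)
    (h : (N a ≤ v ∧ v' ≤ N b) ∨ (N b ≤ v ∧ v' ≤ N a)) :
    ENNReal.ofReal (v' - v) ≤ volume (Ioc a b ∩ {θ | v ≤ N θ ∧ N θ < v'}) := by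
  have hcont : ContinuousOn N (Icc a b) := hN.continuous.continuousOn
  have himg : Ico v v' ⊆ N '' (Icc a b ∩ {θ | v ≤ N θ ∧ N θ < v'}) := by
    intro w hw
    rcases h with ⟨h1, h2⟩ | ⟨h1, h2⟩
    · have hw' : w ∈ Icc (N a) (N b) := ⟨h1.trans hw.1, hw.2.le.trans h2⟩
      obtain ⟨x, hx, rfl⟩ := intermediate_value_Icc hab hcont hw'
      exact ⟨x, ⟨hx, hw.1, hw.2⟩, rfl⟩
    · have hw' : w ∈ Icc (N b) (N a) := ⟨h1.trans hw.1, hw.2.le.trans h2⟩
      obtain ⟨x, hx, rfl⟩ := intermediate_value_Icc' hab hcont hw'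
      exact ⟨x, ⟨hx, hw.1, hw.2⟩, rfl⟩
  have h1 : volume (Ico v v') ≤ volume (N '' (Icc a b ∩ {θ | v ≤ N θ ∧ N θ < v'})) :=
    measure_mono himg
  have h2 : volume (N '' (Icc a b ∩ {θ | v ≤ N θ ∧ N θ < v'}))
      ≤ volume (Icc a b ∩ {θ | v ≤ N θ ∧ N θ < v'}) := by
    have := hN.hausdorffMeasure_image_le (d := 1) zero_le_one
      (Icc a b ∩ {θ | v ≤ N θ ∧ N θ < v'})
    rw [hausdorffMeasure_real] at this
    simpa using this
  have h3 : volume (Icc a b ∩ {θ | v ≤ N θ ∧ N θ < v'})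
      = volume (Ioc a b ∩ {θ | v ≤ N θ ∧ N θ < v'}) := by
    apply measure_congr
    exact (Ioc_ae_eq_Icc.symm).inter (ae_eq_refl _)
  rw [Real.volume_Ico] at h1
  exact h1.trans (h2.trans h3.le)

/-- the indicator as a real function -/
lemma cross1 {N : ℝ → ℝ} (hN : LipschitzWith 1 N) {a b v v' : ℝ} (hab : a ≤ b)
    (h : (N a ≤ v ∧ v' ≤ N b) ∨ (N b ≤ v ∧ v' ≤ N a)) :
    v' - v ≤ ∫ θ in a..b, ({θ | v ≤ N θ ∧ N θ < v'} : Set ℝ).indicator (fun _ => (1:ℝ)) θ := by
  have hmeas : MeasurableSet {θ | v ≤ N θ ∧ N θ < v'} :=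
    (measurableSet_le measurable_const hN.continuous.measurable).inter
      (measurableSet_lt hN.continuous.measurable measurable_const)
  rw [intervalIntegral.integral_of_le hab]
  have : ∫ θ in Ioc a b, ({θ | v ≤ N θ ∧ N θ < v'} : Set ℝ).indicator (fun _ => (1:ℝ)) θ
      = (volume (Ioc a b ∩ {θ | v ≤ N θ ∧ N θ < v'})).toReal := by
    rw [integral_indicator hmeas]
    simp only [integral_const, smul_eq_mul, mul_one]
    rw [Measure.restrict_restrict hmeas, inter_comm]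
    simp [Measure.real]
  rw [this]
  have h1 := cross1_measure hN hab h
  have hfin : volume (Ioc a b ∩ {θ | v ≤ N θ ∧ N θ < v'}) ≠ ⊤ := by
    apply ne_top_of_le_ne_top _ (measure_mono inter_subset_left)
    simp
  rwa [← ENNReal.ofReal_le_iff_le_toReal hfin]

lemma indicator_intervalIntegrable {s : Set ℝ} (hs : MeasurableSet s) (a b : ℝ) :
    IntervalIntegrable (s.indicator (fun _ => (1:ℝ))) volume a b := by
  have h : IntervalIntegrable (fun _ : ℝ => (1:ℝ)) volume a b := intervalIntegrable_const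
  exact ⟨h.1.indicator hs, h.2.indicator hs⟩

/-- two crossings in a period -/
lemma cross2 {N : ℝ → ℝ} (hN : LipschitzWith 1 N) {T : ℝ} (hT : 0 < T)
    (hper : Function.Periodic N T) {v v' θ₀ θ₁ : ℝ} (h0 : N θ₀ ≤ v) (h1 : v' ≤ N θ₁) (a : ℝ) :
    2 * (v' - v) ≤ ∫ θ in a..a + T,
      ({θ | v ≤ N θ ∧ N θ < v'} : Set ℝ).indicator (fun _ => (1:ℝ)) θ := by
  have hmeas : MeasurableSet {θ | v ≤ N θ ∧ N θ < v'} :=
    (measurableSet_le measurable_const hN.continuous.measurable).inter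
      (measurableSet_lt hN.continuous.measurable measurable_const)
  have hper2 : Function.Periodic
      (({θ | v ≤ N θ ∧ N θ < v'} : Set ℝ).indicator (fun _ => (1:ℝ))) T := by
    intro x
    simp only [indicator, mem_ofPred_eq, hper x]
  rw [hper2.intervalIntegral_add_eq a θ₀]
  obtain ⟨y, hy, hNy⟩ := hper.exists_mem_Ico hT θ₁ θ₀
  rw [hNy] at h1
  have e := intervalIntegral.integral_add_adjacent_intervals
    (indicator_intervalIntegrable hmeas θ₀ y) (indicator_intervalIntegrable hmeas y (θ₀ + T))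
  rw [← e]
  have c1 := cross1 hN hy.1 (Or.inl ⟨h0, h1⟩)
  have c2 := cross1 hN hy.2.le (v := v) (v' := v') (Or.inr ⟨by rw [hper θ₀]; exact h0, h1⟩)
  linarith

end Pool.Agent.Run7.h126
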