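import Mathlib
import Pool.Agent.Run7.h126.Cross

set_option autoImplicit false

open MeasureTheory Set

namespace Pool.Agent.Run7.h126

/-- the distribution function of `N` over a period -/
noncomputable def dist (N : ℝ → ℝ) (T : ℝ) (v : ℝ) : ℝ :=
  ∫ θ in (0:ℝ)..T, ({θ | N θ < v} : Set ℝ).indicator (fun _ => (1:ℝ)) θ

lemma meas_lt {N : ℝ → ℝ} (hN : LipschitzWith 1 N) (v : ℝ) : MeasurableSet {θ | N θ < v} :=
  measurableSet_lt hN.continuous.measurable measurable_const

lemma dist_le {N : ℝ → ℝ} (hN : LipschitzWith 1 N) {T : ℝ} (hT : 0 < T) (v : ℝ) :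
    dist N T v ≤ T := by
  have h := intervalIntegral.integral_mono_on (a := 0) (b := T) hT.le
    (indicator_intervalIntegrable (meas_lt hN v) 0 T)
    (intervalIntegrable_const (c := (1:ℝ))) (fun x _ => by
      by_cases hx : x ∈ {θ | N θ < v}
      · rw [indicator_of_mem hx]
      · rw [indicator_of_notMem hx]; exact zero_le_one)
  simpa [dist] using h

lemma dist_nonneg {N : ℝ → ℝ} {T : ℝ} (hT : 0 < T) (v : ℝ) :
    0 ≤ dist N T v := by
  apply intervalIntegral.integral_nonneg hT.le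
  intro x _
  exact indicator_nonneg (fun _ _ => zero_le_one) x

lemma dist_mono {N : ℝ → ℝ} (hN : LipschitzWith 1 N) {T : ℝ} (hT : 0 < T) :
    Monotone (dist N T) := by
  intro v v' h
  apply intervalIntegral.integral_mono_on hT.le
    (indicator_intervalIntegrable (meas_lt hN v) 0 T)
    (indicator_intervalIntegrable (meas_lt hN v') 0 T)
  intro x _
  apply indicator_le_indicator_of_subset
  · intro θ hθ
    exact lt_of_lt_of_le hθ h
  · intro _; exact zero_le_one

lemma dist_zero {N : ℝ → ℝ} {T : ℝ} {v : ℝ} (h : ∀ θ, v ≤ N θ) :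
    dist N T v = 0 := by
  have : ({θ | N θ < v} : Set ℝ) = ∅ := by
    ext θ
    simpa using h θ
  simp [dist, this]

lemma dist_full {N : ℝ → ℝ} {T : ℝ} {v : ℝ} (h : ∀ θ, N θ < v) :
    dist N T v = T := by
  have : ({θ | N θ < v} : Set ℝ) = univ := by
    ext θ
    simpa using h θ
  simp [dist, this]

lemma dist_cross {N : ℝ → ℝ} (hN : LipschitzWith 1 N) {T : ℝ} (hT : 0 < T)
    (hper : Function.Periodic N T) {v v' θ₀ θ₁ : ℝ} (hv : v ≤ v') (h0 : N θ₀ < v)
    (h1 : v' ≤ N θ₁) :
    dist N T v + 2 * (v' - v) ≤ dist N T v' := by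
  have hc := cross2 hN hT hper h0.le h1 0
  rw [zero_add] at hc
  have hmeas : MeasurableSet {θ | v ≤ N θ ∧ N θ < v'} :=
    (measurableSet_le measurable_const hN.continuous.measurable).inter
      (measurableSet_lt hN.continuous.measurable measurable_const)
  have e : dist N T v' = dist N T v + ∫ θ in (0:ℝ)..T,
      ({θ | v ≤ N θ ∧ N θ < v'} : Set ℝ).indicator (fun _ => (1:ℝ)) θ := by
    rw [dist, dist, ← intervalIntegral.integral_add
      (indicator_intervalIntegrable (meas_lt hN v) 0 T)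
      (indicator_intervalIntegrable hmeas 0 T)]
    congr 1
    ext θ
    by_cases h2 : N θ < v
    · have h3 : N θ < v' := lt_of_lt_of_le h2 hv
      have h4 : ¬ (v ≤ N θ ∧ N θ < v') := fun h => absurd h2 (not_lt.mpr h.1)
      rw [indicator_of_mem (show θ ∈ {θ | N θ < v'} from h3),
        indicator_of_mem (show θ ∈ {θ | N θ < v} from h2),
        indicator_of_notMem (show θ ∉ {θ | v ≤ N θ ∧ N θ < v'} from h4)]
      norm_num
    · by_cases h3 : N θ < v'
      · rw [indicator_of_mem (show θ ∈ {θ | N θ < v'} from h3),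
          indicator_of_notMem (show θ ∉ {θ | N θ < v} from h2),
          indicator_of_mem (show θ ∈ {θ | v ≤ N θ ∧ N θ < v'} from ⟨not_lt.mp h2, h3⟩)]
        norm_num
      · have h4 : ¬ (v ≤ N θ ∧ N θ < v') := fun h => h3 h.2
        rw [indicator_of_notMem (show θ ∉ {θ | N θ < v'} from h3),
          indicator_of_notMem (show θ ∉ {θ | N θ < v} from h2),
          indicator_of_notMem (show θ ∉ {θ | v ≤ N θ ∧ N θ < v'} from h4)]
        norm_num
  rw [e]
  linarith

/-- layer cake: `∫ (t - N)_+ = ∫_{m₀}^t dist` -/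
lemma layer {N : ℝ → ℝ} (hN : LipschitzWith 1 N) {T : ℝ} (hT : 0 < T) {m₀ t : ℝ}
    (hm : ∀ θ, m₀ ≤ N θ) (ht : m₀ ≤ t) :
    ∫ θ in (0:ℝ)..T, max (t - N θ) 0 = ∫ v in m₀..t, dist N T v := by
  have h1 : ∀ θ, max (t - N θ) 0 = ∫ v in m₀..t, ({v | N θ < v} : Set ℝ).indicator
      (fun _ => (1:ℝ)) v := by
    intro θ
    rw [intervalIntegral.integral_of_le ht]
    have hms : MeasurableSet ({v | N θ < v} : Set ℝ) := measurableSet_Ioi
    rw [integral_indicator hms, Measure.restrict_restrict hms]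
    simp only [integral_const, smul_eq_mul, mul_one]
    have : ({v | N θ < v} : Set ℝ) ∩ Ioc m₀ t = Ioc (N θ) t := by
      ext v
      simp only [mem_inter_iff, mem_ofPred_eq, mem_Ioc]
      constructor
      · rintro ⟨h1, _, h3⟩; exact ⟨h1, h3⟩
      · rintro ⟨h1, h2⟩; exact ⟨h1, lt_of_le_of_lt (hm θ) h1, h2⟩
    rw [this]
    simp [Measure.real, ENNReal.toReal_ofReal']
  have h2 : ∫ θ in (0:ℝ)..T, max (t - N θ) 0 =
      ∫ θ in (0:ℝ)..T, ∫ v in m₀..t, ({v | N θ < v} : Set ℝ).indicator (fun _ => (1:ℝ)) v := by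
    apply intervalIntegral.integral_congr
    intro θ _
    exact h1 θ
  rw [h2]
  simp only [dist]
  rw [intervalIntegral.integral_of_le hT.le, intervalIntegral.integral_of_le ht]
  simp only [intervalIntegral.integral_of_le hT.le, intervalIntegral.integral_of_le ht]
  rw [integral_integral_swap]
  · congr 1
  · have hmeas : Measurable (Function.uncurry fun (θ v : ℝ) =>
        ({v | N θ < v} : Set ℝ).indicator (fun _ => (1:ℝ)) v) := by
      have : (Function.uncurry fun (θ v : ℝ) =>
        ({v | N θ < v} : Set ℝ).indicator (fun _ => (1:ℝ)) v) =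
        ({p : ℝ × ℝ | N p.1 < p.2}).indicator (fun _ => (1:ℝ)) := by
        ext p
        simp [Function.uncurry, indicator]
      rw [this]
      apply measurable_const.indicator
      exact measurableSet_lt (hN.continuous.measurable.comp measurable_fst) measurable_snd
    refine Integrable.of_bound hmeas.aestronglyMeasurable 1 ?_
    refine Filter.Eventually.of_forall fun p => ?_
    simp only [Function.uncurry, indicator]
    split_ifs <;> simp

/-- Single crossing gives the upper bound on `∫ (t - N)_+`. -/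
lemma bath {N : ℝ → ℝ} (hN : LipschitzWith 1 N) {T : ℝ} (hT : 0 < T)
    (hper : Function.Periodic N T) {m₀ M₀ A : ℝ} (hA : 0 ≤ A)
    (hm : ∀ θ, m₀ ≤ N θ) (hM : ∀ θ, N θ ≤ M₀) (hle : A + 2 * (M₀ - m₀) ≤ T)
    (htot : A * (M₀ - m₀) + (M₀ - m₀) ^ 2 = T * M₀ - ∫ θ in (0:ℝ)..T, N θ)
    {t : ℝ} (ht1 : m₀ ≤ t) (ht2 : t ≤ M₀) :
    ∫ θ in (0:ℝ)..T, max (t - N θ) 0 ≤ A * (t - m₀) + (t - m₀) ^ 2 := by
  have hmM : m₀ ≤ M₀ := (hm 0).trans (hM 0)
  rw [layer hN hT hm ht1]
  -- integrability
  have hint : ∀ a b : ℝ, IntervalIntegrable (dist N T) volume a b := fun a b =>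
    (dist_mono hN hT).intervalIntegrable
  have hlin : ∀ a b : ℝ, IntervalIntegrable (fun v => A + 2 * (v - m₀)) volume a b := fun a b =>
    (by fun_prop : Continuous (fun v => A + 2 * (v - m₀))).intervalIntegrable a b
  have hlinint : ∀ a b : ℝ, ∫ v in a..b, (A + 2 * (v - m₀)) =
      (A * (b - m₀) + (b - m₀)^2) - (A * (a - m₀) + (a - m₀)^2) := by
    intro a b
    rw [intervalIntegral.integral_eq_sub_of_hasDerivAt (f := fun v => A * (v - m₀) + (v - m₀)^2)]
    · intro x _
      have h1 : HasDerivAt (fun v : ℝ => v - m₀) 1 x := (hasDerivAt_id x).sub_const m₀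
      have h2 : HasDerivAt (fun v : ℝ => A * (v - m₀) + (v - m₀)^2)
          (A * 1 + ((2:ℕ):ℝ) * (x - m₀)^(2-1) * 1) x := (h1.const_mul A).add (h1.pow 2)
      have e : A + 2 * (x - m₀) = A * 1 + ((2:ℕ):ℝ) * (x - m₀)^(2-1) * 1 := by norm_num
      rw [e]
      exact h2
    · exact hlin a b
  -- full integral
  have hfull : ∫ v in m₀..M₀, dist N T v = ∫ v in m₀..M₀, (A + 2 * (v - m₀)) := by
    rw [← layer hN hT hm hmM, hlinint]
    have : ∫ θ in (0:ℝ)..T, max (M₀ - N θ) 0 = ∫ θ in (0:ℝ)..T, (M₀ - N θ) := by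
      apply intervalIntegral.integral_congr
      intro θ _
      exact max_eq_left (sub_nonneg.mpr (hM θ))
    rw [this, intervalIntegral.integral_sub intervalIntegrable_const
      (hN.continuous.intervalIntegrable 0 T)]
    simp only [intervalIntegral.integral_const, smul_eq_mul, sub_zero, sub_self, mul_zero]
    rw [← htot]
    ring
  -- single crossing
  have hsc : ∀ v v', m₀ ≤ v → v ≤ v' → v' ≤ M₀ → A + 2 * (v - m₀) < dist N T v →
      A + 2 * (v' - m₀) ≤ dist N T v' := by
    intro v v' h1 h2 h3 h4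
    by_cases h5 : ∀ θ, N θ < v'
    · rw [dist_full h5]
      linarith
    · push Not at h5
      obtain ⟨θ₁, hθ₁⟩ := h5
      have h6 : ∃ θ₀, N θ₀ < v := by
        by_contra hcon
        push Not at hcon
        rw [dist_zero hcon] at h4
        linarith
      obtain ⟨θ₀, hθ₀⟩ := h6
      have := dist_cross hN hT hper h2 hθ₀ hθ₁
      linarith
  have htt : A * (t - m₀) + (t - m₀)^2 = ∫ v in m₀..t, (A + 2 * (v - m₀)) := by
    rw [hlinint]; ring
  rw [htt]
  by_cases hex : ∃ v, m₀ ≤ v ∧ v ≤ t ∧ A + 2 * (v - m₀) < dist N T v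
  · obtain ⟨v, hv1, hv2, hv3⟩ := hex
    have hge : ∫ v in t..M₀, (A + 2 * (v - m₀)) ≤ ∫ v in t..M₀, dist N T v := by
      apply intervalIntegral.integral_mono_on ht2 (hlin _ _) (hint _ _)
      intro x hx
      exact hsc v x hv1 (hv2.trans hx.1) hx.2 hv3
    have e1 := intervalIntegral.integral_add_adjacent_intervals (hint m₀ t) (hint t M₀)
    have e2 := intervalIntegral.integral_add_adjacent_intervals (hlin m₀ t) (hlin t M₀)
    linarith
  · push Not at hex
    apply intervalIntegral.integral_mono_on ht1 (hint _ _) (hlin _ _)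
    intro x hx
    exact hex x hx.1 hx.2

end Pool.Agent.Run7.h126
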