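import Mathlib
import Pool.Agent.Run7.h126.Bath

set_option autoImplicit false

open MeasureTheory Set Real

namespace Pool.Agent.Run7.h126

/-- a fuzzy subset of the circle, as a `2π`-periodic function on the line -/
structure Fuz (η : ℝ → ℝ) : Prop where
  meas : Measurable η
  nonneg : ∀ x, 0 ≤ η x
  le_one : ∀ x, η x ≤ 1
  per : Function.Periodic η (2 * π)

lemma Fuz.ii {η : ℝ → ℝ} (h : Fuz η) (a b : ℝ) : IntervalIntegrable η volume a b := by
  rw [intervalIntegrable_iff]
  refine IntegrableOn.of_bound (by simp) h.meas.aestronglyMeasurable 1 ?_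
  refine Filter.Eventually.of_forall fun x => ?_
  rw [Real.norm_eq_abs, abs_of_nonneg (h.nonneg x)]
  exact h.le_one x

lemma Fuz.int_nonneg {η : ℝ → ℝ} (h : Fuz η) {a b : ℝ} (hab : a ≤ b) : 0 ≤ ∫ x in a..b, η x :=
  intervalIntegral.integral_nonneg hab fun x _ => h.nonneg x

lemma Fuz.int_le {η : ℝ → ℝ} (h : Fuz η) {a b : ℝ} (hab : a ≤ b) : ∫ x in a..b, η x ≤ b - a := by
  have := intervalIntegral.integral_mono_on hab (h.ii a b) (intervalIntegrable_const (c := (1:ℝ)))
    (fun x _ => h.le_one x)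
  simpa using this

lemma Fuz.int_period {η : ℝ → ℝ} (h : Fuz η) (a : ℝ) :
    ∫ x in a..a + 2 * π, η x = ∫ x in (0:ℝ)..2 * π, η x := by
  have := h.per.intervalIntegral_add_eq a 0
  rwa [zero_add] at this

/-- arc average -/
noncomputable def arc (η : ℝ → ℝ) (τ θ : ℝ) : ℝ := ∫ x in (π - τ)..(π + τ), η (θ + x)

lemma arc_eq (η : ℝ → ℝ) (τ θ : ℝ) : arc η τ θ = ∫ x in (θ + (π - τ))..(θ + (π + τ)), η x := by
  rw [arc, intervalIntegral.integral_comp_add_left]

lemma arc_sub_le {η : ℝ → ℝ} (h : Fuz η) (τ : ℝ) {θ θ' : ℝ} (hθ : θ ≤ θ') :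
    |arc η τ θ' - arc η τ θ| ≤ θ' - θ := by
  rw [arc_eq, arc_eq]
  have e : (∫ x in (θ' + (π - τ))..(θ' + (π + τ)), η x) - ∫ x in (θ + (π - τ))..(θ + (π + τ)), η x
      = (∫ x in (θ + (π + τ))..(θ' + (π + τ)), η x) - ∫ x in (θ + (π - τ))..(θ' + (π - τ)), η x := by
    have e1 := intervalIntegral.integral_add_adjacent_intervals
      (h.ii (θ + (π - τ)) (θ' + (π - τ))) (h.ii (θ' + (π - τ)) (θ' + (π + τ)))
    have e2 := intervalIntegral.integral_add_adjacent_intervals
      (h.ii (θ + (π - τ)) (θ + (π + τ))) (h.ii (θ + (π + τ)) (θ' + (π + τ)))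
    linarith
  rw [e]
  have a1 := h.int_nonneg (a := θ + (π + τ)) (b := θ' + (π + τ)) (by linarith)
  have a2 := h.int_le (a := θ + (π + τ)) (b := θ' + (π + τ)) (by linarith)
  have a3 := h.int_nonneg (a := θ + (π - τ)) (b := θ' + (π - τ)) (by linarith)
  have a4 := h.int_le (a := θ + (π - τ)) (b := θ' + (π - τ)) (by linarith)
  rw [abs_le]
  constructor <;> linarith

lemma arc_lip {η : ℝ → ℝ} (h : Fuz η) (τ : ℝ) : LipschitzWith 1 (arc η τ) := by
  apply LipschitzWith.of_dist_le_mul
  intro x y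
  rw [Real.dist_eq, Real.dist_eq, NNReal.coe_one, one_mul]
  rcases le_total x y with hxy | hxy
  · rw [abs_sub_comm, abs_sub_comm x y, abs_of_nonneg (sub_nonneg.mpr hxy)]
    exact arc_sub_le h τ hxy
  · rw [abs_of_nonneg (sub_nonneg.mpr hxy)]
    exact arc_sub_le h τ hxy

lemma arc_per {η : ℝ → ℝ} (h : Fuz η) (τ : ℝ) : Function.Periodic (arc η τ) (2 * π) := by
  intro θ
  simp only [arc]
  apply intervalIntegral.integral_congr
  intro x _
  have := h.per (θ + x)
  show η (θ + 2 * π + x) = η (θ + x)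
  rw [← this]
  congr 1
  ring

lemma arc_nonneg {η : ℝ → ℝ} (h : Fuz η) {τ : ℝ} (hτ : 0 ≤ τ) (θ : ℝ) : 0 ≤ arc η τ θ := by
  rw [arc_eq]
  exact h.int_nonneg (by linarith)

lemma arc_le {η : ℝ → ℝ} (h : Fuz η) {τ : ℝ} (hτ : 0 ≤ τ) (θ : ℝ) : arc η τ θ ≤ 2 * τ := by
  rw [arc_eq]
  have := h.int_le (a := θ + (π - τ)) (b := θ + (π + τ)) (by linarith)
  linarith

lemma arc_compl {η : ℝ → ℝ} (h : Fuz η) (τ θ : ℝ) :
    arc η τ θ + ∫ x in (θ + (π + τ))..(θ + (π - τ) + 2 * π), η x = ∫ x in (0:ℝ)..2 * π, η x := by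
  rw [arc_eq, intervalIntegral.integral_add_adjacent_intervals (h.ii _ _) (h.ii _ _),
    h.int_period]

lemma arc_le' {η : ℝ → ℝ} (h : Fuz η) {τ : ℝ} (hτ : τ ≤ π) (θ : ℝ) :
    arc η τ θ ≤ ∫ x in (0:ℝ)..2 * π, η x := by
  have e := arc_compl h τ θ
  have := h.int_nonneg (a := θ + (π + τ)) (b := θ + (π - τ) + 2 * π) (by linarith)
  linarith

lemma le_arc {η : ℝ → ℝ} (h : Fuz η) {τ : ℝ} (hτ : τ ≤ π) (θ : ℝ) :
    (∫ x in (0:ℝ)..2 * π, η x) - (2 * π - 2 * τ) ≤ arc η τ θ := by
  have e := arc_compl h τ θ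
  have := h.int_le (a := θ + (π + τ)) (b := θ + (π - τ) + 2 * π) (by linarith)
  linarith

lemma arc_integral {η : ℝ → ℝ} (h : Fuz η) {τ : ℝ} (hτ : 0 ≤ τ) :
    ∫ θ in (0:ℝ)..2 * π, arc η τ θ = 2 * τ * ∫ x in (0:ℝ)..2 * π, η x := by
  have hpi : (0:ℝ) ≤ 2 * π := by positivity
  have hab : π - τ ≤ π + τ := by linarith
  simp only [arc]
  rw [intervalIntegral.integral_of_le hpi]
  simp only [intervalIntegral.integral_of_le hab]
  rw [integral_integral_swap]
  · have : ∀ x : ℝ, ∫ θ in Ioc 0 (2 * π), η (θ + x) = ∫ x in (0:ℝ)..2 * π, η x := by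
      intro x
      rw [← intervalIntegral.integral_of_le hpi, intervalIntegral.integral_comp_add_right,
        zero_add, add_comm, h.int_period]
    simp only [this]
    rw [integral_const]
    simp [Measure.real]
    left
    rw [ENNReal.toReal_ofReal (by linarith)]
    ring
  · refine Integrable.of_bound
      ((h.meas.comp (measurable_fst.add measurable_snd)).aestronglyMeasurable) 1 ?_
    refine Filter.Eventually.of_forall fun p => ?_
    simp only [Function.uncurry]
    rw [Real.norm_eq_abs, abs_of_nonneg (h.nonneg _)]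
    exact h.le_one _

/-- the lower bound by duality -/
lemma dual {χ η : ℝ → ℝ} (hχ : Fuz χ) (hη : Fuz η) {τ : ℝ} (t : ℝ) :
    t * (∫ x in (0:ℝ)..2 * π, χ x) - ∫ θ in (0:ℝ)..2 * π, max (t - arc η τ θ) 0
      ≤ ∫ θ in (0:ℝ)..2 * π, χ θ * arc η τ θ := by
  have hpi : (0:ℝ) ≤ 2 * π := by positivity
  have hc : Continuous (arc η τ) := (arc_lip hη τ).continuous
  have i1 : IntervalIntegrable (fun θ => t * χ θ) volume 0 (2 * π) := (hχ.ii _ _).const_mul t
  have i2 : IntervalIntegrable (fun θ => max (t - arc η τ θ) 0) volume 0 (2 * π) :=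
    (by fun_prop : Continuous fun θ => max (t - arc η τ θ) 0).intervalIntegrable _ _
  have i3 : IntervalIntegrable (fun θ => χ θ * arc η τ θ) volume 0 (2 * π) :=
    (hχ.ii _ _).mul_continuousOn hc.continuousOn
  rw [← intervalIntegral.integral_const_mul, ← intervalIntegral.integral_sub i1 i2]
  apply intervalIntegral.integral_mono_on hpi (i1.sub i2) i3
  intro x _
  have h0 := hχ.nonneg x
  have h1 := hχ.le_one x
  have h2 : t - arc η τ x ≤ max (t - arc η τ x) 0 := le_max_left _ _
  have h3 : 0 ≤ max (t - arc η τ x) 0 := le_max_right _ _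
  nlinarith

lemma circle_t {χ η : ℝ → ℝ} (hχ : Fuz χ) (hη : Fuz η) {τ : ℝ} (hτ0 : 0 ≤ τ) (hτ1 : τ ≤ π)
    {e f m₀ M₀ A t : ℝ} (he : ∫ x in (0:ℝ)..2 * π, χ x = e) (hf : ∫ x in (0:ℝ)..2 * π, η x = f)
    (hA : A = |f - (2 * π - 2 * τ)|) (hm : m₀ = max 0 (f - (2 * π - 2 * τ)))
    (hM : M₀ = min f (2 * τ)) (ht1 : m₀ ≤ t) (ht2 : t ≤ M₀) :
    t * e - (A * (t - m₀) + (t - m₀) ^ 2) ≤ ∫ θ in (0:ℝ)..2 * π, χ θ * arc η τ θ := by
  have hpi : (0:ℝ) < 2 * π := by positivity
  have hf0 : 0 ≤ f := hf ▸ hη.int_nonneg hpi.le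
  have hf1 : f ≤ 2 * π := by
    have := hη.int_le hpi.le
    rw [hf] at this
    linarith
  have hb := bath (arc_lip hη τ) hpi (arc_per hη τ) (m₀ := m₀) (M₀ := M₀) (A := A)
    (hA ▸ abs_nonneg _)
    (by
      intro θ
      rw [hm]
      apply max_le (arc_nonneg hη hτ0 θ)
      have := le_arc hη hτ1 θ
      rwa [hf] at this)
    (by
      intro θ
      rw [hM]
      refine le_min ?_ (arc_le hη hτ0 θ)
      have := arc_le' hη hτ1 θ
      rwa [hf] at this)
    (by
      rw [hA, hm, hM]
      rcases le_total f (2 * τ) with h1 | h1 <;>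
      rcases le_total f (2 * π - 2 * τ) with h2 | h2
      · rw [min_eq_left h1, max_eq_left (by linarith), abs_of_nonpos (by linarith)]; linarith
      · rw [min_eq_left h1, max_eq_right (by linarith), abs_of_nonneg (by linarith)]; linarith
      · rw [min_eq_right h1, max_eq_left (by linarith), abs_of_nonpos (by linarith)]; linarith
      · rw [min_eq_right h1, max_eq_right (by linarith), abs_of_nonneg (by linarith)]; linarith)
    (by
      rw [arc_integral hη hτ0, hf, hA, hm, hM]
      rcases le_total f (2 * τ) with h1 | h1 <;>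
      rcases le_total f (2 * π - 2 * τ) with h2 | h2
      · rw [min_eq_left h1, max_eq_left (by linarith), abs_of_nonpos (by linarith)]; ring
      · rw [min_eq_left h1, max_eq_right (by linarith), abs_of_nonneg (by linarith)]; ring
      · rw [min_eq_right h1, max_eq_left (by linarith), abs_of_nonpos (by linarith)]; ring
      · rw [min_eq_right h1, max_eq_right (by linarith), abs_of_nonneg (by linarith)]; ring)
    ht1 ht2
  have hd := dual hχ hη (τ := τ) t
  rw [he] at hd
  linarith

/-- **Circle lemma.** -/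
theorem circle {χ η : ℝ → ℝ} (hχ : Fuz χ) (hη : Fuz η) {τ : ℝ} (hτ0 : 0 ≤ τ) (hτ1 : τ ≤ π)
    {e f g : ℝ} (he : ∫ x in (0:ℝ)..2 * π, χ x = e) (hf : ∫ x in (0:ℝ)..2 * π, η x = f)
    (hg : g = 2 * π - 2 * τ) :
    (max (e + f - g) 0) ^ 2 / 4 - (max (|e - f| - g) 0) ^ 2 / 4
        - (max (e + f + g - 4 * π) 0) ^ 2 / 4
      ≤ ∫ θ in (0:ℝ)..2 * π, χ θ * arc η τ θ := by
  have hpi : (0:ℝ) < 2 * π := by positivity
  have hf0 : 0 ≤ f := hf ▸ hη.int_nonneg hpi.le
  have hf1 : f ≤ 2 * π := by
    have := hη.int_le hpi.le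
    rw [hf] at this
    linarith
  have he0 : 0 ≤ e := he ▸ hχ.int_nonneg hpi.le
  have he1 : e ≤ 2 * π := by
    have := hχ.int_le hpi.le
    rw [he] at this
    linarith
  have hg0 : 0 ≤ g := by linarith
  have hτg : τ = π - g / 2 := by linarith
  -- the final drop of the nonneg terms
  have hsq1 : 0 ≤ (max (|e - f| - g) 0) ^ 2 := sq_nonneg _
  have hsq2 : 0 ≤ (max (e + f + g - 4 * π) 0) ^ 2 := sq_nonneg _
  have key := fun t h1 h2 => circle_t hχ hη hτ0 hτ1 he hf (t := t) rfl rfl rfl h1 h2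
  rw [← hg] at key
  rcases le_total f g with hfg | hfg
  · -- m₀ = 0, A = g - f
    rw [max_eq_left (by linarith : f - g ≤ 0), abs_of_nonpos (by linarith : f - g ≤ 0)] at key
    rcases le_total e (g - f) with h1 | h1
    · have hk := key 0 le_rfl (le_min hf0 (by linarith))
      rw [max_eq_right (by linarith : e + f - g ≤ 0)]
      nlinarith
    · rw [max_eq_left (by linarith : 0 ≤ e + f - g)]
      rcases le_total f (2 * τ) with h2 | h2
      · rw [min_eq_left h2] at key
        rcases le_total ((e - (g - f)) / 2) f with h3 | h3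
        · have hk := key ((e - (g - f)) / 2) (by linarith) h3
          nlinarith
        · have hk := key f hf0 le_rfl
          have h4 : e - f - g ≤ |e - f| - g := by linarith [le_abs_self (e - f)]
          have h5 : e - f - g ≤ max (|e - f| - g) 0 := h4.trans (le_max_left _ _)
          have h6 : 0 ≤ e - f - g := by linarith
          have h7 : (e - f - g)^2 ≤ (max (|e - f| - g) 0)^2 := by
            apply pow_le_pow_left₀ h6 h5
          nlinarith
      · rw [min_eq_right h2] at key
        rcases le_total ((e - (g - f)) / 2) (2 * τ) with h3 | h3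
        · have hk := key ((e - (g - f)) / 2) (by linarith) h3
          nlinarith
        · have hk := key (2 * τ) (by linarith) le_rfl
          have h5 : e + f + g - 4 * π ≤ max (e + f + g - 4 * π) 0 := le_max_left _ _
          have h6 : 0 ≤ e + f + g - 4 * π := by linarith
          have h7 : (e + f + g - 4 * π)^2 ≤ (max (e + f + g - 4 * π) 0)^2 := by
            apply pow_le_pow_left₀ h6 h5
          rw [hτg] at hk
          rw [hτg]
          nlinarith
  · rw [max_eq_right (by linarith : 0 ≤ f - g), abs_of_nonneg (by linarith : 0 ≤ f - g)] at key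
    rw [max_eq_left (by linarith : 0 ≤ e + f - g)]
    have hmin : f - g ≤ min f (2 * τ) := le_min (by linarith) (by linarith)
    rcases le_total e (f - g) with h1 | h1
    · have hk := key (f - g) le_rfl hmin
      have h4 : f - e - g ≤ |e - f| - g := by linarith [neg_abs_le (e - f)]
      have h5 : f - e - g ≤ max (|e - f| - g) 0 := h4.trans (le_max_left _ _)
      have h6 : 0 ≤ f - e - g := by linarith
      have h7 : (f - e - g)^2 ≤ (max (|e - f| - g) 0)^2 := by
        apply pow_le_pow_left₀ h6 h5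
      nlinarith
    · rcases le_total f (2 * τ) with h2 | h2
      · rw [min_eq_left h2] at key
        rcases le_total ((f - g) + (e - (f - g)) / 2) f with h3 | h3
        · have hk := key ((f - g) + (e - (f - g)) / 2) (by linarith) h3
          nlinarith
        · have hk := key f (by linarith) le_rfl
          have h4 : e - f - g ≤ |e - f| - g := by linarith [le_abs_self (e - f)]
          have h5 : e - f - g ≤ max (|e - f| - g) 0 := h4.trans (le_max_left _ _)
          have h6 : 0 ≤ e - f - g := by linarith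
          have h7 : (e - f - g)^2 ≤ (max (|e - f| - g) 0)^2 := by
            apply pow_le_pow_left₀ h6 h5
          nlinarith
      · rw [min_eq_right h2] at key
        rcases le_total ((f - g) + (e - (f - g)) / 2) (2 * τ) with h3 | h3
        · have hk := key ((f - g) + (e - (f - g)) / 2) (by linarith) h3
          nlinarith
        · have hk := key (2 * τ) (by linarith) le_rfl
          have h5 : e + f + g - 4 * π ≤ max (e + f + g - 4 * π) 0 := le_max_left _ _
          have h6 : 0 ≤ e + f + g - 4 * π := by linarith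
          have h7 : (e + f + g - 4 * π)^2 ≤ (max (e + f + g - 4 * π) 0)^2 := by
            apply pow_le_pow_left₀ h6 h5
          rw [hτg] at hk
          rw [hτg]
          nlinarith

end Pool.Agent.Run7.h126
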