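import Mathlib
import Pool.Agent.Run7.h126.Circle
import Pool.Agent.Run7.h126.Alg

set_option autoImplicit false

open MeasureTheory Set Real

namespace Pool.Agent.Run7.h126

/-- the bilinear circle form -/
noncomputable def J (s : ℝ) (χ η : ℝ → ℝ) : ℝ :=
  ∫ θ in (0:ℝ)..2 * π, χ θ * ∫ θ' in (0:ℝ)..2 * π, η θ' * exp (-(s * cos (θ - θ')))

lemma exp_mix (s y : ℝ) (hy1 : -1 ≤ y) (hy2 : y ≤ 1) :
    exp (s * y) = exp (-s) + ∫ u in (-1:ℝ)..1, s * exp (s * u) *
      (Iic y).indicator (fun _ => (1:ℝ)) u := by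
  have h1 : ∫ u in (-1:ℝ)..1, s * exp (s * u) * (Iic y).indicator (fun _ => (1:ℝ)) u
      = ∫ u in (-1:ℝ)..y, s * exp (s * u) := by
    rw [intervalIntegral.integral_of_le (by norm_num), intervalIntegral.integral_of_le hy1]
    have h2 : ∀ u, s * exp (s * u) * (Iic y).indicator (fun _ => (1:ℝ)) u =
        (Iic y).indicator (fun u => s * exp (s * u)) u := by
      intro u
      by_cases hu : u ∈ Iic y
      · rw [indicator_of_mem hu, indicator_of_mem hu, mul_one]
      · rw [indicator_of_notMem hu, indicator_of_notMem hu, mul_zero]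
    simp only [h2]
    rw [integral_indicator measurableSet_Iic, Measure.restrict_restrict measurableSet_Iic]
    congr 2
    ext u
    simp only [mem_inter_iff, mem_Iic, mem_Ioc]
    constructor
    · rintro ⟨h1, h2, h3⟩; exact ⟨h2, h1⟩
    · rintro ⟨h1, h2⟩; exact ⟨h2, h1, h2.trans hy2⟩
  rw [h1]
  have h3 : ∫ u in (-1:ℝ)..y, s * exp (s * u) = exp (s * y) - exp (s * (-1)) := by
    rw [intervalIntegral.integral_eq_sub_of_hasDerivAt (f := fun u => exp (s * u))]
    · intro x _
      have := ((hasDerivAt_id x).const_mul s).exp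
      simp only [id, mul_one] at this
      rw [mul_comm s (exp (s * x))]
      exact this
    · exact (by fun_prop : Continuous fun u : ℝ => s * exp (s * u)).intervalIntegrable _ _
  rw [h3]
  ring_nf

/-- The arc is the set where `-cos` is large. -/
lemma arc_of_cos {η : ℝ → ℝ} (hη : Fuz η) {u : ℝ} (hu1 : -1 ≤ u) (hu2 : u ≤ 1) (θ : ℝ) :
    ∫ θ' in (0:ℝ)..2 * π, η θ' * (Iic (-cos (θ - θ'))).indicator (fun _ => (1:ℝ)) u
      = arc η (arccos u) θ := by
  set τ := arccos u with hτ
  have hτ0 : 0 ≤ τ := arccos_nonneg u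
  have hτ1 : τ ≤ π := arccos_le_pi u
  have hcos : cos τ = u := cos_arccos hu1 hu2
  have hper : Function.Periodic
      (fun θ' => η θ' * (Iic (-cos (θ - θ'))).indicator (fun _ => (1:ℝ)) u) (2 * π) := by
    intro x
    show η (x + 2 * π) * _ = η x * _
    rw [hη.per x]
    have : cos (θ - (x + 2 * π)) = cos (θ - x) := by
      rw [show θ - (x + 2 * π) = (θ - x) - 2 * π by ring, cos_sub_two_pi]
    rw [this]
  have h1 := hper.intervalIntegral_add_eq 0 θ
  rw [zero_add] at h1
  rw [h1]
  have h2 : ∫ θ' in θ..θ + 2 * π, η θ' * (Iic (-cos (θ - θ'))).indicator (fun _ => (1:ℝ)) u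
      = ∫ x in (0:ℝ)..2 * π, η (θ + x) * (Iic (-cos x)).indicator (fun _ => (1:ℝ)) u := by
    have := intervalIntegral.integral_comp_add_left (a := 0) (b := 2 * π)
      (fun θ' => η θ' * (Iic (-cos (θ - θ'))).indicator (fun _ => (1:ℝ)) u) θ
    rw [add_zero] at this
    rw [← this]
    apply intervalIntegral.integral_congr
    intro x _
    show η (θ + x) * _ = η (θ + x) * _
    rw [show θ - (θ + x) = -x by ring, cos_neg]
  rw [h2, arc]
  have hpi : (0:ℝ) ≤ 2 * π := by positivity
  rw [intervalIntegral.integral_of_le hpi, intervalIntegral.integral_of_le (by linarith),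
    ← integral_Icc_eq_integral_Ioc, ← integral_Icc_eq_integral_Ioc]
  have h3 : ∀ x ∈ Icc 0 (2 * π), η (θ + x) * (Iic (-cos x)).indicator (fun _ => (1:ℝ)) u =
      (Icc (π - τ) (π + τ)).indicator (fun x => η (θ + x)) x := by
    intro x hx
    have hiff : u ∈ Iic (-cos x) ↔ x ∈ Icc (π - τ) (π + τ) := by
      rw [mem_Iic, mem_Icc, ← hcos]
      have e1 : cos τ ≤ -cos x ↔ cos x ≤ cos (π - τ) := by
        rw [cos_pi_sub]
        constructor <;> intro h <;> linarith
      rw [e1]
      rcases le_total x π with hxp | hxp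
      · rw [Real.strictAntiOn_cos.le_iff_ge ⟨hx.1, hxp⟩ ⟨by linarith, by linarith⟩]
        constructor
        · intro h; exact ⟨h, by linarith⟩
        · intro h; exact h.1
      · have e2 : cos x = cos (2 * π - x) := by rw [cos_two_pi_sub]
        rw [e2, Real.strictAntiOn_cos.le_iff_ge ⟨by linarith [hx.2], by linarith⟩
          ⟨by linarith, by linarith⟩]
        constructor
        · intro h; exact ⟨by linarith, by linarith⟩
        · intro h; linarith [h.2]
    by_cases hx2 : x ∈ Icc (π - τ) (π + τ)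
    · rw [indicator_of_mem hx2, indicator_of_mem (hiff.mpr hx2), mul_one]
    · rw [indicator_of_notMem hx2, indicator_of_notMem (fun h => hx2 (hiff.mp h)), mul_zero]
  rw [setIntegral_congr_fun measurableSet_Icc h3, setIntegral_indicator measurableSet_Icc]
  congr 2
  rw [inter_eq_right]
  intro x hx
  exact ⟨by linarith [hx.1], by linarith [hx.2]⟩

/-- joint continuity of the arc function -/
lemma arc_cont {η : ℝ → ℝ} (hη : Fuz η) : Continuous (fun p : ℝ × ℝ => arc η p.1 p.2) := by
  have hH : Continuous (fun x => ∫ y in (0:ℝ)..x, η y) :=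
    intervalIntegral.continuous_primitive (fun a b => hη.ii a b) 0
  have : (fun p : ℝ × ℝ => arc η p.1 p.2) = fun p : ℝ × ℝ =>
      (∫ y in (0:ℝ)..(p.2 + (π + p.1)), η y) - ∫ y in (0:ℝ)..(p.2 + (π - p.1)), η y := by
    ext p
    rw [arc_eq]
    have := intervalIntegral.integral_add_adjacent_intervals
      (hη.ii 0 (p.2 + (π - p.1))) (hη.ii (p.2 + (π - p.1)) (p.2 + (π + p.1)))
    linarith
  rw [this]
  exact (hH.comp (by fun_prop : Continuous fun p : ℝ × ℝ => p.2 + (π + p.1))).sub
    (hH.comp (by fun_prop : Continuous fun p : ℝ × ℝ => p.2 + (π - p.1)))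

/-- the arc form -/
noncomputable def M (χ η : ℝ → ℝ) (τ : ℝ) : ℝ := ∫ θ in (0:ℝ)..2 * π, χ θ * arc η τ θ

lemma inner_eq {η : ℝ → ℝ} (hη : Fuz η) (s θ : ℝ) :
    ∫ θ' in (0:ℝ)..2 * π, η θ' * exp (-(s * cos (θ - θ')))
      = exp (-s) * (∫ x in (0:ℝ)..2 * π, η x)
        + ∫ u in (-1:ℝ)..1, s * exp (s * u) * arc η (arccos u) θ := by
  have hpi : (0:ℝ) ≤ 2 * π := by positivity
  have h1 : ∀ θ', η θ' * exp (-(s * cos (θ - θ'))) = exp (-s) * η θ' +
      ∫ u in (-1:ℝ)..1, s * exp (s * u) *
        (η θ' * (Iic (-cos (θ - θ'))).indicator (fun _ => (1:ℝ)) u) := by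
    intro θ'
    have := exp_mix s (-cos (θ - θ')) (by linarith [cos_le_one (θ - θ')])
      (by linarith [neg_one_le_cos (θ - θ')])
    rw [show -(s * cos (θ - θ')) = s * (-cos (θ - θ')) by ring, this, mul_add]
    congr 1
    · ring
    · rw [← intervalIntegral.integral_const_mul]
      apply intervalIntegral.integral_congr
      intro u _
      show η θ' * (s * exp (s * u) * _) = s * exp (s * u) * (η θ' * _)
      ring
  simp only [h1]
  have hmeas : Measurable (Function.uncurry fun (θ' u : ℝ) => s * exp (s * u) *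
        (η θ' * (Iic (-cos (θ - θ'))).indicator (fun _ => (1:ℝ)) u)) := by
    have e : (Function.uncurry fun (θ' u : ℝ) => s * exp (s * u) *
        (η θ' * (Iic (-cos (θ - θ'))).indicator (fun _ => (1:ℝ)) u)) =
        fun p : ℝ × ℝ => s * exp (s * p.2) *
        (η p.1 * ({p : ℝ × ℝ | p.2 ≤ -cos (θ - p.1)}).indicator (fun _ => (1:ℝ)) p) := by
      ext p
      simp [Function.uncurry, indicator]
    rw [e]
    apply Measurable.mul (by fun_prop)
    apply Measurable.mul (hη.meas.comp measurable_fst)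
    apply measurable_const.indicator
    exact measurableSet_le measurable_snd (by fun_prop)
  have hint : Integrable (Function.uncurry fun (θ' u : ℝ) => s * exp (s * u) *
        (η θ' * (Iic (-cos (θ - θ'))).indicator (fun _ => (1:ℝ)) u))
      ((volume.restrict (Ioc 0 (2 * π))).prod (volume.restrict (Ioc (-1) 1))) := by
    rw [Measure.prod_restrict]
    refine IntegrableOn.of_bound ?_ hmeas.aestronglyMeasurable (|s| * exp |s|) ?_
    · rw [Measure.prod_prod, Real.volume_Ioc, Real.volume_Ioc]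
      exact ENNReal.mul_lt_top ENNReal.ofReal_lt_top ENNReal.ofReal_lt_top
    · rw [ae_restrict_iff' (measurableSet_Ioc.prod measurableSet_Ioc)]
      refine Filter.Eventually.of_forall fun p hp => ?_
      simp only [Function.uncurry]
      rw [norm_mul, norm_mul, norm_mul]
      have a1 : ‖exp (s * p.2)‖ ≤ exp |s| := by
        rw [Real.norm_eq_abs, abs_of_pos (exp_pos _)]
        apply exp_le_exp.mpr
        have h2 : |p.2| ≤ 1 := abs_le.mpr ⟨hp.2.1.le, hp.2.2⟩
        calc s * p.2 ≤ |s * p.2| := le_abs_self _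
          _ = |s| * |p.2| := abs_mul _ _
          _ ≤ |s| * 1 := by gcongr
          _ = |s| := mul_one _
      have a2 : ‖η p.1‖ ≤ 1 := by
        rw [Real.norm_eq_abs, abs_of_nonneg (hη.nonneg _)]; exact hη.le_one _
      have a3 : ‖(Iic (-cos (θ - p.1))).indicator (fun _ => (1:ℝ)) p.2‖ ≤ 1 := by
        simp only [indicator]; split_ifs <;> simp
      have a4 : ‖s‖ = |s| := rfl
      rw [a4]
      calc |s| * ‖exp (s * p.2)‖ * (‖η p.1‖ * _) ≤ |s| * exp |s| * (1 * 1) := by gcongr
        _ = _ := by ring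
  rw [intervalIntegral.integral_add ((hη.ii _ _).const_mul _), intervalIntegral.integral_const_mul]
  · congr 1
    rw [intervalIntegral.integral_of_le hpi]
    simp only [intervalIntegral.integral_of_le (by norm_num : (-1:ℝ) ≤ 1)]
    rw [integral_integral_swap hint]
    apply setIntegral_congr_fun measurableSet_Ioc
    intro u hu
    show ∫ θ' in Ioc 0 (2 * π), _ = _
    rw [integral_const_mul, ← intervalIntegral.integral_of_le hpi,
      arc_of_cos hη hu.1.le hu.2]
  · rw [intervalIntegrable_iff, uIoc_of_le hpi]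
    have := hint.integral_prod_left
    simp only [Function.uncurry] at this
    simp only [intervalIntegral.integral_of_le (by norm_num : (-1:ℝ) ≤ 1)]
    exact this

lemma M_nonneg {χ η : ℝ → ℝ} (hχ : Fuz χ) (hη : Fuz η) {τ : ℝ} (hτ : 0 ≤ τ) : 0 ≤ M χ η τ := by
  apply intervalIntegral.integral_nonneg (by positivity)
  intro θ _
  exact mul_nonneg (hχ.nonneg _) (arc_nonneg hη hτ _)

lemma MJ_int {χ η : ℝ → ℝ} (hχ : Fuz χ) (hη : Fuz η) (s : ℝ) :
    Integrable (Function.uncurry fun (θ u : ℝ) => χ θ * (s * exp (s * u) * arc η (arccos u) θ))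
      ((volume.restrict (Ioc 0 (2 * π))).prod (volume.restrict (Ioc (-1) 1))) := by
  have hmeas : Measurable (Function.uncurry fun (θ u : ℝ) =>
      χ θ * (s * exp (s * u) * arc η (arccos u) θ)) := by
    have e : (Function.uncurry fun (θ u : ℝ) => χ θ * (s * exp (s * u) * arc η (arccos u) θ)) =
        fun p : ℝ × ℝ => χ p.1 * (s * exp (s * p.2) * (fun q : ℝ × ℝ => arc η q.1 q.2)
          (arccos p.2, p.1)) := rfl
    rw [e]
    apply Measurable.mul (hχ.meas.comp measurable_fst)
    apply Measurable.mul (by fun_prop)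
    apply (arc_cont hη).measurable.comp
    exact (Real.measurable_arccos.comp measurable_snd).prodMk measurable_fst
  rw [Measure.prod_restrict]
  refine IntegrableOn.of_bound ?_ hmeas.aestronglyMeasurable (|s| * exp |s| * (2 * π)) ?_
  · rw [Measure.prod_prod, Real.volume_Ioc, Real.volume_Ioc]
    exact ENNReal.mul_lt_top ENNReal.ofReal_lt_top ENNReal.ofReal_lt_top
  · rw [ae_restrict_iff' (measurableSet_Ioc.prod measurableSet_Ioc)]
    refine Filter.Eventually.of_forall fun p hp => ?_
    simp only [Function.uncurry]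
    rw [norm_mul, norm_mul, norm_mul]
    have a1 : ‖exp (s * p.2)‖ ≤ exp |s| := by
      rw [Real.norm_eq_abs, abs_of_pos (exp_pos _)]
      apply exp_le_exp.mpr
      have h2 : |p.2| ≤ 1 := abs_le.mpr ⟨hp.2.1.le, hp.2.2⟩
      calc s * p.2 ≤ |s * p.2| := le_abs_self _
        _ = |s| * |p.2| := abs_mul _ _
        _ ≤ |s| * 1 := by gcongr
        _ = |s| := mul_one _
    have a2 : ‖χ p.1‖ ≤ 1 := by
      rw [Real.norm_eq_abs, abs_of_nonneg (hχ.nonneg _)]; exact hχ.le_one _
    have a3 : ‖arc η (arccos p.2) p.1‖ ≤ 2 * π := by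
      rw [Real.norm_eq_abs, abs_of_nonneg (arc_nonneg hη (arccos_nonneg _) _)]
      refine (arc_le hη (arccos_nonneg _) _).trans ?_
      linarith [arccos_le_pi p.2]
    have a4 : ‖s‖ = |s| := rfl
    rw [a4]
    calc ‖χ p.1‖ * (|s| * ‖exp (s * p.2)‖ * _) ≤ 1 * (|s| * exp |s| * (2 * π)) := by gcongr
      _ = _ := by ring

/-- mixture identity for the circle form -/
theorem J_eq {χ η : ℝ → ℝ} (hχ : Fuz χ) (hη : Fuz η) (s : ℝ) :
    J s χ η = exp (-s) * ((∫ x in (0:ℝ)..2 * π, χ x) * (∫ x in (0:ℝ)..2 * π, η x))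
      + ∫ u in (-1:ℝ)..1, s * exp (s * u) * M χ η (arccos u) := by
  have hpi : (0:ℝ) ≤ 2 * π := by positivity
  unfold J
  simp only [inner_eq hη s]
  have e : ∀ θ, χ θ * (exp (-s) * (∫ x in (0:ℝ)..2 * π, η x) +
      ∫ u in (-1:ℝ)..1, s * exp (s * u) * arc η (arccos u) θ) =
      (exp (-s) * (∫ x in (0:ℝ)..2 * π, η x)) * χ θ +
      ∫ u in (-1:ℝ)..1, χ θ * (s * exp (s * u) * arc η (arccos u) θ) := by
    intro θ
    rw [intervalIntegral.integral_const_mul]
    ring
  simp only [e]
  have hint := MJ_int hχ hη s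
  rw [intervalIntegral.integral_add ((hχ.ii _ _).const_mul _), intervalIntegral.integral_const_mul]
  · congr 1
    · ring
    · rw [intervalIntegral.integral_of_le hpi]
      simp only [intervalIntegral.integral_of_le (by norm_num : (-1:ℝ) ≤ 1)]
      rw [integral_integral_swap hint]
      apply setIntegral_congr_fun measurableSet_Ioc
      intro u hu
      show ∫ θ in Ioc 0 (2 * π), _ =
        s * exp (s * u) * (∫ θ in (0:ℝ)..2 * π, χ θ * arc η (arccos u) θ)
      rw [intervalIntegral.integral_of_le hpi, ← integral_const_mul]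
      congr 1
      ext θ
      ring
  · rw [intervalIntegrable_iff, uIoc_of_le hpi]
    have := hint.integral_prod_left
    simp only [Function.uncurry] at this
    simp only [intervalIntegral.integral_of_le (by norm_num : (-1:ℝ) ≤ 1)]
    exact this

lemma M_ii {χ η : ℝ → ℝ} (hχ : Fuz χ) (hη : Fuz η) (s : ℝ) :
    IntervalIntegrable (fun u => s * exp (s * u) * M χ η (arccos u)) volume (-1) 1 := by
  have hpi : (0:ℝ) ≤ 2 * π := by positivity
  have hint := MJ_int hχ hη s
  rw [intervalIntegrable_iff, uIoc_of_le (by norm_num)]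
  have := hint.integral_prod_right
  simp only [Function.uncurry] at this
  refine this.congr ?_
  refine Filter.Eventually.of_forall fun u => ?_
  show ∫ θ in Ioc 0 (2 * π), _ =
    s * exp (s * u) * (∫ θ in (0:ℝ)..2 * π, χ θ * arc η (arccos u) θ)
  rw [intervalIntegral.integral_of_le hpi, ← integral_const_mul]
  congr 1
  ext θ
  ring

end Pool.Agent.Run7.h126
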