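import Mathlib
import Pool.Agent.Run7.h126.Lower

set_option autoImplicit false

open MeasureTheory Set Real

namespace Pool.Agent.Run7.h126

/-- `(arccos u / π)^2 ≤ (1 - u)/2` -/
lemma arccos_sq_le {u : ℝ} (h1 : -1 ≤ u) (h2 : u ≤ 1) : (arccos u / π) ^ 2 ≤ (1 - u) / 2 := by
  have hpi : (0:ℝ) < π := pi_pos
  set τ := arccos u with hτ
  have hτ0 : 0 ≤ τ := arccos_nonneg u
  have hτ1 : τ ≤ π := arccos_le_pi u
  have hcos : cos τ = u := cos_arccos h1 h2
  have h3 : 2 / π * (τ / 2) ≤ sin (τ / 2) := mul_le_sin (by positivity) (by linarith)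
  have h4 : sin (τ / 2) ^ 2 = (1 - u) / 2 := by
    rw [← hcos]
    have := cos_sq (τ / 2)
    have h5 := sin_sq_add_cos_sq (τ / 2)
    rw [show 2 * (τ / 2) = τ by ring] at this
    linarith
  rw [← h4]
  apply pow_le_pow_left₀ (by positivity)
  refine le_trans (le_of_eq ?_) h3
  ring

lemma sin_chord {x : ℝ} (h0 : 0 ≤ x) (h1 : x ≤ π / 3) : 3 * √3 / (2 * π) * x ≤ sin x := by
  have hpi : (0:ℝ) < π := pi_pos
  have hc : ConcaveOn ℝ (Icc 0 π) sin := strictConcaveOn_sin_Icc.concaveOn
  have m0 : (0:ℝ) ∈ Icc 0 π := ⟨le_rfl, hpi.le⟩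
  have m1 : π / 3 ∈ Icc 0 π := ⟨by positivity, by linarith⟩
  have h2 := hc.2 m0 m1
    (show 0 ≤ 1 - 3 * x / π by rw [sub_nonneg, div_le_one hpi]; linarith)
    (show 0 ≤ 3 * x / π by positivity) (by ring)
  simp only [smul_eq_mul, sin_zero, mul_zero, zero_add, sin_pi_div_three] at h2
  have e : 3 * x / π * (π / 3) = x := by field_simp
  rw [e] at h2
  refine le_trans (le_of_eq ?_) h2
  field_simp

/-- `5/9 - 4u/9 ≤ 1 - (3/2)(1 - arccos u/π)^2` for `u ≤ 1/2` -/
lemma arccos_sq_le' {u : ℝ} (h1 : -1 ≤ u) (h2 : u ≤ 1/2) :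
    5/9 - 4/9 * u ≤ 1 - 3/2 * (1 - arccos u / π) ^ 2 := by
  have hpi : (0:ℝ) < π := pi_pos
  set τ := arccos u with hτ
  have hτ0 : π / 3 ≤ τ := by rw [← arccos_half]; exact antitone_arccos h2
  have hτ1 : τ ≤ π := arccos_le_pi u
  have hcos : cos τ = u := cos_arccos h1 (by linarith)
  have h3 := sin_chord (x := (π - τ) / 2) (by linarith) (by linarith)
  have h4 : sin ((π - τ) / 2) ^ 2 = (1 + u) / 2 := by
    have := cos_sq ((π - τ) / 2)
    have h5 := sin_sq_add_cos_sq ((π - τ) / 2)
    rw [show 2 * ((π - τ) / 2) = π - τ by ring, cos_pi_sub, hcos] at this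
    linarith
  have h5 := pow_le_pow_left₀ (by apply mul_nonneg; positivity; linarith) h3 2
  rw [h4] at h5
  have h6 : (3 * √3 / (2 * π) * ((π - τ) / 2)) ^ 2 = 27/16 * (1 - τ / π) ^ 2 := by
    have h7 : √3 ^ 2 = 3 := Real.sq_sqrt (by norm_num)
    have e : (3 * √3 / (2 * π) * ((π - τ) / 2)) ^ 2 = √3 ^ 2 * (9/16 * ((π - τ) / π) ^ 2) := by
      field_simp
      ring
    rw [e, h7]
    have : (π - τ) / π = 1 - τ / π := by field_simp
    rw [this]
    ring
  rw [h6] at h5
  linarith

lemma int_lin (s p q : ℝ) (hs : s ≠ 0) : ∫ u in (-1:ℝ)..(1/2), s * exp (s * u) * (p - q * u)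
    = exp (s / 2) * (p - q / 2 + q / s) - exp (-s) * (p + q + q / s) := by
  rw [intervalIntegral.integral_eq_sub_of_hasDerivAt
    (f := fun u => exp (s * u) * (p - q * u + q / s))]
  · have e1 : s * (1/2) = s / 2 := by ring
    have e2 : s * (-1) = -s := by ring
    rw [e1, e2]
    ring
  · intro x _
    have h1 : HasDerivAt (fun u : ℝ => exp (s * u)) (exp (s * x) * (s * 1)) x :=
      ((hasDerivAt_id x).const_mul s).exp
    have h2 : HasDerivAt (fun u : ℝ => p - q * u + q / s) (-(q * 1)) x :=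
      (((hasDerivAt_id x).const_mul q).const_sub p).add_const _
    have h3 := h1.mul h2
    have e : s * exp (s * x) * (p - q * x) =
        exp (s * x) * (s * 1) * (p - q * x + q / s) + exp (s * x) * (-(q * 1)) := by
      field_simp
      ring
    rw [e]
    exact h3
  · apply Continuous.intervalIntegrable; fun_prop

/-- the positive definite interpolant -/
noncomputable def hh (s : ℝ) : ℝ := (1 + exp (s / 2) + exp (-(s / 2))) / 3

/-- upper log bound -/
lemma logU {y : ℝ} (hy : 1 ≤ y) : 3 * log y * (y ^ 2 + y) ≤ 2 * (y ^ 3 - 1) := by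
  have key : ∀ y ∈ Ici (1:ℝ), 0 ≤ 2 * (y ^ 3 - 1) / (3 * (y ^ 2 + y)) - log y := by
    have hmono : MonotoneOn (fun y : ℝ => 2 * (y ^ 3 - 1) / (3 * (y ^ 2 + y)) - log y) (Ici 1) := by
      apply monotoneOn_of_deriv_nonneg (convex_Ici 1)
      · apply ContinuousOn.sub
        · apply ContinuousOn.div (by fun_prop) (by fun_prop)
          intro x hx
          have : (1:ℝ) ≤ x := hx
          positivity
        · apply continuousOn_log.mono
          intro x hx
          have : (1:ℝ) ≤ x := hx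
          simp only [mem_compl_iff, mem_singleton_iff]
          linarith
      · rw [interior_Ici]
        intro x hx
        have hx1 : (1:ℝ) < x := hx
        apply DifferentiableAt.differentiableWithinAt
        apply DifferentiableAt.sub
        · apply DifferentiableAt.div (by fun_prop) (by fun_prop)
          positivity
        · exact differentiableAt_log (by linarith)
      · rw [interior_Ici]
        intro x hx
        have hx1 : (1:ℝ) < x := hx
        have hx0 : 0 < x := by linarith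
        have hd1 : HasDerivAt (fun y : ℝ => 2 * (y ^ 3 - 1)) (2 * (3 * x ^ 2)) x := by
          have := ((hasDerivAt_pow 3 x).sub_const 1).const_mul 2
          simpa using this
        have hd2 : HasDerivAt (fun y : ℝ => 3 * (y ^ 2 + y)) (3 * (2 * x + 1)) x := by
          have := ((hasDerivAt_pow 2 x).add (hasDerivAt_id x)).const_mul 3
          simpa using this
        have hne : 3 * (x ^ 2 + x) ≠ 0 := by positivity
        have hd3 := (hd1.div hd2 hne).sub (hasDerivAt_log hx0.ne')
        have hd : deriv (fun y : ℝ => 2 * (y ^ 3 - 1) / (3 * (y ^ 2 + y)) - log y) x = _ :=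
          hd3.deriv
        rw [hd]
        have e : (2 * (3 * x ^ 2) * (3 * (x ^ 2 + x)) - 2 * (x ^ 3 - 1) * (3 * (2 * x + 1)))
            / (3 * (x ^ 2 + x)) ^ 2 - x⁻¹
            = (x - 1) ^ 2 * (2 * x ^ 2 + 5 * x + 2) / (3 * (x ^ 2 + x) ^ 2) := by
          field_simp
          ring
        rw [e]
        positivity
    intro y hy
    have := hmono (self_mem_Ici) hy hy
    simpa using this
  have h := key y hy
  have hpos : 0 < 3 * (y ^ 2 + y) := by
    have : 0 < y := by linarith
    positivity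
  rw [sub_nonneg, le_div_iff₀ hpos] at h
  linarith

/-- lower log bound -/
lemma logL {y : ℝ} (hy : 1 ≤ y) : 3 * (y ^ 3 - 1) ≤ log y * (y * (y + 2) ^ 2) := by
  have key : ∀ y ∈ Ici (1:ℝ), 0 ≤ log y - 3 * (y ^ 3 - 1) / (y * (y + 2) ^ 2) := by
    have hmono : MonotoneOn (fun y : ℝ => log y - 3 * (y ^ 3 - 1) / (y * (y + 2) ^ 2)) (Ici 1) := by
      apply monotoneOn_of_deriv_nonneg (convex_Ici 1)
      · apply ContinuousOn.sub
        · apply continuousOn_log.mono
          intro x hx
          have : (1:ℝ) ≤ x := hx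
          simp only [mem_compl_iff, mem_singleton_iff]
          linarith
        · apply ContinuousOn.div (by fun_prop) (by fun_prop)
          intro x hx
          have : (1:ℝ) ≤ x := hx
          positivity
      · rw [interior_Ici]
        intro x hx
        have hx1 : (1:ℝ) < x := hx
        apply DifferentiableAt.differentiableWithinAt
        apply DifferentiableAt.sub
        · exact differentiableAt_log (by linarith)
        · apply DifferentiableAt.div (by fun_prop) (by fun_prop)
          positivity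
      · rw [interior_Ici]
        intro x hx
        have hx1 : (1:ℝ) < x := hx
        have hx0 : 0 < x := by linarith
        have hd1 : HasDerivAt (fun y : ℝ => 3 * (y ^ 3 - 1)) (3 * (3 * x ^ 2)) x := by
          have := ((hasDerivAt_pow 3 x).sub_const 1).const_mul 3
          simpa using this
        have hd2 : HasDerivAt (fun y : ℝ => y * (y + 2) ^ 2)
            ((x + 2) ^ 2 + x * (2 * (x + 2))) x := by
          have h1 : HasDerivAt (fun y : ℝ => y + 2) 1 x := (hasDerivAt_id x).add_const 2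
          have h2 : HasDerivAt (fun y : ℝ => (y + 2) ^ 2) (((2:ℕ):ℝ) * (x + 2) ^ (2 - 1) * 1) x :=
            h1.pow 2
          have h3 : HasDerivAt (fun y : ℝ => y * (y + 2) ^ 2)
            (1 * (x + 2) ^ 2 + x * (((2:ℕ):ℝ) * (x + 2) ^ (2 - 1) * 1)) x :=
            (hasDerivAt_id x).mul h2
          have e : (x + 2) ^ 2 + x * (2 * (x + 2)) =
            1 * (x + 2) ^ 2 + x * (((2:ℕ):ℝ) * (x + 2) ^ (2 - 1) * 1) := by norm_num
          rw [e]
          exact h3
        have hne : x * (x + 2) ^ 2 ≠ 0 := by positivity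
        have hd3 := (hasDerivAt_log hx0.ne').sub (hd1.div hd2 hne)
        have hd : deriv (fun y : ℝ => log y - 3 * (y ^ 3 - 1) / (y * (y + 2) ^ 2)) x = _ :=
          hd3.deriv
        rw [hd]
        have e : x⁻¹ - (3 * (3 * x ^ 2) * (x * (x + 2) ^ 2) -
            3 * (x ^ 3 - 1) * ((x + 2) ^ 2 + x * (2 * (x + 2)))) / (x * (x + 2) ^ 2) ^ 2
            = (x - 1) * (x ^ 3 - 5 * x ^ 2 + 7 * x + 6) / (x ^ 2 * (x + 2) ^ 3) := by
          field_simp
          ring
        rw [e]
        apply div_nonneg _ (by positivity)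
        apply mul_nonneg (by linarith)
        nlinarith [sq_nonneg (x - 2), sq_nonneg (x - 3), mul_nonneg hx0.le (sq_nonneg (x - 5/2))]
    intro y hy
    have := hmono (self_mem_Ici) hy hy
    simpa using this
  have h := key y hy
  have hpos : 0 < y * (y + 2) ^ 2 := by
    have : 0 < y := by linarith
    positivity
  rw [sub_nonneg, div_le_iff₀ hpos] at h
  exact h

lemma al_ge {s : ℝ} (hs : 0 ≤ s) : hh s ≤ al s := by
  rcases hs.eq_or_lt with rfl | hs
  · unfold hh al
    simp
    norm_num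
  have h1 : exp (-s) + ∫ u in (-1:ℝ)..(1/2), s * exp (s * u) * (5/9 - 4/9 * u) ≤ al s := by
    unfold al
    gcongr
    apply intervalIntegral.integral_mono_on (by norm_num)
    · apply Continuous.intervalIntegrable; fun_prop
    · have hac : Continuous arccos := continuous_arccos
      apply Continuous.intervalIntegrable; fun_prop
    · intro u hu
      exact mul_le_mul_of_nonneg_left (arccos_sq_le' hu.1 hu.2) (mul_nonneg hs.le (exp_pos _).le)
  refine le_trans ?_ h1
  rw [int_lin s _ _ hs.ne']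
  unfold hh
  have hy : 1 ≤ exp (s / 2) := by
    rw [← exp_zero]; exact exp_le_exp.mpr (by positivity)
  have hU := logU hy
  rw [log_exp] at hU
  have e1 : exp (-s) = (exp (s / 2) ^ 2)⁻¹ := by
    rw [← exp_nat_mul, ← exp_neg]
    congr 1
    push_cast
    ring
  have e2 : exp (-(s / 2)) = (exp (s / 2))⁻¹ := exp_neg _
  rw [e1, e2]
  set y := exp (s / 2) with hy'
  have hy0 : 0 < y := exp_pos _
  have key : (y ^ 2)⁻¹ + (y * (5/9 - 4/9 / 2 + 4/9 / s) - (y ^ 2)⁻¹ * (5/9 + 4/9 + 4/9 / s))
      - (1 + y + y⁻¹) / 3 = (2 * (y ^ 3 - 1) - 3 * (s / 2) * (y ^ 2 + y)) * (2 / (9 * s * y ^ 2)) := by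
    field_simp
    ring
  have : 0 ≤ (2 * (y ^ 3 - 1) - 3 * (s / 2) * (y ^ 2 + y)) * (2 / (9 * s * y ^ 2)) :=
    mul_nonneg (by linarith) (by positivity)
  linarith

lemma de_le {s : ℝ} (hs : 0 ≤ s) : de s ≤ hh s := by
  rcases hs.eq_or_lt with rfl | hs
  · unfold hh de
    simp
    norm_num
  have h1 : de s ≤ exp (-s) + ∫ u in (-1:ℝ)..(1/2), s * exp (s * u) * (1/2 - 1/2 * u) := by
    unfold de
    gcongr
    apply intervalIntegral.integral_mono_on (by norm_num)
    · have hac : Continuous arccos := continuous_arccos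
      apply Continuous.intervalIntegrable; fun_prop
    · apply Continuous.intervalIntegrable; fun_prop
    · intro u hu
      have := arccos_sq_le hu.1 (by linarith [hu.2])
      exact mul_le_mul_of_nonneg_left (by linarith) (mul_nonneg hs.le (exp_pos _).le)
  refine le_trans h1 ?_
  rw [int_lin s _ _ hs.ne']
  unfold hh
  have hy : 1 ≤ exp (s / 2) := by
    rw [← exp_zero]; exact exp_le_exp.mpr (by positivity)
  have hL := logL hy
  rw [log_exp] at hL
  have e1 : exp (-s) = (exp (s / 2) ^ 2)⁻¹ := by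
    rw [← exp_nat_mul, ← exp_neg]
    congr 1
    push_cast
    ring
  have e2 : exp (-(s / 2)) = (exp (s / 2))⁻¹ := exp_neg _
  rw [e1, e2]
  set y := exp (s / 2) with hy'
  have hy0 : 0 < y := exp_pos _
  have key : (1 + y + y⁻¹) / 3 - ((y ^ 2)⁻¹ + (y * (1/2 - 1/2 / 2 + 1/2 / s)
      - (y ^ 2)⁻¹ * (1/2 + 1/2 + 1/2 / s)))
      = ((s / 2) * (y * (y + 2) ^ 2) - 3 * (y ^ 3 - 1)) * (1 / (6 * s * y ^ 2)) := by
    field_simp
    ring
  have : 0 ≤ ((s / 2) * (y * (y + 2) ^ 2) - 3 * (y ^ 3 - 1)) * (1 / (6 * s * y ^ 2)) :=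
    mul_nonneg (by linarith) (by positivity)
  linarith

end Pool.Agent.Run7.h126
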