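import Mathlib
import Pool.Agent.Run7.h126.Sand

set_option autoImplicit false

open MeasureTheory Set Real

namespace Pool.Agent.Run7.h126

/-- pointwise bound with the positive definite coefficient -/
theorem J_lower_hh {χ η : Fin 3 → ℝ → ℝ} (hχ : ∀ i, Fuz (χ i)) (hη : ∀ i, Fuz (η i))
    {b b' : Fin 3 → ℝ} (he : ∀ i, ∫ x in (0:ℝ)..2 * π, χ i x = 2 * π * b i)
    (hf : ∀ i, ∫ x in (0:ℝ)..2 * π, η i x = 2 * π * b' i)
    (hs : ∑ i, b i = 1) (hs' : ∑ i, b' i = 1) {s : ℝ} (hs0 : 0 ≤ s) :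
    Phi3 s + 4 * π ^ 2 * hh s * (∑ i, (b i - 1/3) * (b' i - 1/3)) ≤ ∑ i, J s (χ i) (η i) := by
  refine le_trans ?_ (J_lower hχ hη he hf hs hs' hs0)
  have h1 := al_ge hs0
  have h2 := de_le hs0
  set SS := ∑ i, ((b i - 1/3) + (b' i - 1/3)) ^ 2 with hSS
  set VV := ∑ i, ((b i - 1/3) - (b' i - 1/3)) ^ 2 with hVV
  have h3 : 0 ≤ SS := Finset.sum_nonneg fun i _ => sq_nonneg _
  have h4 : 0 ≤ VV := Finset.sum_nonneg fun i _ => sq_nonneg _
  have h5 : 4 * ∑ i, (b i - 1/3) * (b' i - 1/3) = SS - VV := by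
    rw [hSS, hVV, ← Finset.sum_sub_distrib, Finset.mul_sum]
    apply Finset.sum_congr rfl
    intro i _
    ring
  have h6 : 4 * π ^ 2 * hh s * (∑ i, (b i - 1/3) * (b' i - 1/3)) = π ^ 2 * (hh s * SS - hh s * VV) := by
    linear_combination (π ^ 2 * hh s) * h5
  rw [h6]
  have h7 : hh s * SS ≤ al s * SS := mul_le_mul_of_nonneg_right h1 h3
  have h8 : de s * VV ≤ hh s * VV := mul_le_mul_of_nonneg_right h2 h4
  have h9 : 0 ≤ π ^ 2 := sq_nonneg _
  have h10 : hh s * SS - hh s * VV ≤ al s * SS - de s * VV := by linarith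
  have := mul_le_mul_of_nonneg_left h10 h9
  linarith

/-- the arc cell -/
noncomputable def cell (φ θ : ℝ) : ℝ := if 1/2 ≤ cos (θ - φ) then 1 else 0

lemma cell_fuz (φ : ℝ) : Fuz (cell φ) where
  meas := by
    unfold cell
    apply Measurable.ite _ measurable_const measurable_const
    exact measurableSet_le measurable_const (by fun_prop)
  nonneg := by intro x; unfold cell; split_ifs <;> norm_num
  le_one := by intro x; unfold cell; split_ifs <;> norm_num
  per := by
    intro x
    unfold cell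
    rw [show x + 2 * π - φ = (x - φ) + 2 * π by ring, cos_add_two_pi]

/-- on `[-π, π]` the cell is the interval of radius `π/3` -/
lemma cos_ge_half {x : ℝ} (h1 : -π ≤ x) (h2 : x ≤ π) : 1/2 ≤ cos x ↔ |x| ≤ π / 3 := by
  have hpi : (0:ℝ) < π := pi_pos
  rw [← cos_pi_div_three, ← cos_abs x]
  have h3 : |x| ∈ Icc 0 π := ⟨abs_nonneg x, abs_le.mpr ⟨h1, h2⟩⟩
  exact strictAntiOn_cos.le_iff_ge ⟨by positivity, by linarith⟩ h3

lemma shift_int {f : ℝ → ℝ} (hf : Function.Periodic f (2 * π)) (φ : ℝ) :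
    ∫ θ in (0:ℝ)..2 * π, f θ = ∫ x in (-π)..π, f (φ + x) := by
  have h1 := hf.intervalIntegral_add_eq 0 (φ + -π)
  rw [zero_add] at h1
  rw [h1, intervalIntegral.integral_comp_add_left]
  congr 1
  ring

/-- integrals against the cell -/
lemma cell_int (φ : ℝ) {g : ℝ → ℝ} (hg : Function.Periodic g (2 * π)) :
    ∫ θ in (0:ℝ)..2 * π, cell φ θ * g θ = ∫ x in (-(π/3))..(π/3), g (φ + x) := by
  have hpi : (0:ℝ) < π := pi_pos
  have hper : Function.Periodic (fun θ => cell φ θ * g θ) (2 * π) := by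
    intro x
    show cell φ (x + 2 * π) * g (x + 2 * π) = cell φ x * g x
    rw [(cell_fuz φ).per x, hg x]
  rw [shift_int hper φ, intervalIntegral.integral_of_le (by linarith),
    intervalIntegral.integral_of_le (by linarith), ← integral_Icc_eq_integral_Ioc,
    ← integral_Icc_eq_integral_Ioc]
  have h3 : ∀ x ∈ Icc (-π) π, cell φ (φ + x) * g (φ + x) =
      (Icc (-(π/3)) (π/3)).indicator (fun x => g (φ + x)) x := by
    intro x hx
    unfold cell
    rw [show φ + x - φ = x by ring]
    by_cases hx2 : x ∈ Icc (-(π/3)) (π/3)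
    · rw [indicator_of_mem hx2, if_pos ((cos_ge_half hx.1 hx.2).mpr (abs_le.mpr hx2)), one_mul]
    · rw [indicator_of_notMem hx2, if_neg (fun h => hx2 (abs_le.mp ((cos_ge_half hx.1 hx.2).mp h))),
        zero_mul]
  rw [setIntegral_congr_fun measurableSet_Icc h3, setIntegral_indicator measurableSet_Icc]
  congr 2
  rw [inter_eq_right]
  intro x hx
  exact ⟨by linarith [hx.1], by linarith [hx.2]⟩

lemma cell_total (φ : ℝ) : ∫ θ in (0:ℝ)..2 * π, cell φ θ = 2 * π / 3 := by
  have := cell_int φ (g := fun _ => 1) (by intro x; rfl)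
  simp only [mul_one] at this
  rw [this]
  simp
  ring

lemma int_Iic {a b c : ℝ} (hab : a ≤ b) (hc : c ≤ b) :
    ∫ y in a..b, (Iic c).indicator (fun _ => (1:ℝ)) y = max (c - a) 0 := by
  rw [intervalIntegral.integral_of_le hab, integral_indicator measurableSet_Iic,
    Measure.restrict_restrict measurableSet_Iic]
  have : Iic c ∩ Ioc a b = Ioc a c := by
    ext y
    simp only [mem_inter_iff, mem_Iic, mem_Ioc]
    constructor
    · rintro ⟨h1, h2, h3⟩; exact ⟨h2, h1⟩
    · rintro ⟨h1, h2⟩; exact ⟨h2, h1, h2.trans hc⟩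
  rw [this]
  simp [Measure.real, ENNReal.toReal_ofReal']

lemma int_Ici {a b c : ℝ} (hab : a ≤ b) (hc : a ≤ c) :
    ∫ y in a..b, (Ici c).indicator (fun _ => (1:ℝ)) y = max (b - c) 0 := by
  rw [intervalIntegral.integral_of_le hab, ← integral_Icc_eq_integral_Ioc,
    integral_indicator measurableSet_Ici, Measure.restrict_restrict measurableSet_Ici]
  have : Ici c ∩ Icc a b = Icc c b := by
    ext y
    simp only [mem_inter_iff, mem_Ici, mem_Icc]
    constructor
    · rintro ⟨h1, h2, h3⟩; exact ⟨h1, h3⟩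
    · rintro ⟨h1, h2⟩; exact ⟨h1, hc.trans h1, h2⟩
  rw [this]
  simp [Measure.real, ENNReal.toReal_ofReal']

/-- arc averages of the cell on itself -/
lemma arc_cell_le (φ : ℝ) {τ x : ℝ} (hτ0 : 0 ≤ τ) (hτ1 : τ ≤ π) (hx : x ∈ Icc (-(π/3)) (π/3)) :
    arc (cell φ) τ (φ + x) ≤ max (τ - 2 * π / 3 - x) 0 + max (τ - 2 * π / 3 + x) 0 := by
  have hpi : (0:ℝ) < π := pi_pos
  have hab : π - τ ≤ π + τ := by linarith
  have e1 := int_Iic (a := π - τ) (b := π + τ) (c := π / 3 - x) hab (by linarith [hx.1])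
  have e2 := int_Ici (a := π - τ) (b := π + τ) (c := 5 * π / 3 - x) hab (by linarith [hx.2])
  have i1 := indicator_intervalIntegrable (measurableSet_Iic (a := π / 3 - x)) (π - τ) (π + τ)
  have i2 := indicator_intervalIntegrable (measurableSet_Ici (a := 5 * π / 3 - x)) (π - τ) (π + τ)
  have e3 : max (τ - 2 * π / 3 - x) 0 + max (τ - 2 * π / 3 + x) 0 =
      ∫ y in (π - τ)..(π + τ), ((Iic (π / 3 - x)).indicator (fun _ => (1:ℝ)) y +
        (Ici (5 * π / 3 - x)).indicator (fun _ => (1:ℝ)) y) := by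
    rw [intervalIntegral.integral_add i1 i2, e1, e2]
    congr 2 <;> ring
  rw [e3, arc]
  have hii : IntervalIntegrable (fun y => cell φ (φ + x + y)) volume (π - τ) (π + τ) := by
    rw [intervalIntegrable_iff]
    refine IntegrableOn.of_bound (by simp)
      (((cell_fuz φ).meas.comp (measurable_const.add measurable_id)).aestronglyMeasurable) 1 ?_
    refine Filter.Eventually.of_forall fun y => ?_
    rw [Real.norm_eq_abs, abs_of_nonneg ((cell_fuz φ).nonneg _)]
    exact (cell_fuz φ).le_one _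
  apply intervalIntegral.integral_mono_on hab hii (i1.add i2)
  intro y hy
  by_cases h1 : y ∈ Iic (π / 3 - x)
  · rw [indicator_of_mem h1]
    have h2 : 0 ≤ (Ici (5 * π / 3 - x)).indicator (fun _ => (1:ℝ)) y :=
      indicator_nonneg (fun _ _ => zero_le_one) _
    have := (cell_fuz φ).le_one (φ + x + y)
    linarith
  · by_cases h2 : y ∈ Ici (5 * π / 3 - x)
    · rw [indicator_of_mem h2]
      have h3 : 0 ≤ (Iic (π / 3 - x)).indicator (fun _ => (1:ℝ)) y :=
        indicator_nonneg (fun _ _ => zero_le_one) _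
      have := (cell_fuz φ).le_one (φ + x + y)
      linarith
    · rw [indicator_of_notMem h1, indicator_of_notMem h2]
      simp only [mem_Iic, not_le, mem_Ici] at h1 h2
      have h3 : ¬ (1/2 ≤ cos (φ + x + y - φ)) := by
        rw [show φ + x + y - φ = x + y by ring]
        rcases le_total (x + y) π with h4 | h4
        · rw [cos_ge_half (by linarith) h4, abs_of_nonneg (by linarith)]
          linarith
        · rw [← cos_two_pi_sub, cos_ge_half (by linarith) (by linarith),
            abs_of_nonneg (by linarith)]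
          linarith
      unfold cell
      rw [if_neg h3]
      norm_num

lemma int_max {τ : ℝ} (h1 : π / 3 ≤ τ) (h2 : τ ≤ π) :
    ∫ x in (-(π/3))..(π/3), (max (τ - 2 * π / 3 - x) 0 + max (τ - 2 * π / 3 + x) 0)
      = (τ - π / 3) ^ 2 := by
  have hpi : (0:ℝ) < π := pi_pos
  have c1 : Continuous fun x : ℝ => max (τ - 2 * π / 3 - x) 0 := by fun_prop
  have c2 : Continuous fun x : ℝ => max (τ - 2 * π / 3 + x) 0 := by fun_prop
  rw [intervalIntegral.integral_add (c1.intervalIntegrable _ _) (c2.intervalIntegrable _ _)]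
  have e1 : ∫ x in (-(π/3))..(π/3), max (τ - 2 * π / 3 - x) 0
      = ∫ x in (-(π/3))..(π/3), max (τ - 2 * π / 3 + x) 0 := by
    have := intervalIntegral.integral_comp_neg (a := -(π/3)) (b := π/3)
      (fun x => max (τ - 2 * π / 3 + x) 0)
    rw [neg_neg] at this
    rw [← this]
    rfl
  rw [e1]
  have e2 : ∫ x in (-(π/3))..(π/3), max (τ - 2 * π / 3 + x) 0 = (τ - π / 3) ^ 2 / 2 := by
    rw [← intervalIntegral.integral_add_adjacent_intervals
      (c2.intervalIntegrable (-(π/3)) (2 * π / 3 - τ)) (c2.intervalIntegrable (2 * π / 3 - τ) (π/3))]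
    have e3 : ∫ x in (-(π/3))..(2 * π / 3 - τ), max (τ - 2 * π / 3 + x) 0
        = ∫ x in (-(π/3))..(2 * π / 3 - τ), (0:ℝ) := by
      apply intervalIntegral.integral_congr
      intro x hx
      rw [uIcc_of_le (by linarith)] at hx
      exact max_eq_right (by linarith [hx.2])
    have e4 : ∫ x in (2 * π / 3 - τ)..(π/3), max (τ - 2 * π / 3 + x) 0
        = ∫ x in (2 * π / 3 - τ)..(π/3), (τ - 2 * π / 3 + x) := by
      apply intervalIntegral.integral_congr
      intro x hx
      rw [uIcc_of_le (by linarith)] at hx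
      exact max_eq_left (by linarith [hx.1])
    rw [e3, e4, intervalIntegral.integral_add (by simp) (by simp)]
    simp only [intervalIntegral.integral_const, smul_eq_mul, mul_zero, zero_add, integral_id]
    ring
  rw [e2]
  ring

lemma M_cell_le (φ : ℝ) {τ : ℝ} (hτ0 : π / 3 ≤ τ) (hτ1 : τ ≤ π) :
    M (cell φ) (cell φ) τ ≤ (τ - π / 3) ^ 2 := by
  have hpi : (0:ℝ) < π := pi_pos
  unfold M
  rw [cell_int φ (arc_per (cell_fuz φ) τ), ← int_max hτ0 hτ1]
  have c0 : Continuous fun x : ℝ => arc (cell φ) τ (φ + x) :=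
    (arc_lip (cell_fuz φ) τ).continuous.comp (by fun_prop)
  apply intervalIntegral.integral_mono_on (by linarith) (c0.intervalIntegrable _ _)
  · apply Continuous.intervalIntegrable; fun_prop
  · intro x hx
    exact arc_cell_le φ (by linarith) hτ1 hx

lemma M_cell_zero (φ : ℝ) {τ : ℝ} (hτ0 : 0 ≤ τ) (hτ1 : τ ≤ π / 3) :
    M (cell φ) (cell φ) τ ≤ 0 := by
  have hpi : (0:ℝ) < π := pi_pos
  unfold M
  rw [cell_int φ (arc_per (cell_fuz φ) τ)]
  have c0 : Continuous fun x : ℝ => arc (cell φ) τ (φ + x) :=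
    (arc_lip (cell_fuz φ) τ).continuous.comp (by fun_prop)
  have : ∫ x in (-(π/3))..(π/3), (0:ℝ) = 0 := by simp
  rw [← this]
  apply intervalIntegral.integral_mono_on (by linarith) (c0.intervalIntegrable _ _)
    (by simp)
  intro x hx
  have := arc_cell_le φ hτ0 (by linarith) hx
  rw [max_eq_right (by linarith [hx.1]), max_eq_right (by linarith [hx.2])] at this
  linarith

/-- the simplex value -/
theorem J_cell_le (φ : ℝ) {s : ℝ} (hs : 0 ≤ s) : 3 * J s (cell φ) (cell φ) ≤ Phi3 s := by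
  have hpi : (0:ℝ) < π := pi_pos
  rw [J_eq (cell_fuz φ) (cell_fuz φ), cell_total]
  unfold Phi3
  have hii := M_ii (cell_fuz φ) (cell_fuz φ) s
  have i1 : IntervalIntegrable (fun u => s * exp (s * u) * M (cell φ) (cell φ) (arccos u))
      volume (-1) (1/2) := by
    refine hii.mono_set ?_
    rw [uIcc_of_le (by norm_num : (-1:ℝ) ≤ 1)]
    exact uIcc_subset_Icc (by constructor <;> norm_num) (by constructor <;> norm_num)
  have i2 : IntervalIntegrable (fun u => s * exp (s * u) * M (cell φ) (cell φ) (arccos u))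
      volume (1/2) 1 := by
    refine hii.mono_set ?_
    rw [uIcc_of_le (by norm_num : (-1:ℝ) ≤ 1)]
    exact uIcc_subset_Icc (by constructor <;> norm_num) (by constructor <;> norm_num)
  rw [← intervalIntegral.integral_add_adjacent_intervals i1 i2]
  have hac : Continuous arccos := continuous_arccos
  have h1 : ∫ u in (1/2:ℝ)..1, s * exp (s * u) * M (cell φ) (cell φ) (arccos u) ≤ 0 := by
    have : ∫ x in (1/2:ℝ)..1, (0:ℝ) = 0 := by simp
    rw [← this]
    apply intervalIntegral.integral_mono_on (by norm_num) i2 (by simp)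
    intro u hu
    apply mul_nonpos_of_nonneg_of_nonpos (mul_nonneg hs (exp_pos _).le)
    apply M_cell_zero φ (arccos_nonneg u)
    rw [← arccos_half]
    exact antitone_arccos hu.1
  have c1 : IntervalIntegrable (fun u => s * exp (s * u) * (3 * (arccos u - π / 3) ^ 2))
      volume (-1) (1/2) := by
    apply Continuous.intervalIntegrable; fun_prop
  have h2 : 3 * ∫ u in (-1:ℝ)..(1/2), s * exp (s * u) * M (cell φ) (cell φ) (arccos u)
      ≤ ∫ u in (-1:ℝ)..(1/2), s * exp (s * u) * (3 * (arccos u - π / 3) ^ 2) := by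
    rw [← intervalIntegral.integral_const_mul]
    apply intervalIntegral.integral_mono_on (by norm_num) (i1.const_mul 3) c1
    intro u hu
    have h3 : π / 3 ≤ arccos u := by rw [← arccos_half]; exact antitone_arccos hu.2
    have h4 := M_cell_le φ h3 (arccos_le_pi u)
    have h5 : 0 ≤ s * exp (s * u) := mul_nonneg hs (exp_pos _).le
    nlinarith
  have h3 : 3 * (exp (-s) * (2 * π / 3 * (2 * π / 3))) = exp (-s) * (4 * π ^ 2 / 3) := by ring
  linarith

end Pool.Agent.Run7.h126
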