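import Mathlib
import Pool.Agent.Run7.h126.Cell

set_option autoImplicit false

open MeasureTheory Set Real ProbabilityTheory ENNReal

namespace Pool.Agent.Run7.h126

/-- planar kernel: joint density of a `ρ`-correlated pair in the plane -/
noncomputable def Ker (ρ : ℝ) (x y : ℝ × ℝ) : ℝ :=
  1 / (4 * π ^ 2 * (1 - ρ ^ 2)) * exp (-((x.1 ^ 2 + x.2 ^ 2) - 2 * ρ * (x.1 * y.1 + x.2 * y.2)
    + (y.1 ^ 2 + y.2 ^ 2)) / (2 * (1 - ρ ^ 2)))

/-- the standard Gaussian measure on the plane -/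
noncomputable def g2 : Measure (ℝ × ℝ) := (gaussianReal 0 1).prod (gaussianReal 0 1)

instance : IsProbabilityMeasure g2 := by unfold g2; infer_instance

lemma pdf_prod (a b : ℝ) {v : NNReal} (y : ℝ × ℝ) :
    gaussianPDF a v y.1 * gaussianPDF b v y.2 =
      ENNReal.ofReal (1 / (2 * π * v) * exp (-((y.1 - a) ^ 2 + (y.2 - b) ^ 2) / (2 * v))) := by
  unfold gaussianPDF gaussianPDFReal
  rw [← ENNReal.ofReal_mul (by positivity)]
  congr 1
  have h1 : √(2 * π * (v:ℝ)) * √(2 * π * (v:ℝ)) = 2 * π * v :=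
    Real.mul_self_sqrt (by positivity)
  have h2 : exp (-((y.1 - a) ^ 2 + (y.2 - b) ^ 2) / (2 * v)) =
      exp (-(y.1 - a) ^ 2 / (2 * v)) * exp (-(y.2 - b) ^ 2 / (2 * v)) := by
    rw [← Real.exp_add]
    congr 1
    ring
  have h3 : 1 / (2 * π * (v:ℝ)) = (√(2 * π * (v:ℝ)))⁻¹ * (√(2 * π * (v:ℝ)))⁻¹ := by
    rw [← mul_inv, h1, one_div]
  rw [h2, h3]
  ring

lemma g2_eq : g2 = (volume : Measure (ℝ × ℝ)).withDensity
    (fun x => ENNReal.ofReal (1 / (2 * π) * exp (-(x.1 ^ 2 + x.2 ^ 2) / 2))) := by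
  unfold g2
  rw [gaussianReal_of_var_ne_zero 0 (one_ne_zero),
    prod_withDensity (measurable_gaussianPDF 0 1) (measurable_gaussianPDF 0 1)]
  rw [Measure.volume_eq_prod]
  congr 1
  ext x
  rw [pdf_prod]
  simp

/-- law of the second point given the first -/
lemma map_pair {ρ σ : ℝ} (x : ℝ × ℝ) (v : NNReal) (hv : (v:ℝ) = σ ^ 2) (hσ : σ ≠ 0) :
    g2.map (fun z : ℝ × ℝ => (ρ * x.1 + σ * z.1, ρ * x.2 + σ * z.2)) =
    (volume : Measure (ℝ × ℝ)).withDensity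
      (fun y => ENNReal.ofReal (1 / (2 * π * v) *
        exp (-((y.1 - ρ * x.1) ^ 2 + (y.2 - ρ * x.2) ^ 2) / (2 * v)))) := by
  have h1 : ∀ a : ℝ, (gaussianReal 0 1).map (fun z => ρ * a + σ * z) =
      gaussianReal (ρ * a) v := by
    intro a
    have e1 : (fun z => ρ * a + σ * z) = (fun w => ρ * a + w) ∘ (fun z => σ * z) := rfl
    rw [e1, ← Measure.map_map (by fun_prop) (by fun_prop), gaussianReal_map_const_mul,
      gaussianReal_map_const_add]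
    congr 1
    · ring
    · rw [mul_one]
      apply NNReal.coe_injective
      rw [hv]
      rfl
  have h2 : g2.map (fun z : ℝ × ℝ => (ρ * x.1 + σ * z.1, ρ * x.2 + σ * z.2)) =
      (gaussianReal (ρ * x.1) v).prod (gaussianReal (ρ * x.2) v) := by
    rw [← h1, ← h1]
    unfold g2
    rw [Measure.map_prod_map _ _ (by fun_prop) (by fun_prop)]
    rfl
  have hv0 : v ≠ 0 := by
    intro h
    rw [h] at hv
    have : σ ^ 2 = 0 := by rw [← hv]; rfl
    exact hσ (by simpa using this)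
  rw [h2, gaussianReal_of_var_ne_zero _ hv0, gaussianReal_of_var_ne_zero _ hv0,
    prod_withDensity (measurable_gaussianPDF _ _) (measurable_gaussianPDF _ _),
    Measure.volume_eq_prod]
  congr 1
  ext y
  rw [pdf_prod]

/-- **Law of a correlated pair in the plane.** -/
lemma law {ρ σ : ℝ} (hσ : σ ≠ 0) (hρ : σ ^ 2 = 1 - ρ ^ 2) {h : (ℝ × ℝ) → (ℝ × ℝ) → ℝ≥0∞}
    (hm : Measurable (Function.uncurry h)) :
    ∫⁻ x, ∫⁻ z, h x (ρ * x.1 + σ * z.1, ρ * x.2 + σ * z.2) ∂g2 ∂g2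
      = ∫⁻ x, ∫⁻ y, h x y * ENNReal.ofReal (Ker ρ x y) := by
  set v : NNReal := ⟨σ ^ 2, sq_nonneg σ⟩ with hv
  have hvσ : (v:ℝ) = σ ^ 2 := rfl
  have hσ2 : 0 < σ ^ 2 := by positivity
  have h1 : ∀ x : ℝ × ℝ, ∫⁻ z, h x (ρ * x.1 + σ * z.1, ρ * x.2 + σ * z.2) ∂g2 =
      ∫⁻ y, ENNReal.ofReal (1 / (2 * π * v) *
        exp (-((y.1 - ρ * x.1) ^ 2 + (y.2 - ρ * x.2) ^ 2) / (2 * v))) * h x y := by
    intro x
    have hx : Measurable (h x) := hm.comp measurable_prodMk_left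
    have e1 : ∫⁻ z, h x (ρ * x.1 + σ * z.1, ρ * x.2 + σ * z.2) ∂g2 =
        ∫⁻ y, h x y ∂(g2.map (fun z : ℝ × ℝ => (ρ * x.1 + σ * z.1, ρ * x.2 + σ * z.2))) := by
      rw [lintegral_map hx (by fun_prop)]
    rw [e1, map_pair x v hvσ hσ, lintegral_withDensity_eq_lintegral_mul _ _ hx]
    · rfl
    · fun_prop
  simp only [h1]
  have hmeas : Measurable (fun x : ℝ × ℝ => ∫⁻ y : ℝ × ℝ, ENNReal.ofReal (1 / (2 * π * v) *
        exp (-((y.1 - ρ * x.1) ^ 2 + (y.2 - ρ * x.2) ^ 2) / (2 * v))) * h x y) := by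
    apply Measurable.lintegral_prod_right'
      (f := fun p : (ℝ × ℝ) × (ℝ × ℝ) => ENNReal.ofReal (1 / (2 * π * v) *
        exp (-((p.2.1 - ρ * p.1.1) ^ 2 + (p.2.2 - ρ * p.1.2) ^ 2) / (2 * v))) * h p.1 p.2)
    apply Measurable.mul
    · fun_prop
    · exact hm
  rw [g2_eq, lintegral_withDensity_eq_lintegral_mul _ (by fun_prop) hmeas]
  apply lintegral_congr
  intro x
  simp only [Pi.mul_apply]
  rw [← lintegral_const_mul]
  · apply lintegral_congr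
    intro y
    rw [← mul_assoc, mul_comm (h x y), ← ENNReal.ofReal_mul (by positivity)]
    congr 2
    unfold Ker
    rw [← hρ, hvσ]
    have e : 1 / (2 * π) * exp (-(x.1 ^ 2 + x.2 ^ 2) / 2) * (1 / (2 * π * σ ^ 2) *
        exp (-((y.1 - ρ * x.1) ^ 2 + (y.2 - ρ * x.2) ^ 2) / (2 * σ ^ 2)))
        = 1 / (4 * π ^ 2 * σ ^ 2) * (exp (-(x.1 ^ 2 + x.2 ^ 2) / 2) *
        exp (-((y.1 - ρ * x.1) ^ 2 + (y.2 - ρ * x.2) ^ 2) / (2 * σ ^ 2))) := by
      field_simp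
      ring
    rw [e, ← Real.exp_add]
    congr 2
    field_simp
    rw [hρ]
    ring
  · apply Measurable.mul
    · fun_prop
    · exact hm.comp measurable_prodMk_left

end Pool.Agent.Run7.h126
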