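import Mathlib
import Pool.Agent.Run7.h126.Planar

set_option autoImplicit false

open MeasureTheory Set Real ENNReal

namespace Pool.Agent.Run7.h126

lemma meas_mul {α : Type*} [MeasurableSpace α] {f g : α → ℝ≥0∞} (hf : Measurable f)
    (hg : Measurable g) : Measurable (fun a => f a * g a) := hf.mul hg

/-- a fuzzy subset of the plane -/
structure PFuz (f : ℝ × ℝ → ℝ) : Prop where
  meas : Measurable f
  nonneg : ∀ x, 0 ≤ f x
  le_one : ∀ x, f x ≤ 1

/-- restriction to a circle -/
noncomputable def circ (f : ℝ × ℝ → ℝ) (r θ : ℝ) : ℝ := f (r * cos θ, r * sin θ)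

lemma circ_fuz {f : ℝ × ℝ → ℝ} (hf : PFuz f) (r : ℝ) : Fuz (circ f r) where
  meas := hf.meas.comp (by fun_prop)
  nonneg := fun _ => hf.nonneg _
  le_one := fun _ => hf.le_one _
  per := by
    intro x
    unfold circ
    rw [cos_add_two_pi, sin_add_two_pi]

/-- radial weight -/
noncomputable def Wt (ρ r r' : ℝ) : ℝ :=
  r * r' * exp (-(r ^ 2 + r' ^ 2) / (2 * (1 - ρ ^ 2))) / (4 * π ^ 2 * (1 - ρ ^ 2))

lemma ker_polar {ρ : ℝ} (hρ : 0 < 1 - ρ ^ 2) (r r' θ θ' : ℝ) :
    r * r' * Ker ρ (r * cos θ, r * sin θ) (r' * cos θ', r' * sin θ') =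
      Wt ρ r r' * exp (-((-ρ / (1 - ρ ^ 2) * (r * r')) * cos (θ - θ'))) := by
  unfold Ker Wt
  simp only
  have e : (-((r * cos θ) ^ 2 + (r * sin θ) ^ 2 - 2 * ρ * (r * cos θ * (r' * cos θ')
      + r * sin θ * (r' * sin θ')) + ((r' * cos θ') ^ 2 + (r' * sin θ') ^ 2)) / (2 * (1 - ρ ^ 2)))
      = -(r ^ 2 + r' ^ 2) / (2 * (1 - ρ ^ 2)) +
        (-((-ρ / (1 - ρ ^ 2) * (r * r')) * cos (θ - θ'))) := by
    rw [cos_sub]
    have h1 := sin_sq_add_cos_sq θ
    have h2 := sin_sq_add_cos_sq θ'
    field_simp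
    linear_combination (-r ^ 2) * h1 + (-r' ^ 2) * h2
  rw [e, Real.exp_add]
  ring

lemma J_eq_sym {χ η : ℝ → ℝ} (hχ : Fuz χ) (hη : Fuz η) (s : ℝ) :
    J s χ η = ∫ θ in Ioo (-π) π, ∫ θ' in Ioo (-π) π, χ θ * η θ' * exp (-(s * cos (θ - θ'))) := by
  have hpi : (0:ℝ) < π := pi_pos
  have hin : ∀ θ, ∫ θ' in (0:ℝ)..2 * π, η θ' * exp (-(s * cos (θ - θ'))) =
      ∫ θ' in (-π)..π, η θ' * exp (-(s * cos (θ - θ'))) := by
    intro θ
    have hper : Function.Periodic (fun θ' => η θ' * exp (-(s * cos (θ - θ')))) (2 * π) := by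
      intro x
      show η (x + 2 * π) * _ = η x * _
      rw [hη.per x, show θ - (x + 2 * π) = (θ - x) - 2 * π by ring, cos_sub_two_pi]
    have := hper.intervalIntegral_add_eq 0 (-π)
    rw [zero_add, show -π + 2 * π = π by ring] at this
    exact this
  unfold J
  simp only [hin]
  have hper : Function.Periodic (fun θ => χ θ * ∫ θ' in (-π)..π, η θ' * exp (-(s * cos (θ - θ'))))
      (2 * π) := by
    intro x
    show χ (x + 2 * π) * _ = χ x * _
    rw [hχ.per x]
    congr 1
    apply intervalIntegral.integral_congr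
    intro θ' _
    show η θ' * _ = η θ' * _
    rw [show x + 2 * π - θ' = (x - θ') + 2 * π by ring, cos_add_two_pi]
  have h2 := hper.intervalIntegral_add_eq 0 (-π)
  rw [zero_add, show -π + 2 * π = π by ring] at h2
  rw [h2, intervalIntegral.integral_of_le (by linarith), integral_Ioc_eq_integral_Ioo]
  apply setIntegral_congr_fun measurableSet_Ioo
  intro θ _
  simp only
  rw [intervalIntegral.integral_of_le (by linarith), integral_Ioc_eq_integral_Ioo,
    ← integral_const_mul]
  congr 1
  ext θ'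
  ring

/-- inner angular integrals -/
lemma angular {χ η : ℝ → ℝ} (hχ : Fuz χ) (hη : Fuz η) {w s : ℝ} (hw : 0 ≤ w) :
    ∫⁻ θ in Ioo (-π) π, ∫⁻ θ' in Ioo (-π) π,
      ENNReal.ofReal (w * (χ θ * η θ' * exp (-(s * cos (θ - θ'))))) =
      ENNReal.ofReal (w * J s χ η) := by
  have hmeas : Measurable (fun p : ℝ × ℝ => w * (χ p.1 * η p.2 * exp (-(s * cos (p.1 - p.2))))) := by
    apply Measurable.const_mul
    apply Measurable.mul
    · exact (hχ.meas.comp measurable_fst).mul (hη.meas.comp measurable_snd)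
    · fun_prop
  have hbd : ∀ p : ℝ × ℝ, ‖w * (χ p.1 * η p.2 * exp (-(s * cos (p.1 - p.2))))‖ ≤ w * exp |s| := by
    intro p
    rw [norm_mul, norm_mul, norm_mul, Real.norm_eq_abs, Real.norm_eq_abs, Real.norm_eq_abs,
      Real.norm_eq_abs, abs_of_nonneg hw, abs_of_nonneg (hχ.nonneg _), abs_of_nonneg (hη.nonneg _),
      abs_of_pos (exp_pos _)]
    have h1 := hχ.le_one p.1
    have h2 := hη.le_one p.2
    have h3 := hχ.nonneg p.1
    have h4 := hη.nonneg p.2
    have h5 : exp (-(s * cos (p.1 - p.2))) ≤ exp |s| := by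
      apply exp_le_exp.mpr
      calc -(s * cos (p.1 - p.2)) ≤ |s * cos (p.1 - p.2)| := neg_le_abs _
        _ = |s| * |cos (p.1 - p.2)| := abs_mul _ _
        _ ≤ |s| * 1 := by gcongr; exact abs_cos_le_one _
        _ = |s| := mul_one _
    calc w * (χ p.1 * η p.2 * exp (-(s * cos (p.1 - p.2)))) ≤ w * (1 * 1 * exp |s|) := by gcongr
      _ = w * exp |s| := by ring
  have hint : Integrable (fun p : ℝ × ℝ => w * (χ p.1 * η p.2 * exp (-(s * cos (p.1 - p.2)))))
      ((volume.restrict (Ioo (-π) π)).prod (volume.restrict (Ioo (-π) π))) :=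
    Integrable.of_bound hmeas.aestronglyMeasurable (w * exp |s|)
      (Filter.Eventually.of_forall hbd)
  rw [← lintegral_prod (μ := volume.restrict (Ioo (-π) π)) (ν := volume.restrict (Ioo (-π) π))
    (fun p : ℝ × ℝ => ENNReal.ofReal (w * (χ p.1 * η p.2 * exp (-(s * cos (p.1 - p.2))))))
    hmeas.ennreal_ofReal.aemeasurable]
  rw [← ofReal_integral_eq_lintegral_ofReal hint]
  · rw [integral_prod _ hint, J_eq_sym hχ hη]
    simp only [integral_const_mul]
  · refine Filter.Eventually.of_forall fun p => ?_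
    exact mul_nonneg hw (mul_nonneg (mul_nonneg (hχ.nonneg _) (hη.nonneg _)) (exp_pos _).le)

/-- **Polar form of the planar bilinear stability.** -/
theorem polar {f g : ℝ × ℝ → ℝ} (hf : PFuz f) (hg : PFuz g) {ρ : ℝ} (hρ : 0 < 1 - ρ ^ 2) :
    ∫⁻ x, ∫⁻ y, ENNReal.ofReal (f x * g y) * ENNReal.ofReal (Ker ρ x y) =
    ∫⁻ r in Ioi (0:ℝ), ∫⁻ r' in Ioi (0:ℝ),
      ENNReal.ofReal (Wt ρ r r' * J (-ρ / (1 - ρ ^ 2) * (r * r')) (circ f r) (circ g r')) := by
  have hker : Continuous (fun p : (ℝ × ℝ) × (ℝ × ℝ) => Ker ρ p.1 p.2) := by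
    unfold Ker; fun_prop
  -- two polar changes of variables
  have h1 : ∀ x : ℝ × ℝ, ∫⁻ y, ENNReal.ofReal (f x * g y) * ENNReal.ofReal (Ker ρ x y) =
      ∫⁻ r' in Ioi (0:ℝ), ∫⁻ θ' in Ioo (-π) π, ENNReal.ofReal r' *
        (ENNReal.ofReal (f x * g (r' * cos θ', r' * sin θ')) *
          ENNReal.ofReal (Ker ρ x (r' * cos θ', r' * sin θ'))) := by
    intro x
    rw [← lintegral_comp_polarCoord_symm, polarCoord_target, Measure.volume_eq_prod,
      ← Measure.prod_restrict, lintegral_prod]
    · rfl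
    · apply Measurable.aemeasurable
      simp only [smul_eq_mul]
      refine meas_mul ?_ ?_
      · fun_prop
      have hP : Measurable (fun p : ℝ × ℝ => polarCoord.symm p) := by
        have : (fun p : ℝ × ℝ => polarCoord.symm p) = fun p => (p.1 * cos p.2, p.1 * sin p.2) := rfl
        rw [this]; fun_prop
      refine meas_mul ?_ ?_
      · exact ((hg.meas.comp hP).const_mul _).ennreal_ofReal
      · exact (hker.measurable.comp (measurable_const.prodMk hP)).ennreal_ofReal
  simp only [h1]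
  rw [← lintegral_comp_polarCoord_symm, polarCoord_target, Measure.volume_eq_prod,
    ← Measure.prod_restrict, lintegral_prod]
  · apply setLIntegral_congr_fun measurableSet_Ioi
    intro r hr
    have hr0 : (0:ℝ) < r := hr
    simp only [smul_eq_mul]
    have h2 : ∀ θ : ℝ, ENNReal.ofReal r * (∫⁻ r' in Ioi (0:ℝ), ∫⁻ θ' in Ioo (-π) π,
        ENNReal.ofReal r' * (ENNReal.ofReal (f (polarCoord.symm (r, θ)) *
          g (r' * cos θ', r' * sin θ')) *
          ENNReal.ofReal (Ker ρ (polarCoord.symm (r, θ)) (r' * cos θ', r' * sin θ')))) =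
        ∫⁻ r' in Ioi (0:ℝ), ∫⁻ θ' in Ioo (-π) π,
          ENNReal.ofReal (Wt ρ r r' * (circ f r θ * circ g r' θ' *
            exp (-((-ρ / (1 - ρ ^ 2) * (r * r')) * cos (θ - θ'))))) := by
      intro θ
      have hm1 : Measurable (fun p : ℝ × ℝ => ENNReal.ofReal p.1 *
        (ENNReal.ofReal (f (polarCoord.symm (r, θ)) *
          g (p.1 * cos p.2, p.1 * sin p.2)) *
          ENNReal.ofReal (Ker ρ (polarCoord.symm (r, θ)) (p.1 * cos p.2, p.1 * sin p.2)))) := by
        refine meas_mul ?_ ?_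
        · fun_prop
        have hP : Measurable (fun p : ℝ × ℝ => (p.1 * cos p.2, p.1 * sin p.2)) := by fun_prop
        refine meas_mul ?_ ?_
        · exact ((hg.meas.comp hP).const_mul _).ennreal_ofReal
        · exact (hker.measurable.comp (measurable_const.prodMk hP)).ennreal_ofReal
      rw [← lintegral_const_mul]
      · apply setLIntegral_congr_fun measurableSet_Ioi
        intro r' hr'
        have hr0' : (0:ℝ) < r' := hr'
        simp only
        rw [← lintegral_const_mul]
        · apply lintegral_congr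
          intro θ'
          have e1 : polarCoord.symm (r, θ) = (r * cos θ, r * sin θ) := rfl
          rw [e1, ← ENNReal.ofReal_mul (mul_nonneg (hf.nonneg _) (hg.nonneg _)),
            ← ENNReal.ofReal_mul hr0'.le, ← ENNReal.ofReal_mul hr0.le]
          congr 1
          have := ker_polar hρ r r' θ θ'
          unfold circ
          calc r * (r' * (f (r * cos θ, r * sin θ) * g (r' * cos θ', r' * sin θ') *
              Ker ρ (r * cos θ, r * sin θ) (r' * cos θ', r' * sin θ'))) =
              f (r * cos θ, r * sin θ) * g (r' * cos θ', r' * sin θ') *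
              (r * r' * Ker ρ (r * cos θ, r * sin θ) (r' * cos θ', r' * sin θ')) := by ring
            _ = _ := by rw [this]; ring
        · exact hm1.comp (measurable_const.prodMk measurable_id)
      · exact hm1.lintegral_prod_right'
    simp only [h2]
    rw [lintegral_lintegral_swap]
    · apply setLIntegral_congr_fun measurableSet_Ioi
      intro r' hr'
      have hr0' : (0:ℝ) < r' := hr'
      simp only
      apply angular (circ_fuz hf r) (circ_fuz hg r')
      unfold Wt
      have : 0 < r * r' := mul_pos hr0 hr0'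
      positivity
    · apply Measurable.aemeasurable
      simp only [Function.uncurry_def]
      apply Measurable.lintegral_prod_right'
        (f := fun p : (ℝ × ℝ) × ℝ => ENNReal.ofReal (Wt ρ r p.1.2 * (circ f r p.1.1 *
          circ g p.1.2 p.2 * exp (-((-ρ / (1 - ρ ^ 2) * (r * p.1.2)) * cos (p.1.1 - p.2))))))
      apply Measurable.ennreal_ofReal
      apply Measurable.mul
      · unfold Wt; fun_prop
      · apply Measurable.mul
        · apply Measurable.mul
          · exact (circ_fuz hf r).meas.comp (measurable_fst.comp measurable_fst)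
          · exact hg.meas.comp (by fun_prop)
        · fun_prop
  · apply Measurable.aemeasurable
    simp only [smul_eq_mul]
    refine meas_mul ?_ ?_
    · fun_prop
    have hP : Measurable (fun p : ℝ × ℝ => polarCoord.symm p) := by
      have : (fun p : ℝ × ℝ => polarCoord.symm p) = fun p => (p.1 * cos p.2, p.1 * sin p.2) := rfl
      rw [this]; fun_prop
    apply Measurable.lintegral_prod_right'
      (f := fun p : (ℝ × ℝ) × ℝ => ∫⁻ θ' in Ioo (-π) π, ENNReal.ofReal p.2 *
        (ENNReal.ofReal (f (polarCoord.symm p.1) * g (p.2 * cos θ', p.2 * sin θ')) *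
          ENNReal.ofReal (Ker ρ (polarCoord.symm p.1) (p.2 * cos θ', p.2 * sin θ'))))
    apply Measurable.lintegral_prod_right'
      (f := fun q : ((ℝ × ℝ) × ℝ) × ℝ => ENNReal.ofReal q.1.2 *
        (ENNReal.ofReal (f (polarCoord.symm q.1.1) * g (q.1.2 * cos q.2, q.1.2 * sin q.2)) *
          ENNReal.ofReal (Ker ρ (polarCoord.symm q.1.1) (q.1.2 * cos q.2, q.1.2 * sin q.2))))
    refine meas_mul ?_ ?_
    · fun_prop
    have hP2 : Measurable (fun q : ((ℝ × ℝ) × ℝ) × ℝ => polarCoord.symm q.1.1) :=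
      hP.comp (measurable_fst.comp measurable_fst)
    have hP3 : Measurable (fun q : ((ℝ × ℝ) × ℝ) × ℝ => (q.1.2 * cos q.2, q.1.2 * sin q.2)) := by
      fun_prop
    refine meas_mul ?_ ?_
    · exact ((hf.meas.comp hP2).mul (hg.meas.comp hP3)).ennreal_ofReal
    · exact (hker.measurable.comp (hP2.prodMk hP3)).ennreal_ofReal

end Pool.Agent.Run7.h126
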