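import Mathlib
import Pool.Agent.Run7.h126.Polar

set_option autoImplicit false

open MeasureTheory Set Real ENNReal

namespace Pool.Agent.Run7.h126

/-- Lebesgue measure on the positive quadrant -/
noncomputable def QM : Measure (ℝ × ℝ) :=
  (volume.restrict (Ioi (0:ℝ))).prod (volume.restrict (Ioi (0:ℝ)))

instance : SFinite QM := by unfold QM; infer_instance

lemma QM_pos : ∀ᵐ p ∂QM, 0 < p.1 ∧ 0 < p.2 := by
  unfold QM
  rw [Measure.prod_restrict]
  filter_upwards [ae_restrict_mem (measurableSet_Ioi.prod measurableSet_Ioi)] with p hp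
  exact hp

/-- radial envelope -/
noncomputable def env (ρ r : ℝ) : ℝ := r * exp (-(1 / (4 * (1 - ρ ^ 2))) * r ^ 2)

lemma env_int {ρ : ℝ} (hρ : 0 < 1 - ρ ^ 2) : Integrable (env ρ) (volume.restrict (Ioi (0:ℝ))) := by
  have : Integrable (env ρ) := by
    unfold env
    exact integrable_mul_exp_neg_mul_sq (by positivity)
  exact this.restrict

lemma env2_int {ρ : ℝ} (hρ : 0 < 1 - ρ ^ 2) : Integrable (fun p => env ρ p.1 * env ρ p.2) QM :=
  (env_int hρ).mul_prod (env_int hρ)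

lemma env2_le {ρ : ℝ} (hρ : 0 < 1 - ρ ^ 2) {lam : ℝ} (hl : lam ≤ 1 / (2 * (1 - ρ ^ 2)))
    {p : ℝ × ℝ} (h1 : 0 < p.1) (h2 : 0 < p.2) :
    p.1 * p.2 * exp (-(p.1 ^ 2 + p.2 ^ 2) / (2 * (1 - ρ ^ 2))) * exp (lam * (p.1 * p.2)) ≤
      env ρ p.1 * env ρ p.2 := by
  unfold env
  have e : p.1 * exp (-(1 / (4 * (1 - ρ ^ 2))) * p.1 ^ 2) * (p.2 *
      exp (-(1 / (4 * (1 - ρ ^ 2))) * p.2 ^ 2)) = p.1 * p.2 *
      exp (-(1 / (4 * (1 - ρ ^ 2))) * p.1 ^ 2 + -(1 / (4 * (1 - ρ ^ 2))) * p.2 ^ 2) := by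
    rw [Real.exp_add]; ring
  rw [e, mul_assoc, ← Real.exp_add]
  have h12 : 0 < p.1 * p.2 := mul_pos h1 h2
  apply mul_le_mul_of_nonneg_left _ h12.le
  apply exp_le_exp.mpr
  have h3 : lam * (p.1 * p.2) ≤ 1 / (2 * (1 - ρ ^ 2)) * (p.1 * p.2) :=
    mul_le_mul_of_nonneg_right hl h12.le
  have h4 : 1 / (2 * (1 - ρ ^ 2)) * (p.1 * p.2) ≤
      1 / (2 * (1 - ρ ^ 2)) * ((p.1 ^ 2 + p.2 ^ 2) / 2) := by
    apply mul_le_mul_of_nonneg_left _ (by positivity)
    nlinarith [sq_nonneg (p.1 - p.2)]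
  refine le_trans (add_le_add_right (h3.trans h4) _) (le_of_eq ?_)
  field_simp
  ring

/-- positive definiteness of the cosh kernel -/
theorem psd_cosh {ρ : ℝ} (hρ : 0 < 1 - ρ ^ 2) {lam : ℝ} (hl0 : 0 ≤ lam)
    (hl : lam ≤ 1 / (2 * (1 - ρ ^ 2))) {w : ℝ → ℝ} (hw : Measurable w)
    (hwb : ∀ r, 0 < r → |w r| ≤ r * exp (-r ^ 2 / (2 * (1 - ρ ^ 2)))) :
    Integrable (fun p => w p.1 * w p.2 * cosh (lam * (p.1 * p.2))) QM ∧
    0 ≤ ∫ p, w p.1 * w p.2 * cosh (lam * (p.1 * p.2)) ∂QM := by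
  have hdom : ∀ᵐ p ∂QM, |w p.1| * |w p.2| * cosh (lam * (p.1 * p.2)) ≤ env ρ p.1 * env ρ p.2 := by
    filter_upwards [QM_pos] with p hp
    refine le_trans ?_ (env2_le hρ hl hp.1 hp.2)
    have h1 := hwb p.1 hp.1
    have h2 := hwb p.2 hp.2
    have h3 : cosh (lam * (p.1 * p.2)) ≤ exp (lam * (p.1 * p.2)) := by
      rw [cosh_eq]
      have h4 : 0 ≤ lam * (p.1 * p.2) := mul_nonneg hl0 (mul_pos hp.1 hp.2).le
      have : exp (-(lam * (p.1 * p.2))) ≤ exp (lam * (p.1 * p.2)) := exp_le_exp.mpr (by linarith)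
      linarith
    have e : exp (-(p.1 ^ 2 + p.2 ^ 2) / (2 * (1 - ρ ^ 2))) =
        exp (-p.1 ^ 2 / (2 * (1 - ρ ^ 2))) * exp (-p.2 ^ 2 / (2 * (1 - ρ ^ 2))) := by
      rw [← Real.exp_add]; congr 1; ring
    have hp1 := hp.1
    have hp2 := hp.2
    calc |w p.1| * |w p.2| * cosh (lam * (p.1 * p.2)) ≤
        (p.1 * exp (-p.1 ^ 2 / (2 * (1 - ρ ^ 2)))) * (p.2 * exp (-p.2 ^ 2 / (2 * (1 - ρ ^ 2))))
        * exp (lam * (p.1 * p.2)) := by gcongr
      _ = _ := by rw [e]; ring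
  have hmeas : Measurable (fun p : ℝ × ℝ => w p.1 * w p.2 * cosh (lam * (p.1 * p.2))) := by
    apply Measurable.mul
    · exact (hw.comp measurable_fst).mul (hw.comp measurable_snd)
    · exact (continuous_cosh.comp (by fun_prop : Continuous fun p : ℝ × ℝ => lam * (p.1 * p.2))).measurable
  have hnorm : ∀ p : ℝ × ℝ, ‖w p.1 * w p.2 * cosh (lam * (p.1 * p.2))‖ =
      |w p.1| * |w p.2| * cosh (lam * (p.1 * p.2)) := by
    intro p
    rw [Real.norm_eq_abs, abs_mul, abs_mul, abs_of_pos (cosh_pos (lam * (p.1 * p.2)))]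
  have hint : Integrable (fun p => w p.1 * w p.2 * cosh (lam * (p.1 * p.2))) QM := by
    refine (env2_int hρ).mono' hmeas.aestronglyMeasurable ?_
    filter_upwards [hdom] with p hp
    rw [hnorm]
    exact hp
  refine ⟨hint, ?_⟩
  -- series expansion
  have hs : HasSum (fun k : ℕ => ∫ p, w p.1 * w p.2 * ((lam * (p.1 * p.2)) ^ (2 * k) /
      ((2 * k).factorial : ℝ)) ∂QM) (∫ p, w p.1 * w p.2 * cosh (lam * (p.1 * p.2)) ∂QM) := by
    refine hasSum_integral_of_dominated_convergence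
      (fun k p => |w p.1| * |w p.2| * ((lam * (p.1 * p.2)) ^ (2 * k) /
      ((2 * k).factorial : ℝ))) ?_ ?_ ?_ ?_ ?_
    · intro k
      apply Measurable.aestronglyMeasurable
      apply Measurable.mul
      · exact (hw.comp measurable_fst).mul (hw.comp measurable_snd)
      · fun_prop
    · intro k
      filter_upwards [QM_pos] with p hp
      rw [Real.norm_eq_abs, abs_mul, abs_mul]
      apply le_of_eq
      congr 1
      apply abs_of_nonneg
      have := mul_nonneg hl0 (mul_pos hp.1 hp.2).le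
      positivity
    · filter_upwards with p
      exact ((hasSum_cosh (lam * (p.1 * p.2))).mul_left _).summable
    · have e : (fun p : ℝ × ℝ => ∑' k : ℕ, |w p.1| * |w p.2| * ((lam * (p.1 * p.2)) ^ (2 * k) /
          ((2 * k).factorial : ℝ))) = fun p => |w p.1| * |w p.2| * cosh (lam * (p.1 * p.2)) := by
        ext p
        exact ((hasSum_cosh (lam * (p.1 * p.2))).mul_left _).tsum_eq
      rw [e]
      have := hint.norm
      simp only [hnorm] at this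
      exact this
    · filter_upwards with p
      exact (hasSum_cosh (lam * (p.1 * p.2))).mul_left _
  apply hs.nonneg
  intro k
  have e : ∀ p : ℝ × ℝ, w p.1 * w p.2 * ((lam * (p.1 * p.2)) ^ (2 * k) /
      ((2 * k).factorial : ℝ)) = (lam ^ (2 * k) / ((2 * k).factorial : ℝ)) *
      ((w p.1 * p.1 ^ (2 * k)) * (w p.2 * p.2 ^ (2 * k))) := by
    intro p
    rw [mul_pow, mul_pow]
    ring
  simp only [e]
  rw [integral_const_mul]
  apply mul_nonneg (by positivity)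
  unfold QM
  rw [integral_prod_mul (fun r => w r * r ^ (2 * k)) (fun r => w r * r ^ (2 * k))]
  exact mul_self_nonneg _

/-- positive definiteness of the kernel `Wt * hh` -/
theorem psd {ρ : ℝ} (hρ : 0 < 1 - ρ ^ 2) (hρ0 : ρ ≤ 0) {E : ℝ → ℝ} (hE : Measurable E)
    (hb : ∀ r, |E r| ≤ 1) :
    Integrable (fun p => Wt ρ p.1 p.2 * hh (-ρ / (1 - ρ ^ 2) * (p.1 * p.2)) * (E p.1 * E p.2)) QM ∧
    0 ≤ ∫ p, Wt ρ p.1 p.2 * hh (-ρ / (1 - ρ ^ 2) * (p.1 * p.2)) * (E p.1 * E p.2) ∂QM := by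
  set w : ℝ → ℝ := fun r => r * exp (-r ^ 2 / (2 * (1 - ρ ^ 2))) * E r with hw
  have hwm : Measurable w := by
    apply Measurable.mul _ hE
    fun_prop
  have hwb : ∀ r, 0 < r → |w r| ≤ r * exp (-r ^ 2 / (2 * (1 - ρ ^ 2))) := by
    intro r hr
    rw [hw]
    simp only
    rw [abs_mul, abs_of_pos (by positivity)]
    have := hb r
    have h2 : 0 < r * exp (-r ^ 2 / (2 * (1 - ρ ^ 2))) := by positivity
    nlinarith
  set lam := -ρ / (1 - ρ ^ 2) / 2 with hlam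
  have hl0 : 0 ≤ lam := by
    rw [hlam]
    have : 0 ≤ -ρ := by linarith
    positivity
  have hl : lam ≤ 1 / (2 * (1 - ρ ^ 2)) := by
    rw [hlam]
    have : -ρ ≤ 1 := by nlinarith
    rw [div_div, mul_comm (1 - ρ ^ 2) 2]
    gcongr
  have h0 := psd_cosh hρ (lam := 0) le_rfl (by positivity) hwm hwb
  have h1 := psd_cosh hρ hl0 hl hwm hwb
  simp only [zero_mul, cosh_zero, mul_one] at h0
  have e : ∀ p : ℝ × ℝ, Wt ρ p.1 p.2 * hh (-ρ / (1 - ρ ^ 2) * (p.1 * p.2)) * (E p.1 * E p.2) =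
      1 / (12 * π ^ 2 * (1 - ρ ^ 2)) * (w p.1 * w p.2 + 2 * (w p.1 * w p.2 *
        cosh (lam * (p.1 * p.2)))) := by
    intro p
    unfold Wt hh
    have e1 : exp (-(p.1 ^ 2 + p.2 ^ 2) / (2 * (1 - ρ ^ 2))) =
        exp (-p.1 ^ 2 / (2 * (1 - ρ ^ 2))) * exp (-p.2 ^ 2 / (2 * (1 - ρ ^ 2))) := by
      rw [← Real.exp_add]; congr 1; ring
    have e2 : -ρ / (1 - ρ ^ 2) * (p.1 * p.2) / 2 = lam * (p.1 * p.2) := by rw [hlam]; ring
    rw [e1, e2, cosh_eq, hw]
    simp only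
    field_simp
    ring
  simp only [e]
  constructor
  · exact (h0.1.add (h1.1.const_mul 2)).const_mul _
  · rw [integral_const_mul, integral_add h0.1 (h1.1.const_mul 2), integral_const_mul]
    have := h0.2
    have := h1.2
    positivity

end Pool.Agent.Run7.h126
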