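import Mathlib
import Pool.Agent.Run7.h126.PSD

set_option autoImplicit false

open MeasureTheory Set Real ENNReal

namespace Pool.Agent.Run7.h126

/-- normalised circular mean -/
noncomputable def mean (f : ℝ × ℝ → ℝ) (r : ℝ) : ℝ :=
  (∫ θ in (0:ℝ)..2 * π, circ f r θ) / (2 * π)

lemma mean_spec (f : ℝ × ℝ → ℝ) (r : ℝ) :
    ∫ θ in (0:ℝ)..2 * π, circ f r θ = 2 * π * mean f r := by
  have hpi : (0:ℝ) < π := pi_pos
  unfold mean
  field_simp

lemma mean_nonneg {f : ℝ × ℝ → ℝ} (hf : PFuz f) (r : ℝ) : 0 ≤ mean f r := by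
  unfold mean
  have hpi : (0:ℝ) < π := pi_pos
  have := (circ_fuz hf r).int_nonneg (a := 0) (b := 2 * π) (by positivity)
  positivity

lemma mean_le_one {f : ℝ × ℝ → ℝ} (hf : PFuz f) (r : ℝ) : mean f r ≤ 1 := by
  unfold mean
  have hpi : (0:ℝ) < π := pi_pos
  have := (circ_fuz hf r).int_le (a := 0) (b := 2 * π) (by positivity)
  rw [div_le_one (by positivity)]
  linarith

lemma mean_meas {f : ℝ × ℝ → ℝ} (hf : PFuz f) : Measurable (mean f) := by
  unfold mean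
  apply Measurable.div_const
  have hpi : (0:ℝ) ≤ 2 * π := by positivity
  simp only [intervalIntegral.integral_of_le hpi]
  have hm : Measurable (fun p : ℝ × ℝ => circ f p.1 p.2) := by
    unfold circ
    exact hf.meas.comp (by fun_prop)
  exact (hm.stronglyMeasurable.integral_prod_right' (ν := volume.restrict (Ioc 0 (2 * π)))).measurable

lemma mean_sum {f : Fin 3 → ℝ × ℝ → ℝ} (hf : ∀ i, PFuz (f i)) (hs : ∀ x, ∑ i, f i x = 1) (r : ℝ) :
    ∑ i, mean (f i) r = 1 := by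
  unfold mean
  have hpi : (0:ℝ) < π := pi_pos
  rw [← Finset.sum_div, ← intervalIntegral.integral_finsetSum
    (fun i _ => (circ_fuz (hf i) r).ii _ _)]
  have : ∀ θ, ∑ i, circ (f i) r θ = 1 := fun θ => hs _
  simp only [this]
  rw [intervalIntegral.integral_const]
  simp only [sub_zero, smul_eq_mul, mul_one]
  field_simp

/-- polar form over the quadrant -/
lemma polarQ {f g : ℝ × ℝ → ℝ} (hf : PFuz f) (hg : PFuz g) {ρ : ℝ} (hρ : 0 < 1 - ρ ^ 2) :
    AEMeasurable (fun p : ℝ × ℝ => ENNReal.ofReal (Wt ρ p.1 p.2 *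
      J (-ρ / (1 - ρ ^ 2) * (p.1 * p.2)) (circ f p.1) (circ g p.2))) QM ∧
    ∫⁻ x, ∫⁻ y, ENNReal.ofReal (f x * g y) * ENNReal.ofReal (Ker ρ x y) =
    ∫⁻ p, ENNReal.ofReal (Wt ρ p.1 p.2 *
      J (-ρ / (1 - ρ ^ 2) * (p.1 * p.2)) (circ f p.1) (circ g p.2)) ∂QM := by
  have h1 : AEMeasurable (fun p : ℝ × ℝ => ENNReal.ofReal (Wt ρ p.1 p.2 *
      J (-ρ / (1 - ρ ^ 2) * (p.1 * p.2)) (circ f p.1) (circ g p.2))) QM := by
    refine ⟨fun p => ∫⁻ θ in Ioo (-π) π, ∫⁻ θ' in Ioo (-π) π,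
      ENNReal.ofReal (Wt ρ p.1 p.2 * (circ f p.1 θ * circ g p.2 θ' *
        exp (-((-ρ / (1 - ρ ^ 2) * (p.1 * p.2)) * cos (θ - θ'))))), ?_, ?_⟩
    · apply Measurable.lintegral_prod_right'
        (f := fun q : (ℝ × ℝ) × ℝ => ∫⁻ θ' in Ioo (-π) π,
          ENNReal.ofReal (Wt ρ q.1.1 q.1.2 * (circ f q.1.1 q.2 * circ g q.1.2 θ' *
        exp (-((-ρ / (1 - ρ ^ 2) * (q.1.1 * q.1.2)) * cos (q.2 - θ'))))))
      apply Measurable.lintegral_prod_right'
        (f := fun q : ((ℝ × ℝ) × ℝ) × ℝ =>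
          ENNReal.ofReal (Wt ρ q.1.1.1 q.1.1.2 * (circ f q.1.1.1 q.1.2 * circ g q.1.1.2 q.2 *
        exp (-((-ρ / (1 - ρ ^ 2) * (q.1.1.1 * q.1.1.2)) * cos (q.1.2 - q.2))))))
      apply Measurable.ennreal_ofReal
      apply Measurable.mul
      · unfold Wt; fun_prop
      · apply Measurable.mul
        · apply Measurable.mul
          · unfold circ; exact hf.meas.comp (by fun_prop)
          · unfold circ; exact hg.meas.comp (by fun_prop)
        · fun_prop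
    · filter_upwards [QM_pos] with p hp
      rw [angular (circ_fuz hf p.1) (circ_fuz hg p.2)]
      unfold Wt
      have : 0 < p.1 * p.2 := mul_pos hp.1 hp.2
      positivity
  refine ⟨h1, ?_⟩
  rw [polar hf hg hρ]
  unfold QM at h1 ⊢
  rw [lintegral_prod _ h1]

lemma Wt_nonneg {ρ : ℝ} (hρ : 0 < 1 - ρ ^ 2) {p : ℝ × ℝ} (hp : 0 < p.1 ∧ 0 < p.2) :
    0 ≤ Wt ρ p.1 p.2 := by
  unfold Wt
  have : 0 < p.1 * p.2 := mul_pos hp.1 hp.2
  positivity

lemma J_nonneg {χ η : ℝ → ℝ} (hχ : Fuz χ) (hη : Fuz η) (s : ℝ) : 0 ≤ J s χ η := by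
  unfold J
  apply intervalIntegral.integral_nonneg (by positivity)
  intro θ _
  apply mul_nonneg (hχ.nonneg _)
  apply intervalIntegral.integral_nonneg (by positivity)
  intro θ' _
  exact mul_nonneg (hη.nonneg _) (exp_pos _).le

lemma Phi3_cont : Continuous Phi3 := by
  unfold Phi3
  apply Continuous.add (by fun_prop)
  apply intervalIntegral.continuous_parametric_intervalIntegral_of_continuous'
  have hac : Continuous arccos := continuous_arccos
  simp only [Function.uncurry_def]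
  fun_prop

lemma Phi3_nonneg {s : ℝ} (hs : 0 ≤ s) : 0 ≤ Phi3 s := by
  unfold Phi3
  apply add_nonneg (by positivity)
  apply intervalIntegral.integral_nonneg (by norm_num)
  intro u _
  positivity

lemma int_exp (s : ℝ) : ∫ u in (-1:ℝ)..(1/2), s * exp (s * u) = exp (s / 2) - exp (-s) := by
  rw [intervalIntegral.integral_eq_sub_of_hasDerivAt (f := fun u => exp (s * u))]
  · congr 2 <;> ring
  · intro x _
    have := ((hasDerivAt_id x).const_mul s).exp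
    simp only [id, mul_one] at this
    rw [mul_comm s (exp (s * x))]
    exact this
  · exact (by fun_prop : Continuous fun u : ℝ => s * exp (s * u)).intervalIntegrable _ _

lemma Phi3_le {s : ℝ} (hs : 0 ≤ s) : Phi3 s ≤ 4 * π ^ 2 / 3 * exp (s / 2) := by
  unfold Phi3
  have hpi : (0:ℝ) < π := pi_pos
  have hac : Continuous arccos := continuous_arccos
  have h1 : ∫ u in (-1:ℝ)..(1/2), s * exp (s * u) * (3 * (arccos u - π / 3) ^ 2) ≤
      ∫ u in (-1:ℝ)..(1/2), (4 * π ^ 2 / 3) * (s * exp (s * u)) := by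
    apply intervalIntegral.integral_mono_on (by norm_num)
    · apply Continuous.intervalIntegrable; fun_prop
    · apply Continuous.intervalIntegrable; fun_prop
    · intro u hu
      have hu2 : π / 3 ≤ arccos u := by
        rw [← arccos_half]
        exact antitone_arccos hu.2
      have hu3 : arccos u ≤ π := arccos_le_pi u
      have h5 : 0 ≤ s * exp (s * u) := mul_nonneg hs (exp_pos _).le
      have h6 : 3 * (arccos u - π / 3) ^ 2 ≤ 4 * π ^ 2 / 3 := by nlinarith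
      nlinarith
  rw [intervalIntegral.integral_const_mul, int_exp] at h1
  linarith

lemma WtPhi_int {ρ : ℝ} (hρ : 0 < 1 - ρ ^ 2) (hρ0 : ρ ≤ 0) :
    Integrable (fun p => Wt ρ p.1 p.2 * Phi3 (-ρ / (1 - ρ ^ 2) * (p.1 * p.2))) QM := by
  have hmeas : Measurable (fun p : ℝ × ℝ => Wt ρ p.1 p.2 *
      Phi3 (-ρ / (1 - ρ ^ 2) * (p.1 * p.2))) := by
    apply Measurable.mul
    · unfold Wt; fun_prop
    · exact Phi3_cont.measurable.comp (by fun_prop)
  refine ((env2_int hρ).const_mul (1 / (3 * (1 - ρ ^ 2)))).mono' hmeas.aestronglyMeasurable ?_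
  filter_upwards [QM_pos] with p hp
  have h12 : 0 < p.1 * p.2 := mul_pos hp.1 hp.2
  have hκ : 0 ≤ -ρ / (1 - ρ ^ 2) := by
    have : 0 ≤ -ρ := by linarith
    positivity
  have hs : 0 ≤ -ρ / (1 - ρ ^ 2) * (p.1 * p.2) := by positivity
  rw [Real.norm_eq_abs, abs_of_nonneg (mul_nonneg (Wt_nonneg hρ hp) (Phi3_nonneg hs))]
  have h1 := mul_le_mul_of_nonneg_left (Phi3_le hs) (Wt_nonneg hρ hp)
  refine h1.trans ?_
  have hl : -ρ / (1 - ρ ^ 2) / 2 ≤ 1 / (2 * (1 - ρ ^ 2)) := by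
    have : -ρ ≤ 1 := by nlinarith
    rw [div_div, mul_comm (1 - ρ ^ 2) 2]
    gcongr
  have h2 := env2_le hρ hl hp.1 hp.2
  have h3 := mul_le_mul_of_nonneg_left h2 (show 0 ≤ 1 / (3 * (1 - ρ ^ 2)) by positivity)
  refine le_trans (le_of_eq ?_) h3
  unfold Wt
  have e2 : -ρ / (1 - ρ ^ 2) * (p.1 * p.2) / 2 = -ρ / (1 - ρ ^ 2) / 2 * (p.1 * p.2) := by ring
  rw [e2]
  field_simp

/-- general comparison: pointwise lower bound gives an integral lower bound -/
theorem planar_ge {f g : Fin 3 → ℝ × ℝ → ℝ} (hf : ∀ i, PFuz (f i)) (hg : ∀ i, PFuz (g i))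
    {ρ : ℝ} (hρ : 0 < 1 - ρ ^ 2) (hρ0 : ρ ≤ 0) {D : ℝ × ℝ → ℝ} (hD : Integrable D QM)
    (hD2 : ∀ p : ℝ × ℝ, 0 < p.1 → 0 < p.2 → Wt ρ p.1 p.2 * Phi3 (-ρ / (1 - ρ ^ 2) * (p.1 * p.2))
      + D p ≤ Wt ρ p.1 p.2 *
        ∑ i, J (-ρ / (1 - ρ ^ 2) * (p.1 * p.2)) (circ (f i) p.1) (circ (g i) p.2)) :
    ENNReal.ofReal ((∫ p, Wt ρ p.1 p.2 * Phi3 (-ρ / (1 - ρ ^ 2) * (p.1 * p.2)) ∂QM)
      + ∫ p, D p ∂QM) ≤
    ∑ i, ∫⁻ x, ∫⁻ y, ENNReal.ofReal (f i x * g i y) * ENNReal.ofReal (Ker ρ x y) := by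
  have h1 : ∑ i, ∫⁻ x, ∫⁻ y, ENNReal.ofReal (f i x * g i y) * ENNReal.ofReal (Ker ρ x y) =
      ∫⁻ p, ENNReal.ofReal (Wt ρ p.1 p.2 *
        ∑ i, J (-ρ / (1 - ρ ^ 2) * (p.1 * p.2)) (circ (f i) p.1) (circ (g i) p.2)) ∂QM := by
    simp only [(polarQ (hf _) (hg _) hρ).2]
    rw [← lintegral_finsetSum' _ (fun i _ => (polarQ (hf i) (hg i) hρ).1)]
    apply lintegral_congr_ae
    filter_upwards [QM_pos] with p hp
    rw [Finset.mul_sum, ENNReal.ofReal_sum_of_nonneg]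
    intro i _
    exact mul_nonneg (Wt_nonneg hρ hp) (J_nonneg (circ_fuz (hf i) _) (circ_fuz (hg i) _) _)
  rw [h1, ← integral_add (WtPhi_int hρ hρ0) hD]
  set G : ℝ × ℝ → ℝ := fun p => Wt ρ p.1 p.2 * Phi3 (-ρ / (1 - ρ ^ 2) * (p.1 * p.2)) + D p with hG
  have hGi : Integrable G QM := (WtPhi_int hρ hρ0).add hD
  have h2 : ENNReal.ofReal (∫ p, G p ∂QM) ≤ ∫⁻ p, ENNReal.ofReal (G p) ∂QM := by
    have hGp : Integrable (fun p => max (G p) 0) QM := hGi.pos_part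
    have h3 : ∫ p, G p ∂QM ≤ ∫ p, max (G p) 0 ∂QM :=
      integral_mono hGi hGp (fun p => le_max_left _ _)
    calc ENNReal.ofReal (∫ p, G p ∂QM) ≤ ENNReal.ofReal (∫ p, max (G p) 0 ∂QM) :=
          ENNReal.ofReal_le_ofReal h3
      _ = ∫⁻ p, ENNReal.ofReal (max (G p) 0) ∂QM :=
          ofReal_integral_eq_lintegral_ofReal hGp
            (Filter.Eventually.of_forall fun p => le_max_right _ _)
      _ = ∫⁻ p, ENNReal.ofReal (G p) ∂QM := by
          apply lintegral_congr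
          intro p
          rcases le_total (G p) 0 with h | h
          · rw [max_eq_right h, ENNReal.ofReal_zero, ENNReal.ofReal_of_nonpos h]
          · rw [max_eq_left h]
  refine h2.trans ?_
  apply lintegral_mono_ae
  filter_upwards [QM_pos] with p hp
  exact ENNReal.ofReal_le_ofReal (hD2 p hp.1 hp.2)

/-- **Planar inequality, diagonal case.** -/
theorem planar_diag {f : Fin 3 → ℝ × ℝ → ℝ} (hf : ∀ i, PFuz (f i)) (hs : ∀ x, ∑ i, f i x = 1)
    {ρ : ℝ} (hρ : 0 < 1 - ρ ^ 2) (hρ0 : ρ ≤ 0) :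
    ENNReal.ofReal (∫ p, Wt ρ p.1 p.2 * Phi3 (-ρ / (1 - ρ ^ 2) * (p.1 * p.2)) ∂QM) ≤
    ∑ i, ∫⁻ x, ∫⁻ y, ENNReal.ofReal (f i x * f i y) * ENNReal.ofReal (Ker ρ x y) := by
  have hpsd := fun i => psd (E := fun r => mean (f i) r - 1/3) hρ hρ0
    ((mean_meas (hf i)).sub_const _) (by
      intro r
      have h1 := mean_nonneg (hf i) r
      have h2 := mean_le_one (hf i) r
      rw [abs_le]; constructor <;> linarith)
  set D : ℝ × ℝ → ℝ := fun p => ∑ i, 4 * π ^ 2 *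
    (Wt ρ p.1 p.2 * hh (-ρ / (1 - ρ ^ 2) * (p.1 * p.2)) *
      ((mean (f i) p.1 - 1/3) * (mean (f i) p.2 - 1/3))) with hDdef
  have hD : Integrable D QM := by
    apply integrable_finsetSum
    intro i _
    exact (hpsd i).1.const_mul _
  have hD0 : 0 ≤ ∫ p, D p ∂QM := by
    rw [hDdef, integral_finsetSum _ (fun i _ => (hpsd i).1.const_mul _)]
    apply Finset.sum_nonneg
    intro i _
    rw [integral_const_mul]
    exact mul_nonneg (by positivity) (hpsd i).2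
  refine le_trans (ENNReal.ofReal_le_ofReal (le_add_of_nonneg_right hD0))
    (planar_ge hf hf hρ hρ0 hD ?_)
  intro p h1 h2
  have h12 : 0 < p.1 * p.2 := mul_pos h1 h2
  have hκ : 0 ≤ -ρ / (1 - ρ ^ 2) := by
    have : 0 ≤ -ρ := by linarith
    positivity
  have hs0 : 0 ≤ -ρ / (1 - ρ ^ 2) * (p.1 * p.2) := by positivity
  have h3 := J_lower_hh (fun i => circ_fuz (hf i) p.1) (fun i => circ_fuz (hf i) p.2)
    (fun i => mean_spec (f i) p.1) (fun i => mean_spec (f i) p.2)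
    (mean_sum hf hs p.1) (mean_sum hf hs p.2) hs0
  have h4 := mul_le_mul_of_nonneg_left h3 (Wt_nonneg hρ ⟨h1, h2⟩)
  refine le_trans (le_of_eq ?_) h4
  rw [hDdef]
  simp only [Fin.sum_univ_three]
  ring

end Pool.Agent.Run7.h126
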