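import Mathlib
import Pool.Agent.Run7.h126.PMain

set_option autoImplicit false

open MeasureTheory Set Real ENNReal

namespace Pool.Agent.Run7.h126

/-- inner product in the plane -/
def dot (a x : ℝ × ℝ) : ℝ := a.1 * x.1 + a.2 * x.2

/-- closed simplex cell -/
def Dcell (a : ℝ × ℝ) : Set (ℝ × ℝ) := {x | 0 ≤ dot a x ∧ x.1 ^ 2 + x.2 ^ 2 ≤ 4 * (dot a x) ^ 2}

lemma dot_cont (a : ℝ × ℝ) : Continuous (dot a) := by unfold dot; fun_prop

lemma Dcell_meas (a : ℝ × ℝ) : MeasurableSet (Dcell a) := by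
  apply MeasurableSet.inter
  · exact measurableSet_le measurable_const (dot_cont a).measurable
  · exact measurableSet_le (by fun_prop) (((dot_cont a).measurable.pow_const 2).const_mul 4)

/-- indicator of a planar set -/
noncomputable def ind (A : Set (ℝ × ℝ)) : ℝ × ℝ → ℝ := A.indicator (fun _ => (1:ℝ))

lemma ind_fuz {A : Set (ℝ × ℝ)} (hA : MeasurableSet A) : PFuz (ind A) where
  meas := measurable_const.indicator hA
  nonneg := fun x => indicator_nonneg (fun _ _ => zero_le_one) x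
  le_one := fun x => by
    unfold ind
    by_cases hx : x ∈ A
    · rw [indicator_of_mem hx]
    · rw [indicator_of_notMem hx]; exact zero_le_one

lemma exists_angle {a : ℝ × ℝ} (ha : a.1 ^ 2 + a.2 ^ 2 = 1) : ∃ φ : ℝ, a = (cos φ, sin φ) := by
  set z : ℂ := ⟨a.1, a.2⟩ with hz
  have hn : ‖z‖ = 1 := by
    rw [Complex.norm_eq_sqrt_sq_add_sq, hz]
    simp only
    rw [ha, sqrt_one]
  have hz0 : z ≠ 0 := by
    intro h
    rw [h, norm_zero] at hn
    exact zero_ne_one hn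
  refine ⟨Complex.arg z, ?_⟩
  rw [Complex.cos_arg hz0, Complex.sin_arg, hn]
  simp [hz]

lemma circ_Dcell {a : ℝ × ℝ} {φ : ℝ} (ha : a = (cos φ, sin φ)) {r : ℝ} (hr : 0 < r) :
    circ (ind (Dcell a)) r = cell φ := by
  ext θ
  unfold circ ind cell
  have e1 : dot a (r * cos θ, r * sin θ) = r * cos (θ - φ) := by
    unfold dot
    rw [ha, cos_sub]
    simp only
    ring
  have e2 : (r * cos θ) ^ 2 + (r * sin θ) ^ 2 = r ^ 2 := by
    have := sin_sq_add_cos_sq θ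
    linear_combination (r ^ 2) * this
  have hiff : (r * cos θ, r * sin θ) ∈ Dcell a ↔ 1/2 ≤ cos (θ - φ) := by
    unfold Dcell
    rw [mem_ofPred_eq, e1, e2]
    constructor
    · rintro ⟨h1, h2⟩
      have h3 : 0 ≤ cos (θ - φ) := nonneg_of_mul_nonneg_right h1 hr
      have h4 : (1/2) ^ 2 ≤ cos (θ - φ) ^ 2 := by
        have h5 : r ^ 2 * 1 ≤ r ^ 2 * (4 * cos (θ - φ) ^ 2) := by
          calc r ^ 2 * 1 = r ^ 2 := mul_one _
            _ ≤ 4 * (r * cos (θ - φ)) ^ 2 := h2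
            _ = _ := by ring
        have h6 := le_of_mul_le_mul_left h5 (by positivity)
        linarith
      exact le_of_sq_le_sq h4 h3
    · intro h
      refine ⟨by positivity, ?_⟩
      have h4 : (1/2) ^ 2 ≤ cos (θ - φ) ^ 2 := pow_le_pow_left₀ (by norm_num) h 2
      have h5 : 0 ≤ r ^ 2 := sq_nonneg r
      nlinarith
  by_cases h : 1/2 ≤ cos (θ - φ)
  · rw [if_pos h, indicator_of_mem (hiff.mpr h)]
  · rw [if_neg h, indicator_of_notMem (fun hh => h (hiff.mp hh))]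

/-- **Upper bound for the simplex cells.** -/
theorem simplex_le {a : Fin 3 → ℝ × ℝ} (ha : ∀ i, (a i).1 ^ 2 + (a i).2 ^ 2 = 1)
    {ρ : ℝ} (hρ : 0 < 1 - ρ ^ 2) (hρ0 : ρ ≤ 0) :
    ∑ i, ∫⁻ x, ∫⁻ y, ENNReal.ofReal (ind (Dcell (a i)) x * ind (Dcell (a i)) y) *
      ENNReal.ofReal (Ker ρ x y) ≤
    ENNReal.ofReal (∫ p, Wt ρ p.1 p.2 * Phi3 (-ρ / (1 - ρ ^ 2) * (p.1 * p.2)) ∂QM) := by
  have hκ : 0 ≤ -ρ / (1 - ρ ^ 2) := by
    have : 0 ≤ -ρ := by linarith
    positivity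
  rw [ofReal_integral_eq_lintegral_ofReal (WtPhi_int hρ hρ0)]
  · have hf := fun i => ind_fuz (Dcell_meas (a i))
    simp only [(polarQ (hf _) (hf _) hρ).2]
    rw [← lintegral_finsetSum' _ (fun i _ => (polarQ (hf i) (hf i) hρ).1)]
    apply lintegral_mono_ae
    filter_upwards [QM_pos] with p hp
    have h12 : 0 < p.1 * p.2 := mul_pos hp.1 hp.2
    have hs0 : 0 ≤ -ρ / (1 - ρ ^ 2) * (p.1 * p.2) := by positivity
    rw [← ENNReal.ofReal_sum_of_nonneg]
    · apply ENNReal.ofReal_le_ofReal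
      rw [← Finset.mul_sum]
      apply mul_le_mul_of_nonneg_left _ (Wt_nonneg hρ hp)
      have hi : ∀ i, 3 * J (-ρ / (1 - ρ ^ 2) * (p.1 * p.2)) (circ (ind (Dcell (a i))) p.1)
          (circ (ind (Dcell (a i))) p.2) ≤ Phi3 (-ρ / (1 - ρ ^ 2) * (p.1 * p.2)) := by
        intro i
        obtain ⟨φ, hφ⟩ := exists_angle (ha i)
        rw [circ_Dcell hφ hp.1, circ_Dcell hφ hp.2]
        exact J_cell_le φ hs0
      have h0 := hi 0
      have h1 := hi 1
      have h2 := hi 2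
      rw [Fin.sum_univ_three]
      linarith
    · intro i _
      exact mul_nonneg (Wt_nonneg hρ hp) (J_nonneg (circ_fuz (hf i) _) (circ_fuz (hf i) _) _)
  · filter_upwards [QM_pos] with p hp
    have h12 : 0 < p.1 * p.2 := mul_pos hp.1 hp.2
    have hs0 : 0 ≤ -ρ / (1 - ρ ^ 2) * (p.1 * p.2) := by positivity
    exact mul_nonneg (Wt_nonneg hρ hp) (Phi3_nonneg hs0)

/-- ties -/
def Tie (a : Fin 3 → ℝ × ℝ) : Set (ℝ × ℝ) := {x | ∃ i j, i ≠ j ∧ dot (a i) x = dot (a j) x}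

lemma hyper_null {c : ℝ × ℝ} (hc : c ≠ 0) : volume {x : ℝ × ℝ | dot c x = 0} = 0 := by
  set L : ℝ × ℝ →ₗ[ℝ] ℝ := c.1 • LinearMap.fst ℝ ℝ ℝ + c.2 • LinearMap.snd ℝ ℝ ℝ with hL
  have h1 : {x : ℝ × ℝ | dot c x = 0} = (LinearMap.ker L : Set (ℝ × ℝ)) := by
    ext x
    simp [dot, hL]
  rw [h1]
  apply Measure.addHaar_submodule
  rw [Ne, LinearMap.ker_eq_top]
  intro h
  apply hc
  have h2 : L (1, 0) = 0 := by rw [h]; rfl
  have h3 : L (0, 1) = 0 := by rw [h]; rfl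
  simp [hL] at h2 h3
  exact Prod.ext h2 h3

lemma Tie_null {a : Fin 3 → ℝ × ℝ} (ha : ∀ i, dot (a i) (a i) = 1)
    (hab : ∀ i j, i ≠ j → dot (a i) (a j) = -1/2) : volume (Tie a) = 0 := by
  have h1 : Tie a = ⋃ i, ⋃ j, {x : ℝ × ℝ | i ≠ j ∧ dot (a i) x = dot (a j) x} := by
    ext x
    simp [Tie]
  rw [h1, measure_iUnion_null_iff]
  intro i
  rw [measure_iUnion_null_iff]
  intro j
  by_cases hij : i = j
  · have : {x : ℝ × ℝ | i ≠ j ∧ dot (a i) x = dot (a j) x} = ∅ := by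
      ext x
      simp [hij]
    rw [this, measure_empty]
  · have hc : (a i - a j) ≠ 0 := by
      intro h
      have h2 : a i = a j := sub_eq_zero.mp h
      have h3 := hab i j hij
      rw [← h2, ha i] at h3
      norm_num at h3
    refine measure_mono_null ?_ (hyper_null hc)
    intro x hx
    have := hx.2
    show dot (a i - a j) x = 0
    unfold dot at this ⊢
    simp only [Prod.fst_sub, Prod.snd_sub]
    linarith

/-- the sum of the vectors vanishes -/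
lemma sum_zero {a : Fin 3 → ℝ × ℝ} (ha : ∀ i, dot (a i) (a i) = 1)
    (hab : ∀ i j, i ≠ j → dot (a i) (a j) = -1/2) (x : ℝ × ℝ) :
    dot (a 0) x + dot (a 1) x + dot (a 2) x = 0 := by
  have h0 := ha 0
  have h1 := ha 1
  have h2 := ha 2
  have h01 := hab 0 1 (by decide)
  have h02 := hab 0 2 (by decide)
  have h12 := hab 1 2 (by decide)
  unfold dot at *
  have hs : ((a 0).1 + (a 1).1 + (a 2).1) ^ 2 + ((a 0).2 + (a 1).2 + (a 2).2) ^ 2 = 0 := by
    linear_combination h0 + h1 + h2 + 2 * h01 + 2 * h02 + 2 * h12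
  have s1 : (a 0).1 + (a 1).1 + (a 2).1 = 0 := by
    have : ((a 0).1 + (a 1).1 + (a 2).1) ^ 2 = 0 := by
      have := sq_nonneg ((a 0).1 + (a 1).1 + (a 2).1)
      have := sq_nonneg ((a 0).2 + (a 1).2 + (a 2).2)
      linarith
    exact pow_eq_zero_iff (two_ne_zero) |>.mp this
  have s2 : (a 0).2 + (a 1).2 + (a 2).2 = 0 := by
    have : ((a 0).2 + (a 1).2 + (a 2).2) ^ 2 = 0 := by
      have := sq_nonneg ((a 0).1 + (a 1).1 + (a 2).1)
      have := sq_nonneg ((a 0).2 + (a 1).2 + (a 2).2)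
      linarith
    exact pow_eq_zero_iff (two_ne_zero) |>.mp this
  linear_combination x.1 * s1 + x.2 * s2

/-- norm in terms of two coordinates -/
lemma norm_eq {u v : ℝ × ℝ} (hu : dot u u = 1) (hv : dot v v = 1) (huv : dot u v = -1/2)
    (x : ℝ × ℝ) : 3 * (x.1 ^ 2 + x.2 ^ 2) = 4 * ((dot u x) ^ 2 + (dot v x) ^ 2 + dot u x * dot v x) := by
  have hdet : (u.1 * v.2 - u.2 * v.1) ^ 2 = 3/4 := by
    have : (u.1 * v.2 - u.2 * v.1) ^ 2 = dot u u * dot v v - (dot u v) ^ 2 := by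
      unfold dot; ring
    rw [this, hu, hv, huv]; norm_num
  have h1 : (u.1 * v.2 - u.2 * v.1) ^ 2 * (x.1 ^ 2 + x.2 ^ 2) =
      dot v v * (dot u x) ^ 2 + dot u u * (dot v x) ^ 2 - 2 * dot u v * (dot u x * dot v x) := by
    unfold dot; ring
  rw [hdet, hu, hv, huv] at h1
  linarith

lemma mem_Dcell {a : Fin 3 → ℝ × ℝ} (ha : ∀ i, dot (a i) (a i) = 1)
    (hab : ∀ i j, i ≠ j → dot (a i) (a j) = -1/2) {x : ℝ × ℝ} {i : Fin 3}
    (hmax : ∀ j, dot (a j) x ≤ dot (a i) x) : x ∈ Dcell (a i) := by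
  have hs := sum_zero ha hab x
  have key : ∀ i j k : Fin 3, i ≠ j → dot (a i) x + dot (a j) x + dot (a k) x = 0 →
      dot (a j) x ≤ dot (a i) x → dot (a k) x ≤ dot (a i) x → x ∈ Dcell (a i) := by
    intro i j k hij hsum h1 h2
    have h3 := norm_eq (ha i) (ha j) (hab i j hij) x
    have h4 : 0 ≤ dot (a i) x := by linarith
    refine ⟨h4, ?_⟩
    have h5 : -2 * dot (a i) x ≤ dot (a j) x := by linarith
    nlinarith
  fin_cases i
  · exact key 0 1 2 (by decide) hs (hmax 1) (hmax 2)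
  · exact key 1 0 2 (by decide) (by linarith) (hmax 0) (hmax 2)
  · exact key 2 0 1 (by decide) (by linarith) (hmax 0) (hmax 1)

lemma B_sub {a : Fin 3 → ℝ × ℝ} (ha : ∀ i, dot (a i) (a i) = 1)
    (hab : ∀ i j, i ≠ j → dot (a i) (a j) = -1/2) {B : Fin 3 → Set (ℝ × ℝ)}
    (hB : ∀ x, ∃! i, x ∈ B i) (hsub : ∀ i, {x | ∀ j, j ≠ i → dot (a j) x < dot (a i) x} ⊆ B i)
    {x : ℝ × ℝ} {i : Fin 3} (hx : x ∈ B i) (hT : x ∉ Tie a) : x ∈ Dcell (a i) := by
  obtain ⟨m, hm⟩ := Finite.exists_max (fun i => dot (a i) x)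
  have hmB : x ∈ B m := by
    apply hsub m
    intro j hj
    refine lt_of_le_of_ne (hm j) ?_
    intro h
    exact hT ⟨j, m, hj, h⟩
  have him : i = m := (hB x).unique hx hmB
  subst him
  exact mem_Dcell ha hab hm

/-- planar stability of a set -/
lemma stab_eq {A : Set (ℝ × ℝ)} (hA : MeasurableSet A) {ρ σ : ℝ} (hσ : σ ≠ 0)
    (hρ : σ ^ 2 = 1 - ρ ^ 2) :
    (g2.prod g2) {p : (ℝ × ℝ) × (ℝ × ℝ) | p.1 ∈ A ∧
      (ρ * p.1.1 + σ * p.2.1, ρ * p.1.2 + σ * p.2.2) ∈ A} =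
    ∫⁻ x, ∫⁻ y, ENNReal.ofReal (ind A x * ind A y) * ENNReal.ofReal (Ker ρ x y) := by
  have hmap : Measurable (fun p : (ℝ × ℝ) × (ℝ × ℝ) =>
      ((ρ * p.1.1 + σ * p.2.1, ρ * p.1.2 + σ * p.2.2) : ℝ × ℝ)) := by fun_prop
  have hE : MeasurableSet {p : (ℝ × ℝ) × (ℝ × ℝ) | p.1 ∈ A ∧
      (ρ * p.1.1 + σ * p.2.1, ρ * p.1.2 + σ * p.2.2) ∈ A} :=
    (measurable_fst hA).inter (hmap hA)
  have hm : Measurable (Function.uncurry fun (x y : ℝ × ℝ) => ENNReal.ofReal (ind A x * ind A y)) := by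
    apply Measurable.ennreal_ofReal
    exact ((ind_fuz hA).meas.comp measurable_fst).mul ((ind_fuz hA).meas.comp measurable_snd)
  rw [← law hσ hρ hm, Measure.prod_apply hE]
  apply lintegral_congr
  intro x
  rw [← lintegral_indicator_one (measurable_prodMk_left hE)]
  apply lintegral_congr
  intro z
  unfold ind
  by_cases h1 : x ∈ A
  · by_cases h2 : (ρ * x.1 + σ * z.1, ρ * x.2 + σ * z.2) ∈ A
    · have hz : z ∈ Prod.mk x ⁻¹' {p : (ℝ × ℝ) × (ℝ × ℝ) | p.1 ∈ A ∧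
          (ρ * p.1.1 + σ * p.2.1, ρ * p.1.2 + σ * p.2.2) ∈ A} := ⟨h1, h2⟩
      rw [indicator_of_mem h1, indicator_of_mem h2, indicator_of_mem hz]
      simp
    · rw [indicator_of_notMem h2, indicator_of_notMem (fun h => h2 h.2)]
      simp
  · rw [indicator_of_notMem h1, indicator_of_notMem (fun h => h1 h.1)]
    simp

/-- **The planar theorem in coordinates, nondegenerate case.** -/
theorem planar_main {a : Fin 3 → ℝ × ℝ} (ha : ∀ i, dot (a i) (a i) = 1)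
    (hab : ∀ i j, i ≠ j → dot (a i) (a j) = -1/2) {A B : Fin 3 → Set (ℝ × ℝ)}
    (hAm : ∀ i, MeasurableSet (A i)) (hA : ∀ x, ∃! i, x ∈ A i)
    (hBm : ∀ i, MeasurableSet (B i)) (hB : ∀ x, ∃! i, x ∈ B i)
    (hsub : ∀ i, {x | ∀ j, j ≠ i → dot (a j) x < dot (a i) x} ⊆ B i)
    {ρ σ : ℝ} (hσ : σ ≠ 0) (hρ : σ ^ 2 = 1 - ρ ^ 2) (hρ0 : ρ ≤ 0) :
    ∑ i, (g2.prod g2) {p : (ℝ × ℝ) × (ℝ × ℝ) | p.1 ∈ B i ∧
      (ρ * p.1.1 + σ * p.2.1, ρ * p.1.2 + σ * p.2.2) ∈ B i} ≤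
    ∑ i, (g2.prod g2) {p : (ℝ × ℝ) × (ℝ × ℝ) | p.1 ∈ A i ∧
      (ρ * p.1.1 + σ * p.2.1, ρ * p.1.2 + σ * p.2.2) ∈ A i} := by
  have hρ1 : 0 < 1 - ρ ^ 2 := by rw [← hρ]; positivity
  simp only [stab_eq (hAm _) hσ hρ, stab_eq (hBm _) hσ hρ]
  have hsum : ∀ x, ∑ i, ind (A i) x = 1 := by
    intro x
    obtain ⟨i, hi, huniq⟩ := hA x
    rw [Finset.sum_eq_single i]
    · unfold ind; rw [indicator_of_mem hi]
    · intro j _ hj
      unfold ind
      rw [indicator_of_notMem]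
      intro h
      exact hj (huniq j h)
    · intro h; exact absurd (Finset.mem_univ i) h
  refine le_trans ?_ (planar_diag (fun i => ind_fuz (hAm i)) hsum hρ1 hρ0)
  refine le_trans ?_ (simplex_le (a := a) (fun i => by
    have := ha i; unfold dot at this; rw [← this]; ring) hρ1 hρ0)
  apply Finset.sum_le_sum
  intro i _
  have hTn : ∀ᵐ x : ℝ × ℝ, x ∉ Tie a := by
    exact measure_eq_zero_iff_ae_notMem.mp (Tie_null ha hab)
  have hle : ∀ x, x ∉ Tie a → ind (B i) x ≤ ind (Dcell (a i)) x := by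
    intro x hx
    unfold ind
    by_cases h : x ∈ B i
    · rw [indicator_of_mem h, indicator_of_mem (B_sub ha hab hB hsub h hx)]
    · rw [indicator_of_notMem h]
      exact indicator_nonneg (fun _ _ => zero_le_one) x
  apply lintegral_mono_ae
  filter_upwards [hTn] with x hx
  apply lintegral_mono_ae
  filter_upwards [hTn] with y hy
  gcongr
  · exact (ind_fuz (hBm i)).nonneg y
  · exact (ind_fuz (Dcell_meas _)).nonneg x
  · exact hle x hx
  · exact hle y hy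

end Pool.Agent.Run7.h126
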