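import Mathlib
import Pool.Agent.Run7.h126.Alg

set_option autoImplicit false

namespace Pool.Agent.Run7.h126

/-- the difference defect -/
noncomputable def Vc (c v : ℝ) : ℝ := (max (|v| - c) 0) ^ 2

lemma Vc_neg (c v : ℝ) : Vc c (-v) = Vc c v := by unfold Vc; rw [abs_neg]

lemma Tc_low {c s : ℝ} (hc1 : c ≤ 2/3) (h : s ≤ 1/3) : Tc c s = (max (c - (s + 2/3)) 0) ^ 2 := by
  unfold Tc
  rw [max_eq_right (by linarith : s - 4/3 + c ≤ 0)]
  rw [show c - 2/3 - s = c - (s + 2/3) by ring]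
  ring

lemma Tc_high {c s : ℝ} (hc1 : c ≤ 2/3) (h : 1/3 ≤ s) : Tc c s = (max (c - (4/3 - s)) 0) ^ 2 := by
  unfold Tc
  rw [max_eq_right (by linarith : c - 2/3 - s ≤ 0)]
  rw [show s - 4/3 + c = c - (4/3 - s) by ring]
  ring

lemma sq_max_le {x y : ℝ} (h : 0 ≤ y) (h1 : x ≤ y) : (max x 0) ^ 2 ≤ y ^ 2 :=
  pow_le_pow_left₀ (le_max_right _ _) (max_le h1 h) 2

lemma sq_max_le_sq (x : ℝ) : (max x 0) ^ 2 ≤ x ^ 2 := by
  rcases le_total x 0 with h | h
  · rw [max_eq_right h]; nlinarith [sq_nonneg x]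
  · rw [max_eq_left h]

/-- the lone part -/
lemma lone {c a w : ℝ} (hc0 : 0 ≤ c) (hc1 : c ≤ 2/3) (hw : w ≤ 2/3 - a) :
    (max (c - (2/3 - a)) 0) ^ 2 + (max (w - c) 0) ^ 2 ≤ (3/2 * c * a - (1 - 3/2 * c) * w) ^ 2 := by
  have he : 0 ≤ 1 - 3/2 * c := by linarith
  rcases le_total w c with h1 | h1
  · rw [max_eq_right (by linarith : w - c ≤ 0)]
    rcases le_total c (2/3 - a) with h2 | h2
    · rw [max_eq_right (by linarith : c - (2/3 - a) ≤ 0)]
      nlinarith [sq_nonneg (3/2 * c * a - (1 - 3/2 * c) * w)]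
    · rw [max_eq_left (by linarith : 0 ≤ c - (2/3 - a))]
      have f1 : 0 ≤ (1 - 3/2 * c) * ((2/3 - a) - w) := mul_nonneg he (by linarith)
      have f2 : 0 ≤ 2 * c - (2/3 - a) * (1 + 3/2 * c) - (1 - 3/2 * c) * w := by nlinarith
      nlinarith [mul_nonneg f1 f2]
  · rw [max_eq_left (by linarith : 0 ≤ w - c), max_eq_right (by linarith : c - (2/3 - a) ≤ 0)]
    have f1 : w - c ≤ (1 - 3/2 * c) * w - 3/2 * c * a := by nlinarith
    have f2 := pow_le_pow_left₀ (by linarith : 0 ≤ w - c) f1 2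
    nlinarith

/-- one large difference -/
lemma mx1 {c P Q : ℝ} (hc0 : 0 ≤ c) (hc1 : c ≤ 2/3) (hP : c ≤ P) (hP1 : P ≤ 1)
    (hQ0 : 0 ≤ Q) (hs : P + Q ≤ 3 * c) :
    (P - c) ^ 2 ≤ 2/3 * (1 - 3/2 * c ^ 2) * (P ^ 2 - P * Q + Q ^ 2) := by
  have hk : 0 ≤ 1 - 3/2 * c ^ 2 := by nlinarith
  rcases le_total P (2 * c) with h | h
  · have hG : 0 ≤ c ^ 2 * (1 - 3/4 * P ^ 2) - 1/2 * (2 * c - P) ^ 2 := by
      rcases le_total c (1/2) with h2 | h2
      · have e : c ^ 2 * (1 - 3/4 * P ^ 2) - 1/2 * (2 * c - P) ^ 2 =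
          (3/4 * c ^ 2 + 1/2) * ((P - c) * (2 * c - P)) + c * (1/2 - 3/4 * c ^ 2) * (2 * c - P)
          + c * (1 - 3 * c ^ 2) * (P - c) := by ring
        rw [e]
        have g1 : 0 ≤ 1/2 - 3/4 * c ^ 2 := by nlinarith
        have g2 : 0 ≤ 1 - 3 * c ^ 2 := by nlinarith
        have g3 : 0 ≤ P - c := by linarith
        have g4 : 0 ≤ 2 * c - P := by linarith
        positivity
      · have e : (c ^ 2 * (1 - 3/4 * P ^ 2) - 1/2 * (2 * c - P) ^ 2) * (1 - c) =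
          (3/4 * c ^ 2 + 1/2) * ((P - c) * (1 - P)) * (1 - c)
          + c ^ 2 * (1/2 - 3/4 * c ^ 2) * (1 - P)
          + (-(7/4) * c ^ 2 + 2 * c - 1/2) * (P - c) := by ring
        have g1 : 0 ≤ 1/2 - 3/4 * c ^ 2 := by nlinarith
        have g2 : 0 ≤ -(7/4) * c ^ 2 + 2 * c - 1/2 := by nlinarith
        have g3 : 0 ≤ P - c := by linarith
        have g4 : 0 ≤ 1 - P := by linarith
        have g5 : 0 < 1 - c := by linarith
        have : 0 ≤ (c ^ 2 * (1 - 3/4 * P ^ 2) - 1/2 * (2 * c - P) ^ 2) * (1 - c) := by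
          rw [e]; positivity
        exact nonneg_of_mul_nonneg_left this g5
    have h3 : 3/4 * P ^ 2 ≤ P ^ 2 - P * Q + Q ^ 2 := by nlinarith [sq_nonneg (Q - P / 2)]
    have h4 := mul_le_mul_of_nonneg_left h3 hk
    nlinarith
  · have hQ : Q ≤ 3 * c - P := by linarith
    have h3 : P ^ 2 - P * (3 * c - P) + (3 * c - P) ^ 2 ≤ P ^ 2 - P * Q + Q ^ 2 := by
      nlinarith
    have h4 := mul_le_mul_of_nonneg_left h3 hk
    have h5 : P ^ 2 - P * (3 * c - P) + (3 * c - P) ^ 2 ≤ 1 := by nlinarith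
    have h6 := mul_nonneg (sq_nonneg c) (sub_nonneg.mpr h5)
    nlinarith [sq_nonneg (2 * c - P)]

/-- two large differences -/
lemma mx2 {c P Q : ℝ} (hc0 : 0 ≤ c) (hc1 : c ≤ 2/3) (hP : c ≤ P) (hP1 : P ≤ 1)
    (hQ : c ≤ Q) (hQ1 : Q ≤ 1) (hs : P + Q ≤ 3 * c) :
    (P - c) ^ 2 + (Q - c) ^ 2 ≤ 2/3 * (1 - 3/2 * c ^ 2) * (P ^ 2 - P * Q + Q ^ 2) := by
  set s := P + Q - 2 * c with hsdef
  have hs0 : 0 ≤ s := by rw [hsdef]; linarith
  have hs1 : s ≤ c := by rw [hsdef]; linarith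
  have h1 : (P - Q) ^ 2 ≤ s * (2 - 2 * c - s) := by
    rw [hsdef]
    nlinarith [mul_nonneg (sub_nonneg.mpr hP) (sub_nonneg.mpr hQ1),
      mul_nonneg (sub_nonneg.mpr hQ) (sub_nonneg.mpr hP1),
      mul_nonneg (sub_nonneg.mpr hP) (sub_nonneg.mpr hP1),
      mul_nonneg (sub_nonneg.mpr hQ) (sub_nonneg.mpr hQ1),
      mul_nonneg (sub_nonneg.mpr hP) (sub_nonneg.mpr hQ)]
  have h2 : P ^ 2 - P * Q + Q ^ 2 = ((s + 2 * c) ^ 2 + 3 * (P - Q) ^ 2) / 4 := by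
    rw [hsdef]; ring
  have h3 : P ^ 2 - P * Q + Q ^ 2 ≤ c ^ 2 - 1/2 * c * s + 3/2 * s - 1/2 * s ^ 2 := by
    rw [h2]; nlinarith
  have e : 2/3 * (1 - 3/2 * c ^ 2) * (P ^ 2 - P * Q + Q ^ 2) - ((P - c) ^ 2 + (Q - c) ^ 2) =
      c ^ 2 * (1 - (P ^ 2 - P * Q + Q ^ 2)) - 1/3 * (c - s) ^ 2 := by
    rw [hsdef]; ring
  have h4 : c ^ 2 * (1 - (c ^ 2 - 1/2 * c * s + 3/2 * s - 1/2 * s ^ 2)) ≤
      c ^ 2 * (1 - (P ^ 2 - P * Q + Q ^ 2)) :=
    mul_le_mul_of_nonneg_left (by linarith) (sq_nonneg c)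
  have h5 : 0 ≤ c ^ 2 * (1 - (c ^ 2 - 1/2 * c * s + 3/2 * s - 1/2 * s ^ 2)) - 1/3 * (c - s) ^ 2 := by
    have e2 : c ^ 2 * (1 - (c ^ 2 - 1/2 * c * s + 3/2 * s - 1/2 * s ^ 2)) - 1/3 * (c - s) ^ 2 =
      (1/3 - 1/2 * c ^ 2) * (s * (c - s)) + c * (2/3 - c ^ 2) * (c - s)
      + c * (1 - 3/2 * c) * s := by ring
    rw [e2]
    have g1 : 0 ≤ 1/3 - 1/2 * c ^ 2 := by nlinarith
    have g2 : 0 ≤ 2/3 - c ^ 2 := by nlinarith
    have g3 : 0 ≤ 1 - 3/2 * c := by linarith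
    have g4 : 0 ≤ c - s := by linarith
    positivity
  linarith

/-- the pair part, after reduction -/
lemma pair {c P Q D M1 M2 : ℝ} (hc0 : 0 ≤ c) (hc1 : c ≤ 2/3) (hP0 : 0 ≤ P) (hQ0 : 0 ≤ Q)
    (hP : P ≤ M1) (hQ : Q ≤ M2) (hM1 : M1 ≤ 1) (hM2 : M2 ≤ 1)
    (hI : P + Q - 3 * c ≤ -D)
    (hII : M2 < c → c ≤ M1 → 3 * (c - M2) ≤ D ∧ P + Q ≤ 3 * c)
    (hIII : M1 < c → M2 < c ∧ 3 * c - (M1 + M2) ≤ D) :
    (max (c - M1) 0) ^ 2 + (max (c - M2) 0) ^ 2 + (max (P - c) 0) ^ 2 + (max (Q - c) 0) ^ 2 ≤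
      1/3 * D ^ 2 + 2/3 * (1 - 3/2 * c ^ 2) * (P ^ 2 - P * Q + Q ^ 2) := by
  have hk : 0 ≤ 1 - 3/2 * c ^ 2 := by nlinarith
  have hW0 : 0 ≤ P ^ 2 - P * Q + Q ^ 2 := by nlinarith [sq_nonneg (P - Q)]
  have hkW : 0 ≤ 2/3 * (1 - 3/2 * c ^ 2) * (P ^ 2 - P * Q + Q ^ 2) := by positivity
  have hD2 := sq_nonneg D
  rcases lt_or_ge M1 c with h1 | h1
  · obtain ⟨h2, h3⟩ := hIII h1
    rw [max_eq_left (by linarith only [h1] : 0 ≤ c - M1), max_eq_left (by linarith only [h2] : 0 ≤ c - M2),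
      max_eq_right (by linarith only [hP, h1] : P - c ≤ 0),
      max_eq_right (by linarith only [hQ, h2] : Q - c ≤ 0)]
    have h4 : 0 ≤ 3 * c - (M1 + M2) := by linarith only [h1, h2, hc0]
    have h5 := pow_le_pow_left₀ h4 h3 2
    have hM10 : 0 ≤ M1 := by linarith only [hP, hP0]
    have hM20 : 0 ≤ M2 := by linarith only [hQ, hQ0]
    have h6 : M1 ^ 2 + M2 ^ 2 - M1 * M2 ≤ c ^ 2 := by
      rcases le_total M1 M2 with h | h
      · nlinarith only [h, h1, h2, hM10, hM20, hc0]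
      · nlinarith only [h, h1, h2, hM10, hM20, hc0]
    have e : 1/3 * (3 * c - (M1 + M2)) ^ 2 - (c - M1) ^ 2 - (c - M2) ^ 2 =
        c ^ 2 - 2/3 * (M1 ^ 2 + M2 ^ 2 - M1 * M2) := by ring
    have hc2 := sq_nonneg c
    have z : (0:ℝ) ^ 2 = 0 := by norm_num
    rw [z]
    linarith only [e, hc2, h6, h5, hkW]
  · rcases lt_or_ge M2 c with h2 | h2
    · obtain ⟨h3, h4⟩ := hII h2 h1
      rw [max_eq_right (by linarith only [h1] : c - M1 ≤ 0), max_eq_left (by linarith only [h2] : 0 ≤ c - M2),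
        max_eq_right (by linarith only [hQ, h2] : Q - c ≤ 0)]
      have h5 : 0 ≤ 3 * (c - M2) := by linarith only [h2]
      have h6 := pow_le_pow_left₀ h5 h3 2
      have h7 : (max (P - c) 0) ^ 2 ≤ 2/3 * (1 - 3/2 * c ^ 2) * (P ^ 2 - P * Q + Q ^ 2) := by
        rcases le_total P c with h8 | h8
        · rw [max_eq_right (by linarith only [h8] : P - c ≤ 0)]
          simpa using hkW
        · rw [max_eq_left (by linarith only [h8] : 0 ≤ P - c)]
          exact mx1 hc0 hc1 h8 (by linarith only [hP, hM1]) hQ0 h4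
      have h9 := sq_nonneg (c - M2)
      have z : (0:ℝ) ^ 2 = 0 := by norm_num
      have e : (3 * (c - M2)) ^ 2 = 9 * (c - M2) ^ 2 := by ring
      rw [e] at h6
      rw [z]
      linarith only [h6, h7, h9]
    · rw [max_eq_right (by linarith only [h1] : c - M1 ≤ 0), max_eq_right (by linarith only [h2] : c - M2 ≤ 0)]
      have z : (0:ℝ) ^ 2 = 0 := by norm_num
      rw [z]
      rcases le_total (3 * c) (P + Q) with h3 | h3
      · have h5 := pow_le_pow_left₀ (by linarith only [h3] : 0 ≤ P + Q - 3 * c) hI 2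
        have h6 : P ^ 2 - P * Q + Q ^ 2 ≤ 1 := by
          rcases le_total P Q with h | h
          · nlinarith only [h, hP0, hQ0, hQ, hM2]
          · nlinarith only [h, hP0, hQ0, hP, hM1]
        have h7 := mul_nonneg (sq_nonneg c) (sub_nonneg.mpr h6)
        have h8 := sq_max_le_sq (P - c)
        have h9 := sq_max_le_sq (Q - c)
        have h10 : (-D) ^ 2 = D ^ 2 := by ring
        rw [h10] at h5
        have e : 1/3 * (P + Q - 3 * c) ^ 2 + 2/3 * (1 - 3/2 * c ^ 2) * (P ^ 2 - P * Q + Q ^ 2) =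
          (P - c) ^ 2 + (Q - c) ^ 2 + c ^ 2 * (1 - (P ^ 2 - P * Q + Q ^ 2)) := by ring
        linarith only [e, h5, h7, h8, h9]
      · have key : (max (P - c) 0) ^ 2 + (max (Q - c) 0) ^ 2 ≤
            2/3 * (1 - 3/2 * c ^ 2) * (P ^ 2 - P * Q + Q ^ 2) := by
          rcases le_total P c with h8 | h8
          · rw [max_eq_right (by linarith only [h8] : P - c ≤ 0)]
            rcases le_total Q c with h9 | h9
            · rw [max_eq_right (by linarith only [h9] : Q - c ≤ 0)]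
              simpa using hkW
            · rw [max_eq_left (by linarith only [h9] : 0 ≤ Q - c)]
              have := mx1 hc0 hc1 h9 (by linarith only [hQ, hM2]) hP0 (by linarith only [h3])
              have e : Q ^ 2 - Q * P + P ^ 2 = P ^ 2 - P * Q + Q ^ 2 := by ring
              rw [e] at this
              linarith only [this, z]
          · rw [max_eq_left (by linarith only [h8] : 0 ≤ P - c)]
            rcases le_total Q c with h9 | h9
            · rw [max_eq_right (by linarith only [h9] : Q - c ≤ 0)]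
              have := mx1 hc0 hc1 h8 (by linarith only [hP, hM1]) hQ0 h3
              linarith only [this, z]
            · rw [max_eq_left (by linarith only [h9] : 0 ≤ Q - c)]
              exact mx2 hc0 hc1 h8 (by linarith only [hP, hM1]) h9 (by linarith only [hQ, hM2]) h3
        linarith only [key, hD2]

/-- the reduction of the pair part to opposite signs -/
lemma pair_red {c x V1 V2 P Q : ℝ} (hc0 : 0 ≤ c) (hc1 : c ≤ 2/3) (hx : 0 ≤ x)
    (hP : |V1| = P) (hQ : |V2| = Q) :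
    1/3 * (3/2 * c * x - (1 - 3/2 * c) * (P + Q)) ^ 2 +
        2/3 * (1 - 3/2 * c ^ 2) * (P ^ 2 - P * Q + Q ^ 2) ≤
      1/3 * (3/2 * c * x) ^ 2
      - 2/3 * ((1 - 3/2 * c) * (3/2 * c * x) * (V1 - V2)) + (1 - c) ^ 2 * (V1 ^ 2 + V2 ^ 2)
      + c * (1 - 5/4 * c) * (V1 + V2) ^ 2 := by
  have he : 0 ≤ 1 - 3/2 * c := by linarith only [hc1]
  have hn : 0 ≤ c * (1 - 5/4 * c) := mul_nonneg hc0 (by linarith only [hc1])
  have hab : V1 - V2 ≤ P + Q := by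
    have := le_abs_self V1
    have := neg_abs_le V2
    linarith
  have hX : 0 ≤ 3/2 * c * x := by positivity
  have r1 : (1 - 3/2 * c) * (3/2 * c * x) * (V1 - V2) ≤
      (1 - 3/2 * c) * (3/2 * c * x) * (P + Q) :=
    mul_le_mul_of_nonneg_left hab (mul_nonneg he hX)
  have w1 : P ^ 2 = V1 ^ 2 := by rw [← hP, sq_abs]
  have w2 : Q ^ 2 = V2 ^ 2 := by rw [← hQ, sq_abs]
  have r2 : (P - Q) ^ 2 ≤ (V1 + V2) ^ 2 := by
    have := abs_abs_sub_abs_le_abs_sub V1 (-V2)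
    rw [abs_neg, sub_neg_eq_add, hP, hQ] at this
    have h2 := pow_le_pow_left₀ (abs_nonneg _) this 2
    rwa [sq_abs, sq_abs] at h2
  have r3 := mul_le_mul_of_nonneg_left r2 hn
  have e2 : 1/3 * (3/2 * c * x - (1 - 3/2 * c) * (P + Q)) ^ 2 +
      2/3 * (1 - 3/2 * c ^ 2) * (P ^ 2 - P * Q + Q ^ 2) =
      1/3 * (3/2 * c * x) ^ 2 - 2/3 * ((1 - 3/2 * c) * (3/2 * c * x) * (P + Q))
      + (1 - c) ^ 2 * (P ^ 2 + Q ^ 2) + c * (1 - 5/4 * c) * (P - Q) ^ 2 := by ring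
  rw [e2, w1, w2]
  linarith only [r1, r3]

/-- the sorted case -/
lemma core {c S1 S2 S3 V1 V2 V3 : ℝ} (hc0 : 0 ≤ c) (hc1 : c ≤ 2/3)
    (hS : S1 + S2 + S3 = 0) (hV : V1 + V2 + V3 = 0) (h12 : S2 ≤ S1) (h23 : S3 ≤ S2)
    (a1 : |V1| ≤ S1 + 2/3) (a2 : |V2| ≤ S2 + 2/3) (a3 : |V3| ≤ S3 + 2/3)
    (d1 : |V1| ≤ 4/3 - S1) (d2 : |V2| ≤ 4/3 - S2) :
    Tc c S1 + Tc c S2 + Tc c S3 + (Vc c V1 + Vc c V2 + Vc c V3) ≤
      3/2 * c ^ 2 * (S1 ^ 2 + S2 ^ 2 + S3 ^ 2) + (1 - c) ^ 2 * (V1 ^ 2 + V2 ^ 2 + V3 ^ 2)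
      - (2 * c - 3 * c ^ 2) * (S1 * V1 + S2 * V2 + S3 * V3) := by
  have he : 0 ≤ 1 - 3/2 * c := by linarith only [hc1]
  have hS3 : S3 ≤ 0 := by linarith only [hS, h12, h23]
  have n1 := abs_nonneg V1
  have n2 := abs_nonneg V2
  have n3 := abs_nonneg V3
  -- lone part
  have hl := lone (a := -S3) (w := |V3|) hc0 hc1 (by linarith only [a3])
  have hl2 : (3/2 * c * -S3 - (1 - 3/2 * c) * |V3|) ^ 2 ≤ (3/2 * c * S3 - (1 - 3/2 * c) * V3) ^ 2 := by
    have q1 := neg_abs_le V3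
    have q2 : 0 ≤ (c * -S3 * (1 - 3/2 * c)) * (V3 + |V3|) :=
      mul_nonneg (mul_nonneg (mul_nonneg hc0 (by linarith only [hS3])) he) (by linarith only [q1])
    have q3 := sq_abs V3
    have e : (3/2 * c * S3 - (1 - 3/2 * c) * V3) ^ 2 - (3/2 * c * -S3 - (1 - 3/2 * c) * |V3|) ^ 2 =
      3 * ((c * -S3 * (1 - 3/2 * c)) * (V3 + |V3|)) + (1 - 3/2 * c) ^ 2 * (V3 ^ 2 - |V3| ^ 2) := by ring
    rw [q3, sub_self, mul_zero] at e
    linarith only [e, q2]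
  have t3 : Tc c S3 = (max (c - (2/3 - -S3)) 0) ^ 2 := by
    rw [Tc_low hc1 (by linarith only [hS3])]
    congr 3
    ring
  -- pair part
  set M1 : ℝ := if S1 ≤ 1/3 then S1 + 2/3 else 4/3 - S1 with hM1
  set M2 : ℝ := if S2 ≤ 1/3 then S2 + 2/3 else 4/3 - S2 with hM2
  have m1 : |V1| ≤ M1 := by rw [hM1]; split_ifs <;> linarith only [a1, d1]
  have m2 : |V2| ≤ M2 := by rw [hM2]; split_ifs <;> linarith only [a2, d2]
  have o1 : M1 ≤ 1 := by rw [hM1]; split_ifs with h <;> linarith only [h]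
  have o2 : M2 ≤ 1 := by rw [hM2]; split_ifs with h <;> linarith only [h]
  have t1 : Tc c S1 = (max (c - M1) 0) ^ 2 := by
    rw [hM1]
    split_ifs with h
    · rw [Tc_low hc1 h]
    · rw [Tc_high hc1 (by linarith only [h])]
  have t2 : Tc c S2 = (max (c - M2) 0) ^ 2 := by
    rw [hM2]
    split_ifs with h
    · rw [Tc_low hc1 h]
    · rw [Tc_high hc1 (by linarith only [h])]
  have hx : S1 - S2 ≤ 2 - M1 - M2 := by
    rw [hM1, hM2]; split_ifs with h h' h' <;> linarith only [h, h']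
  have habs : |V1| ≤ |V2| + |V3| := by
    have : V1 = -(V2 + V3) := by linarith only [hV]
    rw [this, abs_neg]
    exact abs_add_le _ _
  have hred := pair_red (c := c) (x := S1 - S2) (V1 := V1) (V2 := V2) (P := |V1|) (Q := |V2|)
    hc0 hc1 (by linarith only [h12]) rfl rfl
  have hp := pair (c := c) (P := |V1|) (Q := |V2|)
    (D := 3/2 * c * (S1 - S2) - (1 - 3/2 * c) * (|V1| + |V2|)) (M1 := M1) (M2 := M2)
    hc0 hc1 n1 n2 m1 m2 o1 o2 ?_ ?_ ?_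
  · have e : 3/2 * c ^ 2 * (S1 ^ 2 + S2 ^ 2 + S3 ^ 2) + (1 - c) ^ 2 * (V1 ^ 2 + V2 ^ 2 + V3 ^ 2)
      - (2 * c - 3 * c ^ 2) * (S1 * V1 + S2 * V2 + S3 * V3) =
      (3/2 * c * S3 - (1 - 3/2 * c) * V3) ^ 2 + (1/3 * (3/2 * c * (S1 - S2)) ^ 2
      - 2/3 * ((1 - 3/2 * c) * (3/2 * c * (S1 - S2)) * (V1 - V2)) + (1 - c) ^ 2 * (V1 ^ 2 + V2 ^ 2)
      + c * (1 - 5/4 * c) * (V1 + V2) ^ 2) := by
      have z1 : S3 = -(S1 + S2) := by linarith only [hS]
      have z2 : V3 = -(V1 + V2) := by linarith only [hV]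
      rw [z1, z2]; ring
    rw [e, t1, t2, t3]
    unfold Vc
    have := hp.trans hred
    linarith only [this, hl, hl2]
  · have k := mul_le_mul_of_nonneg_left hx (by linarith only [hc0] : 0 ≤ 3/2 * c)
    have k2 : 3/2 * c * (2 - M1 - M2) ≤ 3/2 * c * (2 - (|V1| + |V2|)) :=
      mul_le_mul_of_nonneg_left (by linarith only [m1, m2]) (by linarith only [hc0])
    linarith only [k, k2]
  · intro h h'
    have hS2 : S2 < 0 := by
      by_contra hcon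
      rw [hM2] at h
      split_ifs at h with hh
      · linarith only [h, hcon, hc1]
      · linarith only [h, hcon, hc1, hS, h12, a3, n3]
    have hM2e : M2 = S2 + 2/3 := by rw [hM2, if_pos (by linarith only [hS2])]
    have k1 : |V1| + |V2| ≤ 3 * M2 := by linarith only [habs, a3, a2, hM2e, h23]
    have k2 : 2 - 3 * M2 ≤ S1 - S2 := by linarith only [hS, hM2e, h23]
    constructor
    · have k3 := mul_le_mul_of_nonneg_left k1 he
      have k4 := mul_le_mul_of_nonneg_left k2 (by linarith only [hc0] : 0 ≤ 3/2 * c)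
      linarith only [k3, k4]
    · linarith only [k1, h]
  · intro h
    have hS1 : 2/3 < S1 := by
      by_contra hcon
      rw [hM1] at h
      split_ifs at h with hh
      · linarith only [h, hc1, hS, h12, h23]
      · linarith only [h, hcon, hc1]
    have hM1e : M1 = 4/3 - S1 := by rw [hM1, if_neg (by linarith only [hS1])]
    have hS2 : S2 < 0 := by linarith only [hS, hS1, a3, n3]
    have hM2e : M2 = S2 + 2/3 := by rw [hM2, if_pos (by linarith only [hS2])]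
    refine ⟨by linarith only [hM1e, hM2e, h, hS, a3, n3], ?_⟩
    have k1 : |V1| + |V2| ≤ M1 + M2 := by linarith only [m1, m2]
    have k3 := mul_le_mul_of_nonneg_left k1 he
    have k5 : S1 - S2 = 2 - M1 - M2 := by linarith only [hM1e, hM2e]
    rw [k5]
    linarith only [k3]

/-- any order -/
lemma core6 {c x y z u v w : ℝ} (hc0 : 0 ≤ c) (hc1 : c ≤ 2/3)
    (hS : x + y + z = 0) (hV : u + v + w = 0)
    (a1 : |u| ≤ x + 2/3) (a2 : |v| ≤ y + 2/3) (a3 : |w| ≤ z + 2/3)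
    (d1 : |u| ≤ 4/3 - x) (d2 : |v| ≤ 4/3 - y) (d3 : |w| ≤ 4/3 - z) :
    Tc c x + Tc c y + Tc c z + (Vc c u + Vc c v + Vc c w) ≤
      3/2 * c ^ 2 * (x ^ 2 + y ^ 2 + z ^ 2) + (1 - c) ^ 2 * (u ^ 2 + v ^ 2 + w ^ 2)
      - (2 * c - 3 * c ^ 2) * (x * u + y * v + z * w) := by
  rcases le_total y x with h1 | h1
  · rcases le_total z y with h2 | h2
    · exact core hc0 hc1 hS hV h1 h2 a1 a2 a3 d1 d2
    · rcases le_total z x with h3 | h3
      · have := core (S1 := x) (S2 := z) (S3 := y) (V1 := u) (V2 := w) (V3 := v) hc0 hc1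
          (by linarith only [hS]) (by linarith only [hV]) h3 h2 a1 a3 a2 d1 d3
        linarith only [this]
      · have := core (S1 := z) (S2 := x) (S3 := y) (V1 := w) (V2 := u) (V3 := v) hc0 hc1
          (by linarith only [hS]) (by linarith only [hV]) h3 h1 a3 a1 a2 d3 d1
        linarith only [this]
  · rcases le_total z x with h2 | h2
    · have := core (S1 := y) (S2 := x) (S3 := z) (V1 := v) (V2 := u) (V3 := w) hc0 hc1
        (by linarith only [hS]) (by linarith only [hV]) h1 h2 a2 a1 a3 d2 d1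
      linarith only [this]
    · rcases le_total z y with h3 | h3
      · have := core (S1 := y) (S2 := z) (S3 := x) (V1 := v) (V2 := w) (V3 := u) hc0 hc1
          (by linarith only [hS]) (by linarith only [hV]) h3 h2 a2 a3 a1 d2 d3
        linarith only [this]
      · have := core (S1 := z) (S2 := y) (S3 := x) (V1 := w) (V2 := v) (V3 := u) hc0 hc1
          (by linarith only [hS]) (by linarith only [hV]) h3 h1 a3 a2 a1 d3 d2
        linarith only [this]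

lemma core_abs {c x y z u v w : ℝ} (hc0 : 0 ≤ c) (hc1 : c ≤ 2/3)
    (hS : x + y + z = 0) (hV : u + v + w = 0)
    (a1 : |u| ≤ x + 2/3) (a2 : |v| ≤ y + 2/3) (a3 : |w| ≤ z + 2/3)
    (d1 : |u| ≤ 4/3 - x) (d2 : |v| ≤ 4/3 - y) (d3 : |w| ≤ 4/3 - z) :
    Tc c x + Tc c y + Tc c z + (Vc c u + Vc c v + Vc c w) ≤
      3/2 * c ^ 2 * (x ^ 2 + y ^ 2 + z ^ 2) + (1 - c) ^ 2 * (u ^ 2 + v ^ 2 + w ^ 2)
      - (2 * c - 3 * c ^ 2) * |x * u + y * v + z * w| := by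
  rcases abs_cases (x * u + y * v + z * w) with ⟨h, _⟩ | ⟨h, _⟩
  · rw [h]
    exact core6 hc0 hc1 hS hV a1 a2 a3 d1 d2 d3
  · rw [h]
    have := core6 (x := x) (y := y) (z := z) (u := -u) (v := -v) (w := -w) hc0 hc1 hS
      (by linarith only [hV]) (by rwa [abs_neg]) (by rwa [abs_neg]) (by rwa [abs_neg])
      (by rwa [abs_neg]) (by rwa [abs_neg]) (by rwa [abs_neg])
    simp only [Vc_neg] at this
    linarith only [this]

lemma Psi_eq' {c b b' : ℝ} (hc0 : 0 ≤ c) (hc1 : c ≤ 1) (hb0 : 0 ≤ b) (hb1 : b ≤ 1)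
    (hb0' : 0 ≤ b') (hb1' : b' ≤ 1) :
    (b + b' - c) ^ 2 - Tc c (b + b' - 2/3) - Vc c (b - b') = Psi c b b' := by
  unfold Psi Tc Vc
  have h1 : (max (b + b' - c) 0) ^ 2 = (b + b' - c) ^ 2 - (max (c - 2/3 - (b + b' - 2/3)) 0) ^ 2 := by
    rcases le_total (b + b' - c) 0 with h | h
    · rw [max_eq_right h, max_eq_left (by linarith)]; ring
    · rw [max_eq_left h, max_eq_right (by linarith)]; ring
  have h2 : b + b' - 2 + c = b + b' - 2/3 - 4/3 + c := by ring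
  rw [h1, h2]
  ring

/-- **The asymmetric algebraic inequality.** -/
theorem cw1 {c : ℝ} (hc0 : 0 ≤ c) (hc1 : c ≤ 2/3) (b b' : Fin 3 → ℝ)
    (hb : ∀ i, 0 ≤ b i) (hb' : ∀ i, 0 ≤ b' i) (hs : ∑ i, b i = 1) (hs' : ∑ i, b' i = 1) :
    3 * (2/3 - c) ^ 2 + (1 - 3/2 * c ^ 2) * ∑ i, ((b i - 1/3) + (b' i - 1/3)) ^ 2
      - (1 - c) ^ 2 * ∑ i, ((b i - 1/3) - (b' i - 1/3)) ^ 2
      + (2 * c - 3 * c ^ 2) * |∑ i, ((b i - 1/3) ^ 2 - (b' i - 1/3) ^ 2)|
      ≤ ∑ i, Psi c (b i) (b' i) := by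
  simp only [Fin.sum_univ_three] at hs hs' ⊢
  have p0 := hb 0
  have p1 := hb 1
  have p2 := hb 2
  have q0 := hb' 0
  have q1 := hb' 1
  have q2 := hb' 2
  rw [← Psi_eq' hc0 (by linarith only [hc1]) p0 (by linarith only [hs, p1, p2]) q0
      (by linarith only [hs', q1, q2]),
    ← Psi_eq' hc0 (by linarith only [hc1]) p1 (by linarith only [hs, p0, p2]) q1
      (by linarith only [hs', q0, q2]),
    ← Psi_eq' hc0 (by linarith only [hc1]) p2 (by linarith only [hs, p0, p1]) q2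
      (by linarith only [hs', q0, q1])]
  have hT := core_abs (x := b 0 + b' 0 - 2/3) (y := b 1 + b' 1 - 2/3) (z := b 2 + b' 2 - 2/3)
    (u := b 0 - b' 0) (v := b 1 - b' 1) (w := b 2 - b' 2)
    hc0 hc1 (by linarith only [hs, hs']) (by linarith only [hs, hs'])
    (by rw [abs_le]; constructor <;> linarith only [p0, q0])
    (by rw [abs_le]; constructor <;> linarith only [p1, q1])
    (by rw [abs_le]; constructor <;> linarith only [p2, q2])
    (by rw [abs_le]; constructor <;> linarith only [hs, hs', p1, p2, q1, q2])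
    (by rw [abs_le]; constructor <;> linarith only [hs, hs', p0, p2, q0, q2])
    (by rw [abs_le]; constructor <;> linarith only [hs, hs', p0, p1, q0, q1])
  have hI : (b 0 + b' 0 - c) ^ 2 + (b 1 + b' 1 - c) ^ 2 + (b 2 + b' 2 - c) ^ 2
      = (b 0 + b' 0 - 2/3) ^ 2 + (b 1 + b' 1 - 2/3) ^ 2 + (b 2 + b' 2 - 2/3) ^ 2
        + 3 * (2/3 - c) ^ 2 := by
    linear_combination (2 * (2/3 - c)) * hs + (2 * (2/3 - c)) * hs'
  have f0 : (b 0 - 1/3 + (b' 0 - 1/3)) = b 0 + b' 0 - 2/3 := by ring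
  have f1 : (b 1 - 1/3 + (b' 1 - 1/3)) = b 1 + b' 1 - 2/3 := by ring
  have f2 : (b 2 - 1/3 + (b' 2 - 1/3)) = b 2 + b' 2 - 2/3 := by ring
  have g0 : (b 0 - 1/3 - (b' 0 - 1/3)) = b 0 - b' 0 := by ring
  have g1 : (b 1 - 1/3 - (b' 1 - 1/3)) = b 1 - b' 1 := by ring
  have g2 : (b 2 - 1/3 - (b' 2 - 1/3)) = b 2 - b' 2 := by ring
  have k : (b 0 - 1/3) ^ 2 - (b' 0 - 1/3) ^ 2 + ((b 1 - 1/3) ^ 2 - (b' 1 - 1/3) ^ 2) +
      ((b 2 - 1/3) ^ 2 - (b' 2 - 1/3) ^ 2) = (b 0 + b' 0 - 2/3) * (b 0 - b' 0) +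
      (b 1 + b' 1 - 2/3) * (b 1 - b' 1) + (b 2 + b' 2 - 2/3) * (b 2 - b' 2) := by ring
  rw [f0, f1, f2, g0, g1, g2, k]
  linarith only [hT, hI]

end Pool.Agent.Run7.h126
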