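import Mathlib
import Pool.Agent.Run7.h126.Lower
import Pool.Agent.Run7.h126.AS

set_option autoImplicit false

open MeasureTheory Set Real

namespace Pool.Agent.Run7.h126

/-- coefficient of the asymmetric term -/
noncomputable def km (s : ℝ) : ℝ :=
  ∫ u in (-1:ℝ)..(1/2), s * exp (s * u) * (2 * (1 - arccos u / π) - 3 * (1 - arccos u / π) ^ 2)

/-- **Pointwise lower bound with the asymmetric term.** -/
theorem J_lower2 {χ η : Fin 3 → ℝ → ℝ} (hχ : ∀ i, Fuz (χ i)) (hη : ∀ i, Fuz (η i))
    {b b' : Fin 3 → ℝ} (he : ∀ i, ∫ x in (0:ℝ)..2 * π, χ i x = 2 * π * b i)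
    (hf : ∀ i, ∫ x in (0:ℝ)..2 * π, η i x = 2 * π * b' i)
    (hs : ∑ i, b i = 1) (hs' : ∑ i, b' i = 1) {s : ℝ} (hs0 : 0 ≤ s) :
    Phi3 s + π ^ 2 * (al s * (∑ i, ((b i - 1/3) + (b' i - 1/3)) ^ 2)
      - de s * (∑ i, ((b i - 1/3) - (b' i - 1/3)) ^ 2)
      + km s * |∑ i, ((b i - 1/3) ^ 2 - (b' i - 1/3) ^ 2)|) ≤ ∑ i, J s (χ i) (η i) := by
  have hpi : (0:ℝ) < π := pi_pos
  have hb : ∀ i, 0 ≤ b i := by
    intro i
    have := (hχ i).int_nonneg (a := 0) (b := 2 * π) (by positivity)
    rw [he i] at this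
    exact nonneg_of_mul_nonneg_right this (by positivity)
  have hb' : ∀ i, 0 ≤ b' i := by
    intro i
    have := (hη i).int_nonneg (a := 0) (b := 2 * π) (by positivity)
    rw [hf i] at this
    exact nonneg_of_mul_nonneg_right this (by positivity)
  set SS := ∑ i, ((b i - 1/3) + (b' i - 1/3)) ^ 2 with hSS
  set VV := ∑ i, ((b i - 1/3) - (b' i - 1/3)) ^ 2 with hVV
  set XX := |∑ i, ((b i - 1/3) ^ 2 - (b' i - 1/3) ^ 2)| with hXX
  -- sum of J
  have h1 : ∑ i, J s (χ i) (η i) = exp (-s) * (4 * π ^ 2 * ∑ i, b i * b' i)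
      + ∫ u in (-1:ℝ)..1, ∑ i, s * exp (s * u) * M (χ i) (η i) (arccos u) := by
    rw [intervalIntegral.integral_finsetSum (fun i _ => M_ii (hχ i) (hη i) s)]
    simp only [J_eq (hχ _) (hη _), he, hf, Finset.sum_add_distrib, ← Finset.mul_sum]
    congr 2
    rw [Finset.mul_sum]
    apply Finset.sum_congr rfl
    intro i _
    ring
  have hii : ∀ a b : ℝ, a ∈ Icc (-1:ℝ) 1 → b ∈ Icc (-1:ℝ) 1 → IntervalIntegrable
      (fun u => ∑ i, s * exp (s * u) * M (χ i) (η i) (arccos u)) volume a b := by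
    intro a b ha hb
    have : IntervalIntegrable
      (fun u => ∑ i, s * exp (s * u) * M (χ i) (η i) (arccos u)) volume (-1) 1 := by
      have h2 := IntervalIntegrable.sum (Finset.univ : Finset (Fin 3))
        (fun i _ => M_ii (hχ i) (hη i) s)
      have h3 : (fun u => ∑ i, s * exp (s * u) * M (χ i) (η i) (arccos u))
          = ∑ i, fun u => s * exp (s * u) * M (χ i) (η i) (arccos u) := by
        ext u
        simp
      rw [h3]
      exact h2
    refine this.mono_set ?_
    rw [uIcc_of_le (by norm_num : (-1:ℝ) ≤ 1)]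
    exact uIcc_subset_Icc ha hb
  have hac : Continuous arccos := continuous_arccos
  have h2 : (∫ u in (-1:ℝ)..(1/2), s * exp (s * u) * (3 * (arccos u - π / 3) ^ 2))
      + π ^ 2 * ((∫ u in (-1:ℝ)..(1/2), s * exp (s * u) * (1 - 3/2 * (1 - arccos u / π) ^ 2)) * SS
        - (∫ u in (-1:ℝ)..(1/2), s * exp (s * u) * (arccos u / π) ^ 2) * VV
        + (∫ u in (-1:ℝ)..(1/2), s * exp (s * u) * (2 * (1 - arccos u / π)
          - 3 * (1 - arccos u / π) ^ 2)) * XX)
      ≤ ∫ u in (-1:ℝ)..1, ∑ i, s * exp (s * u) * M (χ i) (η i) (arccos u) := by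
    rw [← intervalIntegral.integral_add_adjacent_intervals
      (hii (-1) (1/2) (by constructor <;> norm_num) (by constructor <;> norm_num))
      (hii (1/2) 1 (by constructor <;> norm_num) (by constructor <;> norm_num))]
    have hnn : 0 ≤ ∫ u in (1/2:ℝ)..1, ∑ i, s * exp (s * u) * M (χ i) (η i) (arccos u) := by
      apply intervalIntegral.integral_nonneg (by norm_num)
      intro u _
      apply Finset.sum_nonneg
      intro i _
      exact mul_nonneg (mul_nonneg hs0 (exp_pos _).le) (M_nonneg (hχ i) (hη i) (arccos_nonneg u))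
    refine le_trans ?_ (le_add_of_nonneg_right hnn)
    have c1 : IntervalIntegrable (fun u => s * exp (s * u) * (3 * (arccos u - π / 3) ^ 2))
        volume (-1) (1/2) := by
      apply Continuous.intervalIntegrable; fun_prop
    have c2 : IntervalIntegrable (fun u => s * exp (s * u) * (1 - 3/2 * (1 - arccos u / π) ^ 2))
        volume (-1) (1/2) := by
      apply Continuous.intervalIntegrable; fun_prop
    have c3 : IntervalIntegrable (fun u => s * exp (s * u) * (arccos u / π) ^ 2)
        volume (-1) (1/2) := by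
      apply Continuous.intervalIntegrable; fun_prop
    have c4 : IntervalIntegrable (fun u => s * exp (s * u) * (2 * (1 - arccos u / π)
        - 3 * (1 - arccos u / π) ^ 2)) volume (-1) (1/2) := by
      apply Continuous.intervalIntegrable; fun_prop
    have e1 : (∫ u in (-1:ℝ)..(1/2), s * exp (s * u) * (3 * (arccos u - π / 3) ^ 2))
      + π ^ 2 * ((∫ u in (-1:ℝ)..(1/2), s * exp (s * u) * (1 - 3/2 * (1 - arccos u / π) ^ 2)) * SS
        - (∫ u in (-1:ℝ)..(1/2), s * exp (s * u) * (arccos u / π) ^ 2) * VV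
        + (∫ u in (-1:ℝ)..(1/2), s * exp (s * u) * (2 * (1 - arccos u / π)
          - 3 * (1 - arccos u / π) ^ 2)) * XX)
      = ∫ u in (-1:ℝ)..(1/2), (s * exp (s * u) * (3 * (arccos u - π / 3) ^ 2)
        + ((π ^ 2 * SS) * (s * exp (s * u) * (1 - 3/2 * (1 - arccos u / π) ^ 2))
        - (π ^ 2 * VV) * (s * exp (s * u) * (arccos u / π) ^ 2)
        + (π ^ 2 * XX) * (s * exp (s * u) * (2 * (1 - arccos u / π)
          - 3 * (1 - arccos u / π) ^ 2)))) := by
      rw [intervalIntegral.integral_add c1 (((c2.const_mul _).sub (c3.const_mul _)).add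
          (c4.const_mul _)),
        intervalIntegral.integral_add ((c2.const_mul _).sub (c3.const_mul _)) (c4.const_mul _),
        intervalIntegral.integral_sub (c2.const_mul _) (c3.const_mul _),
        intervalIntegral.integral_const_mul, intervalIntegral.integral_const_mul,
        intervalIntegral.integral_const_mul]
      ring
    rw [e1]
    apply intervalIntegral.integral_mono_on (by norm_num)
      (c1.add (((c2.const_mul _).sub (c3.const_mul _)).add (c4.const_mul _)))
      (hii (-1) (1/2) (by constructor <;> norm_num) (by constructor <;> norm_num))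
    intro u hu
    have hu2 : π / 3 ≤ arccos u := by
      rw [← arccos_half]
      exact antitone_arccos hu.2
    have hu3 : arccos u ≤ π := arccos_le_pi u
    have hc0 : 0 ≤ 1 - arccos u / π := by
      rw [sub_nonneg, div_le_one hpi]; exact hu3
    have hc1 : 1 - arccos u / π ≤ 2/3 := by
      have : 1/3 ≤ arccos u / π := by
        rw [le_div_iff₀ hpi]; linarith
      linarith
    have hcw := cw1 hc0 hc1 b b' hb hb' hs hs'
    rw [← hSS, ← hVV, ← hXX] at hcw
    have hM : π ^ 2 * ∑ i, Psi (1 - arccos u / π) (b i) (b' i)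
        ≤ ∑ i, M (χ i) (η i) (arccos u) := by
      rw [Finset.mul_sum]
      apply Finset.sum_le_sum
      intro i _
      exact M_ge (hχ i) (hη i) (arccos_nonneg u) hu3 (he i) (hf i)
    have hse : 0 ≤ s * exp (s * u) := mul_nonneg hs0 (exp_pos _).le
    rw [← Finset.mul_sum]
    have hfin : 3 * (arccos u - π / 3) ^ 2 + (π ^ 2 * SS * (1 - 3/2 * (1 - arccos u / π) ^ 2)
        - π ^ 2 * VV * (arccos u / π) ^ 2 + π ^ 2 * XX * (2 * (1 - arccos u / π)
          - 3 * (1 - arccos u / π) ^ 2)) ≤ ∑ i, M (χ i) (η i) (arccos u) := by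
      have e2 : 3 * (arccos u - π / 3) ^ 2 = π ^ 2 * (3 * (2/3 - (1 - arccos u / π)) ^ 2) := by
        field_simp
        ring
      have e3 : (arccos u / π) ^ 2 = (1 - (1 - arccos u / π)) ^ 2 := by ring
      rw [e2, e3]
      have h5 := mul_le_mul_of_nonneg_left hcw (sq_nonneg π)
      linarith
    calc s * exp (s * u) * (3 * (arccos u - π / 3) ^ 2)
        + ((π ^ 2 * SS) * (s * exp (s * u) * (1 - 3/2 * (1 - arccos u / π) ^ 2))
        - (π ^ 2 * VV) * (s * exp (s * u) * (arccos u / π) ^ 2)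
        + (π ^ 2 * XX) * (s * exp (s * u) * (2 * (1 - arccos u / π)
          - 3 * (1 - arccos u / π) ^ 2)))
        = s * exp (s * u) * (3 * (arccos u - π / 3) ^ 2 +
          (π ^ 2 * SS * (1 - 3/2 * (1 - arccos u / π) ^ 2)
          - π ^ 2 * VV * (arccos u / π) ^ 2 + π ^ 2 * XX * (2 * (1 - arccos u / π)
          - 3 * (1 - arccos u / π) ^ 2))) := by ring
      _ ≤ s * exp (s * u) * ∑ i, M (χ i) (η i) (arccos u) :=
          mul_le_mul_of_nonneg_left hfin hse
  have h3 : 4 * ∑ i, b i * b' i = 4/3 + SS - VV := by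
    rw [hSS, hVV]
    simp only [Fin.sum_univ_three] at hs hs' ⊢
    linear_combination (4/3) * hs + (4/3) * hs'
  rw [h1]
  unfold Phi3 al de km
  have h4 : exp (-s) * (4 * π ^ 2 * ∑ i, b i * b' i)
      = exp (-s) * π ^ 2 * (4/3 + SS - VV) := by
    rw [← h3]; ring
  rw [h4]
  linarith

end Pool.Agent.Run7.h126
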