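import Mathlib
import Pool.Agent.Run7.h126.Sand
import Pool.Agent.Run7.h126.Lower2

set_option autoImplicit false

open MeasureTheory Set Real

namespace Pool.Agent.Run7.h126

/-- the angle fraction -/
noncomputable def cc (u : ℝ) : ℝ := 1 - arccos u / π

lemma cc_cont : Continuous cc := by
  unfold cc
  exact continuous_const.sub (continuous_arccos.div_const _)

lemma cc_nonneg (u : ℝ) : 0 ≤ cc u := by
  unfold cc
  rw [sub_nonneg, div_le_one pi_pos]
  exact arccos_le_pi u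

lemma cc_le {u : ℝ} (h : u ≤ 1/2) : cc u ≤ 2/3 := by
  unfold cc
  have h1 : π / 3 ≤ arccos u := by rw [← arccos_half]; exact antitone_arccos h
  have : 1/3 ≤ arccos u / π := by
    rw [le_div_iff₀ pi_pos]; linarith
  linarith

lemma cc_mono : Monotone cc := by
  intro x y h
  unfold cc
  have h1 := antitone_arccos h
  have : arccos y / π ≤ arccos x / π := by gcongr
  linarith

lemma cc_zero : cc 0 = 1/2 := by
  unfold cc
  rw [arccos_zero]
  field_simp
  norm_num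

lemma cc_neg_cos {x : ℝ} (h0 : 0 ≤ x) (h1 : x ≤ π) : cc (-cos x) = x / π := by
  unfold cc
  rw [arccos_neg, arccos_cos h0 h1]
  field_simp
  ring

lemma dT (m k l : ℕ) (x : ℝ) : HasDerivAt (fun x : ℝ => x ^ m * cos x ^ k * sin x ^ l)
    ((m : ℝ) * x ^ (m - 1) * cos x ^ k * sin x ^ l +
      x ^ m * ((k : ℝ) * cos x ^ (k - 1) * (-sin x)) * sin x ^ l +
      x ^ m * cos x ^ k * ((l : ℝ) * sin x ^ (l - 1) * cos x)) x := by
  have h1 := hasDerivAt_pow m x
  have h2 := (hasDerivAt_cos x).pow k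
  have h3 := (hasDerivAt_sin x).pow l
  have h := (h1.mul h2).mul h3
  refine h.congr_deriv ?_
  simp only [Pi.pow_apply, Pi.mul_apply]
  ring

/-- change of variables -/
lemma cov {g : ℝ → ℝ} (hg : Continuous g) :
    ∫ u in (-1:ℝ)..(1/2), g u = ∫ x in (0:ℝ)..(2 * π / 3), g (-cos x) * sin x := by
  have h1 : ∀ x ∈ uIcc (0:ℝ) (2 * π / 3), HasDerivAt (fun x => -cos x) (sin x) x := by
    intro x _
    exact (hasDerivAt_cos x).neg.congr_deriv (neg_neg _)
  have h := intervalIntegral.integral_comp_mul_deriv h1 continuous_sin.continuousOn hg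
  rw [cos_zero] at h
  have h2 : cos (2 * π / 3) = -(1/2) := by
    rw [show 2 * π / 3 = π - π / 3 by ring, cos_pi_sub, cos_pi_div_three]
  rw [h2, neg_neg] at h
  rw [← h]
  rfl

lemma cos23 : cos (2 * π / 3) = -(1/2) := by
  rw [show 2 * π / 3 = π - π / 3 by ring, cos_pi_sub, cos_pi_div_three]

lemma sin23 : sin (2 * π / 3) = √3 / 2 := by
  rw [show 2 * π / 3 = π - π / 3 by ring, sin_pi_sub, sin_pi_div_three]

/-- moments in the angle variable -/
lemma covc (f : ℝ → ℝ → ℝ) (hf : Continuous (fun p : ℝ × ℝ => f p.1 p.2)) :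
    ∫ u in (-1:ℝ)..(1/2), f u (cc u) =
      ∫ x in (0:ℝ)..(2 * π / 3), f (-cos x) (x / π) * sin x := by
  have hpi := pi_pos
  rw [cov (g := fun u => f u (cc u)) (hf.comp (continuous_id.prodMk cc_cont))]
  apply intervalIntegral.integral_congr
  intro x hx
  rw [uIcc_of_le (by positivity)] at hx
  simp only
  rw [cc_neg_cos hx.1 (by linarith [hx.2])]

lemma ftc {F f : ℝ → ℝ} (h : ∀ x, HasDerivAt F (f x) x) (hf : Continuous f) (a b : ℝ) :
    ∫ x in a..b, f x = F b - F a :=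
  intervalIntegral.integral_eq_sub_of_hasDerivAt (fun x _ => h x) (hf.intervalIntegrable _ _)

/-- the constants -/
noncomputable def pc : ℝ := √3 / π
noncomputable def qc : ℝ := 1 / π ^ 2

lemma m_a0 : ∫ u in (-1:ℝ)..(1/2), cc u = 1/3 + pc / 2 := by
  have hpi := pi_pos
  rw [covc (fun _ c => c) (by fun_prop)]
  rw [ftc (F := fun x => (1 / π) * (-(x ^ 1 * cos x ^ 1 * sin x ^ 0) + x ^ 0 * cos x ^ 0 * sin x ^ 1))
    (fun x => by
      refine (((dT 1 1 0 x).neg.add (dT 0 0 1 x)).const_mul (1 / π)).congr_deriv ?_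
      simp; field_simp) (by fun_prop)]
  simp only [cos23, sin23, sin_zero, cos_zero]
  unfold pc
  field_simp
  ring

lemma m_a1 : ∫ u in (-1:ℝ)..(1/2), u * cc u = -(1/12) + pc / 16 := by
  have hpi := pi_pos
  rw [covc (fun u c => u * c) (by fun_prop)]
  rw [ftc (F := fun x => (-1 / π) * (-(1/2) * (x ^ 1 * cos x ^ 2 * sin x ^ 0) +
      (1/4) * (x ^ 1 * cos x ^ 0 * sin x ^ 0) + (1/4) * (x ^ 0 * cos x ^ 1 * sin x ^ 1)))
    (fun x => by
      refine (((((dT 1 2 0 x).const_mul (-(1/2))).add ((dT 1 0 0 x).const_mul (1/4))).add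
        ((dT 0 1 1 x).const_mul (1/4))).const_mul (-1 / π)).congr_deriv ?_
      have := sin_sq_add_cos_sq x
      simp; field_simp; linear_combination 2 * this) (by fun_prop)]
  simp only [cos23, sin23, sin_zero, cos_zero]
  unfold pc
  field_simp
  ring

lemma m_a2 : ∫ u in (-1:ℝ)..(1/2), u ^ 2 * cc u = 1/36 + pc / 8 := by
  have hpi := pi_pos
  rw [covc (fun u c => u ^ 2 * c) (by fun_prop)]
  rw [ftc (F := fun x => (1 / π) * (-(1/3) * (x ^ 1 * cos x ^ 3 * sin x ^ 0) +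
      (1/3) * (x ^ 0 * cos x ^ 0 * sin x ^ 1) + (-(1/9)) * (x ^ 0 * cos x ^ 0 * sin x ^ 3)))
    (fun x => by
      refine (((((dT 1 3 0 x).const_mul (-(1/3))).add ((dT 0 0 1 x).const_mul (1/3))).add
        ((dT 0 0 3 x).const_mul (-(1/9)))).const_mul (1 / π)).congr_deriv ?_
      have := sin_sq_add_cos_sq x
      simp; field_simp; linear_combination (-9 * cos x) * this) (by fun_prop)]
  simp only [cos23, sin23, sin_zero, cos_zero]
  have h3 : √3 ^ 2 = 3 := Real.sq_sqrt (by norm_num)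
  have h4 : √3 ^ 3 = 3 * √3 := by rw [pow_succ, h3]
  unfold pc
  field_simp
  ring_nf
  rw [h4]
  ring

lemma m_a3 : ∫ u in (-1:ℝ)..(1/2), u ^ 3 * cc u = -(5/96) + 7/256 * pc := by
  have hpi := pi_pos
  rw [covc (fun u c => u ^ 3 * c) (by fun_prop)]
  rw [ftc (F := fun x => (-1 / π) * (-(1/4) * (x ^ 1 * cos x ^ 4 * sin x ^ 0) +
      (3/32) * (x ^ 1 * cos x ^ 0 * sin x ^ 0) + (3/32) * (x ^ 0 * cos x ^ 1 * sin x ^ 1) +
      (1/16) * (x ^ 0 * cos x ^ 3 * sin x ^ 1)))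
    (fun x => by
      refine ((((((dT 1 4 0 x).const_mul (-(1/4))).add ((dT 1 0 0 x).const_mul (3/32))).add
        ((dT 0 1 1 x).const_mul (3/32))).add
        ((dT 0 3 1 x).const_mul (1/16))).const_mul (-1 / π)).congr_deriv ?_
      have := sin_sq_add_cos_sq x
      simp; field_simp; linear_combination (192 + 384 * cos x ^ 2) * this) (by fun_prop)]
  simp only [cos23, sin23, sin_zero, cos_zero]
  unfold pc
  field_simp
  ring

lemma m_b0 : ∫ u in (-1:ℝ)..(1/2), cc u ^ 2 = 2/9 + 2/3 * pc - 3 * qc := by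
  have hpi := pi_pos
  rw [covc (fun _ c => c ^ 2) (by fun_prop)]
  rw [ftc (F := fun x => (1 / π ^ 2) * (-(x ^ 2 * cos x ^ 1 * sin x ^ 0) +
      2 * (x ^ 1 * cos x ^ 0 * sin x ^ 1) + 2 * (x ^ 0 * cos x ^ 1 * sin x ^ 0)))
    (fun x => by
      refine ((((dT 2 1 0 x).neg.add ((dT 1 0 1 x).const_mul 2)).add
        ((dT 0 1 0 x).const_mul 2)).const_mul (1 / π ^ 2)).congr_deriv ?_
      simp; field_simp; ring) (by fun_prop)]
  simp only [cos23, sin23, sin_zero, cos_zero]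
  unfold pc qc
  field_simp
  ring

lemma m_b1 : ∫ u in (-1:ℝ)..(1/2), u * cc u ^ 2 = -(1/18) + 1/12 * pc + 3/16 * qc := by
  have hpi := pi_pos
  rw [covc (fun u c => u * c ^ 2) (by fun_prop)]
  rw [ftc (F := fun x => (-1 / π ^ 2) * (-(1/2) * (x ^ 2 * cos x ^ 2 * sin x ^ 0) +
      (1/4) * (x ^ 2 * cos x ^ 0 * sin x ^ 0) + (1/2) * (x ^ 1 * cos x ^ 1 * sin x ^ 1) +
      (1/4) * (x ^ 0 * cos x ^ 2 * sin x ^ 0)))
    (fun x => by
      refine ((((((dT 2 2 0 x).const_mul (-(1/2))).add ((dT 2 0 0 x).const_mul (1/4))).add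
        ((dT 1 1 1 x).const_mul (1/2))).add
        ((dT 0 2 0 x).const_mul (1/4))).const_mul (-1 / π ^ 2)).congr_deriv ?_
      have := sin_sq_add_cos_sq x
      simp; field_simp; linear_combination (4 * x) * this) (by fun_prop)]
  simp only [cos23, sin23, sin_zero, cos_zero]
  unfold pc qc
  field_simp
  ring

lemma m_b2 : ∫ u in (-1:ℝ)..(1/2), u ^ 2 * cc u ^ 2 = 1/54 + 1/6 * pc - 3/4 * qc := by
  have hpi := pi_pos
  rw [covc (fun u c => u ^ 2 * c ^ 2) (by fun_prop)]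
  rw [ftc (F := fun x => (1 / π ^ 2) * (-(1/3) * (x ^ 2 * cos x ^ 3 * sin x ^ 0) +
      (2/3) * (x ^ 1 * cos x ^ 0 * sin x ^ 1) + (-(2/9)) * (x ^ 1 * cos x ^ 0 * sin x ^ 3) +
      (4/9) * (x ^ 0 * cos x ^ 1 * sin x ^ 0) + (2/27) * (x ^ 0 * cos x ^ 3 * sin x ^ 0)))
    (fun x => by
      refine (((((((dT 2 3 0 x).const_mul (-(1/3))).add ((dT 1 0 1 x).const_mul (2/3))).add
        ((dT 1 0 3 x).const_mul (-(2/9)))).add ((dT 0 1 0 x).const_mul (4/9))).add
        ((dT 0 3 0 x).const_mul (2/27))).const_mul (1 / π ^ 2)).congr_deriv ?_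
      have := sin_sq_add_cos_sq x
      simp; field_simp; linear_combination (-486 * x * cos x - 162 * sin x) * this) (by fun_prop)]
  simp only [cos23, sin23, sin_zero, cos_zero]
  have h3 : √3 ^ 2 = 3 := Real.sq_sqrt (by norm_num)
  have h4 : √3 ^ 3 = 3 * √3 := by rw [pow_succ, h3]
  unfold pc qc
  field_simp
  ring_nf
  rw [h4]
  ring

lemma m_b3 : ∫ u in (-1:ℝ)..(1/2), u ^ 3 * cc u ^ 2 = -(5/144) + 7/192 * pc + 51/512 * qc := by
  have hpi := pi_pos
  rw [covc (fun u c => u ^ 3 * c ^ 2) (by fun_prop)]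
  rw [ftc (F := fun x => (-1 / π ^ 2) * (-(1/4) * (x ^ 2 * cos x ^ 4 * sin x ^ 0) +
      (3/32) * (x ^ 2 * cos x ^ 0 * sin x ^ 0) + (3/16) * (x ^ 1 * cos x ^ 1 * sin x ^ 1) +
      (1/8) * (x ^ 1 * cos x ^ 3 * sin x ^ 1) + (-(3/32)) * (x ^ 0 * cos x ^ 0 * sin x ^ 2) +
      (1/32) * (x ^ 0 * cos x ^ 4 * sin x ^ 0)))
    (fun x => by
      refine ((((((((dT 2 4 0 x).const_mul (-(1/4))).add ((dT 2 0 0 x).const_mul (3/32))).add
        ((dT 1 1 1 x).const_mul (3/16))).add ((dT 1 3 1 x).const_mul (1/8))).add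
        ((dT 0 0 2 x).const_mul (-(3/32)))).add
        ((dT 0 4 0 x).const_mul (1/32))).const_mul (-1 / π ^ 2)).congr_deriv ?_
      have := sin_sq_add_cos_sq x
      simp; field_simp; linear_combination (3072 * x + 6144 * x * cos x ^ 2) * this) (by fun_prop)]
  simp only [cos23, sin23, sin_zero, cos_zero]
  have h3 : √3 ^ 2 = 3 := Real.sq_sqrt (by norm_num)
  unfold pc qc
  field_simp
  ring_nf
  rw [h3]
  ring

end Pool.Agent.Run7.h126
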