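import Mathlib
import Pool.Agent.Run7.h126.Mom

set_option autoImplicit false

open MeasureTheory Set Real

namespace Pool.Agent.Run7.h126

/-! ### Exponential bounds -/

lemma nonneg_left {F F' : ℝ → ℝ} (hd : ∀ x, HasDerivAt F (F' x) x) (h0 : F 0 = 0)
    (hn : ∀ x ≤ 0, F' x ≤ 0) {x : ℝ} (hx : x ≤ 0) : 0 ≤ F x := by
  have h : AntitoneOn F (Iic 0) := by
    apply antitoneOn_of_deriv_nonpos (convex_Iic 0)
    · exact fun y _ => (hd y).continuousAt.continuousWithinAt
    · exact fun y _ => (hd y).differentiableAt.differentiableWithinAt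
    · intro y hy
      rw [interior_Iic] at hy
      rw [(hd y).deriv]
      exact hn y (le_of_lt hy)
  have := h (show x ∈ Iic 0 from hx) (show (0:ℝ) ∈ Iic 0 from self_mem_Iic) hx
  rwa [h0] at this

lemma dpoly (a0 a1 a2 a3 a4 a5 x : ℝ) :
    HasDerivAt (fun x : ℝ => a0 + a1 * x + a2 * x ^ 2 + a3 * x ^ 3 + a4 * x ^ 4 + a5 * x ^ 5)
      (a1 + a2 * (2 * x) + a3 * (3 * x ^ 2) + a4 * (4 * x ^ 3) + a5 * (5 * x ^ 4)) x := by
  have h1 := (hasDerivAt_id x).const_mul a1
  have h2 := (hasDerivAt_pow 2 x).const_mul a2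
  have h3 := (hasDerivAt_pow 3 x).const_mul a3
  have h4 := (hasDerivAt_pow 4 x).const_mul a4
  have h5 := (hasDerivAt_pow 5 x).const_mul a5
  have h := (((((hasDerivAt_const x a0).add h1).add h2).add h3).add h4).add h5
  refine (h.congr_deriv ?_)
  push_cast
  ring

lemma exp_le2 {x : ℝ} (hx : x ≤ 0) : exp x ≤ 1 + x + x ^ 2 / 2 := by
  have h := nonneg_left (F := fun x => 1 + 1 * x + (1/2) * x ^ 2 + 0 * x ^ 3 + 0 * x ^ 4 + 0 * x ^ 5
    - exp x) (fun x => (dpoly 1 1 (1/2) 0 0 0 x).sub (hasDerivAt_exp x)) (by simp)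
    (fun x hx => by have := add_one_le_exp x; nlinarith) hx
  nlinarith

lemma exp_ge3 (x : ℝ) : 1 + x + x ^ 2 / 2 + x ^ 3 / 6 ≤ exp x := by
  rcases le_total x 0 with hx | hx
  · have h := nonneg_left (F := fun x => exp x - (1 + 1 * x + (1/2) * x ^ 2 + (1/6) * x ^ 3
      + 0 * x ^ 4 + 0 * x ^ 5)) (fun x => (hasDerivAt_exp x).sub (dpoly 1 1 (1/2) (1/6) 0 0 x))
      (by simp) (fun x hx => by have := exp_le2 hx; nlinarith) hx
    nlinarith
  · have h := sum_le_exp_of_nonneg hx 4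
    simp [Finset.sum_range_succ, Nat.factorial] at h
    linarith

lemma exp_le4 {x : ℝ} (hx : x ≤ 0) : exp x ≤ 1 + x + x ^ 2 / 2 + x ^ 3 / 6 + x ^ 4 / 24 := by
  have h := nonneg_left (F := fun x => 1 + 1 * x + (1/2) * x ^ 2 + (1/6) * x ^ 3 + (1/24) * x ^ 4
    + 0 * x ^ 5 - exp x) (fun x => (dpoly 1 1 (1/2) (1/6) (1/24) 0 x).sub (hasDerivAt_exp x))
    (by simp) (fun x hx => by have := exp_ge3 x; nlinarith) hx
  nlinarith

lemma exp_ge5 (x : ℝ) : 1 + x + x ^ 2 / 2 + x ^ 3 / 6 + x ^ 4 / 24 + x ^ 5 / 120 ≤ exp x := by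
  rcases le_total x 0 with hx | hx
  · have h := nonneg_left (F := fun x => exp x - (1 + 1 * x + (1/2) * x ^ 2 + (1/6) * x ^ 3
      + (1/24) * x ^ 4 + (1/120) * x ^ 5))
      (fun x => (hasDerivAt_exp x).sub (dpoly 1 1 (1/2) (1/6) (1/24) (1/120) x))
      (by simp) (fun x hx => by have := exp_le4 hx; nlinarith) hx
    nlinarith
  · have h := sum_le_exp_of_nonneg hx 6
    simp [Finset.sum_range_succ, Nat.factorial] at h
    linarith

lemma exp_le5' {x : ℝ} (h0 : 0 ≤ x) (h1 : x ≤ 1) :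
    exp x ≤ 1 + x + x ^ 2 / 2 + x ^ 3 / 6 + x ^ 4 / 24 + x ^ 5 / 100 := by
  have h := exp_bound' h0 h1 (n := 5) (by norm_num)
  simp [Finset.sum_range_succ, Nat.factorial] at h
  linarith

/-! ### Weighted integrals -/

/-- exponential integral with a quadratic weight in the angle -/
noncomputable def wI (α β γ s : ℝ) : ℝ :=
  ∫ u in (-1:ℝ)..(1/2), exp (s * u) * (α + β * cc u + γ * cc u ^ 2)

lemma cc_ii {f : ℝ → ℝ} (hf : Continuous f) (α β γ a b : ℝ) :
    IntervalIntegrable (fun u => f u * (α + β * cc u + γ * cc u ^ 2)) volume a b := by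
  have := cc_cont
  apply Continuous.intervalIntegrable
  fun_prop

lemma wI_comb (α β γ α' β' γ' x y s : ℝ) :
    x * wI α β γ s + y * wI α' β' γ' s = wI (x * α + y * α') (x * β + y * β') (x * γ + y * γ') s := by
  unfold wI
  rw [← intervalIntegral.integral_const_mul, ← intervalIntegral.integral_const_mul,
    ← intervalIntegral.integral_add
      ((cc_ii (f := fun u => exp (s * u)) (by fun_prop) _ _ _ _ _).const_mul _)
      ((cc_ii (f := fun u => exp (s * u)) (by fun_prop) _ _ _ _ _).const_mul _)]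
  congr 1
  ext u
  ring

lemma ftc_exp (s a b : ℝ) : s * ∫ u in a..b, exp (s * u) = exp (s * b) - exp (s * a) := by
  rw [← intervalIntegral.integral_const_mul]
  rw [intervalIntegral.integral_eq_sub_of_hasDerivAt (f := fun u => exp (s * u))]
  · intro x _
    have h1 : HasDerivAt (fun u : ℝ => exp (s * u)) (exp (s * x) * (s * 1)) x :=
      ((hasDerivAt_id x).const_mul s).exp
    exact h1.congr_deriv (by ring)
  · apply Continuous.intervalIntegrable; fun_prop

lemma wI_one (s : ℝ) : s * wI 1 0 0 s = exp (s / 2) - exp (-s) := by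
  have h := ftc_exp s (-1) (1/2)
  rw [show s * (1/2) = s / 2 by ring, show s * (-1) = -s by ring] at h
  rw [← h]
  unfold wI
  congr 2
  ext u
  ring

lemma al_eq (s : ℝ) : al s = exp (-s) + s * wI 1 0 (-3/2) s := by
  unfold al wI
  rw [← intervalIntegral.integral_const_mul]
  congr 2
  ext u
  unfold cc
  ring

lemma de_eq (s : ℝ) : de s = exp (-s) + s * wI 1 (-2) 1 s := by
  unfold de wI
  rw [← intervalIntegral.integral_const_mul]
  congr 2
  ext u
  unfold cc
  ring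

lemma km_eq (s : ℝ) : km s = s * wI 0 2 (-3) s := by
  unfold km wI
  rw [← intervalIntegral.integral_const_mul]
  congr 1
  ext u
  unfold cc
  ring

/-- difference of the coefficients -/
noncomputable def DD (s : ℝ) : ℝ := al s - de s
/-- sum of the coefficients -/
noncomputable def KK (s : ℝ) : ℝ := al s + de s

lemma DD_eq (s : ℝ) : DD s = s * wI 0 2 (-5/2) s := by
  have h := wI_comb 1 0 (-3/2) 1 (-2) 1 1 (-1) s
  unfold DD
  rw [al_eq, de_eq, show wI 0 2 (-5/2) s = wI (1 * 1 + -1 * 1) (1 * 0 + -1 * -2)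
    (1 * (-3/2) + -1 * 1) s by norm_num, ← h]
  ring

lemma KK_eq (s : ℝ) : KK s = 2 * exp (-s) + s * wI 2 (-2) (-1/2) s := by
  have h := wI_comb 1 0 (-3/2) 1 (-2) 1 1 1 s
  unfold KK
  rw [al_eq, de_eq, show wI 2 (-2) (-1/2) s = wI (1 * 1 + 1 * 1) (1 * 0 + 1 * -2)
    (1 * (-3/2) + 1 * 1) s by norm_num, ← h]
  ring

lemma de_eq' (s : ℝ) : de s = exp (s / 2) - s * wI 0 2 (-1) s := by
  have h := wI_comb 1 0 0 0 2 (-1) 1 (-1) s
  have h1 := wI_one s
  have e : wI 1 (-2) 1 s = wI (1 * 1 + -1 * 0) (1 * 0 + -1 * 2) (1 * 0 + -1 * -1) s := by norm_num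
  rw [de_eq, e, ← h]
  linarith

/-- integral over the negative part -/
noncomputable def eI (s : ℝ) : ℝ := ∫ u in (-1:ℝ)..0, exp (s * u)

lemma eI_eq (s : ℝ) : s * eI s = 1 - exp (-s) := by
  have h := ftc_exp s (-1) 0
  rw [mul_zero, exp_zero, show s * (-1) = -s by ring] at h
  exact h

/-- comparison of weighted integrals -/
lemma lowI {α β γ κ s : ℝ} {P : ℝ → ℝ} (hPc : Continuous P) (hP : ∀ u, P u ≤ exp (s * u))
    (h1 : ∀ u ∈ Icc (-1:ℝ) 0, 0 ≤ α + κ + β * cc u + γ * cc u ^ 2)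
    (h2 : ∀ u ∈ Icc (0:ℝ) (1/2), 0 ≤ α + β * cc u + γ * cc u ^ 2) :
    (∫ u in (-1:ℝ)..(1/2), P u * (α + β * cc u + γ * cc u ^ 2)) + κ * (∫ u in (-1:ℝ)..0, P u) ≤
      wI α β γ s + κ * eI s := by
  have hc := cc_cont
  unfold wI eI
  have i1 : ∀ a b, IntervalIntegrable (fun u => P u * (α + β * cc u + γ * cc u ^ 2)) volume a b :=
    fun a b => cc_ii hPc _ _ _ _ _
  have i2 : ∀ a b, IntervalIntegrable (fun u => exp (s * u) * (α + β * cc u + γ * cc u ^ 2))
    volume a b := fun a b => cc_ii (by fun_prop) _ _ _ _ _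
  rw [← intervalIntegral.integral_add_adjacent_intervals (i1 (-1) 0) (i1 0 (1/2)),
    ← intervalIntegral.integral_add_adjacent_intervals (i2 (-1) 0) (i2 0 (1/2))]
  have q1 : (∫ u in (-1:ℝ)..0, P u * (α + β * cc u + γ * cc u ^ 2)) + κ * (∫ u in (-1:ℝ)..0, P u)
      = ∫ u in (-1:ℝ)..0, P u * (α + κ + β * cc u + γ * cc u ^ 2) := by
    rw [← intervalIntegral.integral_const_mul, ← intervalIntegral.integral_add (i1 _ _)
      ((hPc.const_mul _).intervalIntegrable _ _)]
    congr 1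
    ext u
    ring
  have q2 : (∫ u in (-1:ℝ)..0, exp (s * u) * (α + β * cc u + γ * cc u ^ 2)) +
      κ * (∫ u in (-1:ℝ)..0, exp (s * u))
      = ∫ u in (-1:ℝ)..0, exp (s * u) * (α + κ + β * cc u + γ * cc u ^ 2) := by
    rw [← intervalIntegral.integral_const_mul, ← intervalIntegral.integral_add (i2 _ _)
      (Continuous.intervalIntegrable (by fun_prop) _ _)]
    congr 1
    ext u
    ring
  have q3 : ∫ u in (-1:ℝ)..0, P u * (α + κ + β * cc u + γ * cc u ^ 2) ≤
      ∫ u in (-1:ℝ)..0, exp (s * u) * (α + κ + β * cc u + γ * cc u ^ 2) := by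
    apply intervalIntegral.integral_mono_on (by norm_num) (cc_ii hPc _ _ _ _ _)
      (cc_ii (by fun_prop) _ _ _ _ _)
    intro u hu
    exact mul_le_mul_of_nonneg_right (hP u) (h1 u hu)
  have q4 : ∫ u in (0:ℝ)..(1/2), P u * (α + β * cc u + γ * cc u ^ 2) ≤
      ∫ u in (0:ℝ)..(1/2), exp (s * u) * (α + β * cc u + γ * cc u ^ 2) := by
    apply intervalIntegral.integral_mono_on (by norm_num) (cc_ii hPc _ _ _ _ _)
      (cc_ii (by fun_prop) _ _ _ _ _)
    intro u hu
    exact mul_le_mul_of_nonneg_right (hP u) (h2 u hu)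
  linarith

lemma int_lin1 (k a b : ℝ) : ∫ u in a..b, k * u = k * ((b ^ 2 - a ^ 2) / 2) := by
  rw [intervalIntegral.integral_const_mul, integral_id]

/-- polynomial moments -/
lemma polyI (p0 p1 p2 p3 α β γ : ℝ) :
    ∫ u in (-1:ℝ)..(1/2), (p0 + p1 * u + p2 * u ^ 2 + p3 * u ^ 3) * (α + β * cc u + γ * cc u ^ 2) =
    p0 * (α * (3/2) + β * (1/3 + pc / 2) + γ * (2/9 + 2/3 * pc - 3 * qc)) +
    p1 * (α * (-(3/8)) + β * (-(1/12) + pc / 16) + γ * (-(1/18) + 1/12 * pc + 3/16 * qc)) +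
    p2 * (α * (3/8) + β * (1/36 + pc / 8) + γ * (1/54 + 1/6 * pc - 3/4 * qc)) +
    p3 * (α * (-(15/64)) + β * (-(5/96) + 7/256 * pc) +
      γ * (-(5/144) + 7/192 * pc + 51/512 * qc)) := by
  have hc := cc_cont
  have e : ∀ u : ℝ, (p0 + p1 * u + p2 * u ^ 2 + p3 * u ^ 3) * (α + β * cc u + γ * cc u ^ 2) =
      (p0 * α + p1 * α * u + p2 * α * u ^ 2 + p3 * α * u ^ 3) +
      (p0 * β * cc u + p1 * β * (u * cc u) + p2 * β * (u ^ 2 * cc u) + p3 * β * (u ^ 3 * cc u)) +
      (p0 * γ * cc u ^ 2 + p1 * γ * (u * cc u ^ 2) + p2 * γ * (u ^ 2 * cc u ^ 2) +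
        p3 * γ * (u ^ 3 * cc u ^ 2)) := by
    intro u; ring
  simp only [e]
  have ii : ∀ f : ℝ → ℝ, Continuous f → IntervalIntegrable f volume (-1) (1/2) :=
    fun f hf => hf.intervalIntegrable _ _
  rw [intervalIntegral.integral_add (ii _ (by fun_prop)) (ii _ (by fun_prop)),
    intervalIntegral.integral_add (ii _ (by fun_prop)) (ii _ (by fun_prop)),
    intervalIntegral.integral_add (ii _ (by fun_prop)) (ii _ (by fun_prop)),
    intervalIntegral.integral_add (ii _ (by fun_prop)) (ii _ (by fun_prop)),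
    intervalIntegral.integral_add (ii _ (by fun_prop)) (ii _ (by fun_prop)),
    intervalIntegral.integral_add (ii _ (by fun_prop)) (ii _ (by fun_prop)),
    intervalIntegral.integral_add (ii _ (by fun_prop)) (ii _ (by fun_prop)),
    intervalIntegral.integral_add (ii _ (by fun_prop)) (ii _ (by fun_prop)),
    intervalIntegral.integral_add (ii _ (by fun_prop)) (ii _ (by fun_prop)),
    intervalIntegral.integral_add (ii _ (by fun_prop)) (ii _ (by fun_prop)),
    intervalIntegral.integral_add (ii _ (by fun_prop)) (ii _ (by fun_prop))]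
  simp only [intervalIntegral.integral_const_mul, m_a0, m_a1, m_a2, m_a3, m_b0, m_b1, m_b2, m_b3,
    intervalIntegral.integral_const, int_lin1, integral_pow, smul_eq_mul]
  norm_num
  ring

lemma polyE (p0 p1 p2 p3 : ℝ) :
    ∫ u in (-1:ℝ)..0, (p0 + p1 * u + p2 * u ^ 2 + p3 * u ^ 3) =
    p0 - p1 / 2 + p2 / 3 - p3 / 4 := by
  have ii : ∀ f : ℝ → ℝ, Continuous f → IntervalIntegrable f volume (-1) 0 :=
    fun f hf => hf.intervalIntegrable _ _
  rw [intervalIntegral.integral_add (ii _ (by fun_prop)) (ii _ (by fun_prop)),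
    intervalIntegral.integral_add (ii _ (by fun_prop)) (ii _ (by fun_prop)),
    intervalIntegral.integral_add (ii _ (by fun_prop)) (ii _ (by fun_prop))]
  simp only [intervalIntegral.integral_const_mul,
    intervalIntegral.integral_const, int_lin1, integral_pow, smul_eq_mul]
  norm_num
  ring

lemma pc_gt : 0.551328 < pc := by
  unfold pc
  rw [lt_div_iff₀ pi_pos]
  have h1 := pi_lt_d6
  have h2 : (1.73205:ℝ) < √3 := by
    rw [Real.lt_sqrt (by norm_num)]; norm_num
  nlinarith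

lemma pc_lt : pc < 0.551330 := by
  unfold pc
  rw [div_lt_iff₀ pi_pos]
  have h1 := pi_gt_d6
  have h2 : √3 < (1.732051:ℝ) := by
    rw [Real.sqrt_lt' (by norm_num)]; norm_num
  nlinarith

lemma qc_gt : 0.101321 < qc := by
  unfold qc
  rw [lt_div_iff₀ (by positivity)]
  have h1 := pi_lt_d6
  have h0 := pi_pos
  nlinarith

lemma qc_lt : qc < 0.101322 := by
  unfold qc
  rw [div_lt_iff₀ (by positivity)]
  have h1 := pi_gt_d6
  have h0 := pi_pos
  nlinarith

end Pool.Agent.Run7.h126
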