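import Mathlib
import Pool.Agent.Run7.h126.Scal1

set_option autoImplicit false

open MeasureTheory Set Real

namespace Pool.Agent.Run7.h126

/-- Bernstein test for a cubic -/
lemma cub (c0 c1 c2 c3 l r : ℝ) {s : ℝ} (hl : l ≤ s) (hr : s ≤ r) (hlr : l < r)
    (b0 : 0 ≤ c0 + c1 * l + c2 * l ^ 2 + c3 * l ^ 3)
    (b1 : 0 ≤ c0 + c1 * l + c2 * l ^ 2 + c3 * l ^ 3 + (r - l) / 3 * (c1 + 2 * c2 * l + 3 * c3 * l ^ 2))
    (b2 : 0 ≤ c0 + c1 * r + c2 * r ^ 2 + c3 * r ^ 3 - (r - l) / 3 * (c1 + 2 * c2 * r + 3 * c3 * r ^ 2))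
    (b3 : 0 ≤ c0 + c1 * r + c2 * r ^ 2 + c3 * r ^ 3) :
    0 ≤ c0 + c1 * s + c2 * s ^ 2 + c3 * s ^ 3 := by
  have h1 : 0 ≤ s - l := by linarith
  have h2 : 0 ≤ r - s := by linarith
  have h3 : 0 < (r - l) ^ 3 := by
    have : 0 < r - l := by linarith
    positivity
  have e : (c0 + c1 * s + c2 * s ^ 2 + c3 * s ^ 3) * (r - l) ^ 3 =
      (c0 + c1 * l + c2 * l ^ 2 + c3 * l ^ 3) * (r - s) ^ 3 +
      3 * (c0 + c1 * l + c2 * l ^ 2 + c3 * l ^ 3 + (r - l) / 3 * (c1 + 2 * c2 * l + 3 * c3 * l ^ 2))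
        * ((s - l) * (r - s) ^ 2) +
      3 * (c0 + c1 * r + c2 * r ^ 2 + c3 * r ^ 3 - (r - l) / 3 * (c1 + 2 * c2 * r + 3 * c3 * r ^ 2))
        * ((s - l) ^ 2 * (r - s)) +
      (c0 + c1 * r + c2 * r ^ 2 + c3 * r ^ 3) * (s - l) ^ 3 := by ring
  have : 0 ≤ (c0 + c1 * s + c2 * s ^ 2 + c3 * s ^ 3) * (r - l) ^ 3 := by
    rw [e]; positivity
  exact nonneg_of_mul_nonneg_left this h3

/-! ### Bounds for the angle -/

lemma cc_arcsin (u : ℝ) : cc u = 1/2 + arcsin u / π := by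
  unfold cc
  rw [arccos_eq_pi_div_two_sub_arcsin]
  field_simp
  ring

lemma cc_half : cc (1/2) = 2/3 := by
  unfold cc
  rw [arccos_half]
  field_simp
  norm_num

lemma cc_neg_half : cc (-(1/2)) = 1/3 := by
  unfold cc
  rw [arccos_neg, arccos_half]
  field_simp
  norm_num

lemma cc_le_half {u : ℝ} (h : u ≤ 0) : cc u ≤ 1/2 := by
  have := cc_mono h
  rwa [cc_zero] at this

lemma cc_ge_half {u : ℝ} (h : 0 ≤ u) : 1/2 ≤ cc u := by
  have := cc_mono h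
  rwa [cc_zero] at this

lemma cc_le_third {u : ℝ} (h : u ≤ -(1/2)) : cc u ≤ 1/3 := by
  have := cc_mono h
  rwa [cc_neg_half] at this

lemma cA_low {u : ℝ} (h0 : 0 ≤ u) (h1 : u ≤ 1/2) : 1/2 + u / π ≤ cc u := by
  rw [cc_arcsin]
  have h2 : 0 ≤ arcsin u := arcsin_nonneg.mpr h0
  have h3 : sin (arcsin u) = u := sin_arcsin (by linarith) (by linarith)
  have h4 : sin (arcsin u) ≤ arcsin u := sin_le h2
  rw [h3] at h4
  have h5 : u / π ≤ arcsin u / π := by have := pi_pos; gcongr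
  linarith

lemma cA_up {u : ℝ} (h0 : 0 ≤ u) (h1 : u ≤ 1/2) : cc u ≤ 1/2 + u / 3 := by
  have hpi := pi_pos
  rw [cc_arcsin]
  have h2 : 0 ≤ arcsin u := arcsin_nonneg.mpr h0
  have h3 : sin (arcsin u) = u := sin_arcsin (by linarith) (by linarith)
  have h4 : arcsin u ≤ π / 6 := by
    rw [arcsin_le_iff_le_sin ⟨by linarith, by linarith⟩ ⟨by linarith, by linarith⟩, sin_pi_div_six]
    exact h1
  have hc : ConcaveOn ℝ (Icc 0 π) sin := strictConcaveOn_sin_Icc.concaveOn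
  have m0 : (0:ℝ) ∈ Icc 0 π := ⟨le_rfl, hpi.le⟩
  have m1 : π / 6 ∈ Icc 0 π := ⟨by positivity, by linarith⟩
  have h5 := hc.2 m0 m1
    (show 0 ≤ 1 - 6 * arcsin u / π by rw [sub_nonneg, div_le_one hpi]; linarith)
    (show 0 ≤ 6 * arcsin u / π by positivity) (by ring)
  simp only [smul_eq_mul, sin_zero, mul_zero, zero_add, sin_pi_div_six] at h5
  have e : 6 * arcsin u / π * (π / 6) = arcsin u := by field_simp
  rw [e, h3] at h5
  have h6 : arcsin u / π ≤ u / 3 := by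
    rw [div_le_div_iff₀ hpi (by norm_num)]
    have : 6 * arcsin u / π * (1 / 2) * π = arcsin u * 3 := by field_simp; ring
    nlinarith
  linarith

lemma cB {u : ℝ} (h0 : -1 ≤ u) (h1 : u ≤ 0) : (1 + u) / 2 ≤ cc u := by
  have hpi := pi_pos
  rw [cc_arcsin]
  have h2 : arcsin u ≤ 0 := arcsin_nonpos.mpr h1
  have h2' : -(π / 2) ≤ arcsin u := neg_pi_div_two_le_arcsin u
  have h3 : sin (arcsin u) = u := sin_arcsin h0 (by linarith)
  have h4 : 2 / π * (-arcsin u) ≤ sin (-arcsin u) := mul_le_sin (by linarith) (by linarith)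
  rw [sin_neg, h3] at h4
  have h5 : u / 2 ≤ arcsin u / π := by
    rw [div_le_div_iff₀ (by norm_num) hpi]
    have : 2 / π * (-arcsin u) * π = -(arcsin u * 2) := by field_simp
    nlinarith
  linarith

/-! ### Moment bounds -/

/-- the four moments -/
noncomputable def mu0 (α β γ κ : ℝ) : ℝ :=
  α * (3/2) + β * (1/3 + pc / 2) + γ * (2/9 + 2/3 * pc - 3 * qc) + κ
noncomputable def mu1 (α β γ κ : ℝ) : ℝ :=
  α * (-(3/8)) + β * (-(1/12) + pc / 16) + γ * (-(1/18) + 1/12 * pc + 3/16 * qc) - κ / 2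
noncomputable def mu2 (α β γ κ : ℝ) : ℝ :=
  α * (3/8) + β * (1/36 + pc / 8) + γ * (1/54 + 1/6 * pc - 3/4 * qc) + κ / 3
noncomputable def mu3 (α β γ κ : ℝ) : ℝ :=
  α * (-(15/64)) + β * (-(5/96) + 7/256 * pc) + γ * (-(5/144) + 7/192 * pc + 51/512 * qc) - κ / 4

lemma raw3 {α β γ κ s : ℝ}
    (h1 : ∀ u ∈ Icc (-1:ℝ) 0, 0 ≤ α + κ + β * cc u + γ * cc u ^ 2)
    (h2 : ∀ u ∈ Icc (0:ℝ) (1/2), 0 ≤ α + β * cc u + γ * cc u ^ 2) :
    mu0 α β γ κ + s * mu1 α β γ κ + s ^ 2 / 2 * mu2 α β γ κ + s ^ 3 / 6 * mu3 α β γ κ ≤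
      wI α β γ s + κ * eI s := by
  have h := lowI (P := fun u => 1 + s * u + s ^ 2 / 2 * u ^ 2 + s ^ 3 / 6 * u ^ 3) (by fun_prop)
    (fun u => by
      have := exp_ge3 (s * u)
      have e : 1 + s * u + s ^ 2 / 2 * u ^ 2 + s ^ 3 / 6 * u ^ 3 =
        1 + s * u + (s * u) ^ 2 / 2 + (s * u) ^ 3 / 6 := by ring
      rw [e]; exact this) h1 h2
  rw [polyI, polyE] at h
  refine le_trans (le_of_eq ?_) h
  unfold mu0 mu1 mu2 mu3
  ring

lemma cen3 {α β γ κ s : ℝ}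
    (h1 : ∀ u ∈ Icc (-1:ℝ) 0, 0 ≤ α + κ + β * cc u + γ * cc u ^ 2)
    (h2 : ∀ u ∈ Icc (0:ℝ) (1/2), 0 ≤ α + β * cc u + γ * cc u ^ 2) :
    exp (-(s / 4)) * (
      mu0 α β γ κ + s * (mu1 α β γ κ + 1/4 * mu0 α β γ κ) +
      s ^ 2 / 2 * (mu2 α β γ κ + 1/2 * mu1 α β γ κ + 1/16 * mu0 α β γ κ) +
      s ^ 3 / 6 * (mu3 α β γ κ + 3/4 * mu2 α β γ κ + 3/16 * mu1 α β γ κ + 1/64 * mu0 α β γ κ)) ≤
      wI α β γ s + κ * eI s := by
  have h := lowI (P := fun u => exp (-(s / 4)) * ((1 + s / 4 + s ^ 2 / 32 + s ^ 3 / 384) +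
      (s + s ^ 2 / 4 + s ^ 3 / 32) * u + (s ^ 2 / 2 + s ^ 3 / 8) * u ^ 2 + s ^ 3 / 6 * u ^ 3))
    (by fun_prop)
    (fun u => by
      have := exp_ge3 (s * (u + 1/4))
      have e : (1 + s / 4 + s ^ 2 / 32 + s ^ 3 / 384) +
        (s + s ^ 2 / 4 + s ^ 3 / 32) * u + (s ^ 2 / 2 + s ^ 3 / 8) * u ^ 2 + s ^ 3 / 6 * u ^ 3 =
        1 + s * (u + 1/4) + (s * (u + 1/4)) ^ 2 / 2 + (s * (u + 1/4)) ^ 3 / 6 := by ring
      rw [e, show exp (s * u) = exp (-(s / 4)) * exp (s * (u + 1/4)) by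
        rw [← Real.exp_add]; congr 1; ring]
      exact mul_le_mul_of_nonneg_left this (exp_pos _).le) h1 h2
  simp only [mul_assoc (exp (-(s / 4)))] at h
  rw [intervalIntegral.integral_const_mul, intervalIntegral.integral_const_mul, polyI, polyE] at h
  refine le_trans (le_of_eq ?_) h
  unfold mu0 mu1 mu2 mu3
  ring

/-- integrals over the positive part with a quadratic minorant of the weight -/
lemma posI {α β γ κ s s0 a b c : ℝ} (hs0 : 0 ≤ s0) (hs : s0 ≤ s)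
    (h1 : ∀ u ∈ Icc (-1:ℝ) 0, 0 ≤ α + κ + β * cc u + γ * cc u ^ 2)
    (h2 : ∀ u ∈ Icc (0:ℝ) (1/2), a + b * u + c * u ^ 2 ≤ α + β * cc u + γ * cc u ^ 2)
    (h3 : ∀ u ∈ Icc (0:ℝ) (1/2), 0 ≤ a + b * u + c * u ^ 2) :
    (∫ u in (0:ℝ)..(1/2), exp (s0 * u) * (a + b * u + c * u ^ 2)) ≤ wI α β γ s + κ * eI s := by
  have hc := cc_cont
  unfold wI eI
  have i2 : ∀ a b, IntervalIntegrable (fun u => exp (s * u) * (α + β * cc u + γ * cc u ^ 2))
    volume a b := fun a b => cc_ii (by fun_prop) _ _ _ _ _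
  rw [← intervalIntegral.integral_add_adjacent_intervals (i2 (-1) 0) (i2 0 (1/2))]
  have q2 : (∫ u in (-1:ℝ)..0, exp (s * u) * (α + β * cc u + γ * cc u ^ 2)) +
      κ * (∫ u in (-1:ℝ)..0, exp (s * u))
      = ∫ u in (-1:ℝ)..0, exp (s * u) * (α + κ + β * cc u + γ * cc u ^ 2) := by
    rw [← intervalIntegral.integral_const_mul, ← intervalIntegral.integral_add (i2 _ _)
      (Continuous.intervalIntegrable (by fun_prop) _ _)]
    congr 1
    ext u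
    ring
  have q3 : 0 ≤ ∫ u in (-1:ℝ)..0, exp (s * u) * (α + κ + β * cc u + γ * cc u ^ 2) := by
    apply intervalIntegral.integral_nonneg (by norm_num)
    intro u hu
    exact mul_nonneg (exp_pos _).le (h1 u hu)
  have q4 : ∫ u in (0:ℝ)..(1/2), exp (s0 * u) * (a + b * u + c * u ^ 2) ≤
      ∫ u in (0:ℝ)..(1/2), exp (s * u) * (α + β * cc u + γ * cc u ^ 2) := by
    apply intervalIntegral.integral_mono_on (by norm_num)
      (Continuous.intervalIntegrable (by fun_prop) _ _) (i2 _ _)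
    intro u hu
    refine mul_le_mul ?_ (h2 u hu) (h3 u hu) (exp_pos _).le
    exact exp_le_exp.mpr (mul_le_mul_of_nonneg_right hs hu.1)
  linarith

end Pool.Agent.Run7.h126
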