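import Mathlib
import Pool.Agent.Run7.h126.Scal2

set_option autoImplicit false

open MeasureTheory Set Real Filter Topology

namespace Pool.Agent.Run7.h126

/-- the Gaussian factor -/
noncomputable def G0 (b t : ℝ) : ℝ := exp (-b * t ^ 2)

lemma G0_pos (b t : ℝ) : 0 < G0 b t := exp_pos _

lemma G0_cont (b : ℝ) : Continuous (G0 b) := by unfold G0; fun_prop

lemma G0_meas (b : ℝ) : Measurable (G0 b) := (G0_cont b).measurable

lemma G0_deriv (b x : ℝ) : HasDerivAt (G0 b) (-2 * b * x * G0 b x) x := by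
  unfold G0
  have h := ((hasDerivAt_pow 2 x).const_mul (-b)).exp
  refine h.congr_deriv ?_
  push_cast
  ring

lemma G0_tendsto {b : ℝ} (hb : 0 < b) (n : ℕ) :
    Tendsto (fun x : ℝ => x ^ n * G0 b x) atTop (𝓝 0) := by
  have h1 : Tendsto (fun x : ℝ => exp (1 / (4 * b)) * (x ^ n * exp (-x))) atTop (𝓝 0) := by
    have := (tendsto_pow_mul_exp_neg_atTop_nhds_zero n).const_mul (exp (1 / (4 * b)))
    simpa using this
  refine squeeze_zero' ?_ ?_ h1
  · filter_upwards [eventually_ge_atTop (0:ℝ)] with x hx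
    have := (G0_pos b x).le
    positivity
  · filter_upwards [eventually_ge_atTop (0:ℝ)] with x hx
    have h2 : G0 b x ≤ exp (1 / (4 * b)) * exp (-x) := by
      unfold G0
      rw [← Real.exp_add]
      apply exp_le_exp.mpr
      have h3 : 0 ≤ b * (x - 1 / (2 * b)) ^ 2 := by positivity
      have h4 : b * (x - 1 / (2 * b)) ^ 2 = b * x ^ 2 - x + 1 / (4 * b) := by
        field_simp
        ring
      linarith
    calc x ^ n * G0 b x ≤ x ^ n * (exp (1 / (4 * b)) * exp (-x)) := by gcongr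
      _ = _ := by ring

lemma G0_tendsto0 {b : ℝ} (hb : 0 < b) : Tendsto (fun x : ℝ => G0 b x) atTop (𝓝 0) := by
  have := G0_tendsto hb 0
  simpa using this

lemma i0_int {b : ℝ} (hb : 0 < b) : Integrable (G0 b) (volume.restrict (Ioi (0:ℝ))) :=
  (integrable_exp_neg_mul_sq hb).restrict

lemma i0_val (b : ℝ) : ∫ t in Ioi (0:ℝ), G0 b t = √(π / b) / 2 := integral_gaussian_Ioi b

lemma i1 {b : ℝ} (hb : 0 < b) : IntegrableOn (fun t => t * G0 b t) (Ioi (0:ℝ)) ∧
    ∫ t in Ioi (0:ℝ), t * G0 b t = 1 / (2 * b) := by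
  have hd : ∀ x ∈ Ici (0:ℝ), HasDerivAt (fun x => -(1 / (2 * b)) * G0 b x) (x * G0 b x) x := by
    intro x _
    refine ((G0_deriv b x).const_mul (-(1 / (2 * b)))).congr_deriv ?_
    field_simp
  have hn : ∀ x ∈ Ioi (0:ℝ), 0 ≤ x * G0 b x := fun x hx => mul_nonneg (le_of_lt hx) (G0_pos b x).le
  have ht : Tendsto (fun x => -(1 / (2 * b)) * G0 b x) atTop (𝓝 0) := by
    have := (G0_tendsto0 hb).const_mul (-(1 / (2 * b)))
    simpa using this
  refine ⟨integrableOn_Ioi_deriv_of_nonneg' hd hn ht, ?_⟩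
  rw [integral_Ioi_of_hasDerivAt_of_nonneg' hd hn ht]
  unfold G0
  simp

lemma i3 {b : ℝ} (hb : 0 < b) : IntegrableOn (fun t => t ^ 3 * G0 b t) (Ioi (0:ℝ)) ∧
    ∫ t in Ioi (0:ℝ), t ^ 3 * G0 b t = 1 / (2 * b ^ 2) := by
  have hd : ∀ x ∈ Ici (0:ℝ), HasDerivAt (fun x => -(1 / (2 * b)) * (x ^ 2 * G0 b x) -
      (1 / (2 * b ^ 2)) * G0 b x) (x ^ 3 * G0 b x) x := by
    intro x _
    refine ((((hasDerivAt_pow 2 x).mul (G0_deriv b x)).const_mul (-(1 / (2 * b)))).sub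
      ((G0_deriv b x).const_mul (1 / (2 * b ^ 2)))).congr_deriv ?_
    field_simp
    push_cast
    ring
  have hn : ∀ x ∈ Ioi (0:ℝ), 0 ≤ x ^ 3 * G0 b x := by
    intro x hx
    have hx' : 0 < x := hx
    have := (G0_pos b x).le
    positivity
  have ht : Tendsto (fun x => -(1 / (2 * b)) * (x ^ 2 * G0 b x) -
      (1 / (2 * b ^ 2)) * G0 b x) atTop (𝓝 0) := by
    have := ((G0_tendsto hb 2).const_mul (-(1 / (2 * b)))).sub
      ((G0_tendsto0 hb).const_mul (1 / (2 * b ^ 2)))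
    simpa using this
  refine ⟨integrableOn_Ioi_deriv_of_nonneg' hd hn ht, ?_⟩
  rw [integral_Ioi_of_hasDerivAt_of_nonneg' hd hn ht]
  unfold G0
  simp

lemma i2_int {b : ℝ} (hb : 0 < b) : IntegrableOn (fun t => t ^ 2 * G0 b t) (Ioi (0:ℝ)) := by
  have h := ((i1 hb).1.add (i3 hb).1)
  refine h.mono' ?_ ?_
  · have := G0_cont b
    apply Continuous.aestronglyMeasurable; fun_prop
  · filter_upwards [ae_restrict_mem measurableSet_Ioi] with x hx
    have hx' : 0 < x := hx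
    have hG := (G0_pos b x).le
    rw [Real.norm_of_nonneg (by positivity)]
    simp only [Pi.add_apply]
    have : x ^ 2 ≤ x + x ^ 3 := by nlinarith [sq_nonneg (x - 1), mul_nonneg hx'.le (sq_nonneg (x - 1))]
    nlinarith

lemma i2_val {b : ℝ} (hb : 0 < b) : ∫ t in Ioi (0:ℝ), t ^ 2 * G0 b t =
    1 / (2 * b) * (√(π / b) / 2) := by
  have hd : ∀ x ∈ Ici (0:ℝ), HasDerivAt (fun x => -(1 / (2 * b)) * (x ^ 1 * G0 b x))
      (x ^ 2 * G0 b x - 1 / (2 * b) * G0 b x) x := by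
    intro x _
    refine (((hasDerivAt_pow 1 x).mul (G0_deriv b x)).const_mul (-(1 / (2 * b)))).congr_deriv ?_
    field_simp
    push_cast
    ring
  have hi : IntegrableOn (fun x => x ^ 2 * G0 b x - 1 / (2 * b) * G0 b x) (Ioi (0:ℝ)) :=
    (i2_int hb).sub ((i0_int hb).const_mul _)
  have ht : Tendsto (fun x => -(1 / (2 * b)) * (x ^ 1 * G0 b x)) atTop (𝓝 0) := by
    have := (G0_tendsto hb 1).const_mul (-(1 / (2 * b)))
    simpa using this
  have h := integral_Ioi_of_hasDerivAt_of_tendsto' hd hi ht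
  rw [integral_sub (i2_int hb) ((i0_int hb).const_mul _), integral_const_mul, i0_val] at h
  simp at h
  have e : b⁻¹ * 2⁻¹ = 1 / (2 * b) := by field_simp
  rw [← e]
  linarith

/-- second moment tails -/
lemma tail2 {b T : ℝ} (hb : 0 < b) (hT : 0 < T) :
    ∫ t in Ioi T, t ^ 2 * G0 b t ≤ (T / (2 * b) + 1 / (4 * b ^ 2 * T)) * G0 b T := by
  have hd : ∀ x ∈ Ici T, HasDerivAt (fun x => -((x / (2 * b) + 1 / (4 * b ^ 2) * x⁻¹) * G0 b x))
      ((x ^ 2 + 1 / (4 * b ^ 2) * (x ^ 2)⁻¹) * G0 b x) x := by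
    intro x hx
    have hx' : 0 < x := lt_of_lt_of_le hT hx
    have h1 := ((hasDerivAt_id x).div_const (2 * b)).add
      ((hasDerivAt_inv hx'.ne').const_mul (1 / (4 * b ^ 2)))
    refine ((h1.mul (G0_deriv b x)).neg).congr_deriv ?_
    simp only [Pi.add_apply, id]
    field_simp
    ring
  have hn : ∀ x ∈ Ioi T, 0 ≤ (x ^ 2 + 1 / (4 * b ^ 2) * (x ^ 2)⁻¹) * G0 b x := by
    intro x hx
    have hx' : 0 < x := hT.trans hx
    have := (G0_pos b x).le
    positivity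
  have ht : Tendsto (fun x => -((x / (2 * b) + 1 / (4 * b ^ 2) * x⁻¹) * G0 b x)) atTop (𝓝 0) := by
    have h1 := (G0_tendsto hb 1).const_mul (1 / (2 * b))
    have h2 := ((tendsto_inv_atTop_zero (𝕜 := ℝ)).mul (G0_tendsto0 hb)).const_mul (1 / (4 * b ^ 2))
    have h3 := (h1.add h2).neg
    simp only [mul_zero, add_zero, neg_zero] at h3
    refine h3.congr fun x => ?_
    ring
  have hint := integrableOn_Ioi_deriv_of_nonneg' hd hn ht
  have hval := integral_Ioi_of_hasDerivAt_of_nonneg' hd hn ht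
  calc ∫ t in Ioi T, t ^ 2 * G0 b t ≤
      ∫ t in Ioi T, (t ^ 2 + 1 / (4 * b ^ 2) * (t ^ 2)⁻¹) * G0 b t := by
        apply setIntegral_mono_on ((i2_int hb).mono_set (Ioi_subset_Ioi hT.le)) hint measurableSet_Ioi
        intro x hx
        have hx' : 0 < x := hT.trans hx
        have := (G0_pos b x).le
        have h2 : 0 ≤ 1 / (4 * b ^ 2) * (x ^ 2)⁻¹ := by positivity
        nlinarith
    _ = _ := by
        rw [hval]
        field_simp
        ring

/-- the half Gaussian mass -/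
noncomputable def m0 : ℝ := √(π / (1/2)) / 2

lemma m0_eq : m0 = √(π / 2) := by
  unfold m0
  rw [show π / (1/2) = π / 2 * 2 ^ 2 by ring, sqrt_mul (by positivity), sqrt_sq (by norm_num)]
  ring

lemma m0_gt : 1.2533 < m0 := by
  rw [m0_eq, Real.lt_sqrt (by norm_num)]
  have := pi_gt_d6
  norm_num
  linarith

lemma m0_lt : m0 < 1.2534 := by
  rw [m0_eq, Real.sqrt_lt' (by norm_num)]
  have := pi_lt_d6
  norm_num
  linarith

lemma v2 : ∫ t in Ioi (0:ℝ), t ^ 2 * G0 (1/2) t = m0 := by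
  rw [i2_val (by norm_num)]
  unfold m0
  norm_num

lemma v3 : ∫ t in Ioi (0:ℝ), t ^ 3 * G0 (1/2) t = 2 := by
  rw [(i3 (by norm_num)).2]
  norm_num

lemma v1 : ∫ t in Ioi (0:ℝ), t * G0 (1/2) t = 1 := by
  rw [(i1 (by norm_num)).2]
  norm_num

lemma v0 : ∫ t in Ioi (0:ℝ), G0 (1/2) t = m0 := i0_val _

end Pool.Agent.Run7.h126
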