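import Mathlib
import Pool.Agent.W342.GP.Mehler

set_option autoImplicit false

open MeasureTheory Set Real ProbabilityTheory Polynomial
open scoped ENNReal NNReal

namespace Pool.Agent.Run7.h126

open Pool.Agent.W342.GP (HP HP_zero HP_succ HP_deriv HP_rec HP_one_eval poly_int stein)

/-- normalised Hermite polynomials -/
noncomputable def he (k : ℕ) (x : ℝ) : ℝ := (√(k.factorial : ℝ))⁻¹ * (HP k).eval x

lemma he_zero (x : ℝ) : he 0 x = 1 := by
  unfold he
  rw [HP_zero]
  simp

lemma he_one (x : ℝ) : he 1 x = x := by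
  unfold he
  rw [HP_one_eval]
  simp

lemma he_cont (k : ℕ) : Continuous (he k) := by
  unfold he
  fun_prop

lemma he_meas (k : ℕ) : Measurable (he k) := (he_cont k).measurable

lemma he_int (k : ℕ) : Integrable (he k) (gaussianReal 0 1) := by
  unfold he
  exact (poly_int _ 1).const_mul _

lemma he_mul_int (k l : ℕ) : Integrable (fun x => he k x * he l x) (gaussianReal 0 1) := by
  have h := (poly_int (HP k * HP l) 1).const_mul ((√(k.factorial : ℝ))⁻¹ * (√(l.factorial : ℝ))⁻¹)
  refine h.congr (Filter.Eventually.of_forall fun x => ?_)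
  unfold he
  simp only [eval_mul]
  ring

/-- moving one derivative -/
lemma HP_move (k : ℕ) (q : ℝ[X]) :
    ∫ x, (HP (k + 1)).eval x * q.eval x ∂(gaussianReal 0 1) =
      ∫ x, (HP k).eval x * (derivative q).eval x ∂(gaussianReal 0 1) := by
  have h1 := stein (HP k * q)
  have e1 : ∀ x : ℝ, (HP (k + 1)).eval x * q.eval x =
      x * (HP k * q).eval x - (derivative (HP k) * q).eval x := by
    intro x
    rw [HP_succ]
    simp only [eval_mul, eval_sub, eval_X]
    ring
  have i1 : Integrable (fun x : ℝ => x * (HP k * q).eval x) (gaussianReal 0 1) := by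
    refine (poly_int (X * (HP k * q)) 1).congr (Filter.Eventually.of_forall fun x => ?_)
    simp only [eval_mul, eval_X]
  simp only [e1]
  rw [integral_sub i1 (poly_int _ 1), h1, ← integral_sub (poly_int _ 1) (poly_int _ 1)]
  congr 1
  ext x
  rw [derivative_mul]
  simp only [eval_add, eval_mul]
  ring

lemma HP_orth (k l : ℕ) :
    ∫ x, (HP k).eval x * (HP l).eval x ∂(gaussianReal 0 1) =
      if k = l then (k.factorial : ℝ) else 0 := by
  induction k generalizing l with
  | zero =>
    cases l with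
    | zero => simp [HP_zero]
    | succ l =>
      have h := HP_move l 1
      simp only [derivative_one, eval_zero, mul_zero, integral_zero, eval_one, mul_one] at h
      simp only [HP_zero, eval_one, one_mul, h]
      simp
  | succ k ih =>
    rw [HP_move]
    cases l with
    | zero =>
      simp [HP_zero]
    | succ l =>
      rw [HP_deriv]
      have e : ∀ x : ℝ, (HP k).eval x * (C ((l:ℝ) + 1) * HP l).eval x =
          ((l:ℝ) + 1) * ((HP k).eval x * (HP l).eval x) := by
        intro x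
        simp only [eval_mul, eval_C]
        ring
      simp only [e]
      rw [integral_const_mul, ih]
      by_cases h : k = l
      · subst h
        simp [Nat.factorial_succ]
      · simp [h]

lemma he_orth (k l : ℕ) :
    ∫ x, he k x * he l x ∂(gaussianReal 0 1) = if k = l then 1 else 0 := by
  have e : ∀ x : ℝ, he k x * he l x = ((√(k.factorial : ℝ))⁻¹ * (√(l.factorial : ℝ))⁻¹) *
      ((HP k).eval x * (HP l).eval x) := by
    intro x
    unfold he
    ring
  simp only [e]
  rw [integral_const_mul, HP_orth]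
  by_cases h : k = l
  · subst h
    rw [if_pos rfl, if_pos rfl, ← mul_inv, Real.mul_self_sqrt (by positivity)]
    have : (k.factorial : ℝ) ≠ 0 := by positivity
    field_simp
  · rw [if_neg h, if_neg h, mul_zero]

lemma he_abs_le (k : ℕ) : ∫ x, |he k x| ∂(gaussianReal 0 1) ≤ 1 := by
  have h1 : ∫ x, |he k x| ∂(gaussianReal 0 1) ≤
      ∫ x, (1 / 2 + 1 / 2 * (he k x * he k x)) ∂(gaussianReal 0 1) := by
    apply integral_mono (he_int k).abs
    · exact (integrable_const _).add ((he_mul_int k k).const_mul _)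
    · intro x
      simp only
      nlinarith [sq_nonneg (|he k x| - 1), abs_mul_abs_self (he k x)]
  rw [integral_add (integrable_const _) ((he_mul_int k k).const_mul _), integral_const_mul,
    he_orth] at h1
  simp at h1
  linarith

lemma he_parity (k : ℕ) (x : ℝ) : he k (-x) = (-1) ^ k * he k x := by
  have h : ∀ k : ℕ, (HP k).eval (-x) = (-1) ^ k * (HP k).eval x ∧
      (HP (k + 1)).eval (-x) = (-1) ^ (k + 1) * (HP (k + 1)).eval x := by
    intro k
    induction k with
    | zero =>
      constructor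
      · simp [HP_zero]
      · simp [HP_one_eval]
    | succ k ih =>
      refine ⟨ih.2, ?_⟩
      rw [HP_rec, HP_rec, ih.1, ih.2]
      ring
  unfold he
  rw [(h k).1]
  ring

/-- Mehler kernel relative to the Gaussian measure -/
noncomputable def Mk (ρ x y : ℝ) : ℝ :=
  (√(1 - ρ ^ 2))⁻¹ * Real.exp ((2 * ρ * x * y - ρ ^ 2 * (x ^ 2 + y ^ 2)) / (2 * (1 - ρ ^ 2)))

lemma Mk_pos {ρ : ℝ} (hρ : 0 < 1 - ρ ^ 2) (x y : ℝ) : 0 < Mk ρ x y := by
  unfold Mk
  positivity

lemma mehler_nonneg {ρ : ℝ} (h0 : 0 ≤ ρ) (h1 : ρ < 1) (x y : ℝ) :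
    HasSum (fun k : ℕ => ρ ^ k * (he k x * he k y)) (Mk ρ x y) := by
  have h := Pool.Agent.W342.GP.mehler0 ρ x y h0 h1
  rw [Pool.Agent.W342.GP.rhs ρ _ _ h0 h1, Complex.hasSum_ofReal] at h
  have e : (fun k : ℕ => ρ ^ k * (he k x * he k y)) =
      fun k : ℕ => ρ ^ k / (k.factorial : ℝ) * (HP k).eval x * (HP k).eval y := by
    funext k
    unfold he
    have e5 : √(k.factorial : ℝ) * √(k.factorial : ℝ) = (k.factorial : ℝ) :=
      Real.mul_self_sqrt (by positivity)
    have e7 : ρ ^ k * ((√(k.factorial : ℝ))⁻¹ * (HP k).eval x *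
        ((√(k.factorial : ℝ))⁻¹ * (HP k).eval y)) = ρ ^ k * (√(k.factorial : ℝ) *
        √(k.factorial : ℝ))⁻¹ * (HP k).eval x * (HP k).eval y := by
      rw [mul_inv]
      ring
    rw [e7, e5]
    ring
  rw [e]
  exact h

lemma mehler1 {ρ : ℝ} (h0 : -1 < ρ) (h1 : ρ < 1) (x y : ℝ) :
    HasSum (fun k : ℕ => ρ ^ k * (he k x * he k y)) (Mk ρ x y) := by
  rcases le_total 0 ρ with h | h
  · exact mehler_nonneg h h1 x y
  · have h2 := mehler_nonneg (ρ := -ρ) (by linarith) (by linarith) (-x) y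
    have e : (fun k : ℕ => (-ρ) ^ k * (he k (-x) * he k y)) =
        fun k : ℕ => ρ ^ k * (he k x * he k y) := by
      funext k
      rw [he_parity, neg_pow]
      have : ((-1:ℝ) ^ k) * ((-1) ^ k) = 1 := by
        rw [← mul_pow]; norm_num
      calc (-1) ^ k * ρ ^ k * ((-1) ^ k * he k x * he k y) =
          ((-1) ^ k * (-1) ^ k) * (ρ ^ k * (he k x * he k y)) := by ring
        _ = _ := by rw [this, one_mul]
    have e2 : Mk (-ρ) (-x) y = Mk ρ x y := by
      unfold Mk
      rw [neg_sq]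
      congr 2
      ring
    rw [e, e2] at h2
    exact h2

/-- change of the Gaussian measure -/
lemma gauss_density {ρ σ : ℝ} (hσ : σ ≠ 0) (hρ : σ ^ 2 = 1 - ρ ^ 2) (a : ℝ) :
    (gaussianReal 0 1).map (fun z => ρ * a + σ * z) =
      (gaussianReal 0 1).withDensity (fun y => ENNReal.ofReal (Mk ρ a y)) := by
  have hσ2 : 0 < σ ^ 2 := by positivity
  set v : NNReal := ⟨σ ^ 2, sq_nonneg σ⟩ with hv
  have hvσ : (v:ℝ) = σ ^ 2 := rfl
  have hv0 : v ≠ 0 := by
    intro h
    rw [h] at hvσ
    have : σ ^ 2 = 0 := by rw [← hvσ]; rfl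
    linarith
  have h1 : (gaussianReal 0 1).map (fun z => ρ * a + σ * z) = gaussianReal (ρ * a) v := by
    have e1 : (fun z => ρ * a + σ * z) = (fun w => ρ * a + w) ∘ (fun z => σ * z) := rfl
    rw [e1, ← Measure.map_map (by fun_prop) (by fun_prop), gaussianReal_map_const_mul,
      gaussianReal_map_const_add]
    congr 1
    · ring
    · rw [mul_one]
      rfl
  have hMk : Measurable fun y => ENNReal.ofReal (Mk ρ a y) := by
    unfold Mk
    fun_prop
  rw [h1, gaussianReal_of_var_ne_zero _ hv0, gaussianReal_of_var_ne_zero _ one_ne_zero,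
    ← withDensity_mul _ (measurable_gaussianPDF _ _) hMk]
  congr 1
  ext y
  simp only [Pi.mul_apply]
  unfold gaussianPDF gaussianPDFReal Mk
  rw [← ENNReal.ofReal_mul (by positivity)]
  congr 1
  rw [hvσ, ← hρ]
  simp only [NNReal.coe_one, mul_one, sub_zero]
  have e3 : √(2 * π * σ ^ 2) = √(2 * π) * √(σ ^ 2) := Real.sqrt_mul (by positivity) _
  rw [e3, mul_inv]
  have e4 : (√(2 * π))⁻¹ * rexp (-y ^ 2 / 2) * ((√(σ ^ 2))⁻¹ *
      rexp ((2 * ρ * a * y - ρ ^ 2 * (a ^ 2 + y ^ 2)) / (2 * σ ^ 2))) =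
      (√(2 * π))⁻¹ * (√(σ ^ 2))⁻¹ * (rexp (-y ^ 2 / 2) *
      rexp ((2 * ρ * a * y - ρ ^ 2 * (a ^ 2 + y ^ 2)) / (2 * σ ^ 2))) := by ring
  rw [e4, ← Real.exp_add]
  congr 2
  field_simp
  rw [hρ]
  ring

end Pool.Agent.Run7.h126
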