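import Mathlib
import Pool.Agent.Run7.h126.Herm
import Pool.Agent.W417.GP.Modes

set_option autoImplicit false

open MeasureTheory Set Real ProbabilityTheory
open scoped ENNReal NNReal

namespace Pool.Agent.Run7.h126

/-- the standard Gaussian measure in `m` variables -/
noncomputable def gm (m : ℕ) : Measure (Fin m → ℝ) := Measure.pi (fun _ => gaussianReal 0 1)

instance (m : ℕ) : IsProbabilityMeasure (gm m) := by unfold gm; infer_instance

/-- Hermite polynomials in several variables -/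
noncomputable def Hk {m : ℕ} (κ : Fin m → ℕ) (x : Fin m → ℝ) : ℝ := ∏ j, he (κ j) (x j)

/-- the degree -/
def dg {m : ℕ} (κ : Fin m → ℕ) : ℕ := ∑ j, κ j

lemma Hk_cont {m : ℕ} (κ : Fin m → ℕ) : Continuous (Hk κ) := by
  unfold Hk
  apply continuous_finsetProd
  intro j _
  exact (he_cont _).comp (continuous_apply j)

lemma Hk_meas {m : ℕ} (κ : Fin m → ℕ) : Measurable (Hk κ) := (Hk_cont κ).measurable

lemma Hk_mul_int {m : ℕ} (κ κ' : Fin m → ℕ) : Integrable (fun x => Hk κ x * Hk κ' x) (gm m) := by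
  have h := Integrable.fintype_prod_dep (μ := fun _ : Fin m => gaussianReal 0 1)
    (f := fun j (x : ℝ) => he (κ j) x * he (κ' j) x) (fun j => he_mul_int _ _)
  refine h.congr (Filter.Eventually.of_forall fun x => ?_)
  unfold Hk
  simp only
  rw [Finset.prod_mul_distrib]

lemma Hk_int {m : ℕ} (κ : Fin m → ℕ) : Integrable (Hk κ) (gm m) := by
  exact Integrable.fintype_prod_dep (μ := fun _ : Fin m => gaussianReal 0 1)
    (f := fun j (x : ℝ) => he (κ j) x) (fun j => he_int _)

lemma Hk_orth {m : ℕ} (κ κ' : Fin m → ℕ) :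
    ∫ x, Hk κ x * Hk κ' x ∂(gm m) = if κ = κ' then 1 else 0 := by
  have e : ∀ x : Fin m → ℝ, Hk κ x * Hk κ' x = ∏ j, (he (κ j) (x j) * he (κ' j) (x j)) := by
    intro x
    unfold Hk
    rw [Finset.prod_mul_distrib]
  simp only [e]
  unfold gm
  rw [integral_fintype_prod_eq_prod (fun j (x : ℝ) => he (κ j) x * he (κ' j) x)]
  simp only [he_orth]
  by_cases h : κ = κ'
  · subst h
    simp
  · rw [if_neg h]
    obtain ⟨j, hj⟩ := Function.ne_iff.mp h
    exact Finset.prod_eq_zero (Finset.mem_univ j) (if_neg hj)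

lemma Hk_abs_le {m : ℕ} (κ : Fin m → ℕ) : ∫ x, |Hk κ x| ∂(gm m) ≤ 1 := by
  have h1 : ∫ x, |Hk κ x| ∂(gm m) ≤ ∫ x, (1 / 2 + 1 / 2 * (Hk κ x * Hk κ x)) ∂(gm m) := by
    apply integral_mono (Hk_int κ).abs
    · exact (integrable_const _).add ((Hk_mul_int κ κ).const_mul _)
    · intro x
      simp only
      nlinarith [sq_nonneg (|Hk κ x| - 1), abs_mul_abs_self (Hk κ x)]
  rw [integral_add (integrable_const _) ((Hk_mul_int κ κ).const_mul _), integral_const_mul,
    Hk_orth] at h1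
  simp at h1
  linarith

/-- Mehler kernel in several variables -/
noncomputable def MK {m : ℕ} (ρ : ℝ) (x y : Fin m → ℝ) : ℝ := ∏ j, Mk ρ (x j) (y j)

lemma mehlerM {m : ℕ} {ρ : ℝ} (h0 : -1 < ρ) (h1 : ρ < 1) (x y : Fin m → ℝ) :
    HasSum (fun κ : Fin m → ℕ => ρ ^ dg κ * (Hk κ x * Hk κ y)) (MK ρ x y) := by
  have h := Pool.Agent.W417.GP.hasSum_pi (m := m)
    (fun j k => ρ ^ k * (he k (x j) * he k (y j))) _ (fun j => mehler1 h0 h1 (x j) (y j))
  have e : (fun κ : Fin m → ℕ => ρ ^ dg κ * (Hk κ x * Hk κ y)) =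
      fun κ : Fin m → ℕ => ∏ j, (ρ ^ (κ j) * (he (κ j) (x j) * he (κ j) (y j))) := by
    funext κ
    unfold Hk dg
    rw [Finset.prod_mul_distrib, Finset.prod_mul_distrib, Finset.prod_pow_eq_pow_sum]
  rw [e]
  exact h

lemma geoM {m : ℕ} {r : ℝ} (h0 : 0 ≤ r) (h1 : r < 1) :
    Summable (fun κ : Fin m → ℕ => r ^ dg κ) := by
  have h := Pool.Agent.W417.GP.hasSum_pi (m := m)
    (fun _ k => r ^ k) _ (fun _ => hasSum_geometric_of_lt_one h0 h1)
  have e : (fun κ : Fin m → ℕ => r ^ dg κ) = fun κ : Fin m → ℕ => ∏ j, r ^ (κ j) := by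
    funext κ
    unfold dg
    rw [Finset.prod_pow_eq_pow_sum]
  rw [e]
  exact h.summable

lemma MK_meas {m : ℕ} (ρ : ℝ) : Measurable (fun p : (Fin m → ℝ) × (Fin m → ℝ) => MK ρ p.1 p.2) := by
  unfold MK Mk
  fun_prop

lemma MK_pos {m : ℕ} {ρ : ℝ} (hρ : 0 < 1 - ρ ^ 2) (x y : Fin m → ℝ) : 0 < MK ρ x y :=
  Finset.prod_pos fun j _ => Mk_pos hρ _ _

lemma Mk_int {ρ σ : ℝ} (hσ : σ ≠ 0) (hρ : σ ^ 2 = 1 - ρ ^ 2) (a : ℝ) :
    Integrable (fun y => Mk ρ a y) (gaussianReal 0 1) := by
  have hρ0 : 0 < 1 - ρ ^ 2 := by rw [← hρ]; positivity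
  have hMk : Measurable fun y => Mk ρ a y := by
    unfold Mk
    fun_prop
  refine ⟨hMk.aestronglyMeasurable, ?_⟩
  rw [hasFiniteIntegral_iff_ofReal (Filter.Eventually.of_forall fun y => (Mk_pos hρ0 a y).le)]
  have h := gauss_density hσ hρ a
  have h1 : ((gaussianReal 0 1).map (fun z => ρ * a + σ * z)) univ = 1 := by
    rw [Measure.map_apply (by fun_prop) MeasurableSet.univ]
    simp
  rw [h, withDensity_apply _ MeasurableSet.univ, Measure.restrict_univ] at h1
  rw [h1]
  exact ENNReal.one_lt_top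

/-- law of the second point given the first -/
lemma pi_density {m : ℕ} {ρ σ : ℝ} (hσ : σ ≠ 0) (hρ : σ ^ 2 = 1 - ρ ^ 2) (x : Fin m → ℝ) :
    (gm m).map (fun z => ρ • x + σ • z) =
      (gm m).withDensity (fun y => ENNReal.ofReal (MK ρ x y)) := by
  have hρ0 : 0 < 1 - ρ ^ 2 := by rw [← hρ]; positivity
  have h1 : (gm m).map (fun z => ρ • x + σ • z) =
      Measure.pi (fun j => (gaussianReal 0 1).map (fun z => ρ * x j + σ * z)) := by
    unfold gm
    rw [← Measure.pi_map_pi (fun _ => (Measurable.aemeasurable (by fun_prop)))]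
    rfl
  rw [h1]
  have hpm : ∀ j, IsProbabilityMeasure ((gaussianReal 0 1).map (fun z => ρ * x j + σ * z)) :=
    fun j => Measure.isProbabilityMeasure_map (by fun_prop)
  apply Measure.pi_eq
  intro s hs
  rw [withDensity_apply _ (MeasurableSet.univ_pi hs)]
  have hMm : ∀ j, Measurable fun y => Mk ρ (x j) y := by
    intro j
    unfold Mk
    fun_prop
  have e1 : ∫⁻ y in univ.pi s, ENNReal.ofReal (MK ρ x y) ∂(gm m) =
      ∫⁻ y, ENNReal.ofReal (∏ j, (s j).indicator (fun y => Mk ρ (x j) y) (y j)) ∂(gm m) := by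
    rw [← lintegral_indicator (MeasurableSet.univ_pi hs)]
    apply lintegral_congr
    intro y
    by_cases hy : y ∈ univ.pi s
    · rw [indicator_of_mem hy]
      unfold MK
      congr 1
      apply Finset.prod_congr rfl
      intro j _
      rw [indicator_of_mem (hy j (mem_univ j))]
    · rw [indicator_of_notMem hy]
      simp only [mem_univ_pi, not_forall] at hy
      obtain ⟨j, hj⟩ := hy
      rw [Finset.prod_eq_zero (Finset.mem_univ j) (indicator_of_notMem hj _), ENNReal.ofReal_zero]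
  have hint : ∀ j, Integrable ((s j).indicator (fun y => Mk ρ (x j) y)) (gaussianReal 0 1) :=
    fun j => (Mk_int hσ hρ (x j)).indicator (hs j)
  have hI : Integrable (fun y : Fin m → ℝ => ∏ j, (s j).indicator (fun y => Mk ρ (x j) y) (y j))
      (gm m) := Integrable.fintype_prod_dep hint
  have hnn : ∀ j (y : ℝ), 0 ≤ (s j).indicator (fun y => Mk ρ (x j) y) y :=
    fun j y => indicator_nonneg (fun y _ => (Mk_pos hρ0 (x j) y).le) y
  rw [e1, ← ofReal_integral_eq_lintegral_ofReal hI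
    (Filter.Eventually.of_forall fun y => Finset.prod_nonneg fun j _ => hnn j _)]
  unfold gm
  rw [integral_fintype_prod_eq_prod (fun j (y : ℝ) => (s j).indicator (fun y => Mk ρ (x j) y) y),
    ENNReal.ofReal_prod_of_nonneg (fun j _ => integral_nonneg (hnn j))]
  apply Finset.prod_congr rfl
  intro j _
  rw [gauss_density hσ hρ, withDensity_apply _ (hs j),
    ofReal_integral_eq_lintegral_ofReal (hint j) (Filter.Eventually.of_forall (hnn j)),
    ← lintegral_indicator (hs j)]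
  apply lintegral_congr
  intro y
  by_cases hy : y ∈ s j
  · rw [indicator_of_mem hy, indicator_of_mem hy]
  · rw [indicator_of_notMem hy, indicator_of_notMem hy, ENNReal.ofReal_zero]

end Pool.Agent.Run7.h126
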