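import Mathlib
import Pool.Agent.Run7.h126.HermM

set_option autoImplicit false

open MeasureTheory Set Real ProbabilityTheory
open scoped ENNReal NNReal

namespace Pool.Agent.Run7.h126

/-- Hermite coefficient -/
noncomputable def hc {m : ℕ} (g : (Fin m → ℝ) → ℝ) (κ : Fin m → ℕ) : ℝ :=
  ∫ x, g x * Hk κ x ∂(gm m)

/-- bounded measurable functions -/
structure Bdd {m : ℕ} (g : (Fin m → ℝ) → ℝ) : Prop where
  meas : Measurable g
  bd : ∀ x, |g x| ≤ 1

lemma Bdd.int {m : ℕ} {g : (Fin m → ℝ) → ℝ} (hg : Bdd g) : Integrable g (gm m) :=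
  Integrable.of_bound hg.meas.aestronglyMeasurable 1 (Filter.Eventually.of_forall hg.bd)

lemma Bdd.hint {m : ℕ} {g : (Fin m → ℝ) → ℝ} (hg : Bdd g) (κ : Fin m → ℕ) :
    Integrable (fun x => g x * Hk κ x) (gm m) := by
  refine (Hk_int κ).norm.mono' (hg.meas.mul (Hk_meas κ)).aestronglyMeasurable ?_
  filter_upwards with x
  rw [norm_mul]
  calc ‖g x‖ * ‖Hk κ x‖ ≤ 1 * ‖Hk κ x‖ := by
        gcongr
        exact hg.bd x
    _ = ‖Hk κ x‖ := one_mul _

lemma Bdd.hint_le {m : ℕ} {g : (Fin m → ℝ) → ℝ} (hg : Bdd g) (κ : Fin m → ℕ) :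
    ∫ x, ‖g x * Hk κ x‖ ∂(gm m) ≤ 1 := by
  refine le_trans (integral_mono (hg.hint κ).norm (Hk_int κ).abs ?_) (Hk_abs_le κ)
  intro x
  simp only [norm_mul]
  calc ‖g x‖ * ‖Hk κ x‖ ≤ 1 * ‖Hk κ x‖ := by
        gcongr
        exact hg.bd x
    _ = |Hk κ x| := by rw [one_mul]; rfl

lemma hc_abs_le {m : ℕ} {g : (Fin m → ℝ) → ℝ} (hg : Bdd g) (κ : Fin m → ℕ) : |hc g κ| ≤ 1 := by
  unfold hc
  exact (norm_integral_le_integral_norm _).trans (hg.hint_le κ)

/-- **Bessel's inequality.** -/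
lemma bessel {m : ℕ} {g : (Fin m → ℝ) → ℝ} (hg : Bdd g) (F : Finset (Fin m → ℕ)) :
    ∑ κ ∈ F, hc g κ ^ 2 ≤ ∫ x, g x ^ 2 ∂(gm m) := by
  have hg2 : Integrable (fun x => g x ^ 2) (gm m) := by
    refine Integrable.of_bound (hg.meas.pow_const 2).aestronglyMeasurable 1
      (Filter.Eventually.of_forall fun x => ?_)
    rw [Real.norm_eq_abs, abs_pow]
    exact pow_le_one₀ (abs_nonneg _) (hg.bd x)
  have h1 : ∀ x, (g x - ∑ κ ∈ F, hc g κ * Hk κ x) ^ 2 = g x ^ 2 -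
      2 * (∑ κ ∈ F, hc g κ * (g x * Hk κ x)) +
      ∑ κ ∈ F, ∑ κ' ∈ F, (hc g κ * hc g κ') * (Hk κ x * Hk κ' x) := by
    intro x
    have e1 : (∑ κ ∈ F, hc g κ * Hk κ x) ^ 2 =
        ∑ κ ∈ F, ∑ κ' ∈ F, (hc g κ * hc g κ') * (Hk κ x * Hk κ' x) := by
      rw [sq, Finset.sum_mul_sum]
      refine Finset.sum_congr rfl fun κ _ => Finset.sum_congr rfl fun κ' _ => by ring
    have e2 : ∑ κ ∈ F, hc g κ * (g x * Hk κ x) = g x * ∑ κ ∈ F, hc g κ * Hk κ x := by
      rw [Finset.mul_sum]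
      exact Finset.sum_congr rfl fun κ _ => by ring
    rw [e2, ← e1]
    ring
  have i1 : Integrable (fun x => ∑ κ ∈ F, hc g κ * (g x * Hk κ x)) (gm m) :=
    integrable_finsetSum _ fun κ _ => (hg.hint κ).const_mul _
  have i2 : Integrable (fun x => ∑ κ ∈ F, ∑ κ' ∈ F, (hc g κ * hc g κ') * (Hk κ x * Hk κ' x))
      (gm m) :=
    integrable_finsetSum _ fun κ _ => integrable_finsetSum _ fun κ' _ => (Hk_mul_int κ κ').const_mul _
  have h2 : 0 ≤ ∫ x, (g x - ∑ κ ∈ F, hc g κ * Hk κ x) ^ 2 ∂(gm m) :=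
    integral_nonneg fun x => sq_nonneg _
  simp only [h1] at h2
  have i3 : Integrable (fun x => g x ^ 2 - 2 * (∑ κ ∈ F, hc g κ * (g x * Hk κ x))) (gm m) :=
    hg2.sub (i1.const_mul 2)
  rw [integral_add i3 i2, integral_sub hg2 (i1.const_mul 2),
    integral_const_mul, integral_finsetSum _ fun κ _ => (hg.hint κ).const_mul _,
    integral_finsetSum _ fun κ _ => integrable_finsetSum _ fun κ' _ => (Hk_mul_int κ κ').const_mul _]
    at h2
  have e3 : ∀ κ ∈ F, ∫ x, ∑ κ' ∈ F, (hc g κ * hc g κ') * (Hk κ x * Hk κ' x) ∂(gm m) =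
      hc g κ ^ 2 := by
    intro κ hκ
    rw [integral_finsetSum _ fun κ' _ => (Hk_mul_int κ κ').const_mul _]
    simp only [integral_const_mul, Hk_orth]
    rw [Finset.sum_eq_single κ]
    · rw [if_pos rfl]; ring
    · intro κ' _ hne
      rw [if_neg (Ne.symm hne)]; ring
    · intro h; exact absurd hκ h
  have e4 : ∀ κ ∈ F, ∫ x, hc g κ * (g x * Hk κ x) ∂(gm m) = hc g κ ^ 2 := by
    intro κ _
    rw [integral_const_mul]
    show hc g κ * hc g κ = _
    ring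
  rw [Finset.sum_congr rfl e3, Finset.sum_congr rfl e4] at h2
  linarith

lemma bessel_summable {m : ℕ} {g : (Fin m → ℝ) → ℝ} (hg : Bdd g) :
    Summable (fun κ => hc g κ ^ 2) :=
  summable_of_sum_le (fun _ => sq_nonneg _) (bessel hg)

lemma bessel_tsum {m : ℕ} {g : (Fin m → ℝ) → ℝ} (hg : Bdd g) :
    ∑' κ, hc g κ ^ 2 ≤ ∫ x, g x ^ 2 ∂(gm m) :=
  Summable.tsum_le_of_sum_le (bessel_summable hg) (bessel hg)

lemma MK_meas_right {m : ℕ} (ρ : ℝ) (x : Fin m → ℝ) : Measurable fun y => MK ρ x y := by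
  unfold MK Mk
  fun_prop

/-- noise operator on bounded functions through the kernel -/
lemma noise_int {m : ℕ} {g : (Fin m → ℝ) → ℝ} (hg : Measurable g) {ρ σ : ℝ} (hσ : σ ≠ 0)
    (hρ : σ ^ 2 = 1 - ρ ^ 2) (x : Fin m → ℝ) :
    ∫ z, g (ρ • x + σ • z) ∂(gm m) = ∫ y, g y * MK ρ x y ∂(gm m) := by
  have hρ0 : 0 < 1 - ρ ^ 2 := by rw [← hρ]; positivity
  have hm : Measurable fun y => MK ρ x y := MK_meas_right ρ x
  have hmap : Measurable (fun z : Fin m → ℝ => ρ • x + σ • z) := by fun_prop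
  have e1 : ∫ z, g (ρ • x + σ • z) ∂(gm m) = ∫ y, g y ∂((gm m).map (fun z => ρ • x + σ • z)) :=
    (integral_map hmap.aemeasurable hg.aestronglyMeasurable).symm
  rw [e1, pi_density hσ hρ]
  have e2 := integral_withDensity_eq_integral_toReal_smul (μ := gm m)
    (f := fun y => ENNReal.ofReal (MK ρ x y)) hm.ennreal_ofReal
    (Filter.Eventually.of_forall fun _ => ENNReal.ofReal_lt_top) g
  rw [e2]
  refine integral_congr_ae (Filter.Eventually.of_forall fun y => ?_)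
  simp only
  rw [ENNReal.toReal_ofReal (MK_pos hρ0 x y).le, smul_eq_mul, mul_comm]

lemma MK_int {m : ℕ} {ρ σ : ℝ} (hσ : σ ≠ 0) (hρ : σ ^ 2 = 1 - ρ ^ 2) (x : Fin m → ℝ) :
    Integrable (fun y => MK ρ x y) (gm m) := by
  exact Integrable.fintype_prod_dep (fun j => Mk_int hσ hρ (x j))

lemma MK_one {m : ℕ} {ρ σ : ℝ} (hσ : σ ≠ 0) (hρ : σ ^ 2 = 1 - ρ ^ 2) (x : Fin m → ℝ) :
    ∫ y, MK ρ x y ∂(gm m) = 1 := by
  have h := noise_int (g := fun _ : Fin m → ℝ => (1:ℝ)) measurable_const hσ hρ x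
  simp only [one_mul] at h
  rw [← h]
  simp

/-- **Mehler expansion of the noise form.** -/
theorem noise_hasSum {m : ℕ} {g g' : (Fin m → ℝ) → ℝ} (hg : Bdd g) (hg' : Bdd g') {ρ σ : ℝ}
    (hσ : σ ≠ 0) (hρ : σ ^ 2 = 1 - ρ ^ 2) :
    HasSum (fun κ : Fin m → ℕ => ρ ^ dg κ * (hc g κ * hc g' κ))
      (∫ x, ∫ z, g x * g' (ρ • x + σ • z) ∂(gm m) ∂(gm m)) := by
  have hρ0 : 0 < 1 - ρ ^ 2 := by rw [← hρ]; positivity
  have hr1 : -1 < ρ := by nlinarith
  have hr2 : ρ < 1 := by nlinarith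
  have hab : |ρ| < 1 := abs_lt.mpr ⟨hr1, hr2⟩
  set F : (Fin m → ℕ) → (Fin m → ℝ) × (Fin m → ℝ) → ℝ :=
    fun κ p => ρ ^ dg κ * ((g p.1 * Hk κ p.1) * (g' p.2 * Hk κ p.2)) with hF
  have hFi : ∀ κ, Integrable (F κ) ((gm m).prod (gm m)) := by
    intro κ
    exact ((hg.hint κ).mul_prod (hg'.hint κ)).const_mul _
  have hFn : ∀ κ, ∫ p, ‖F κ p‖ ∂((gm m).prod (gm m)) ≤ |ρ| ^ dg κ := by
    intro κ
    have e : ∀ p, ‖F κ p‖ = |ρ| ^ dg κ * (‖g p.1 * Hk κ p.1‖ * ‖g' p.2 * Hk κ p.2‖) := by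
      intro p
      simp only [hF, norm_mul, norm_pow, Real.norm_eq_abs]
    simp only [e]
    rw [integral_const_mul, integral_prod_mul (fun x => ‖g x * Hk κ x‖) (fun x => ‖g' x * Hk κ x‖)]
    have h1 := hg.hint_le κ
    have h2 := hg'.hint_le κ
    have h3 : 0 ≤ ∫ x, ‖g x * Hk κ x‖ ∂(gm m) := integral_nonneg fun _ => norm_nonneg _
    have h4 : 0 ≤ ∫ x, ‖g' x * Hk κ x‖ ∂(gm m) := integral_nonneg fun _ => norm_nonneg _
    calc _ ≤ |ρ| ^ dg κ * (1 * 1) := by gcongr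
      _ = _ := by ring
  have hs : Summable fun κ => ∫ p, ‖F κ p‖ ∂((gm m).prod (gm m)) :=
    Summable.of_nonneg_of_le (fun κ => integral_nonneg fun _ => norm_nonneg _) hFn
      (geoM (abs_nonneg ρ) hab)
  have h := hasSum_integral_of_summable_integral_norm hFi hs
  have e1 : ∀ κ, ∫ p, F κ p ∂((gm m).prod (gm m)) = ρ ^ dg κ * (hc g κ * hc g' κ) := by
    intro κ
    rw [hF]
    simp only
    rw [integral_const_mul, integral_prod_mul (fun x => g x * Hk κ x) (fun x => g' x * Hk κ x)]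
    rfl
  have e2 : ∀ p : (Fin m → ℝ) × (Fin m → ℝ), ∑' κ, F κ p = g p.1 * (g' p.2 * MK ρ p.1 p.2) := by
    intro p
    have h3 := (mehlerM hr1 hr2 p.1 p.2).mul_left (g p.1 * g' p.2)
    rw [← mul_assoc, ← h3.tsum_eq]
    refine tsum_congr fun κ => ?_
    rw [hF]
    ring
  simp only [e1, e2] at h
  have e3 : ∫ x, ∫ z, g x * g' (ρ • x + σ • z) ∂(gm m) ∂(gm m) =
      ∫ p, g p.1 * (g' p.2 * MK ρ p.1 p.2) ∂((gm m).prod (gm m)) := ?_
  · rw [e3]
    exact h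
  rw [integral_prod]
  · apply integral_congr_ae
    filter_upwards with x
    rw [integral_const_mul, integral_const_mul, noise_int hg'.meas hσ hρ]
  · have hm : Measurable fun p : (Fin m → ℝ) × (Fin m → ℝ) => g p.1 * (g' p.2 * MK ρ p.1 p.2) :=
      (hg.meas.comp measurable_fst).mul ((hg'.meas.comp measurable_snd).mul (MK_meas ρ))
    have hle : ∀ x y, ‖g x * (g' y * MK ρ x y)‖ ≤ MK ρ x y := by
      intro x y
      rw [norm_mul, norm_mul, Real.norm_of_nonneg (MK_pos hρ0 x y).le]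
      have h1 := hg.bd x
      have h2 := hg'.bd y
      have h3 := (MK_pos hρ0 x y).le
      calc ‖g x‖ * (‖g' y‖ * MK ρ x y) ≤ 1 * (1 * MK ρ x y) := by
            gcongr
            · exact h1
            · exact h2
        _ = MK ρ x y := by ring
    rw [integrable_prod_iff hm.aestronglyMeasurable]
    have hin : ∀ x, Integrable (fun y => g x * (g' y * MK ρ x y)) (gm m) := by
      intro x
      refine (MK_int hσ hρ x).mono' ?_ (Filter.Eventually.of_forall (hle x))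
      exact (measurable_const.mul (hg'.meas.mul (MK_meas_right ρ x))).aestronglyMeasurable
    refine ⟨Filter.Eventually.of_forall hin, ?_⟩
    refine Integrable.of_bound (C := 1) ?_ (Filter.Eventually.of_forall fun x => ?_)
    · exact hm.norm.stronglyMeasurable.integral_prod_right'.aestronglyMeasurable
    · simp only
      rw [Real.norm_of_nonneg (integral_nonneg fun _ => norm_nonneg _), ← MK_one hσ hρ x]
      exact integral_mono (hin x).norm (MK_int hσ hρ x) (hle x)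

end Pool.Agent.Run7.h126
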