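import Mathlib
import Pool.Agent.Run7.h126.HermT
import Pool.Agent.Run7.h126.PSD

set_option autoImplicit false

open MeasureTheory Set Real ProbabilityTheory
open scoped ENNReal NNReal

namespace Pool.Agent.Run7.h126

/-- admissible coefficient functions on the quadrant -/
structure Coef (ρ : ℝ) (A : ℝ × ℝ → ℝ) : Prop where
  meas : Measurable A
  bd : ∃ C, ∀ p : ℝ × ℝ, 0 < p.1 → 0 < p.2 → 0 ≤ A p ∧ A p ≤ C * (env ρ p.1 * env ρ p.2)

/-- bounded jointly measurable families -/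
structure Fam {m : ℕ} (E : ℝ → (Fin m → ℝ) → ℝ) : Prop where
  meas : Measurable (Function.uncurry E)
  bd : ∀ R w, |E R w| ≤ 1

lemma Fam.slice {m : ℕ} {E : ℝ → (Fin m → ℝ) → ℝ} (hE : Fam E) (R : ℝ) : Bdd (E R) where
  meas := hE.meas.comp measurable_prodMk_left
  bd := hE.bd R

lemma Fam.hc_meas {m : ℕ} {E : ℝ → (Fin m → ℝ) → ℝ} (hE : Fam E) (κ : Fin m → ℕ) :
    Measurable (fun R => hc (E R) κ) := by
  unfold hc
  have h : Measurable (fun p : ℝ × (Fin m → ℝ) => E p.1 p.2 * Hk κ p.2) :=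
    hE.meas.mul ((Hk_meas κ).comp measurable_snd)
  exact (h.stronglyMeasurable.integral_prod_right' (ν := gm m)).measurable

lemma Coef.int {ρ : ℝ} (hρ : 0 < 1 - ρ ^ 2) {A : ℝ × ℝ → ℝ} (hA : Coef ρ A) {u : ℝ × ℝ → ℝ}
    (hu : Measurable u) {M : ℝ} (hM : ∀ p, |u p| ≤ M) :
    Integrable (fun p => A p * u p) QM := by
  obtain ⟨C, hC⟩ := hA.bd
  refine ((env2_int hρ).const_mul (C * M)).mono' (hA.meas.mul hu).aestronglyMeasurable ?_
  filter_upwards [QM_pos] with p hp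
  obtain ⟨h0, h1⟩ := hC p hp.1 hp.2
  rw [norm_mul, Real.norm_of_nonneg h0, Real.norm_eq_abs]
  have h2 := hM p
  have h3 : 0 ≤ |u p| := abs_nonneg _
  have h4 := h0.trans h1
  calc A p * |u p| ≤ (C * (env ρ p.1 * env ρ p.2)) * M := by gcongr
    _ = C * M * (env ρ p.1 * env ρ p.2) := by ring

/-- coefficient of the constant function -/
lemma hc_one {m : ℕ} (κ : Fin m → ℕ) : hc (fun _ : Fin m → ℝ => (1:ℝ)) κ = if κ = 0 then 1 else 0 := by
  unfold hc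
  have h : ∀ x : Fin m → ℝ, 1 * Hk κ x = Hk κ x * Hk 0 x := by
    intro x
    have : Hk (0 : Fin m → ℕ) x = 1 := by
      unfold Hk
      exact Finset.prod_eq_one fun j _ => he_zero _
    rw [this]; ring
  simp only [h]
  exact Hk_orth κ 0

/-- stationarity -/
lemma stationary {m : ℕ} {g : (Fin m → ℝ) → ℝ} (hg : Bdd g) {ρ σ : ℝ} (hσ : σ ≠ 0)
    (hρ : σ ^ 2 = 1 - ρ ^ 2) :
    ∫ x, ∫ z, g (ρ • x + σ • z) ∂(gm m) ∂(gm m) = ∫ x, g x ∂(gm m) := by
  have h1 : Bdd (fun _ : Fin m → ℝ => (1:ℝ)) := ⟨measurable_const, fun _ => by norm_num⟩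
  have h := noise_hasSum h1 hg hσ hρ
  simp only [one_mul] at h
  have h2 : HasSum (fun κ : Fin m → ℕ => ρ ^ dg κ * (hc (fun _ => (1:ℝ)) κ * hc g κ))
      (ρ ^ dg (0 : Fin m → ℕ) * (hc (fun _ => (1:ℝ)) (0 : Fin m → ℕ) * hc g 0)) := by
    apply hasSum_single
    intro κ hκ
    rw [hc_one, if_neg hκ]
    ring
  have h3 := h.unique h2
  rw [h3, hc_one, if_pos rfl]
  have h4 : dg (0 : Fin m → ℕ) = 0 := by unfold dg; simp
  rw [h4, pow_zero, one_mul, one_mul]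
  unfold hc
  have : ∀ x : Fin m → ℝ, g x * Hk (0 : Fin m → ℕ) x = g x := by
    intro x
    have : Hk (0 : Fin m → ℕ) x = 1 := by
      unfold Hk
      exact Finset.prod_eq_one fun j _ => he_zero _
    rw [this]; ring
  simp only [this]

/-- lower bound of the noise form by finitely many modes -/
lemma noise_ge {m : ℕ} {g g' : (Fin m → ℝ) → ℝ} (hg : Bdd g) (hg' : Bdd g') {ρ σ : ℝ}
    (hσ : σ ≠ 0) (hρ : σ ^ 2 = 1 - ρ ^ 2) (F : Finset (Fin m → ℕ)) :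
    ∑ κ ∈ F, ρ ^ dg κ * (hc g κ * hc g' κ) -
      (∑' κ : Fin m → ℕ, |ρ| ^ dg κ - ∑ κ ∈ F, |ρ| ^ dg κ) ≤
      ∫ x, ∫ z, g x * g' (ρ • x + σ • z) ∂(gm m) ∂(gm m) := by
  have hρ0 : 0 < 1 - ρ ^ 2 := by rw [← hρ]; positivity
  have hr1 : -1 < ρ := by nlinarith
  have hr2 : ρ < 1 := by nlinarith
  have hab : |ρ| < 1 := abs_lt.mpr ⟨hr1, hr2⟩
  have h1 := noise_hasSum hg hg' hσ hρ
  have h2 := (geoM (m := m) (abs_nonneg ρ) hab).hasSum
  have h3 := h1.add h2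
  have h4 : ∀ κ : Fin m → ℕ, 0 ≤ ρ ^ dg κ * (hc g κ * hc g' κ) + |ρ| ^ dg κ := by
    intro κ
    have a1 := hc_abs_le hg κ
    have a2 := hc_abs_le hg' κ
    have a3 : |ρ ^ dg κ * (hc g κ * hc g' κ)| ≤ |ρ| ^ dg κ := by
      rw [abs_mul, abs_mul, abs_pow]
      have h5 : 0 ≤ |hc g κ| := abs_nonneg _
      have h6 : 0 ≤ |hc g' κ| := abs_nonneg _
      have h7 : 0 ≤ |ρ| ^ dg κ := by positivity
      calc |ρ| ^ dg κ * (|hc g κ| * |hc g' κ|) ≤ |ρ| ^ dg κ * (1 * 1) := by gcongr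
        _ = |ρ| ^ dg κ := by ring
    have := neg_abs_le (ρ ^ dg κ * (hc g κ * hc g' κ))
    linarith
  have h5 := sum_le_hasSum F (fun κ _ => h4 κ) h3
  rw [Finset.sum_add_distrib] at h5
  linarith

/-- **Sum over the modes.** -/
theorem modes_nonneg {m : ℕ} {E : ℝ → (Fin m → ℝ) → ℝ} (hE : Fam E) {ρ σ : ℝ}
    (hσ : σ ≠ 0) (hρ : σ ^ 2 = 1 - ρ ^ 2) {A1 A2 K : ℝ × ℝ → ℝ} (hA1 : Coef ρ A1)
    (hA2 : Coef ρ A2) (hK : Coef ρ K)
    (hmode : ∀ κ : Fin m → ℕ, 0 ≤ ∫ p, (A1 p * hc (E p.1) κ ^ 2 + A2 p * hc (E p.2) κ ^ 2 +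
      K p * (2 * (ρ ^ dg κ * (hc (E p.1) κ * hc (E p.2) κ)))) ∂QM) :
    0 ≤ ∫ p, (A1 p * (∫ w, E p.1 w ^ 2 ∂(gm m)) + A2 p * (∫ w, E p.2 w ^ 2 ∂(gm m)) +
      K p * (2 * ∫ w, ∫ z, E p.1 w * E p.2 (ρ • w + σ • z) ∂(gm m) ∂(gm m))) ∂QM := by
  have hρ0 : 0 < 1 - ρ ^ 2 := by rw [← hρ]; positivity
  have hr1 : -1 < ρ := by nlinarith
  have hr2 : ρ < 1 := by nlinarith
  have hab : |ρ| < 1 := abs_lt.mpr ⟨hr1, hr2⟩
  -- the squared norms
  have hNm : Measurable (fun R => ∫ w, E R w ^ 2 ∂(gm m)) := by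
    have h : Measurable (fun p : ℝ × (Fin m → ℝ) => E p.1 p.2 ^ 2) := hE.meas.pow_const 2
    exact (h.stronglyMeasurable.integral_prod_right' (ν := gm m)).measurable
  have hN0 : ∀ R, 0 ≤ ∫ w, E R w ^ 2 ∂(gm m) := fun R => integral_nonneg fun _ => sq_nonneg _
  have hN1 : ∀ R, ∫ w, E R w ^ 2 ∂(gm m) ≤ 1 := by
    intro R
    have : ∫ w, E R w ^ 2 ∂(gm m) ≤ ∫ w, (1:ℝ) ∂(gm m) := by
      apply integral_mono
      · refine Integrable.of_bound ((hE.slice R).meas.pow_const 2).aestronglyMeasurable 1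
          (Filter.Eventually.of_forall fun x => ?_)
        rw [Real.norm_eq_abs, abs_pow]
        exact pow_le_one₀ (abs_nonneg _) (hE.bd R x)
      · exact integrable_const _
      · intro w
        simp only
        rw [← sq_abs]
        exact pow_le_one₀ (abs_nonneg _) (hE.bd R w)
    simpa using this
  -- the noise form
  set T : ℝ × ℝ → ℝ := fun p => ∫ w, ∫ z, E p.1 w * E p.2 (ρ • w + σ • z) ∂(gm m) ∂(gm m) with hT
  have hTm : Measurable T := by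
    have h : Measurable (fun q : ((ℝ × ℝ) × (Fin m → ℝ)) × (Fin m → ℝ) =>
        E q.1.1.1 q.1.2 * E q.1.1.2 (ρ • q.1.2 + σ • q.2)) := by
      apply Measurable.mul
      · exact hE.meas.comp ((measurable_fst.comp (measurable_fst.comp measurable_fst)).prodMk
          (measurable_snd.comp measurable_fst))
      · have h2 : Measurable (fun q : ((ℝ × ℝ) × (Fin m → ℝ)) × (Fin m → ℝ) =>
            ρ • q.1.2 + σ • q.2) := by fun_prop
        exact hE.meas.comp ((measurable_snd.comp (measurable_fst.comp measurable_fst)).prodMk h2)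
    exact (h.stronglyMeasurable.integral_prod_right' (ν := gm m)).integral_prod_right'
      (ν := gm m) |>.measurable
  have hTb : ∀ p, |T p| ≤ 1 := by
    intro p
    rw [hT]
    have h1 : ∀ w : Fin m → ℝ, ‖∫ z, E p.1 w * E p.2 (ρ • w + σ • z) ∂(gm m)‖ ≤ 1 := by
      intro w
      have := norm_integral_le_of_norm_le_const (μ := gm m) (C := 1)
        (f := fun z => E p.1 w * E p.2 (ρ • w + σ • z))
        (Filter.Eventually.of_forall fun z => by
          rw [norm_mul]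
          have a1 := hE.bd p.1 w
          have a2 := hE.bd p.2 (ρ • w + σ • z)
          have a3 : 0 ≤ ‖E p.2 (ρ • w + σ • z)‖ := norm_nonneg _
          calc ‖E p.1 w‖ * ‖E p.2 (ρ • w + σ • z)‖ ≤ 1 * 1 := by
                gcongr
                · exact a1
                · exact a2
            _ = 1 := one_mul _)
      simpa using this
    have := norm_integral_le_of_norm_le_const (μ := gm m) (C := 1)
        (f := fun w => ∫ z, E p.1 w * E p.2 (ρ • w + σ • z) ∂(gm m))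
        (Filter.Eventually.of_forall h1)
    simpa using this
  -- integrability
  have j1 : Integrable (fun p : ℝ × ℝ => A1 p * (∫ w, E p.1 w ^ 2 ∂(gm m))) QM :=
    hA1.int hρ0 (hNm.comp measurable_fst) (M := 1) fun p => by
      rw [abs_of_nonneg (hN0 _)]; exact hN1 _
  have j2 : Integrable (fun p : ℝ × ℝ => A2 p * (∫ w, E p.2 w ^ 2 ∂(gm m))) QM :=
    hA2.int hρ0 (hNm.comp measurable_snd) (M := 1) fun p => by
      rw [abs_of_nonneg (hN0 _)]; exact hN1 _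
  have j3 : Integrable (fun p : ℝ × ℝ => K p * (2 * T p)) QM :=
    hK.int hρ0 (hTm.const_mul 2) (M := 2) fun p => by
      rw [abs_mul, abs_two]
      linarith [hTb p]
  have hcm : ∀ κ : Fin m → ℕ, Measurable (fun R => hc (E R) κ) := fun κ => hE.hc_meas κ
  have hcb : ∀ (κ : Fin m → ℕ) R, |hc (E R) κ| ≤ 1 := fun κ R => hc_abs_le (hE.slice R) κ
  have hsq : ∀ (κ : Fin m → ℕ) R, |hc (E R) κ ^ 2| ≤ 1 := fun κ R => by
    rw [abs_pow]; exact pow_le_one₀ (abs_nonneg _) (hcb κ R)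
  have k1 : ∀ κ : Fin m → ℕ, Integrable (fun p : ℝ × ℝ => A1 p * hc (E p.1) κ ^ 2) QM := fun κ =>
    hA1.int hρ0 (((hcm κ).comp measurable_fst).pow_const 2) (M := 1) fun p => hsq κ p.1
  have k2 : ∀ κ : Fin m → ℕ, Integrable (fun p : ℝ × ℝ => A2 p * hc (E p.2) κ ^ 2) QM := fun κ =>
    hA2.int hρ0 (((hcm κ).comp measurable_snd).pow_const 2) (M := 1) fun p => hsq κ p.2
  have k3 : ∀ κ : Fin m → ℕ, Integrable (fun p : ℝ × ℝ =>
      K p * (2 * (ρ ^ dg κ * (hc (E p.1) κ * hc (E p.2) κ)))) QM := fun κ =>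
    hK.int hρ0 (((((hcm κ).comp measurable_fst).mul
      ((hcm κ).comp measurable_snd)).const_mul (ρ ^ dg κ)).const_mul 2) (M := 2) fun p => by
      have a1 := hcb κ p.1
      have a2 := hcb κ p.2
      have a3 : |ρ| ^ dg κ ≤ 1 := pow_le_one₀ (abs_nonneg _) hab.le
      rw [abs_mul, abs_two, abs_mul, abs_mul, abs_pow]
      have h5 : 0 ≤ |hc (E p.1) κ| := abs_nonneg _
      have h6 : 0 ≤ |hc (E p.2) κ| := abs_nonneg _
      calc 2 * (|ρ| ^ dg κ * (|hc (E p.1) κ| * |hc (E p.2) κ|)) ≤ 2 * (1 * (1 * 1)) := by gcongr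
        _ = 2 := by ring
  have k4 : ∀ κ : Fin m → ℕ, Integrable (fun p : ℝ × ℝ => A1 p * hc (E p.1) κ ^ 2 +
      A2 p * hc (E p.2) κ ^ 2 + K p * (2 * (ρ ^ dg κ * (hc (E p.1) κ * hc (E p.2) κ)))) QM :=
    fun κ => ((k1 κ).add (k2 κ)).add (k3 κ)
  -- finite truncation
  set εF : Finset (Fin m → ℕ) → ℝ := fun F =>
    ∑' κ : Fin m → ℕ, |ρ| ^ dg κ - ∑ κ ∈ F, |ρ| ^ dg κ with hε
  have hKi : Integrable (fun p : ℝ × ℝ => K p * 1) QM :=
    hK.int hρ0 measurable_const (M := 1) fun p => by simp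
  have hlow : ∀ F : Finset (Fin m → ℕ), -(2 * εF F * ∫ p, K p * 1 ∂QM) ≤
      ∫ p, (A1 p * (∫ w, E p.1 w ^ 2 ∂(gm m)) + A2 p * (∫ w, E p.2 w ^ 2 ∂(gm m)) +
      K p * (2 * T p)) ∂QM := by
    intro F
    have h1 : 0 ≤ ∑ κ ∈ F, ∫ p, (A1 p * hc (E p.1) κ ^ 2 + A2 p * hc (E p.2) κ ^ 2 +
      K p * (2 * (ρ ^ dg κ * (hc (E p.1) κ * hc (E p.2) κ)))) ∂QM :=
      Finset.sum_nonneg fun κ _ => hmode κ
    rw [← integral_finsetSum _ (fun κ _ => k4 κ)] at h1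
    have h2 : ∫ p, (∑ κ ∈ F, (A1 p * hc (E p.1) κ ^ 2 + A2 p * hc (E p.2) κ ^ 2 +
      K p * (2 * (ρ ^ dg κ * (hc (E p.1) κ * hc (E p.2) κ))))) ∂QM - 2 * εF F * ∫ p, K p * 1 ∂QM ≤
      ∫ p, (A1 p * (∫ w, E p.1 w ^ 2 ∂(gm m)) + A2 p * (∫ w, E p.2 w ^ 2 ∂(gm m)) +
      K p * (2 * T p)) ∂QM := by
      rw [← integral_const_mul, ← integral_sub
        (integrable_finsetSum _ (fun κ _ => k4 κ)) (hKi.const_mul _)]
      apply integral_mono_ae
      · exact (integrable_finsetSum _ (fun κ _ => k4 κ)).sub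
          (hKi.const_mul _)
      · exact (j1.add j2).add j3
      · filter_upwards [QM_pos] with p hp
        obtain ⟨C1, hC1⟩ := hA1.bd
        obtain ⟨C2, hC2⟩ := hA2.bd
        obtain ⟨C3, hC3⟩ := hK.bd
        have p1 := (hC1 p hp.1 hp.2).1
        have p2 := (hC2 p hp.1 hp.2).1
        have p3 := (hC3 p hp.1 hp.2).1
        have b1 := mul_le_mul_of_nonneg_left (bessel (hE.slice p.1) F) p1
        have b2 := mul_le_mul_of_nonneg_left (bessel (hE.slice p.2) F) p2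
        have b3 := mul_le_mul_of_nonneg_left
          (noise_ge (hE.slice p.1) (hE.slice p.2) hσ hρ F) (show 0 ≤ 2 * K p by linarith)
        have e1 : ∑ κ ∈ F, (A1 p * hc (E p.1) κ ^ 2 + A2 p * hc (E p.2) κ ^ 2 +
            K p * (2 * (ρ ^ dg κ * (hc (E p.1) κ * hc (E p.2) κ)))) =
            A1 p * (∑ κ ∈ F, hc (E p.1) κ ^ 2) + A2 p * (∑ κ ∈ F, hc (E p.2) κ ^ 2) +
            2 * K p * (∑ κ ∈ F, ρ ^ dg κ * (hc (E p.1) κ * hc (E p.2) κ)) := by
          rw [Finset.sum_add_distrib, Finset.sum_add_distrib, Finset.mul_sum, Finset.mul_sum,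
            Finset.mul_sum]
          congr 1
          refine Finset.sum_congr rfl fun κ _ => by ring
        show ∑ κ ∈ F, (A1 p * hc (E p.1) κ ^ 2 + A2 p * hc (E p.2) κ ^ 2 +
            K p * (2 * (ρ ^ dg κ * (hc (E p.1) κ * hc (E p.2) κ)))) - 2 * εF F * (K p * 1) ≤
          A1 p * (∫ w, E p.1 w ^ 2 ∂(gm m)) + A2 p * (∫ w, E p.2 w ^ 2 ∂(gm m)) +
            K p * (2 * T p)
        rw [e1]
        rw [mul_sub] at b3
        have e2 : 2 * K p * T p = K p * (2 * T p) := by ring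
        rw [← e2]
        have e3 : 2 * K p * (∑' κ : Fin m → ℕ, |ρ| ^ dg κ - ∑ κ ∈ F, |ρ| ^ dg κ) =
          2 * εF F * (K p * 1) := by rw [hε]; ring
        rw [e3] at b3
        linarith
    linarith
  have hlim : Filter.Tendsto (fun F => -(2 * εF F * ∫ p, K p * 1 ∂QM)) Filter.atTop
      (nhds (-(2 * 0 * ∫ p, K p * 1 ∂QM))) := by
    have h1 : Filter.Tendsto εF Filter.atTop (nhds 0) := by
      have h2 := (geoM (m := m) (abs_nonneg ρ) hab).hasSum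
      have h3 : Filter.Tendsto (fun F : Finset (Fin m → ℕ) => ∑ κ ∈ F, |ρ| ^ dg κ) Filter.atTop
        (nhds (∑' κ : Fin m → ℕ, |ρ| ^ dg κ)) := h2
      have h4 := h3.const_sub (∑' κ : Fin m → ℕ, |ρ| ^ dg κ)
      rw [sub_self] at h4
      exact h4
    exact ((h1.const_mul 2).mul_const _).neg
  rw [mul_zero, zero_mul, neg_zero] at hlim
  exact le_of_tendsto hlim (Filter.Eventually.of_forall hlow)

end Pool.Agent.Run7.h126
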