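import Mathlib
import Pool.Agent.Run7.h126.Slice
import Pool.Agent.Run7.h126.PMain

set_option autoImplicit false

open MeasureTheory Set Real ProbabilityTheory
open scoped ENNReal NNReal

namespace Pool.Agent.Run7.h126

/-- rearrangement of a fourfold integral -/
lemma four {α β : Type*} [MeasurableSpace α] [MeasurableSpace β] {μ : Measure α} {ν : Measure β}
    [SFinite μ] [SFinite ν] {F : α → β → α → β → ℝ≥0∞}
    (hF : Measurable fun q : (α × β) × (α × β) => F q.1.1 q.1.2 q.2.1 q.2.2) :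
    ∫⁻ q, F q.1.1 q.1.2 q.2.1 q.2.2 ∂((μ.prod ν).prod (μ.prod ν)) =
      ∫⁻ w, ∫⁻ z, ∫⁻ x, ∫⁻ u, F x w u z ∂μ ∂μ ∂ν ∂ν := by
  rw [lintegral_prod _ hF.aemeasurable]
  have h1 : ∀ p : α × β, ∫⁻ r : α × β, F p.1 p.2 r.1 r.2 ∂(μ.prod ν) =
      ∫⁻ z, ∫⁻ u, F p.1 p.2 u z ∂μ ∂ν := by
    intro p
    have hm : Measurable fun r : α × β => F p.1 p.2 r.1 r.2 :=
      hF.comp (measurable_const.prodMk measurable_id)
    rw [lintegral_prod_symm _ hm.aemeasurable]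
  simp only [h1]
  have hm2 : Measurable fun p : (α × β) × β => ∫⁻ u, F p.1.1 p.1.2 u p.2 ∂μ := by
    apply Measurable.lintegral_prod_right'
      (f := fun s : ((α × β) × β) × α => F s.1.1.1 s.1.1.2 s.2 s.1.2)
    exact hF.comp ((measurable_fst.comp measurable_fst).prodMk
      (measurable_snd.prodMk (measurable_snd.comp measurable_fst)))
  have hm3 : Measurable fun p : α × β => ∫⁻ z, ∫⁻ u, F p.1 p.2 u z ∂μ ∂ν :=
    hm2.lintegral_prod_right'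
  rw [lintegral_prod_symm _ hm3.aemeasurable]
  apply lintegral_congr
  intro w
  rw [lintegral_lintegral_swap]
  apply Measurable.aemeasurable
  exact hm2.comp ((measurable_fst.prodMk measurable_const).prodMk measurable_snd)

lemma ofReal_int_le {α : Type*} [MeasurableSpace α] {μ : Measure α} {G : α → ℝ}
    (hG : Integrable G μ) : ENNReal.ofReal (∫ p, G p ∂μ) ≤ ∫⁻ p, ENNReal.ofReal (G p) ∂μ := by
  have hGp : Integrable (fun p => max (G p) 0) μ := hG.pos_part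
  have h3 : ∫ p, G p ∂μ ≤ ∫ p, max (G p) 0 ∂μ :=
    integral_mono hG hGp (fun p => le_max_left _ _)
  calc ENNReal.ofReal (∫ p, G p ∂μ) ≤ ENNReal.ofReal (∫ p, max (G p) 0 ∂μ) :=
        ENNReal.ofReal_le_ofReal h3
    _ = ∫⁻ p, ENNReal.ofReal (max (G p) 0) ∂μ :=
        ofReal_integral_eq_lintegral_ofReal hGp
          (Filter.Eventually.of_forall fun p => le_max_right _ _)
    _ = ∫⁻ p, ENNReal.ofReal (G p) ∂μ := by
        apply lintegral_congr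
        intro p
        rcases le_total (G p) 0 with h | h
        · rw [max_eq_right h, ENNReal.ofReal_zero, ENNReal.ofReal_of_nonpos h]
        · rw [max_eq_left h]

/-- centred circular means of the slices -/
noncomputable def Em {m : ℕ} (f : (Fin m → ℝ) → ℝ × ℝ → ℝ) (R : ℝ) (w : Fin m → ℝ) : ℝ :=
  mean (f w) R - 1/3

lemma Em_fam {m : ℕ} {f : (Fin m → ℝ) → ℝ × ℝ → ℝ} (hf : ∀ w, PFuz (f w))
    (hfm : Measurable (fun q : (Fin m → ℝ) × (ℝ × ℝ) => f q.1 q.2)) : Fam (Em f) where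
  meas := by
    unfold Em mean
    apply Measurable.sub_const
    apply Measurable.div_const
    have hpi : (0:ℝ) ≤ 2 * π := by positivity
    simp only [intervalIntegral.integral_of_le hpi]
    have hm : Measurable (fun p : (ℝ × (Fin m → ℝ)) × ℝ => circ (f p.1.2) p.1.1 p.2) := by
      unfold circ
      have h2 : Measurable (fun p : (ℝ × (Fin m → ℝ)) × ℝ =>
        (p.1.2, (p.1.1 * cos p.2, p.1.1 * sin p.2))) := by fun_prop
      exact hfm.comp h2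
    exact (hm.stronglyMeasurable.integral_prod_right' (ν := volume.restrict (Ioc 0 (2 * π)))).measurable
  bd := by
    intro R w
    have h1 := mean_nonneg (hf w) R
    have h2 := mean_le_one (hf w) R
    unfold Em
    rw [abs_le]; constructor <;> linarith

/-- the quadratic integrand -/
noncomputable def Dq {m : ℕ} (ρ σ : ℝ) (A1 A2 K : ℝ × ℝ → ℝ) (E : ℝ → (Fin m → ℝ) → ℝ)
    (q : (Fin m → ℝ) × (Fin m → ℝ)) (p : ℝ × ℝ) : ℝ :=
  A1 p * E p.1 q.1 ^ 2 + A2 p * E p.2 (ρ • q.1 + σ • q.2) ^ 2 +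
    K p * (2 * (E p.1 q.1 * E p.2 (ρ • q.1 + σ • q.2)))

lemma Dq_int {m : ℕ} {E : ℝ → (Fin m → ℝ) → ℝ} (hE : Fam E) {ρ σ : ℝ}
    (hρ0 : 0 < 1 - ρ ^ 2) {A1 A2 K : ℝ × ℝ → ℝ} (hA1 : Coef ρ A1)
    (hA2 : Coef ρ A2) (hK : Coef ρ K) :
    Integrable (Function.uncurry (Dq ρ σ A1 A2 K E)) (((gm m).prod (gm m)).prod QM) := by
  obtain ⟨C1, hC1⟩ := hA1.bd
  obtain ⟨C2, hC2⟩ := hA2.bd
  obtain ⟨C3, hC3⟩ := hK.bd
  have hmap : Measurable (fun s : ((Fin m → ℝ) × (Fin m → ℝ)) × (ℝ × ℝ) => ρ • s.1.1 + σ • s.1.2) := by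
    fun_prop
  have hE1 : Measurable (fun s : ((Fin m → ℝ) × (Fin m → ℝ)) × (ℝ × ℝ) => E s.2.1 s.1.1) :=
    hE.meas.comp ((measurable_fst.comp measurable_snd).prodMk (measurable_fst.comp measurable_fst))
  have hE2 : Measurable (fun s : ((Fin m → ℝ) × (Fin m → ℝ)) × (ℝ × ℝ) =>
      E s.2.2 (ρ • s.1.1 + σ • s.1.2)) :=
    hE.meas.comp ((measurable_snd.comp measurable_snd).prodMk hmap)
  have hmeas : Measurable (Function.uncurry (Dq ρ σ A1 A2 K E)) := by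
    unfold Dq
    simp only [Function.uncurry_def]
    exact (((hA1.meas.comp measurable_snd).mul (hE1.pow_const 2)).add
      ((hA2.meas.comp measurable_snd).mul (hE2.pow_const 2))).add
      ((hK.meas.comp measurable_snd).mul ((hE1.mul hE2).const_mul 2))
  have hdom : Integrable (fun s : ((Fin m → ℝ) × (Fin m → ℝ)) × (ℝ × ℝ) =>
      (C1 + C2 + 2 * C3) * (env ρ s.2.1 * env ρ s.2.2)) (((gm m).prod (gm m)).prod QM) := by
    have h := (integrable_const (μ := (gm m).prod (gm m)) (C1 + C2 + 2 * C3)).mul_prod (env2_int hρ0)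
    exact h
  refine hdom.mono' hmeas.aestronglyMeasurable ?_
  have hae : ∀ᵐ s ∂(((gm m).prod (gm m)).prod QM), 0 < s.2.1 ∧ 0 < s.2.2 := by
    have := (Measure.quasiMeasurePreserving_snd (μ := (gm m).prod (gm m)) (ν := QM)).ae QM_pos
    exact this
  filter_upwards [hae] with s hs
  obtain ⟨a1, b1⟩ := hC1 s.2 hs.1 hs.2
  obtain ⟨a2, b2⟩ := hC2 s.2 hs.1 hs.2
  obtain ⟨a3, b3⟩ := hC3 s.2 hs.1 hs.2
  have e1 := hE.bd s.2.1 s.1.1
  have e2 := hE.bd s.2.2 (ρ • s.1.1 + σ • s.1.2)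
  have e3 : |E s.2.1 s.1.1 ^ 2| ≤ 1 := by
    rw [abs_pow]; exact pow_le_one₀ (abs_nonneg _) e1
  have e4 : |E s.2.2 (ρ • s.1.1 + σ • s.1.2) ^ 2| ≤ 1 := by
    rw [abs_pow]; exact pow_le_one₀ (abs_nonneg _) e2
  have e5 : |2 * (E s.2.1 s.1.1 * E s.2.2 (ρ • s.1.1 + σ • s.1.2))| ≤ 2 := by
    rw [abs_mul, abs_two, abs_mul]
    have h5 : 0 ≤ |E s.2.1 s.1.1| := abs_nonneg _
    have h6 : 0 ≤ |E s.2.2 (ρ • s.1.1 + σ • s.1.2)| := abs_nonneg _
    calc 2 * (|E s.2.1 s.1.1| * |E s.2.2 (ρ • s.1.1 + σ • s.1.2)|) ≤ 2 * (1 * 1) := by gcongr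
      _ = 2 := by ring
  have f1 : |A1 s.2 * E s.2.1 s.1.1 ^ 2| ≤ C1 * (env ρ s.2.1 * env ρ s.2.2) := by
    rw [abs_mul, abs_of_nonneg a1]
    calc A1 s.2 * |E s.2.1 s.1.1 ^ 2| ≤ A1 s.2 * 1 := by gcongr
      _ ≤ _ := by rw [mul_one]; exact b1
  have f2 : |A2 s.2 * E s.2.2 (ρ • s.1.1 + σ • s.1.2) ^ 2| ≤ C2 * (env ρ s.2.1 * env ρ s.2.2) := by
    rw [abs_mul, abs_of_nonneg a2]
    calc A2 s.2 * |E s.2.2 (ρ • s.1.1 + σ • s.1.2) ^ 2| ≤ A2 s.2 * 1 := by gcongr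
      _ ≤ _ := by rw [mul_one]; exact b2
  have f3 : |K s.2 * (2 * (E s.2.1 s.1.1 * E s.2.2 (ρ • s.1.1 + σ • s.1.2)))| ≤
      2 * C3 * (env ρ s.2.1 * env ρ s.2.2) := by
    rw [abs_mul, abs_of_nonneg a3]
    calc K s.2 * |2 * (E s.2.1 s.1.1 * E s.2.2 (ρ • s.1.1 + σ • s.1.2))| ≤ K s.2 * 2 := by gcongr
      _ ≤ _ := by linarith
  have f4 := abs_add_three (A1 s.2 * E s.2.1 s.1.1 ^ 2)
    (A2 s.2 * E s.2.2 (ρ • s.1.1 + σ • s.1.2) ^ 2)
    (K s.2 * (2 * (E s.2.1 s.1.1 * E s.2.2 (ρ • s.1.1 + σ • s.1.2))))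
  show |A1 s.2 * E s.2.1 s.1.1 ^ 2 + A2 s.2 * E s.2.2 (ρ • s.1.1 + σ • s.1.2) ^ 2 +
    K s.2 * (2 * (E s.2.1 s.1.1 * E s.2.2 (ρ • s.1.1 + σ • s.1.2)))| ≤ _
  linarith

/-- integral of the quadratic integrand -/
lemma Dq_nonneg {m : ℕ} {E : ℝ → (Fin m → ℝ) → ℝ} (hE : Fam E) {ρ σ : ℝ}
    (hσ : σ ≠ 0) (hρ : σ ^ 2 = 1 - ρ ^ 2) {A1 A2 K : ℝ × ℝ → ℝ} (hA1 : Coef ρ A1)
    (hA2 : Coef ρ A2) (hK : Coef ρ K)
    (hmode : ∀ κ : Fin m → ℕ, 0 ≤ ∫ p, (A1 p * hc (E p.1) κ ^ 2 + A2 p * hc (E p.2) κ ^ 2 +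
      K p * (2 * (ρ ^ dg κ * (hc (E p.1) κ * hc (E p.2) κ)))) ∂QM) :
    0 ≤ ∫ q, ∫ p, Dq ρ σ A1 A2 K E q p ∂QM ∂((gm m).prod (gm m)) := by
  have hρ0 : 0 < 1 - ρ ^ 2 := by rw [← hρ]; positivity
  rw [integral_integral_swap (Dq_int hE hρ0 hA1 hA2 hK)]
  have h1 := modes_nonneg hE hσ hρ hA1 hA2 hK hmode
  refine h1.trans (le_of_eq ?_)
  congr 1
  ext p
  have hmap : Measurable (fun s : (Fin m → ℝ) × (Fin m → ℝ) => ρ • s.1 + σ • s.2) := by
    fun_prop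
  have hb1 := hE.slice p.1
  have hb2 := hE.slice p.2
  have hsq : ∀ R w, |E R w ^ 2| ≤ 1 := by
    intro R w
    rw [abs_pow]; exact pow_le_one₀ (abs_nonneg _) (hE.bd R w)
  have i1 : Integrable (fun q : (Fin m → ℝ) × (Fin m → ℝ) => E p.1 q.1 ^ 2)
      ((gm m).prod (gm m)) :=
    Integrable.of_bound ((hb1.meas.comp measurable_fst).pow_const 2).aestronglyMeasurable 1
      (Filter.Eventually.of_forall fun q => hsq _ _)
  have i2 : Integrable (fun q : (Fin m → ℝ) × (Fin m → ℝ) => E p.2 (ρ • q.1 + σ • q.2) ^ 2)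
      ((gm m).prod (gm m)) :=
    Integrable.of_bound ((hb2.meas.comp hmap).pow_const 2).aestronglyMeasurable 1
      (Filter.Eventually.of_forall fun q => hsq _ _)
  have i3 : Integrable (fun q : (Fin m → ℝ) × (Fin m → ℝ) => E p.1 q.1 * E p.2 (ρ • q.1 + σ • q.2))
      ((gm m).prod (gm m)) := by
    refine Integrable.of_bound ((hb1.meas.comp measurable_fst).mul
      (hb2.meas.comp hmap)).aestronglyMeasurable 1
      (Filter.Eventually.of_forall fun q => ?_)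
    rw [norm_mul]
    have a1 := hE.bd p.1 q.1
    have a2 := hE.bd p.2 (ρ • q.1 + σ • q.2)
    have a3 : 0 ≤ ‖E p.2 (ρ • q.1 + σ • q.2)‖ := norm_nonneg _
    calc ‖E p.1 q.1‖ * ‖E p.2 (ρ • q.1 + σ • q.2)‖ ≤ 1 * 1 := by
          gcongr
          · exact a1
          · exact a2
      _ = 1 := one_mul _
  unfold Dq
  have i4 : Integrable (fun q : (Fin m → ℝ) × (Fin m → ℝ) =>
      A1 p * E p.1 q.1 ^ 2 + A2 p * E p.2 (ρ • q.1 + σ • q.2) ^ 2) ((gm m).prod (gm m)) :=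
    (i1.const_mul _).add (i2.const_mul _)
  rw [integral_add i4 ((i3.const_mul 2).const_mul (K p)), integral_add (i1.const_mul _)
    (i2.const_mul _), integral_const_mul, integral_const_mul, integral_const_mul,
    integral_const_mul, integral_prod _ i1, integral_prod _ i2, integral_prod _ i3]
  have hsqB : Bdd (fun w => E p.2 w ^ 2) := ⟨hb2.meas.pow_const 2, fun w => hsq _ _⟩
  rw [stationary hsqB hσ hρ]
  simp

/-- **Lower bound for the stability of the slices.** -/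
theorem lower {m : ℕ} {f : Fin 3 → (Fin m → ℝ) → ℝ × ℝ → ℝ} (hf : ∀ i w, PFuz (f i w))
    (hfm : ∀ i, Measurable (fun q : (Fin m → ℝ) × (ℝ × ℝ) => f i q.1 q.2))
    {ρ σ : ℝ} (hσ : σ ≠ 0) (hρ : σ ^ 2 = 1 - ρ ^ 2) (hρ0 : ρ ≤ 0)
    {A1 A2 K : ℝ × ℝ → ℝ} (hA1 : Coef ρ A1) (hA2 : Coef ρ A2) (hK : Coef ρ K)
    (hpt : ∀ (w w' : Fin m → ℝ) (p : ℝ × ℝ), 0 < p.1 → 0 < p.2 →
      Wt ρ p.1 p.2 * Phi3 (-ρ / (1 - ρ ^ 2) * (p.1 * p.2)) +
      ∑ i, (A1 p * Em (f i) p.1 w ^ 2 + A2 p * Em (f i) p.2 w' ^ 2 +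
        K p * (2 * (Em (f i) p.1 w * Em (f i) p.2 w'))) ≤
      Wt ρ p.1 p.2 *
        ∑ i, J (-ρ / (1 - ρ ^ 2) * (p.1 * p.2)) (circ (f i w) p.1) (circ (f i w') p.2))
    (hmode : ∀ (i : Fin 3) (κ : Fin m → ℕ), 0 ≤ ∫ p, (A1 p * hc (Em (f i) p.1) κ ^ 2 +
      A2 p * hc (Em (f i) p.2) κ ^ 2 +
      K p * (2 * (ρ ^ dg κ * (hc (Em (f i) p.1) κ * hc (Em (f i) p.2) κ)))) ∂QM) :
    ENNReal.ofReal (∫ p, Wt ρ p.1 p.2 * Phi3 (-ρ / (1 - ρ ^ 2) * (p.1 * p.2)) ∂QM) ≤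
    ∫⁻ q, (∑ i, ∫⁻ x, ∫⁻ y, ENNReal.ofReal (f i q.1 x * f i (ρ • q.1 + σ • q.2) y) *
      ENNReal.ofReal (Ker ρ x y)) ∂((gm m).prod (gm m)) := by
  have hρ1 : 0 < 1 - ρ ^ 2 := by rw [← hρ]; positivity
  have hFam := fun i => Em_fam (hf i) (hfm i)
  have hDi := fun i => Dq_int (σ := σ) (hFam i) hρ1 hA1 hA2 hK
  set B0 := ∫ p, Wt ρ p.1 p.2 * Phi3 (-ρ / (1 - ρ ^ 2) * (p.1 * p.2)) ∂QM with hB0
  have hDint : ∀ (i : Fin 3) (w w' : Fin m → ℝ), Integrable (fun p =>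
      A1 p * Em (f i) p.1 w ^ 2 + A2 p * Em (f i) p.2 w' ^ 2 +
        K p * (2 * (Em (f i) p.1 w * Em (f i) p.2 w'))) QM := by
    intro i w w'
    have g1 : ∀ w : Fin m → ℝ, Measurable (fun R => Em (f i) R w) := fun w =>
      (hFam i).meas.comp (measurable_id.prodMk measurable_const)
    have hb := fun R w => (hFam i).bd R w
    have hsq : ∀ R w, |Em (f i) R w ^ 2| ≤ 1 := by
      intro R w
      rw [abs_pow]; exact pow_le_one₀ (abs_nonneg _) (hb R w)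
    refine ((hA1.int hρ1 (((g1 w).comp measurable_fst).pow_const 2) (M := 1)
      fun p => hsq _ _).add (hA2.int hρ1 (((g1 w').comp measurable_snd).pow_const 2) (M := 1)
      fun p => hsq _ _)).add (hK.int hρ1 ((((g1 w).comp measurable_fst).mul
      ((g1 w').comp measurable_snd)).const_mul 2) (M := 2) fun p => ?_)
    rw [abs_mul, abs_two, abs_mul]
    have h5 : 0 ≤ |Em (f i) p.1 w| := abs_nonneg _
    have h6 : 0 ≤ |Em (f i) p.2 w'| := abs_nonneg _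
    have h7 := hb p.1 w
    have h8 := hb p.2 w'
    calc 2 * (|Em (f i) p.1 w| * |Em (f i) p.2 w'|) ≤ 2 * (1 * 1) := by gcongr
      _ = 2 := by ring
  -- pointwise in the outer variables
  have h1 : ∀ q : (Fin m → ℝ) × (Fin m → ℝ),
      ENNReal.ofReal (B0 + ∑ i, ∫ p, Dq ρ σ A1 A2 K (Em (f i)) q p ∂QM) ≤
      ∑ i, ∫⁻ x, ∫⁻ y, ENNReal.ofReal (f i q.1 x * f i (ρ • q.1 + σ • q.2) y) *
      ENNReal.ofReal (Ker ρ x y) := by
    intro q
    have h2 := planar_ge (f := fun i => f i q.1) (g := fun i => f i (ρ • q.1 + σ • q.2))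
      (fun i => hf i _) (fun i => hf i _) hρ1 hρ0
      (D := fun p => ∑ i, (A1 p * Em (f i) p.1 q.1 ^ 2 +
        A2 p * Em (f i) p.2 (ρ • q.1 + σ • q.2) ^ 2 +
        K p * (2 * (Em (f i) p.1 q.1 * Em (f i) p.2 (ρ • q.1 + σ • q.2)))))
      (integrable_finsetSum _ fun i _ => hDint i _ _)
      (fun p hp1 hp2 => hpt _ _ p hp1 hp2)
    rw [integral_finsetSum _ fun i _ => hDint i _ _] at h2
    exact h2
  refine le_trans ?_ (lintegral_mono h1)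
  have hGi : ∀ i, Integrable (fun q => ∫ p, Dq ρ σ A1 A2 K (Em (f i)) q p ∂QM)
      ((gm m).prod (gm m)) := fun i => (hDi i).integral_prod_left
  have hG : Integrable (fun q => B0 + ∑ i, ∫ p, Dq ρ σ A1 A2 K (Em (f i)) q p ∂QM)
      ((gm m).prod (gm m)) :=
    (integrable_const _).add (integrable_finsetSum _ fun i _ => hGi i)
  refine le_trans ?_ (ofReal_int_le hG)
  apply ENNReal.ofReal_le_ofReal
  rw [integral_add (integrable_const _) (integrable_finsetSum _ fun i _ => hGi i),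
    integral_finsetSum _ fun i _ => hGi i]
  have h3 : 0 ≤ ∑ i, ∫ q, ∫ p, Dq ρ σ A1 A2 K (Em (f i)) q p ∂QM ∂((gm m).prod (gm m)) :=
    Finset.sum_nonneg fun i _ => Dq_nonneg (hFam i) hσ hρ hA1 hA2 hK (hmode i)
  simp only [integral_const, probReal_univ, smul_eq_mul, one_mul]
  linarith

end Pool.Agent.Run7.h126
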