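import Mathlib
import Pool.Agent.Run7.h126.Fub
import Pool.Agent.Run7.h126.Simplex

set_option autoImplicit false

open MeasureTheory Set Real ProbabilityTheory
open scoped ENNReal NNReal

namespace Pool.Agent.Run7.h126

/-- Gaussian measure on the product of the plane and the remaining coordinates -/
noncomputable def gX (m : ℕ) : Measure ((ℝ × ℝ) × (Fin m → ℝ)) := g2.prod (gm m)

instance (m : ℕ) : IsProbabilityMeasure (gX m) := by unfold gX; infer_instance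

/-- slices -/
def sl {m : ℕ} (A : Set ((ℝ × ℝ) × (Fin m → ℝ))) (w : Fin m → ℝ) : Set (ℝ × ℝ) := {x | (x, w) ∈ A}

lemma sl_meas {m : ℕ} {A : Set ((ℝ × ℝ) × (Fin m → ℝ))} (hA : MeasurableSet A) (w : Fin m → ℝ) :
    MeasurableSet (sl A w) := (measurable_id.prodMk measurable_const) hA

lemma sl_joint {m : ℕ} {A : Set ((ℝ × ℝ) × (Fin m → ℝ))} (hA : MeasurableSet A) :
    Measurable (fun q : (Fin m → ℝ) × (ℝ × ℝ) => ind (sl A q.1) q.2) := by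
  have e : (fun q : (Fin m → ℝ) × (ℝ × ℝ) => ind (sl A q.1) q.2) =
      (Prod.swap ⁻¹' A).indicator (fun _ => (1:ℝ)) := by
    ext q
    unfold ind
    by_cases h : (q.2, q.1) ∈ A
    · rw [indicator_of_mem (show q.2 ∈ sl A q.1 from h),
        indicator_of_mem (show q ∈ Prod.swap ⁻¹' A from h)]
    · rw [indicator_of_notMem (show q.2 ∉ sl A q.1 from h),
        indicator_of_notMem (show q ∉ Prod.swap ⁻¹' A from h)]
  rw [e]
  exact measurable_const.indicator (measurable_swap hA)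

/-- stability in product coordinates -/
noncomputable def stX {m : ℕ} (ρ σ : ℝ) (A : Set ((ℝ × ℝ) × (Fin m → ℝ))) : ℝ≥0∞ :=
  ((gX m).prod (gX m)) {p : ((ℝ × ℝ) × (Fin m → ℝ)) × ((ℝ × ℝ) × (Fin m → ℝ)) |
    p.1 ∈ A ∧ ρ • p.1 + σ • p.2 ∈ A}

/-- planar form for the slices -/
noncomputable def pl {m : ℕ} (ρ : ℝ) (A : Set ((ℝ × ℝ) × (Fin m → ℝ))) (w w' : Fin m → ℝ) : ℝ≥0∞ :=
  ∫⁻ x, ∫⁻ y, ENNReal.ofReal (ind (sl A w) x * ind (sl A w') y) * ENNReal.ofReal (Ker ρ x y)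

lemma pl_meas {m : ℕ} {ρ σ : ℝ} {A : Set ((ℝ × ℝ) × (Fin m → ℝ))} (hA : MeasurableSet A) :
    Measurable (fun q : (Fin m → ℝ) × (Fin m → ℝ) => pl ρ A q.1 (ρ • q.1 + σ • q.2)) := by
  unfold pl
  apply Measurable.lintegral_prod_right'
    (f := fun s : ((Fin m → ℝ) × (Fin m → ℝ)) × (ℝ × ℝ) => ∫⁻ y, ENNReal.ofReal
      (ind (sl A s.1.1) s.2 * ind (sl A (ρ • s.1.1 + σ • s.1.2)) y) * ENNReal.ofReal (Ker ρ s.2 y))
  apply Measurable.lintegral_prod_right'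
    (f := fun s : (((Fin m → ℝ) × (Fin m → ℝ)) × (ℝ × ℝ)) × (ℝ × ℝ) => ENNReal.ofReal
      (ind (sl A s.1.1.1) s.1.2 * ind (sl A (ρ • s.1.1.1 + σ • s.1.1.2)) s.2) *
      ENNReal.ofReal (Ker ρ s.1.2 s.2))
  have hmap : Measurable (fun s : (((Fin m → ℝ) × (Fin m → ℝ)) × (ℝ × ℝ)) × (ℝ × ℝ) =>
      ρ • s.1.1.1 + σ • s.1.1.2) := by fun_prop
  have hker : Continuous (fun p : (ℝ × ℝ) × (ℝ × ℝ) => Ker ρ p.1 p.2) := by
    unfold Ker; fun_prop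
  refine meas_mul ?_ ?_
  · apply Measurable.ennreal_ofReal
    apply Measurable.mul
    · exact (sl_joint hA).comp ((measurable_fst.comp (measurable_fst.comp measurable_fst)).prodMk
        (measurable_snd.comp measurable_fst))
    · exact (sl_joint hA).comp (hmap.prodMk measurable_snd)
  · exact (hker.measurable.comp
      ((measurable_snd.comp measurable_fst).prodMk measurable_snd)).ennreal_ofReal

/-- **Slicing formula.** -/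
lemma stX_eq {m : ℕ} {A : Set ((ℝ × ℝ) × (Fin m → ℝ))} (hA : MeasurableSet A) {ρ σ : ℝ}
    (hσ : σ ≠ 0) (hρ : σ ^ 2 = 1 - ρ ^ 2) :
    stX ρ σ A = ∫⁻ q, pl ρ A q.1 (ρ • q.1 + σ • q.2) ∂((gm m).prod (gm m)) := by
  have hmap : Measurable (fun p : ((ℝ × ℝ) × (Fin m → ℝ)) × ((ℝ × ℝ) × (Fin m → ℝ)) =>
      ρ • p.1 + σ • p.2) := by fun_prop
  have hE : MeasurableSet {p : ((ℝ × ℝ) × (Fin m → ℝ)) × ((ℝ × ℝ) × (Fin m → ℝ)) |
      p.1 ∈ A ∧ ρ • p.1 + σ • p.2 ∈ A} := (measurable_fst hA).inter (hmap hA)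
  unfold stX
  rw [← lintegral_indicator_one hE]
  set F : (ℝ × ℝ) → (Fin m → ℝ) → (ℝ × ℝ) → (Fin m → ℝ) → ℝ≥0∞ := fun x w u z =>
    {p : ((ℝ × ℝ) × (Fin m → ℝ)) × ((ℝ × ℝ) × (Fin m → ℝ)) |
      p.1 ∈ A ∧ ρ • p.1 + σ • p.2 ∈ A}.indicator 1 ((x, w), (u, z)) with hF
  have hFm : Measurable fun q : ((ℝ × ℝ) × (Fin m → ℝ)) × ((ℝ × ℝ) × (Fin m → ℝ)) =>
      F q.1.1 q.1.2 q.2.1 q.2.2 := measurable_one.indicator hE
  have h1 := four (μ := g2) (ν := gm m) hFm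
  have h2 : ∫⁻ a, {p : ((ℝ × ℝ) × (Fin m → ℝ)) × ((ℝ × ℝ) × (Fin m → ℝ)) |
      p.1 ∈ A ∧ ρ • p.1 + σ • p.2 ∈ A}.indicator 1 a ∂((gX m).prod (gX m)) =
      ∫⁻ q, F q.1.1 q.1.2 q.2.1 q.2.2 ∂((g2.prod (gm m)).prod (g2.prod (gm m))) := rfl
  rw [h2, h1, lintegral_prod _ (pl_meas hA).aemeasurable]
  apply lintegral_congr
  intro w
  apply lintegral_congr
  intro z
  unfold pl
  have hm : Measurable (Function.uncurry fun (x y : ℝ × ℝ) =>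
      ENNReal.ofReal (ind (sl A w) x * ind (sl A (ρ • w + σ • z)) y)) := by
    apply Measurable.ennreal_ofReal
    exact ((ind_fuz (sl_meas hA w)).meas.comp measurable_fst).mul
      ((ind_fuz (sl_meas hA _)).meas.comp measurable_snd)
  rw [← law hσ hρ hm]
  apply lintegral_congr
  intro x
  apply lintegral_congr
  intro u
  rw [hF]
  simp only
  unfold ind
  by_cases h1 : x ∈ sl A w
  · by_cases h2 : ((ρ * x.1 + σ * u.1, ρ * x.2 + σ * u.2) : ℝ × ℝ) ∈ sl A (ρ • w + σ • z)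
    · rw [indicator_of_mem h1, indicator_of_mem h2, indicator_of_mem (show (((x, w), (u, z)) :
        ((ℝ × ℝ) × (Fin m → ℝ)) × ((ℝ × ℝ) × (Fin m → ℝ))) ∈ {p : ((ℝ × ℝ) × (Fin m → ℝ)) ×
        ((ℝ × ℝ) × (Fin m → ℝ)) | p.1 ∈ A ∧ ρ • p.1 + σ • p.2 ∈ A} from ⟨h1, h2⟩)]
      simp
    · rw [indicator_of_mem h1, indicator_of_notMem h2, indicator_of_notMem (fun h => h2 h.2)]
      simp
  · rw [indicator_of_notMem h1, indicator_of_notMem (fun h => h1 h.1)]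
    simp

/-- comparison of the slices with the cells -/
lemma ind_sl_le {m : ℕ} {a : Fin 3 → ℝ × ℝ} (ha : ∀ i, dot (a i) (a i) = 1)
    (hab : ∀ i j, i ≠ j → dot (a i) (a j) = -1/2) {B : Fin 3 → Set ((ℝ × ℝ) × (Fin m → ℝ))}
    (hB : ∀ x, ∃! i, x ∈ B i)
    (hsub : ∀ i, {x : (ℝ × ℝ) × (Fin m → ℝ) | ∀ j, j ≠ i → dot (a j) x.1 < dot (a i) x.1} ⊆ B i)
    (i : Fin 3) (w : Fin m → ℝ) (x : ℝ × ℝ) (hx : x ∉ Tie a) :
    ind (sl (B i) w) x ≤ ind (Dcell (a i)) x := by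
  have hB' : ∀ x : ℝ × ℝ, ∃! i, x ∈ sl (B i) w := by
    intro x
    exact hB (x, w)
  have hsub' : ∀ i, {x : ℝ × ℝ | ∀ j, j ≠ i → dot (a j) x < dot (a i) x} ⊆ sl (B i) w := by
    intro i x hx
    exact hsub i hx
  unfold ind
  by_cases h : x ∈ sl (B i) w
  · have h2 : x ∈ Dcell (a i) := B_sub ha hab hB' hsub' h hx
    rw [indicator_of_mem h, indicator_of_mem h2]
  · rw [indicator_of_notMem h]
    exact indicator_nonneg (fun _ _ => zero_le_one) x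

lemma pl_sum_le {m : ℕ} {a : Fin 3 → ℝ × ℝ} (ha : ∀ i, dot (a i) (a i) = 1)
    (hab : ∀ i j, i ≠ j → dot (a i) (a j) = -1/2) {B : Fin 3 → Set ((ℝ × ℝ) × (Fin m → ℝ))}
    (hBm : ∀ i, MeasurableSet (B i)) (hB : ∀ x, ∃! i, x ∈ B i)
    (hsub : ∀ i, {x : (ℝ × ℝ) × (Fin m → ℝ) | ∀ j, j ≠ i → dot (a j) x.1 < dot (a i) x.1} ⊆ B i)
    {ρ : ℝ} (hρ1 : 0 < 1 - ρ ^ 2) (hρ0 : ρ ≤ 0) (w w' : Fin m → ℝ) :
    ∑ i, pl ρ (B i) w w' ≤
      ENNReal.ofReal (∫ p, Wt ρ p.1 p.2 * Phi3 (-ρ / (1 - ρ ^ 2) * (p.1 * p.2)) ∂QM) := by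
  have hTn : ∀ᵐ x : ℝ × ℝ, x ∉ Tie a :=
    measure_eq_zero_iff_ae_notMem.mp (Tie_null ha hab)
  have ha1 : ∀ i, (a i).1 ^ 2 + (a i).2 ^ 2 = 1 := by
    intro i
    have := ha i
    unfold dot at this
    rw [← this]; ring
  refine le_trans ?_ (simplex_le ha1 hρ1 hρ0)
  apply Finset.sum_le_sum
  intro i _
  unfold pl
  apply lintegral_mono_ae
  filter_upwards [hTn] with x hx
  apply lintegral_mono_ae
  filter_upwards [hTn] with y hy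
  have h1 := ind_sl_le ha hab hB hsub i w x hx
  have h2 := ind_sl_le ha hab hB hsub i w' y hy
  have h3 := (ind_fuz (sl_meas (hBm i) w')).nonneg y
  have h4 := (ind_fuz (Dcell_meas (a i))).nonneg x
  have h5 := mul_le_mul h1 h2 h3 h4
  exact mul_le_mul_left (ENNReal.ofReal_le_ofReal h5) _

/-- **Upper bound for the simplex partition.** -/
theorem simplex_upper {m : ℕ} {a : Fin 3 → ℝ × ℝ} (ha : ∀ i, dot (a i) (a i) = 1)
    (hab : ∀ i j, i ≠ j → dot (a i) (a j) = -1/2) {B : Fin 3 → Set ((ℝ × ℝ) × (Fin m → ℝ))}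
    (hBm : ∀ i, MeasurableSet (B i)) (hB : ∀ x, ∃! i, x ∈ B i)
    (hsub : ∀ i, {x : (ℝ × ℝ) × (Fin m → ℝ) | ∀ j, j ≠ i → dot (a j) x.1 < dot (a i) x.1} ⊆ B i)
    {ρ σ : ℝ} (hσ : σ ≠ 0) (hρ : σ ^ 2 = 1 - ρ ^ 2) (hρ0 : ρ ≤ 0) :
    ∑ i, stX ρ σ (B i) ≤
      ENNReal.ofReal (∫ p, Wt ρ p.1 p.2 * Phi3 (-ρ / (1 - ρ ^ 2) * (p.1 * p.2)) ∂QM) := by
  have hρ1 : 0 < 1 - ρ ^ 2 := by rw [← hρ]; positivity
  have e1 : ∑ i, stX ρ σ (B i) =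
      ∫⁻ q, ∑ i, pl ρ (B i) q.1 (ρ • q.1 + σ • q.2) ∂((gm m).prod (gm m)) := by
    rw [lintegral_finsetSum Finset.univ (fun i _ => pl_meas (hBm i))]
    exact Finset.sum_congr rfl fun i _ => stX_eq (hBm i) hσ hρ
  rw [e1]
  have h1 : ∀ q : (Fin m → ℝ) × (Fin m → ℝ), ∑ i, pl ρ (B i) q.1 (ρ • q.1 + σ • q.2) ≤
      ENNReal.ofReal (∫ p, Wt ρ p.1 p.2 * Phi3 (-ρ / (1 - ρ ^ 2) * (p.1 * p.2)) ∂QM) := by
    intro q
    exact pl_sum_le ha hab hBm hB hsub hρ1 hρ0 q.1 (ρ • q.1 + σ • q.2)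
  refine (lintegral_mono h1).trans ?_
  rw [lintegral_const, measure_univ, mul_one]

end Pool.Agent.Run7.h126
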