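import Mathlib
import Pool.Agent.Run7.h126.Stab

set_option autoImplicit false

open MeasureTheory Set Real ProbabilityTheory
open scoped ENNReal NNReal

namespace Pool.Agent.Run7.h126

/-- adding two coordinates -/
def join {m : ℕ} (x : (ℝ × ℝ) × (Fin m → ℝ)) : Fin (m + 2) → ℝ :=
  Fin.cons x.1.1 (Fin.cons x.1.2 x.2)

lemma join_zero {m : ℕ} (x : (ℝ × ℝ) × (Fin m → ℝ)) : join x 0 = x.1.1 := rfl

lemma join_one {m : ℕ} (x : (ℝ × ℝ) × (Fin m → ℝ)) : join x (Fin.succ 0) = x.1.2 := rfl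

lemma join_ss {m : ℕ} (x : (ℝ × ℝ) × (Fin m → ℝ)) (j : Fin m) : join x j.succ.succ = x.2 j := rfl

lemma join_meas {m : ℕ} : Measurable (join (m := m)) := by
  rw [measurable_pi_iff]
  intro k
  refine Fin.cases ?_ (fun k => ?_) k
  · exact measurable_fst.comp measurable_fst
  · refine Fin.cases ?_ (fun k => ?_) k
    · exact measurable_snd.comp measurable_fst
    · exact (measurable_pi_apply k).comp measurable_snd

lemma join_mp {m : ℕ} : MeasurePreserving (join (m := m)) (gX m) (gm (m + 2)) := by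
  refine ⟨join_meas, ?_⟩
  symm
  unfold gm
  apply Measure.pi_eq
  intro s hs
  rw [Measure.map_apply join_meas (MeasurableSet.univ_pi hs)]
  have e1 : join ⁻¹' (univ.pi s) =
      (s 0 ×ˢ s (Fin.succ 0)) ×ˢ (univ.pi fun j : Fin m => s j.succ.succ) := by
    ext x
    simp only [mem_preimage, mem_univ_pi, mem_prod]
    constructor
    · intro h
      exact ⟨⟨h 0, h (Fin.succ 0)⟩, fun j => h j.succ.succ⟩
    · rintro ⟨⟨h0, h1⟩, h2⟩ k
      refine Fin.cases ?_ (fun k => ?_) k
      · exact h0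
      · refine Fin.cases ?_ (fun k => ?_) k
        · exact h1
        · exact h2 k
  rw [e1]
  unfold gX g2 gm
  rw [Measure.prod_prod, Measure.prod_prod, Measure.pi_pi, Fin.prod_univ_succ, Fin.prod_univ_succ,
    mul_assoc]

lemma join_lin {m : ℕ} (ρ σ : ℝ) (x z : (ℝ × ℝ) × (Fin m → ℝ)) :
    join (ρ • x + σ • z) = ρ • join x + σ • join z := by
  ext k
  refine Fin.cases ?_ (fun k => ?_) k
  · rfl
  · refine Fin.cases ?_ (fun k => ?_) k
    · rfl
    · rfl

/-- change of the orthonormal basis -/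
noncomputable def rb {n : ℕ} (b : OrthonormalBasis (Fin n) ℝ (EuclideanSpace ℝ (Fin n))) (x : Fin n → ℝ) :
    Fin n → ℝ := fun k => ∑ i, x i * b i k

lemma rb_meas {n : ℕ} (b : OrthonormalBasis (Fin n) ℝ (EuclideanSpace ℝ (Fin n))) :
    Measurable (rb b) := by
  unfold rb
  fun_prop

lemma rb_mp {n : ℕ} (b : OrthonormalBasis (Fin n) ℝ (EuclideanSpace ℝ (Fin n))) :
    MeasurePreserving (rb b) (gm n) (gm n) := by
  refine ⟨rb_meas b, ?_⟩
  have h1 := stdGaussian_eq_map_pi_orthonormalBasis b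
  have h2 := map_pi_eq_stdGaussian (ι := Fin n)
  have hm1 : Measurable (fun x : Fin n → ℝ => ∑ i, x i • b i) := by fun_prop
  have hm2 : Measurable (WithLp.ofLp (p := 2) (V := Fin n → ℝ)) := by fun_prop
  have hm3 : Measurable (WithLp.toLp (V := Fin n → ℝ) 2) := by fun_prop
  have e1 : rb b = WithLp.ofLp ∘ (fun x : Fin n → ℝ => ∑ i, x i • b i) := by
    ext x k
    simp [rb]
  rw [e1, ← Measure.map_map hm2 hm1]
  have e2 : Measure.map (fun x : Fin n → ℝ => ∑ i, x i • b i) (gm n) =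
      Measure.map (WithLp.toLp 2) (gm n) := by
    unfold gm
    rw [← h1, h2]
  rw [e2, Measure.map_map hm2 hm3]
  have e3 : (WithLp.ofLp ∘ WithLp.toLp 2 : (Fin n → ℝ) → (Fin n → ℝ)) = id := rfl
  rw [e3, Measure.map_id]

lemma rb_lin {n : ℕ} (b : OrthonormalBasis (Fin n) ℝ (EuclideanSpace ℝ (Fin n))) (ρ σ : ℝ)
    (x z : Fin n → ℝ) : rb b (ρ • x + σ • z) = ρ • rb b x + σ • rb b z := by
  ext k
  simp only [rb, Pi.add_apply, Pi.smul_apply, smul_eq_mul, Finset.mul_sum]
  rw [← Finset.sum_add_distrib]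
  exact Finset.sum_congr rfl fun i _ => by ring

/-- the coordinates adapted to a basis -/
noncomputable def ph {m : ℕ} (b : OrthonormalBasis (Fin (m + 2)) ℝ (EuclideanSpace ℝ (Fin (m + 2))))
    (x : (ℝ × ℝ) × (Fin m → ℝ)) : Fin (m + 2) → ℝ := rb b (join x)

lemma ph_mp {m : ℕ} (b : OrthonormalBasis (Fin (m + 2)) ℝ (EuclideanSpace ℝ (Fin (m + 2)))) :
    MeasurePreserving (ph b) (gX m) (gm (m + 2)) := (rb_mp b).comp join_mp

lemma ph_lin {m : ℕ} (b : OrthonormalBasis (Fin (m + 2)) ℝ (EuclideanSpace ℝ (Fin (m + 2))))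
    (ρ σ : ℝ) (x z : (ℝ × ℝ) × (Fin m → ℝ)) : ph b (ρ • x + σ • z) = ρ • ph b x + σ • ph b z := by
  unfold ph
  rw [join_lin, rb_lin]

/-- transfer of the stability -/
lemma st_transfer {m : ℕ} (b : OrthonormalBasis (Fin (m + 2)) ℝ (EuclideanSpace ℝ (Fin (m + 2))))
    {A : Set (Fin (m + 2) → ℝ)} (hA : MeasurableSet A) (ρ σ : ℝ) :
    ((gm (m + 2)).prod (gm (m + 2))) {p : (Fin (m + 2) → ℝ) × (Fin (m + 2) → ℝ) |
      p.1 ∈ A ∧ ρ • p.1 + σ • p.2 ∈ A} = stX ρ σ (ph b ⁻¹' A) := by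
  have hmap : Measurable (fun p : (Fin (m + 2) → ℝ) × (Fin (m + 2) → ℝ) =>
      ρ • p.1 + σ • p.2) := by fun_prop
  have hE : MeasurableSet {p : (Fin (m + 2) → ℝ) × (Fin (m + 2) → ℝ) |
      p.1 ∈ A ∧ ρ • p.1 + σ • p.2 ∈ A} := (measurable_fst hA).inter (hmap hA)
  have hmp := (ph_mp b).prod (ph_mp b)
  rw [← hmp.measure_preimage hE.nullMeasurableSet]
  unfold stX
  congr 1
  ext p
  simp only [mem_preimage, mem_ofPred_eq, Prod.map_fst, Prod.map_snd, ph_lin]

/-- inner products in the adapted coordinates -/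
lemma ph_inner {m : ℕ} (b : OrthonormalBasis (Fin (m + 2)) ℝ (EuclideanSpace ℝ (Fin (m + 2))))
    (a : Fin (m + 2) → ℝ) (x : (ℝ × ℝ) × (Fin m → ℝ)) :
    ∑ k, a k * ph b x k = (∑ k, a k * b 0 k) * x.1.1 + ((∑ k, a k * b (Fin.succ 0) k) * x.1.2 +
      ∑ j : Fin m, (∑ k, a k * b j.succ.succ k) * x.2 j) := by
  have h1 : ∑ k, a k * ph b x k = ∑ i, (∑ k, a k * b i k) * join x i := by
    unfold ph rb
    simp only [Finset.mul_sum, Finset.sum_mul]
    rw [Finset.sum_comm]
    refine Finset.sum_congr rfl fun i _ => Finset.sum_congr rfl fun k _ => by ring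
  rw [h1, Fin.sum_univ_succ (f := fun i => (∑ k, a k * b i k) * join x i),
    Fin.sum_univ_succ (f := fun i : Fin (m + 1) => (∑ k, a k * b i.succ k) * join x i.succ)]
  rfl

lemma inner_coord {n : ℕ} (x y : EuclideanSpace ℝ (Fin n)) :
    inner ℝ x y = ∑ k, x k * y k := by
  rw [PiLp.inner_apply]
  refine Finset.sum_congr rfl fun k _ => ?_
  show inner ℝ (x k) (y k) = x k * y k
  simp [mul_comm]

/-- Parseval -/
lemma parseval {n : ℕ} (b : OrthonormalBasis (Fin n) ℝ (EuclideanSpace ℝ (Fin n)))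
    (a a' : Fin n → ℝ) : ∑ i, (∑ k, a k * b i k) * (∑ k, a' k * b i k) = ∑ k, a k * a' k := by
  have h := b.sum_inner_mul_inner (WithLp.toLp 2 a) (WithLp.toLp 2 a')
  simp only [inner_coord] at h
  rw [← h]
  refine Finset.sum_congr rfl fun i _ => ?_
  congr 1
  refine Finset.sum_congr rfl fun k _ => mul_comm _ _

/-- a basis adapted to three vectors of sum zero -/
lemma basis3 {m : ℕ} (u : Fin 3 → Fin (m + 2) → ℝ) (hu : ∀ k, ∑ i, u i k = 0) :
    ∃ b : OrthonormalBasis (Fin (m + 2)) ℝ (EuclideanSpace ℝ (Fin (m + 2))),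
      ∀ (i : Fin 3) (j : Fin m), ∑ k, u i k * b j.succ.succ k = 0 := by
  classical
  set E := EuclideanSpace ℝ (Fin (m + 2)) with hE
  set v0 : E := WithLp.toLp 2 (u 0) with hv0
  set v1 : E := WithLp.toLp 2 (u 1) with hv1
  set W : Submodule ℝ E := Submodule.span ℝ (({v0, v1} : Finset E) : Set E) with hW
  have hd : Module.finrank ℝ W ≤ 2 :=
    (finrank_span_finset_le_card _).trans (Finset.card_le_two)
  set d := Module.finrank ℝ W with hdd
  set bW : OrthonormalBasis (Fin d) ℝ W := stdOrthonormalBasis ℝ W with hbW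
  set v : Fin (m + 2) → E := fun i => if h : i.val < d then (bW ⟨i.val, h⟩ : E) else 0 with hv
  set s : Set (Fin (m + 2)) := {i | i.val < d} with hs
  have hort : Orthonormal ℝ (s.domRestrict v) := by
    have h1 : Orthonormal ℝ (fun i : Fin d => (bW i : E)) :=
      bW.orthonormal.comp_linearIsometry W.subtypeₗᵢ
    have h2 : Function.Injective (fun i : s => (⟨i.1.val, i.2⟩ : Fin d)) := by
      intro i j hij
      simp only [Fin.mk.injEq] at hij
      exact Subtype.ext (Fin.ext hij)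
    have h3 := h1.comp _ h2
    have e : s.domRestrict v = (fun i : Fin d => (bW i : E)) ∘
        (fun i : s => (⟨i.1.val, i.2⟩ : Fin d)) := by
      ext i : 1
      have hi : i.1.val < d := i.2
      simp only [Set.domRestrict_apply, hv, Function.comp_apply, dif_pos hi]
    rw [e]
    exact h3
  have hcard : Module.finrank ℝ E = Fintype.card (Fin (m + 2)) := by
    exact finrank_euclideanSpace
  obtain ⟨b, hb⟩ := hort.exists_orthonormalBasis_extension_of_card_eq hcard
  refine ⟨b, ?_⟩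
  have hperp : ∀ (w : E), w ∈ W → ∀ j : Fin m, inner ℝ w (b j.succ.succ) = (0:ℝ) := by
    intro w hw j
    have h1 : (⟨w, hw⟩ : W) = ∑ i, bW.repr ⟨w, hw⟩ i • bW i := (bW.sum_repr _).symm
    have h2 : w = ∑ i, bW.repr ⟨w, hw⟩ i • (bW i : E) := by
      have := congrArg (W.subtype) h1
      simpa using this
    rw [h2, sum_inner]
    apply Finset.sum_eq_zero
    intro i _
    rw [inner_smul_left]
    have hi : (i.val) < m + 2 := lt_of_lt_of_le i.2 (hd.trans (by omega))
    have h3 : b ⟨i.val, hi⟩ = (bW i : E) := by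
      have h4 : (⟨i.val, hi⟩ : Fin (m + 2)) ∈ s := i.2
      rw [hb _ h4]
      simp only [hv]
      rw [dif_pos i.2]
    have h5 : (⟨i.val, hi⟩ : Fin (m + 2)) ≠ j.succ.succ := by
      intro h
      have := congrArg Fin.val h
      simp only [Fin.val_succ] at this
      have := i.2
      omega
    rw [← h3, b.orthonormal.2 h5, mul_zero]
  have m0 : v0 ∈ W := Submodule.subset_span (by simp)
  have m1 : v1 ∈ W := Submodule.subset_span (by simp)
  have p0 : ∀ j : Fin m, ∑ k, u 0 k * b j.succ.succ k = 0 := by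
    intro j
    have := hperp v0 m0 j
    rw [inner_coord] at this
    exact this
  have p1 : ∀ j : Fin m, ∑ k, u 1 k * b j.succ.succ k = 0 := by
    intro j
    have := hperp v1 m1 j
    rw [inner_coord] at this
    exact this
  intro i j
  fin_cases i
  · exact p0 j
  · exact p1 j
  · have h2 : ∀ k, u 2 k = -u 0 k - u 1 k := by
      intro k
      have := hu k
      rw [Fin.sum_univ_three] at this
      linarith
    show ∑ k, u 2 k * b j.succ.succ k = 0
    simp only [h2]
    have e : ∀ k, (-u 0 k - u 1 k) * b j.succ.succ k =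
        -(u 0 k * b j.succ.succ k) - u 1 k * b j.succ.succ k := fun k => by ring
    simp only [e, Finset.sum_sub_distrib, Finset.sum_neg_distrib, p0, p1]
    ring

end Pool.Agent.Run7.h126
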