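import Mathlib
import Pool.Agent.Run7.h126.Rot

set_option autoImplicit false

open MeasureTheory Set Real ProbabilityTheory
open scoped ENNReal NNReal

namespace Pool.Agent.Run7.h126

/-- integral over the plane in polar form -/
lemma g2_polar {f : ℝ × ℝ → ℝ} (hf : PFuz f) :
    ∫ x, f x ∂g2 = ∫ R in Ioi (0:ℝ), R * exp (-R ^ 2 / 2) * mean f R := by
  have hpi : (0:ℝ) < π := pi_pos
  have hden : Measurable (fun x : ℝ × ℝ =>
      ENNReal.ofReal (1 / (2 * π) * exp (-(x.1 ^ 2 + x.2 ^ 2) / 2))) := by fun_prop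
  have h1 : ∫ x, f x ∂g2 =
      ∫ x : ℝ × ℝ, (1 / (2 * π) * exp (-(x.1 ^ 2 + x.2 ^ 2) / 2)) * f x := by
    rw [g2_eq, integral_withDensity_eq_integral_toReal_smul hden
      (Filter.Eventually.of_forall fun _ => ENNReal.ofReal_lt_top)]
    refine integral_congr_ae (Filter.Eventually.of_forall fun x => ?_)
    simp only
    rw [ENNReal.toReal_ofReal (by positivity), smul_eq_mul]
  have h2 := integral_comp_polarCoord_symm
    (fun x : ℝ × ℝ => (1 / (2 * π) * exp (-(x.1 ^ 2 + x.2 ^ 2) / 2)) * f x)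
  rw [h1, ← h2, polarCoord_target]
  have e1 : ∀ p : ℝ × ℝ, p.1 • ((1 / (2 * π) * exp (-((polarCoord.symm p).1 ^ 2 +
      (polarCoord.symm p).2 ^ 2) / 2)) * f (polarCoord.symm p)) =
      (p.1 * exp (-p.1 ^ 2 / 2) / (2 * π)) * circ f p.1 p.2 := by
    intro p
    have e2 : polarCoord.symm p = (p.1 * cos p.2, p.1 * sin p.2) := rfl
    have e3 : (p.1 * cos p.2) ^ 2 + (p.1 * sin p.2) ^ 2 = p.1 ^ 2 := by
      have := sin_sq_add_cos_sq p.2
      linear_combination (p.1 ^ 2) * this
    rw [e2, smul_eq_mul]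
    simp only
    rw [e3]
    unfold circ
    ring
  simp only [e1]
  have hcm : Measurable (fun p : ℝ × ℝ => circ f p.1 p.2) := by
    unfold circ
    exact hf.meas.comp (by fun_prop)
  have hmeas : Measurable (fun p : ℝ × ℝ => (p.1 * exp (-p.1 ^ 2 / 2) / (2 * π)) * circ f p.1 p.2) := by
    apply Measurable.mul _ hcm
    fun_prop
  have hint0 : Integrable (fun r : ℝ => r * exp (-r ^ 2 / 2)) := by
    have := integrable_mul_exp_neg_mul_sq (b := 1/2) (by norm_num)
    refine this.congr (Filter.Eventually.of_forall fun r => ?_)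
    simp only
    congr 2
    ring
  have hint : IntegrableOn (fun p : ℝ × ℝ => (p.1 * exp (-p.1 ^ 2 / 2) / (2 * π)) * circ f p.1 p.2)
      (Ioi 0 ×ˢ Ioo (-π) π) (volume.prod volume) := by
    rw [IntegrableOn, ← Measure.prod_restrict]
    have hd : Integrable (fun p : ℝ × ℝ => (p.1 * exp (-p.1 ^ 2 / 2)) * (1 / (2 * π)))
        ((volume.restrict (Ioi (0:ℝ))).prod (volume.restrict (Ioo (-π) π))) :=
      hint0.restrict.mul_prod (integrable_const _)
    refine hd.mono' hmeas.aestronglyMeasurable ?_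
    rw [Measure.prod_restrict]
    filter_upwards [ae_restrict_mem (measurableSet_Ioi.prod measurableSet_Ioo)] with p hp
    have hp1 : 0 < p.1 := hp.1
    have c0 := hf.nonneg (p.1 * cos p.2, p.1 * sin p.2)
    have c1 := hf.le_one (p.1 * cos p.2, p.1 * sin p.2)
    have hw : 0 ≤ p.1 * exp (-p.1 ^ 2 / 2) / (2 * π) := by positivity
    rw [norm_mul, Real.norm_of_nonneg hw, Real.norm_of_nonneg (show 0 ≤ circ f p.1 p.2 from c0)]
    calc p.1 * exp (-p.1 ^ 2 / 2) / (2 * π) * circ f p.1 p.2 ≤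
        p.1 * exp (-p.1 ^ 2 / 2) / (2 * π) * 1 := by
          gcongr
          exact c1
      _ = _ := by ring
  rw [Measure.volume_eq_prod, setIntegral_prod _ hint]
  apply setIntegral_congr_fun measurableSet_Ioi
  intro r _
  simp only
  rw [integral_const_mul]
  have hper : Function.Periodic (circ f r) (2 * π) := (circ_fuz hf r).per
  have e4 := hper.intervalIntegral_add_eq 0 (-π)
  rw [zero_add, show -π + 2 * π = π by ring] at e4
  have e5 : ∫ θ in Ioo (-π) π, circ f r θ = 2 * π * mean f r := by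
    rw [← mean_spec, e4, intervalIntegral.integral_of_le (by linarith), integral_Ioc_eq_integral_Ioo]
  rw [e5]
  field_simp

/-- degree one indices -/
lemma dg_one {m : ℕ} {κ : Fin m → ℕ} (h : dg κ = 1) : ∃ j, ∀ w : Fin m → ℝ, Hk κ w = w j := by
  unfold dg at h
  obtain ⟨j, -, hj⟩ : ∃ j ∈ Finset.univ, κ j ≠ 0 := by
    apply Finset.exists_ne_zero_of_sum_ne_zero
    rw [h]; exact one_ne_zero
  have h1 : ∑ i, κ i = κ j + ∑ i ∈ Finset.univ.erase j, κ i :=
    (Finset.add_sum_erase _ _ (Finset.mem_univ j)).symm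
  have h2 : κ j = 1 := by omega
  have h3 : ∑ i ∈ Finset.univ.erase j, κ i = 0 := by omega
  have h4 : ∀ i, i ≠ j → κ i = 0 := by
    intro i hi
    exact (Finset.sum_eq_zero_iff.mp h3) i (Finset.mem_erase.mpr ⟨hi, Finset.mem_univ i⟩)
  refine ⟨j, fun w => ?_⟩
  unfold Hk
  rw [Finset.prod_eq_single j]
  · rw [h2, he_one]
  · intro i _ hi
    rw [h4 i hi, he_zero]
  · intro h; exact absurd (Finset.mem_univ j) h

lemma coord_int {m : ℕ} (j : Fin m) : Integrable (fun w : Fin m → ℝ => w j) (gm m) := by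
  have h := Hk_int (Pi.single j 1 : Fin m → ℕ)
  refine h.congr (Filter.Eventually.of_forall fun w => ?_)
  unfold Hk
  simp only
  rw [Finset.prod_eq_single j]
  · rw [Pi.single_eq_same, he_one]
  · intro i _ hi
    rw [Pi.single_eq_of_ne hi, he_zero]
  · intro h; exact absurd (Finset.mem_univ j) h

lemma coord_zero {m : ℕ} (j : Fin m) : ∫ w : Fin m → ℝ, w j ∂(gm m) = 0 := by
  have h := Hk_orth (Pi.single j 1 : Fin m → ℕ) 0
  have e : ∀ w : Fin m → ℝ, Hk (Pi.single j 1 : Fin m → ℕ) w * Hk 0 w = w j := by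
    intro w
    unfold Hk
    rw [Finset.prod_eq_single j, Finset.prod_eq_one (s := Finset.univ) (f := fun j =>
      he ((0 : Fin m → ℕ) j) (w j)), mul_one]
    · rw [Pi.single_eq_same, he_one]
    · intro i _
      exact he_zero _
    · intro i _ hi
      rw [Pi.single_eq_of_ne hi, he_zero]
    · intro h; exact absurd (Finset.mem_univ j) h
  simp only [e] at h
  rw [h, if_neg]
  intro h2
  have := congrFun h2 j
  simp at this

/-- vanishing first moment in radial form -/
lemma moment_zero {m : ℕ} {f : (Fin m → ℝ) → ℝ × ℝ → ℝ} (hf : ∀ w, PFuz (f w))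
    (hfm : Measurable (fun q : (Fin m → ℝ) × (ℝ × ℝ) => f q.1 q.2)) {κ : Fin m → ℕ}
    (hκ : dg κ = 1) (h0 : ∀ j : Fin m, ∫ w, (∫ x, f w x ∂g2) * w j ∂(gm m) = 0) :
    ∫ R in Ioi (0:ℝ), R * exp (-R ^ 2 / 2) * hc (Em f R) κ = 0 := by
  obtain ⟨j, hj⟩ := dg_one hκ
  have hFam := Em_fam hf hfm
  have h1 : ∀ w, (∫ x, f w x ∂g2) * w j =
      ∫ R in Ioi (0:ℝ), (R * exp (-R ^ 2 / 2)) * ((Em f R w + 1/3) * w j) := by
    intro w
    rw [g2_polar (hf w), ← integral_mul_const]
    congr 1
    ext R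
    unfold Em
    ring
  have h2 := h0 j
  simp only [h1] at h2
  have hint0 : Integrable (fun r : ℝ => r * exp (-r ^ 2 / 2)) := by
    have := integrable_mul_exp_neg_mul_sq (b := 1/2) (by norm_num)
    refine this.congr (Filter.Eventually.of_forall fun r => ?_)
    simp only
    congr 2
    ring
  have hEm : Measurable (fun q : (Fin m → ℝ) × ℝ => Em f q.2 q.1) :=
    hFam.meas.comp (measurable_snd.prodMk measurable_fst)
  have hI : Integrable (Function.uncurry fun (w : Fin m → ℝ) (R : ℝ) =>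
      (R * exp (-R ^ 2 / 2)) * ((Em f R w + 1/3) * w j))
      ((gm m).prod (volume.restrict (Ioi (0:ℝ)))) := by
    have hd : Integrable (fun q : (Fin m → ℝ) × ℝ => (2 * ‖q.1 j‖) * ‖q.2 * exp (-q.2 ^ 2 / 2)‖)
        ((gm m).prod (volume.restrict (Ioi (0:ℝ)))) :=
      ((coord_int j).norm.const_mul 2).mul_prod hint0.restrict.norm
    refine hd.mono' ?_ (Filter.Eventually.of_forall fun q => ?_)
    · apply Measurable.aestronglyMeasurable
      simp only [Function.uncurry_def]
      apply Measurable.mul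
      · fun_prop
      · exact (hEm.add_const _).mul ((measurable_pi_apply j).comp measurable_fst)
    · simp only [Function.uncurry_def]
      rw [norm_mul (q.2 * exp (-q.2 ^ 2 / 2)), norm_mul (Em f q.2 q.1 + 1/3)]
      have h3 : ‖Em f q.2 q.1 + 1/3‖ ≤ 2 := by
        have h6 := abs_le.mp (hFam.bd q.2 q.1)
        rw [Real.norm_eq_abs, abs_le]
        constructor <;> linarith [h6.1, h6.2]
      have h4 : 0 ≤ ‖q.1 j‖ := norm_nonneg _
      have h5 : 0 ≤ ‖q.2 * exp (-q.2 ^ 2 / 2)‖ := norm_nonneg _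
      calc ‖q.2 * exp (-q.2 ^ 2 / 2)‖ * (‖Em f q.2 q.1 + 1/3‖ * ‖q.1 j‖) ≤
          ‖q.2 * exp (-q.2 ^ 2 / 2)‖ * (2 * ‖q.1 j‖) := by gcongr
        _ = _ := by ring
  rw [integral_integral_swap hI] at h2
  refine Eq.trans ?_ h2
  apply setIntegral_congr_fun measurableSet_Ioi
  intro R _
  simp only
  rw [integral_const_mul]
  congr 1
  have hs := hFam.slice R
  have i1 : Integrable (fun w : Fin m → ℝ => Em f R w * w j) (gm m) := by
    have := hs.hint κ
    simp only [hj] at this
    exact this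
  have e : ∀ w : Fin m → ℝ, (Em f R w + 1/3) * w j = Em f R w * w j + 1/3 * w j := fun w => by ring
  simp only [e]
  rw [integral_add i1 ((coord_int j).const_mul _), integral_const_mul, coord_zero, mul_zero,
    add_zero]
  unfold hc
  simp only [hj]

end Pool.Agent.Run7.h126
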