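import Mathlib
import Pool.Agent.Run7.h126.Moment

set_option autoImplicit false

open MeasureTheory Set Real ProbabilityTheory
open scoped ENNReal NNReal

namespace Pool.Agent.Run7.h126

/-- the data needed for the general comparison -/
structure ModeOK (ρ : ℝ) (A1 A2 K : ℝ × ℝ → ℝ) : Prop where
  c1 : Coef ρ A1
  c2 : Coef ρ A2
  c3 : Coef ρ K
  pt : ∀ (p : ℝ × ℝ), 0 < p.1 → 0 < p.2 → ∀ (χ η : Fin 3 → ℝ → ℝ) (b b' : Fin 3 → ℝ),
    (∀ i, Fuz (χ i)) → (∀ i, Fuz (η i)) → (∀ i, ∫ x in (0:ℝ)..2 * π, χ i x = 2 * π * b i) →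
    (∀ i, ∫ x in (0:ℝ)..2 * π, η i x = 2 * π * b' i) → ∑ i, b i = 1 → ∑ i, b' i = 1 →
    Wt ρ p.1 p.2 * Phi3 (-ρ / (1 - ρ ^ 2) * (p.1 * p.2)) +
      ∑ i, (A1 p * (b i - 1/3) ^ 2 + A2 p * (b' i - 1/3) ^ 2 +
        K p * (2 * ((b i - 1/3) * (b' i - 1/3)))) ≤
      Wt ρ p.1 p.2 * ∑ i, J (-ρ / (1 - ρ ^ 2) * (p.1 * p.2)) (χ i) (η i)
  mode : ∀ (k : ℕ) (a : ℝ → ℝ), Measurable a → (∀ R, |a R| ≤ 1) →
    (k = 1 → ∫ R in Ioi (0:ℝ), R * exp (-R ^ 2 / 2) * a R = 0) →
    0 ≤ ∫ p, (A1 p * a p.1 ^ 2 + A2 p * a p.2 ^ 2 + K p * (2 * (ρ ^ k * (a p.1 * a p.2)))) ∂QM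

/-- indicator of a partition sums to one -/
lemma ind_sum {α : Type*} {A : Fin 3 → Set α} {x : α} (hA : ∃! i, x ∈ A i) :
    ∑ i, (A i).indicator (fun _ => (1:ℝ)) x = 1 := by
  obtain ⟨i, hi, huniq⟩ := hA
  rw [Finset.sum_eq_single i]
  · rw [indicator_of_mem hi]
  · intro j _ hj
    rw [indicator_of_notMem]
    intro h
    exact hj (huniq j h)
  · intro h; exact absurd (Finset.mem_univ i) h

/-- **Comparison in product coordinates.** -/
theorem lowerX {m : ℕ} {A : Fin 3 → Set ((ℝ × ℝ) × (Fin m → ℝ))}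
    (hAm : ∀ i, MeasurableSet (A i)) (hA : ∀ x, ∃! i, x ∈ A i)
    (h0 : ∀ (i : Fin 3) (j : Fin m), ∫ w, (∫ x, ind (sl (A i) w) x ∂g2) * w j ∂(gm m) = 0)
    {ρ σ : ℝ} (hσ : σ ≠ 0) (hρ : σ ^ 2 = 1 - ρ ^ 2) (hρ0 : ρ ≤ 0)
    {A1 A2 K : ℝ × ℝ → ℝ} (hOK : ModeOK ρ A1 A2 K) :
    ENNReal.ofReal (∫ p, Wt ρ p.1 p.2 * Phi3 (-ρ / (1 - ρ ^ 2) * (p.1 * p.2)) ∂QM) ≤
    ∑ i, stX ρ σ (A i) := by
  have e1 : ∑ i, stX ρ σ (A i) =
      ∫⁻ q, ∑ i, pl ρ (A i) q.1 (ρ • q.1 + σ • q.2) ∂((gm m).prod (gm m)) := by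
    rw [lintegral_finsetSum Finset.univ (fun i _ => pl_meas (hAm i))]
    exact Finset.sum_congr rfl fun i _ => stX_eq (hAm i) hσ hρ
  rw [e1]
  set f : Fin 3 → (Fin m → ℝ) → ℝ × ℝ → ℝ := fun i w => ind (sl (A i) w) with hf
  have hfP : ∀ i w, PFuz (f i w) := fun i w => ind_fuz (sl_meas (hAm i) w)
  have hfm : ∀ i, Measurable (fun q : (Fin m → ℝ) × (ℝ × ℝ) => f i q.1 q.2) :=
    fun i => sl_joint (hAm i)
  have hfs : ∀ w x, ∑ i, f i w x = 1 := fun w x => ind_sum (A := fun i => sl (A i) w) (hA (x, w))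
  refine lower hfP hfm hσ hρ hρ0 hOK.c1 hOK.c2 hOK.c3 ?_ ?_
  · intro w w' p hp1 hp2
    exact hOK.pt p hp1 hp2 _ _ (fun i => mean (f i w) p.1) (fun i => mean (f i w') p.2)
      (fun i => circ_fuz (hfP i w) p.1) (fun i => circ_fuz (hfP i w') p.2)
      (fun i => mean_spec _ _) (fun i => mean_spec _ _) (mean_sum (fun i => hfP i w) (hfs w) _)
      (mean_sum (fun i => hfP i w') (hfs w') _)
  · intro i κ
    have hFam := Em_fam (hfP i) (hfm i)
    refine hOK.mode (dg κ) (fun R => hc (Em (f i) R) κ) (hFam.hc_meas κ)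
      (fun R => hc_abs_le (hFam.slice R) κ) (fun h => ?_)
    exact moment_zero (hfP i) (hfm i) h (h0 i)

/-- **General comparison.** -/
theorem st_main {m : ℕ} {ρ σ : ℝ} (hσ : σ ≠ 0) (hρ : σ ^ 2 = 1 - ρ ^ 2) (hρ0 : ρ ≤ 0)
    {A1 A2 K : ℝ × ℝ → ℝ} (hOK : ModeOK ρ A1 A2 K)
    (A B : Fin 3 → Set (Fin (m + 2) → ℝ)) (a : Fin 3 → Fin (m + 2) → ℝ)
    (hAm : ∀ i, MeasurableSet (A i)) (hA : ∀ x : Fin (m + 2) → ℝ, ∃! i, x ∈ A i)
    (ha : ∀ i, ∑ k, a i k * a i k = 1)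
    (hab : ∀ i j, i ≠ j → ∑ k, a i k * a j k = -1 / 2)
    (hBm : ∀ i, MeasurableSet (B i)) (hB : ∀ x : Fin (m + 2) → ℝ, ∃! i, x ∈ B i)
    (hsub : ∀ i, {x : Fin (m + 2) → ℝ | ∀ j, j ≠ i → ∑ k, a j k * x k < ∑ k, a i k * x k} ⊆ B i) :
    ∑ i, ((gm (m + 2)).prod (gm (m + 2))) {p : (Fin (m + 2) → ℝ) × (Fin (m + 2) → ℝ) |
      p.1 ∈ B i ∧ ρ • p.1 + σ • p.2 ∈ B i} ≤
    ∑ i, ((gm (m + 2)).prod (gm (m + 2))) {p : (Fin (m + 2) → ℝ) × (Fin (m + 2) → ℝ) |
      p.1 ∈ A i ∧ ρ • p.1 + σ • p.2 ∈ A i} := by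
  -- the simplex side
  have hB1 : ∑ i, ((gm (m + 2)).prod (gm (m + 2))) {p : (Fin (m + 2) → ℝ) × (Fin (m + 2) → ℝ) |
      p.1 ∈ B i ∧ ρ • p.1 + σ • p.2 ∈ B i} ≤
      ENNReal.ofReal (∫ p, Wt ρ p.1 p.2 * Phi3 (-ρ / (1 - ρ ^ 2) * (p.1 * p.2)) ∂QM) := by
    have hsum : ∀ k, ∑ i, a i k = 0 := by
      have h1 : ∑ k, (∑ i, a i k) ^ 2 = 0 := by
        have h2 : ∀ k, (∑ i, a i k) ^ 2 = a 0 k * a 0 k + a 1 k * a 1 k + a 2 k * a 2 k +
            2 * (a 0 k * a 1 k) + 2 * (a 0 k * a 2 k) + 2 * (a 1 k * a 2 k) := by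
          intro k
          rw [Fin.sum_univ_three]
          ring
        simp only [h2, Finset.sum_add_distrib, ← Finset.mul_sum, ha]
        rw [hab 0 1 (by decide), hab 0 2 (by decide), hab 1 2 (by decide)]
        norm_num
      intro k
      have h3 := (Finset.sum_eq_zero_iff_of_nonneg (fun k _ => sq_nonneg (∑ i, a i k))).mp h1 k
        (Finset.mem_univ k)
      exact pow_eq_zero_iff (two_ne_zero) |>.mp h3
    obtain ⟨b, hb⟩ := basis3 a hsum
    simp only [st_transfer b (hBm _)]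
    set a' : Fin 3 → ℝ × ℝ := fun i => (∑ k, a i k * b 0 k, ∑ k, a i k * b (Fin.succ 0) k) with ha'
    have hdot : ∀ i j, dot (a' i) (a' j) = ∑ k, a i k * a j k := by
      intro i j
      rw [← parseval b, Fin.sum_univ_succ
        (f := fun l => (∑ k, a i k * b l k) * (∑ k, a j k * b l k)), Fin.sum_univ_succ
        (f := fun l : Fin (m + 1) => (∑ k, a i k * b l.succ k) * (∑ k, a j k * b l.succ k))]
      have h4 : ∑ l : Fin m, (∑ k, a i k * b l.succ.succ k) * (∑ k, a j k * b l.succ.succ k) = 0 := by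
        apply Finset.sum_eq_zero
        intro l _
        rw [hb, zero_mul]
      rw [h4, add_zero]
      rfl
    have hin : ∀ i (x : (ℝ × ℝ) × (Fin m → ℝ)), ∑ k, a i k * ph b x k = dot (a' i) x.1 := by
      intro i x
      rw [ph_inner]
      have h4 : ∑ j : Fin m, (∑ k, a i k * b j.succ.succ k) * x.2 j = 0 := by
        apply Finset.sum_eq_zero
        intro l _
        rw [hb, zero_mul]
      rw [h4, add_zero]
      rfl
    have hphm : Measurable (ph b) := (ph_mp b).measurable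
    refine simplex_upper (a := a') (fun i => by rw [hdot, ha]) (fun i j hij => by
      rw [hdot, hab i j hij]) (fun i => hphm (hBm i)) (fun x => hB (ph b x)) (fun i x hx => ?_)
      hσ hρ hρ0
    apply hsub i
    intro j hj
    rw [hin, hin]
    exact hx j hj
  refine hB1.trans ?_
  -- the other side
  set u : Fin 3 → Fin (m + 2) → ℝ := fun i k =>
    ∫ y, (A i).indicator (fun _ => (1:ℝ)) y * y k ∂(gm (m + 2)) with hu
  have hindb : ∀ i (y : Fin (m + 2) → ℝ), |(A i).indicator (fun _ => (1:ℝ)) y| ≤ 1 := by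
    intro i y
    by_cases h : y ∈ A i
    · rw [indicator_of_mem h]; norm_num
    · rw [indicator_of_notMem h]; norm_num
  have hindm : ∀ i, Measurable ((A i).indicator (fun _ => (1:ℝ))) := fun i =>
    measurable_const.indicator (hAm i)
  have hui : ∀ i k, Integrable (fun y : Fin (m + 2) → ℝ =>
      (A i).indicator (fun _ => (1:ℝ)) y * y k) (gm (m + 2)) := by
    intro i k
    refine (coord_int k).norm.mono' ((hindm i).mul (measurable_pi_apply k)).aestronglyMeasurable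
      (Filter.Eventually.of_forall fun y => ?_)
    rw [norm_mul]
    calc ‖(A i).indicator (fun _ => (1:ℝ)) y‖ * ‖y k‖ ≤ 1 * ‖y k‖ := by
          gcongr
          exact hindb i y
      _ = ‖y k‖ := one_mul _
  have husum : ∀ k, ∑ i, u i k = 0 := by
    intro k
    rw [hu]
    simp only
    rw [← integral_finsetSum _ fun i _ => hui i k]
    have : ∀ y : Fin (m + 2) → ℝ, ∑ i, (A i).indicator (fun _ => (1:ℝ)) y * y k = y k := by
      intro y
      rw [← Finset.sum_mul, ind_sum (hA y), one_mul]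
    simp only [this]
    exact coord_zero k
  obtain ⟨b, hb⟩ := basis3 u husum
  simp only [st_transfer b (hAm _)]
  have hphm : Measurable (ph b) := (ph_mp b).measurable
  refine lowerX (fun i => hphm (hAm i)) (fun x => hA (ph b x)) ?_ hσ hρ hρ0 hOK
  intro i j
  -- the moment condition
  set c : Fin (m + 2) → ℝ := fun k => b j.succ.succ k with hc
  have hcx : ∀ x : (ℝ × ℝ) × (Fin m → ℝ), ∑ k, c k * ph b x k = x.2 j := by
    intro x
    rw [ph_inner]
    have ho : ∀ l, ∑ k, c k * b l k = if j.succ.succ = l then 1 else 0 := by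
      intro l
      have h5 := (orthonormal_iff_ite.mp b.orthonormal) j.succ.succ l
      rw [inner_coord] at h5
      exact h5
    have e0 : ∑ k, c k * b 0 k = 0 := by
      rw [ho, if_neg (Fin.succ_ne_zero _)]
    have e1 : ∑ k, c k * b (Fin.succ 0) k = 0 := by
      rw [ho, if_neg]
      intro h
      exact Fin.succ_ne_zero j (Fin.succ_injective _ h)
    rw [e0, e1, zero_mul, zero_mul, zero_add, zero_add, Finset.sum_eq_single j]
    · rw [ho, if_pos rfl, one_mul]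
    · intro l _ hl
      rw [ho, if_neg, zero_mul]
      intro h
      exact hl (Fin.succ_injective _ (Fin.succ_injective _ h)).symm
    · intro h; exact absurd (Finset.mem_univ j) h
  have h6 : ∫ y, (A i).indicator (fun _ => (1:ℝ)) y * (∑ k, c k * y k) ∂(gm (m + 2)) = 0 := by
    have e2 : ∀ y : Fin (m + 2) → ℝ, (A i).indicator (fun _ => (1:ℝ)) y * (∑ k, c k * y k) =
        ∑ k, c k * ((A i).indicator (fun _ => (1:ℝ)) y * y k) := by
      intro y
      rw [Finset.mul_sum]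
      exact Finset.sum_congr rfl fun k _ => by ring
    simp only [e2]
    rw [integral_finsetSum _ fun k _ => (hui i k).const_mul _]
    simp only [integral_const_mul]
    have := hb i j
    rw [← this]
    exact Finset.sum_congr rfl fun k _ => mul_comm _ _
  have hg : Measurable (fun y : Fin (m + 2) → ℝ =>
      (A i).indicator (fun _ => (1:ℝ)) y * (∑ k, c k * y k)) := by
    apply (hindm i).mul
    fun_prop
  have hgi : Integrable (fun y : Fin (m + 2) → ℝ =>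
      (A i).indicator (fun _ => (1:ℝ)) y * (∑ k, c k * y k)) (gm (m + 2)) := by
    have e2 : ∀ y : Fin (m + 2) → ℝ, (A i).indicator (fun _ => (1:ℝ)) y * (∑ k, c k * y k) =
        ∑ k, c k * ((A i).indicator (fun _ => (1:ℝ)) y * y k) := by
      intro y
      rw [Finset.mul_sum]
      exact Finset.sum_congr rfl fun k _ => by ring
    simp only [e2]
    exact integrable_finsetSum _ fun k _ => (hui i k).const_mul _
  have h7 : ∫ x, (A i).indicator (fun _ => (1:ℝ)) (ph b x) * (∑ k, c k * ph b x k) ∂(gX m) = 0 := by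
    rw [← (ph_mp b).map_eq] at h6
    rw [integral_map hphm.aemeasurable hg.aestronglyMeasurable] at h6
    exact h6
  have h8 : Integrable (fun x => (A i).indicator (fun _ => (1:ℝ)) (ph b x) *
      (∑ k, c k * ph b x k)) (gX m) := by
    rw [← (ph_mp b).map_eq] at hgi
    exact (integrable_map_measure hg.aestronglyMeasurable hphm.aemeasurable).mp hgi
  simp only [hcx] at h7 h8
  unfold gX at h7 h8
  rw [integral_prod_symm _ h8] at h7
  refine Eq.trans ?_ h7
  congr 1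
  ext w
  rw [integral_mul_const]
  rfl

end Pool.Agent.Run7.h126
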