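import Mathlib
import Pool.Agent.Run7.h126.Scal2

set_option autoImplicit false

open MeasureTheory Set Real

namespace Pool.Agent.Run7.h126

/-! ### weights -/

lemma wq_nonneg {c : ℝ} (h0 : 0 ≤ c) (h1 : c ≤ 2/3) : 0 ≤ 0 + 2 * c + (-5/2) * c ^ 2 := by nlinarith

lemma wk_nonneg {c : ℝ} (h0 : 0 ≤ c) (h1 : c ≤ 2/3) : 0 ≤ 2 + (-2) * c + (-1/2) * c ^ 2 := by nlinarith

lemma cc23 {u : ℝ} (h : u ∈ Icc (0:ℝ) (1/2)) : cc u ≤ 2/3 := cc_le h.2

lemma cc23' {u : ℝ} (h : u ∈ Icc (-1:ℝ) 0) : cc u ≤ 1/2 := cc_le_half h.2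

lemma eI_pos {s : ℝ} : 0 ≤ eI s := by
  unfold eI
  apply intervalIntegral.integral_nonneg (by norm_num)
  intro u _
  exact (exp_pos _).le

/-- numerical values of the moments of `DD` -/
lemma muD : 0.503465 ≤ mu0 0 2 (-5/2) 0 ∧ -0.121217 ≤ mu1 0 2 (-5/2) 0 ∧
    0.107347 ≤ mu2 0 2 (-5/2) 0 ∧ -0.062694 ≤ mu3 0 2 (-5/2) 0 := by
  have p1 := pc_gt
  have p2 := pc_lt
  have q1 := qc_gt
  have q2 := qc_lt
  unfold mu0 mu1 mu2 mu3
  refine ⟨?_, ?_, ?_, ?_⟩ <;> linarith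

lemma muQ : 0.548578 ≤ mu0 (-1/4) (9/4) (-39/16) (1/4) ∧ -0.1641 ≤ mu1 (-1/4) (9/4) (-39/16) (1/4) ∧
    0.123255 ≤ mu2 (-1/4) (9/4) (-39/16) (1/4) ∧ -0.076135 ≤ mu3 (-1/4) (9/4) (-39/16) (1/4) := by
  have p1 := pc_gt
  have p2 := pc_lt
  have q1 := qc_gt
  have q2 := qc_lt
  unfold mu0 mu1 mu2 mu3
  refine ⟨?_, ?_, ?_, ?_⟩ <;> linarith

lemma muQc : -0.026954 ≤ mu1 (-1/4) (9/4) (-39/16) (1/4) + 1/4 * mu0 (-1/4) (9/4) (-39/16) (1/4) ∧
    0.07549 ≤ mu2 (-1/4) (9/4) (-39/16) (1/4) + 1/2 * mu1 (-1/4) (9/4) (-39/16) (1/4) +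
      1/16 * mu0 (-1/4) (9/4) (-39/16) (1/4) ∧
    -0.00589 ≤ mu3 (-1/4) (9/4) (-39/16) (1/4) + 3/4 * mu2 (-1/4) (9/4) (-39/16) (1/4) +
      3/16 * mu1 (-1/4) (9/4) (-39/16) (1/4) + 1/64 * mu0 (-1/4) (9/4) (-39/16) (1/4) := by
  have p1 := pc_gt
  have p2 := pc_lt
  have q1 := qc_gt
  have q2 := qc_lt
  unfold mu0 mu1 mu2 mu3
  refine ⟨?_, ?_, ?_⟩ <;> linarith

/-- combine moment bounds -/
lemma combo {s m0 m1 m2 m3 n0 n1 n2 n3 : ℝ} (h0 : 0 ≤ s) (e0 : n0 ≤ m0) (e1 : n1 ≤ m1)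
    (e2 : n2 ≤ m2) (e3 : n3 ≤ m3) :
    n0 + s * n1 + s ^ 2 / 2 * n2 + s ^ 3 / 6 * n3 ≤ m0 + s * m1 + s ^ 2 / 2 * m2 + s ^ 3 / 6 * m3 := by
  gcongr

/-- `DD / s` on the small range -/
lemma a1 {s : ℝ} (h0 : 0 ≤ s) (h1 : s ≤ 7/2) : 0.484 - 0.062 * s ≤ wI 0 2 (-5/2) s := by
  have h := raw3 (α := 0) (β := 2) (γ := -5/2) (κ := 0) (s := s)
    (fun u hu => by have := wq_nonneg (cc_nonneg u) ((cc23' hu).trans (by norm_num)); linarith)
    (fun u hu => wq_nonneg (cc_nonneg u) (cc23 hu))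
  obtain ⟨m0, m1, m2, m3⟩ := muD
  have hh := (combo h0 m0 m1 m2 m3).trans h
  have key : 0 ≤ 0.019465 + (-0.059217) * s + 0.0536735 * s ^ 2 + (-0.010449) * s ^ 3 := by
    rcases le_total s (1/2) with g | g
    · exact cub _ _ _ _ 0 (1/2) h0 g (by norm_num) (by norm_num) (by norm_num) (by norm_num)
        (by norm_num)
    · rcases le_total s (3/4) with g2 | g2
      · exact cub _ _ _ _ (1/2) (3/4) g g2 (by norm_num) (by norm_num) (by norm_num) (by norm_num)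
          (by norm_num)
      · rcases le_total s 1 with g3 | g3
        · exact cub _ _ _ _ (3/4) 1 g2 g3 (by norm_num) (by norm_num) (by norm_num) (by norm_num)
            (by norm_num)
        · exact cub _ _ _ _ 1 (7/2) g3 h1 (by norm_num) (by norm_num) (by norm_num) (by norm_num)
            (by norm_num)
  linarith only [key, hh]

lemma wb_neg {c : ℝ} (h0 : 0 ≤ c) (h1 : c ≤ 1/2) :
    0 ≤ -1/4 + 1/4 + 9/4 * c + (-39/16) * c ^ 2 := by nlinarith

lemma wb_pos {c : ℝ} (h0 : 1/2 ≤ c) (h1 : c ≤ 2/3) :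
    0 ≤ -1/4 + 9/4 * c + (-39/16) * c ^ 2 := by nlinarith

/-- `(DD - (KK - 2)/8) / s` on the small range -/
lemma b1 {s : ℝ} (h0 : 0 ≤ s) (h1 : s ≤ 7/2) :
    0.484 - 0.062 * s ≤ wI (-1/4) (9/4) (-39/16) s + 1/4 * eI s := by
  obtain ⟨m0, m1, m2, m3⟩ := muQ
  rcases le_total s (11/5) with g | g
  · have h := raw3 (α := -1/4) (β := 9/4) (γ := -39/16) (κ := 1/4) (s := s)
      (fun u hu => wb_neg (cc_nonneg u) (cc23' hu))
      (fun u hu => wb_pos (cc_ge_half hu.1) (cc23 hu))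
    have hh := (combo h0 m0 m1 m2 m3).trans h
    have key : 0 ≤ 0.064578 + (-0.1021) * s + 0.0616275 * s ^ 2 + (-0.076135/6) * s ^ 3 := by
      rcases le_total s 1 with g' | g'
      · exact cub _ _ _ _ 0 1 h0 g' (by norm_num) (by norm_num) (by norm_num) (by norm_num)
          (by norm_num)
      · exact cub _ _ _ _ 1 (11/5) g' g (by norm_num) (by norm_num) (by norm_num)
          (by norm_num) (by norm_num)
    linarith only [key, hh]
  · have h := cen3 (α := -1/4) (β := 9/4) (γ := -39/16) (κ := 1/4) (s := s)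
      (fun u hu => wb_neg (cc_nonneg u) (cc23' hu))
      (fun u hu => wb_pos (cc_ge_half hu.1) (cc23 hu))
    refine le_trans ?_ h
    obtain ⟨k1, k2, k3⟩ := muQc
    have hE : 0.871 - 0.1373 * s ≤ exp (-(s / 4)) := by
      have h5 := exp_ge3 (-(s / 4))
      have key : 0 ≤ 0.129 + (-0.1127) * s + (1/32) * s ^ 2 + (-1/384) * s ^ 3 := by
        rcases le_total s (11/4) with g' | g'
        · exact cub _ _ _ _ (11/5) (11/4) g g' (by norm_num) (by norm_num)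
            (by norm_num) (by norm_num) (by norm_num)
        · exact cub _ _ _ _ (11/4) (7/2) g' h1 (by norm_num) (by norm_num) (by norm_num)
            (by norm_num) (by norm_num)
      linarith only [h5, key]
    have hC : 0.3 + 0.158 * s ≤ 0.548578 + s * (-0.026954) + s ^ 2 / 2 * 0.07549 +
        s ^ 3 / 6 * (-0.00589) := by
      have key : 0 ≤ 0.248578 + (-0.184954) * s + (0.07549 / 2) * s ^ 2 +
        (-0.00589 / 6) * s ^ 3 := by
        rcases le_total s (11/4) with g' | g'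
        · exact cub _ _ _ _ (11/5) (11/4) g g' (by norm_num) (by norm_num)
            (by norm_num) (by norm_num) (by norm_num)
        · exact cub _ _ _ _ (11/4) (7/2) g' h1 (by norm_num) (by norm_num) (by norm_num)
            (by norm_num) (by norm_num)
      linarith only [key]
    have hC0 : 0 ≤ 0.3 + 0.158 * s := by linarith only [h0]
    have hprod : 0.484 - 0.062 * s ≤ (0.871 - 0.1373 * s) * (0.3 + 0.158 * s) := by
      nlinarith only [g, h1]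
    refine hprod.trans ?_
    exact mul_le_mul hE (hC.trans (combo h0 m0 k1 k2 k3)) hC0 (exp_pos _).le

end Pool.Agent.Run7.h126
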