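import Mathlib
import Pool.Agent.Run7.h126.Scal3

set_option autoImplicit false

open MeasureTheory Set Real

namespace Pool.Agent.Run7.h126

lemma polyP (c0 c1 c2 c3 c4 c5 c6 c7 b : ℝ) :
    ∫ u in (0:ℝ)..b, (c0 + c1 * u + c2 * u ^ 2 + c3 * u ^ 3 + c4 * u ^ 4 + c5 * u ^ 5 + c6 * u ^ 6
      + c7 * u ^ 7) = c0 * b + c1 * b ^ 2 / 2 + c2 * b ^ 3 / 3 + c3 * b ^ 4 / 4 + c4 * b ^ 5 / 5
      + c5 * b ^ 6 / 6 + c6 * b ^ 7 / 7 + c7 * b ^ 8 / 8 := by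
  have ii : ∀ f : ℝ → ℝ, Continuous f → IntervalIntegrable f volume 0 b :=
    fun f hf => hf.intervalIntegrable _ _
  rw [intervalIntegral.integral_add (ii _ (by fun_prop)) (ii _ (by fun_prop)),
    intervalIntegral.integral_add (ii _ (by fun_prop)) (ii _ (by fun_prop)),
    intervalIntegral.integral_add (ii _ (by fun_prop)) (ii _ (by fun_prop)),
    intervalIntegral.integral_add (ii _ (by fun_prop)) (ii _ (by fun_prop)),
    intervalIntegral.integral_add (ii _ (by fun_prop)) (ii _ (by fun_prop)),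
    intervalIntegral.integral_add (ii _ (by fun_prop)) (ii _ (by fun_prop)),
    intervalIntegral.integral_add (ii _ (by fun_prop)) (ii _ (by fun_prop))]
  simp only [intervalIntegral.integral_const_mul,
    intervalIntegral.integral_const, int_lin1, integral_pow, smul_eq_mul]
  norm_num
  ring

/-- positive part, cubic Taylor polynomial -/
lemma pos3 (s0 a b c : ℝ) (h3 : ∀ u ∈ Icc (0:ℝ) (1/2), 0 ≤ a + b * u + c * u ^ 2) :
    ∫ u in (0:ℝ)..(1/2), ((a) + (s0 * a + b) * u + (s0 ^ 2 / 2 * a + s0 * b + c) * u ^ 2 +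
      (s0 ^ 3 / 6 * a + s0 ^ 2 / 2 * b + s0 * c) * u ^ 3 + (s0 ^ 3 / 6 * b + s0 ^ 2 / 2 * c) * u ^ 4
      + (s0 ^ 3 / 6 * c) * u ^ 5 + 0 * u ^ 6 + 0 * u ^ 7) ≤
    ∫ u in (0:ℝ)..(1/2), exp (s0 * u) * (a + b * u + c * u ^ 2) := by
  apply intervalIntegral.integral_mono_on (by norm_num)
    (Continuous.intervalIntegrable (by fun_prop) _ _)
    (Continuous.intervalIntegrable (by fun_prop) _ _)
  intro u hu
  refine le_trans (le_of_eq ?_) (mul_le_mul_of_nonneg_right (exp_ge3 (s0 * u)) (h3 u hu))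
  ring

/-- positive part, quintic Taylor polynomial -/
lemma pos5 (s0 a b c : ℝ) (h3 : ∀ u ∈ Icc (0:ℝ) (1/2), 0 ≤ a + b * u + c * u ^ 2) :
    ∫ u in (0:ℝ)..(1/2), ((a) + (s0 * a + b) * u + (s0 ^ 2 / 2 * a + s0 * b + c) * u ^ 2 +
      (s0 ^ 3 / 6 * a + s0 ^ 2 / 2 * b + s0 * c) * u ^ 3 +
      (s0 ^ 4 / 24 * a + s0 ^ 3 / 6 * b + s0 ^ 2 / 2 * c) * u ^ 4
      + (s0 ^ 5 / 120 * a + s0 ^ 4 / 24 * b + s0 ^ 3 / 6 * c) * u ^ 5
      + (s0 ^ 5 / 120 * b + s0 ^ 4 / 24 * c) * u ^ 6 + (s0 ^ 5 / 120 * c) * u ^ 7) ≤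
    ∫ u in (0:ℝ)..(1/2), exp (s0 * u) * (a + b * u + c * u ^ 2) := by
  apply intervalIntegral.integral_mono_on (by norm_num)
    (Continuous.intervalIntegrable (by fun_prop) _ _)
    (Continuous.intervalIntegrable (by fun_prop) _ _)
  intro u hu
  refine le_trans (le_of_eq ?_) (mul_le_mul_of_nonneg_right (exp_ge5 (s0 * u)) (h3 u hu))
  ring

lemma q_minor {u : ℝ} (hu : u ∈ Icc (0:ℝ) (1/2)) :
    3/8 + (-1/6) * u + (-5/18) * u ^ 2 ≤ 0 + 2 * cc u + (-5/2) * cc u ^ 2 := by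
  have h1 := cA_up hu.1 hu.2
  have h2 := cc_ge_half hu.1
  have h3 := hu.1
  nlinarith [mul_nonneg (sub_nonneg.mpr h1) (by linarith : 0 ≤ 5/2 * (cc u + 1/2 + u/3) - 2)]

lemma Q_minor {u : ℝ} (hu : u ∈ Icc (0:ℝ) (1/2)) :
    17/64 + (-1/16) * u + (-13/48) * u ^ 2 ≤ -1/4 + 9/4 * cc u + (-39/16) * cc u ^ 2 := by
  have h1 := cA_up hu.1 hu.2
  have h2 := cc_ge_half hu.1
  have h3 := hu.1
  nlinarith [mul_nonneg (sub_nonneg.mpr h1) (by linarith : 0 ≤ 39/16 * (cc u + 1/2 + u/3) - 9/4)]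

lemma q_pos {u : ℝ} (hu : u ∈ Icc (0:ℝ) (1/2)) : (0:ℝ) ≤ 3/8 + (-1/6) * u + (-5/18) * u ^ 2 := by
  nlinarith [hu.1, hu.2]

lemma Q_pos {u : ℝ} (hu : u ∈ Icc (0:ℝ) (1/2)) : (0:ℝ) ≤ 17/64 + (-1/16) * u + (-13/48) * u ^ 2 := by
  nlinarith [hu.1, hu.2]

lemma hq_neg {u : ℝ} (hu : u ∈ Icc (-1:ℝ) 0) : 0 ≤ 0 + 0 + 2 * cc u + (-5/2) * cc u ^ 2 := by
  have := wq_nonneg (cc_nonneg u) ((cc23' hu).trans (by norm_num)); linarith

lemma a2 {s : ℝ} (h : 7/2 ≤ s) : 0.267 ≤ wI 0 2 (-5/2) s := by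
  have h1 := posI (α := 0) (β := 2) (γ := -5/2) (κ := 0) (s := s) (s0 := 7/2) (a := 3/8)
    (b := -1/6) (c := -5/18) (by norm_num) h (fun u hu => hq_neg hu) (fun u hu => q_minor hu)
    (fun u hu => q_pos hu)
  have h2 := pos3 (7/2) (3/8) (-1/6) (-5/18) (fun u hu => q_pos hu)
  rw [polyP] at h2
  norm_num at h2 h1 ⊢
  linarith

lemma b2 {s : ℝ} (h : 7/2 ≤ s) : 0.267 ≤ wI (-1/4) (9/4) (-39/16) s + 1/4 * eI s := by
  have h1 := posI (α := -1/4) (β := 9/4) (γ := -39/16) (κ := 1/4) (s := s) (s0 := 7/2) (a := 17/64)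
    (b := -1/16) (c := -13/48) (by norm_num) h (fun u hu => wb_neg (cc_nonneg u) (cc23' hu))
    (fun u hu => Q_minor hu) (fun u hu => Q_pos hu)
  have h2 := pos3 (7/2) (17/64) (-1/16) (-13/48) (fun u hu => Q_pos hu)
  rw [polyP] at h2
  refine le_trans ?_ (h2.trans h1)
  norm_num

lemma f5 {s : ℝ} (h : 5 ≤ s) : 0.6 ≤ wI 0 2 (-5/2) s := by
  have h1 := posI (α := 0) (β := 2) (γ := -5/2) (κ := 0) (s := s) (s0 := 5) (a := 3/8)
    (b := -1/6) (c := -5/18) (by norm_num) h (fun u hu => hq_neg hu) (fun u hu => q_minor hu)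
    (fun u hu => q_pos hu)
  have h2 := pos5 5 (3/8) (-1/6) (-5/18) (fun u hu => q_pos hu)
  rw [polyP] at h2
  have h3 := h2.trans h1
  rw [zero_mul, add_zero] at h3
  refine le_trans ?_ h3
  norm_num

/-! ### Consequences for the coefficients -/

lemma DQ_eq (s : ℝ) : DD s - 1/8 * (KK s - 2) = s * (wI (-1/4) (9/4) (-39/16) s + 1/4 * eI s) := by
  have h := wI_comb 0 2 (-5/2) 2 (-2) (-1/2) 1 (-1/8) s
  have e : wI (-1/4) (9/4) (-39/16) s = wI (1 * 0 + -1/8 * 2) (1 * 2 + -1/8 * -2)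
    (1 * (-5/2) + -1/8 * (-1/2)) s := by norm_num
  have h2 := eI_eq s
  rw [DD_eq, KK_eq, e, ← h]
  linear_combination (-1/4) * h2

lemma DD_line {s : ℝ} (h0 : 0 ≤ s) : s * (0.484 - 0.062 * s) ≤ DD s := by
  rw [DD_eq]
  apply mul_le_mul_of_nonneg_left _ h0
  rcases le_total s (7/2) with h | h
  · exact a1 h0 h
  · exact le_trans (by linarith) (a2 h)

lemma DD_const {s : ℝ} (h0 : 0 ≤ s) : s * 0.265 ≤ DD s := by
  rw [DD_eq]
  apply mul_le_mul_of_nonneg_left _ h0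
  rcases le_total s (7/2) with h | h
  · exact le_trans (by linarith) (a1 h0 h)
  · exact le_trans (by norm_num) (a2 h)

lemma DQ_line {s : ℝ} (h0 : 0 ≤ s) : s * (0.484 - 0.062 * s) ≤ DD s - 1/8 * (KK s - 2) := by
  rw [DQ_eq]
  apply mul_le_mul_of_nonneg_left _ h0
  rcases le_total s (7/2) with h | h
  · exact b1 h0 h
  · exact le_trans (by linarith) (b2 h)

lemma DQ_const {s : ℝ} (h0 : 0 ≤ s) : s * 0.265 ≤ DD s - 1/8 * (KK s - 2) := by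
  rw [DQ_eq]
  apply mul_le_mul_of_nonneg_left _ h0
  rcases le_total s (7/2) with h | h
  · exact le_trans (by linarith) (b1 h0 h)
  · exact le_trans (by norm_num) (b2 h)

lemma DD_five {s : ℝ} (h : 5 ≤ s) : 0.6 * s ≤ DD s := by
  rw [DD_eq, mul_comm]
  exact mul_le_mul_of_nonneg_left (f5 h) (by linarith)

lemma DD_nonneg {s : ℝ} (h0 : 0 ≤ s) : 0 ≤ DD s := by
  have := DD_const h0
  nlinarith

/-! ### Upper bounds -/

lemma wI_nonneg {α β γ s : ℝ} (h : ∀ u ∈ Icc (-1:ℝ) (1/2), 0 ≤ α + β * cc u + γ * cc u ^ 2) :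
    0 ≤ wI α β γ s := by
  unfold wI
  apply intervalIntegral.integral_nonneg (by norm_num)
  intro u hu
  exact mul_nonneg (exp_pos _).le (h u hu)

lemma DD_upper {s : ℝ} (h0 : 0 ≤ s) : DD s ≤ 2/5 * exp (s / 2) := by
  have h := wI_comb 1 0 0 0 2 (-5/2) (2/5) (-1) s
  have h1 : 0 ≤ wI (2/5 * 1 + -1 * 0) (2/5 * 0 + -1 * 2) (2/5 * 0 + -1 * (-5/2)) s := by
    apply wI_nonneg
    intro u _
    nlinarith [sq_nonneg (cc u - 2/5)]
  rw [← h] at h1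
  have h2 := wI_one s
  have h3 := mul_nonneg h0 h1
  have h4 := exp_pos (-s)
  rw [DD_eq]
  nlinarith

lemma KK_upper {s : ℝ} (h0 : 0 ≤ s) : KK s ≤ 2 * exp (s / 2) := by
  have h := wI_comb 1 0 0 2 (-2) (-1/2) 2 (-1) s
  have h1 : 0 ≤ wI (2 * 1 + -1 * 2) (2 * 0 + -1 * -2) (2 * 0 + -1 * (-1/2)) s := by
    apply wI_nonneg
    intro u _
    have := cc_nonneg u
    nlinarith
  rw [← h] at h1
  have h2 := wI_one s
  have h3 := mul_nonneg h0 h1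
  rw [KK_eq]
  nlinarith

lemma KK_nonneg {s : ℝ} (h0 : 0 ≤ s) : 0 ≤ KK s := by
  rw [KK_eq]
  have h1 : 0 ≤ wI 2 (-2) (-1/2) s := by
    apply wI_nonneg
    intro u hu
    exact wk_nonneg (cc_nonneg u) (cc_le hu.2)
  have := exp_pos (-s)
  have := mul_nonneg h0 h1
  linarith

/-- `KK - 2 ≤ (7/3) DD` -/
lemma KK_DD {s : ℝ} (h0 : 0 ≤ s) : KK s - 2 ≤ 7/3 * DD s := by
  have h := wI_comb 0 2 (-5/2) 2 (-2) (-1/2) (7/3) (-1) s
  have h1 := lowI (α := 7/3 * 0 + -1 * 2) (β := 7/3 * 2 + -1 * -2) (γ := 7/3 * (-5/2) + -1 * (-1/2))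
    (κ := 2) (s := s) (P := fun _ => 0) (by fun_prop) (fun u => (exp_pos _).le)
    (fun u hu => by
      have h2 := cc_nonneg u
      have h3 := cc23' hu
      nlinarith)
    (fun u hu => by
      have h2 := cc_ge_half hu.1
      have h3 := cc23 hu
      nlinarith [mul_nonneg (by linarith : 0 ≤ 2 * cc u - 1) (by linarith : 0 ≤ 3 - 4 * cc u)])
  have h1' : 0 ≤ wI (7/3 * 0 + -1 * 2) (7/3 * 2 + -1 * -2) (7/3 * (-5/2) + -1 * (-1/2)) s +
    2 * eI s := by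
    refine le_trans (le_of_eq ?_) h1
    simp
  rw [← h] at h1'
  have h2 := eI_eq s
  have h3 := mul_nonneg h0 h1'
  rw [DD_eq, KK_eq]
  nlinarith

end Pool.Agent.Run7.h126
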