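import Mathlib
import Pool.Agent.Run7.h126.Scal4

set_option autoImplicit false

open MeasureTheory Set Real

namespace Pool.Agent.Run7.h126

/-! ### The asymmetric coefficient -/

lemma muM : 0.360558 ≤ mu0 0 2 (-3) 0 ∧ -0.12591 ≤ mu1 0 2 (-3) 0 ∧
    0.090139 ≤ mu2 0 2 (-3) 0 ∧ -0.060429 ≤ mu3 0 2 (-3) 0 := by
  have p1 := pc_gt
  have p2 := pc_lt
  have q1 := qc_gt
  have q2 := qc_lt
  unfold mu0 mu1 mu2 mu3
  refine ⟨?_, ?_, ?_, ?_⟩ <;> linarith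

lemma km_ge {s : ℝ} (h0 : 0 ≤ s) (h1 : s ≤ 3/2) : 0.235 * s ≤ km s := by
  have w : ∀ c : ℝ, 0 ≤ c → c ≤ 2/3 → 0 ≤ 2 * c + (-3) * c ^ 2 := by
    intro c c0 c1; nlinarith
  have h := raw3 (α := 0) (β := 2) (γ := -3) (κ := 0) (s := s)
    (fun u hu => by have := w _ (cc_nonneg u) ((cc23' hu).trans (by norm_num)); linarith)
    (fun u hu => by have := w _ (cc_nonneg u) (cc23 hu); linarith)
  obtain ⟨m0, m1, m2, m3⟩ := muM
  have hh := (combo h0 m0 m1 m2 m3).trans h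
  have key : 0 ≤ 0.125558 + (-0.12591) * s + (0.090139/2) * s ^ 2 + (-0.060429/6) * s ^ 3 :=
    cub _ _ _ _ 0 (3/2) h0 h1 (by norm_num) (by norm_num) (by norm_num) (by norm_num) (by norm_num)
  have h2 : 0.235 ≤ wI 0 2 (-3) s := by linarith only [key, hh]
  rw [km_eq, mul_comm]
  exact mul_le_mul_of_nonneg_left h2 h0

/-- nonnegative products on an interval -/
lemma prods4 {s r : ℝ} (h0 : 0 ≤ s) (h1 : s ≤ r) :
    0 ≤ (r - s) ^ 4 ∧ 0 ≤ s * (r - s) ^ 3 ∧ 0 ≤ s ^ 2 * (r - s) ^ 2 ∧ 0 ≤ s ^ 3 * (r - s) ∧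
      0 ≤ s ^ 4 := by
  have : 0 ≤ r - s := by linarith
  refine ⟨?_, ?_, ?_, ?_, ?_⟩ <;> positivity

lemma muA : 1.07128 ≤ mu0 1 0 (-3/2) 0 ∧ -0.38908 ≤ mu1 1 0 (-3/2) 0 ∧
    0.323375 ≤ mu2 1 0 (-3/2) 0 ∧ -0.227582 ≤ mu3 1 0 (-3/2) 0 := by
  have p1 := pc_gt
  have p2 := pc_lt
  have q1 := qc_gt
  have q2 := qc_lt
  unfold mu0 mu1 mu2 mu3
  refine ⟨?_, ?_, ?_, ?_⟩ <;> linarith

lemma al_hh {s : ℝ} (h0 : 0 ≤ s) (h1 : s ≤ 3/2) : 0.06 * s ≤ al s - hh s := by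
  have w : ∀ c : ℝ, 0 ≤ c → c ≤ 2/3 → 0 ≤ 1 + (-3/2) * c ^ 2 := by
    intro c c0 c1; nlinarith
  have h := raw3 (α := 1) (β := 0) (γ := -3/2) (κ := 0) (s := s)
    (fun u hu => by have := w _ (cc_nonneg u) ((cc23' hu).trans (by norm_num)); linarith)
    (fun u hu => by have := w _ (cc_nonneg u) (cc23 hu); linarith)
  obtain ⟨m0, m1, m2, m3⟩ := muA
  have hh1 := mul_le_mul_of_nonneg_left ((combo h0 m0 m1 m2 m3).trans h) h0
  have e1 := exp_ge5 (-s)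
  have e2 := exp_le5' (x := s / 2) (by linarith) (by linarith)
  have e3 := exp_le4 (x := -(s / 2)) (by linarith)
  obtain ⟨t0, t1, t2, t3, t4⟩ := prods4 h0 h1
  have key : 0 ≤ (1.07128 - 1) + (1/2 - 0.38908) * s + (0.323375/2 - 1/6) * s ^ 2 +
      (1/24 - 0.227582/6) * s ^ 3 + (-1/120) * s ^ 4 - 1/3 * (2 * (1/8) * s + 2 * (1/384) * s ^ 3
        + (1/3200) * s ^ 4) - 0.06 := by
    linarith only [t0, t1, t2, t3, t4]
  have key2 := mul_nonneg h0 key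
  rw [al_eq]
  unfold hh
  linarith only [hh1, e1, e2, e3, key2]

lemma muB : 0.932183 ≤ mu0 0 2 (-1) 0 ∧ -0.107137 ≤ mu1 0 2 (-1) 0 ∧
    0.158971 ≤ mu2 0 2 (-1) 0 ∧ -0.069487 ≤ mu3 0 2 (-1) 0 := by
  have p1 := pc_gt
  have p2 := pc_lt
  have q1 := qc_gt
  have q2 := qc_lt
  unfold mu0 mu1 mu2 mu3
  refine ⟨?_, ?_, ?_, ?_⟩ <;> linarith

lemma hh_de {s : ℝ} (h0 : 0 ≤ s) (h1 : s ≤ 3/2) : 0.24 * s ≤ hh s - de s := by
  have w : ∀ c : ℝ, 0 ≤ c → c ≤ 2/3 → 0 ≤ 2 * c + (-1) * c ^ 2 := by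
    intro c c0 c1; nlinarith
  have h := raw3 (α := 0) (β := 2) (γ := -1) (κ := 0) (s := s)
    (fun u hu => by have := w _ (cc_nonneg u) ((cc23' hu).trans (by norm_num)); linarith)
    (fun u hu => by have := w _ (cc_nonneg u) (cc23 hu); linarith)
  obtain ⟨m0, m1, m2, m3⟩ := muB
  have hh1 := mul_le_mul_of_nonneg_left ((combo h0 m0 m1 m2 m3).trans h) h0
  have e2 := exp_le5' (x := s / 2) (by linarith) (by linarith)
  have e3 := exp_ge3 (-(s / 2))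
  obtain ⟨t0, t1, t2, t3, t4⟩ := prods4 h0 h1
  have key : 0 ≤ 0.932183 + (-0.107137) * s + (0.158971/2) * s ^ 2 + (-0.069487/6) * s ^ 3 +
      1/3 * (-3/2 + (-1/8) * s + (-3/48) * s ^ 2 + (-1/192) * s ^ 3 + (-1/1600) * s ^ 4) - 0.24 := by
    linarith only [t0, t1, t2, t3, t4]
  have key2 := mul_nonneg h0 key
  rw [de_eq']
  unfold hh
  linarith only [hh1, e2, e3, key2]

/-! ### `DD + (KK - 2)/2` -/

lemma muK : 1.639096 ≤ mu0 2 (-2) (-1/2) 0 ∧ -0.656943 ≤ mu1 2 (-2) (-1/2) 0 ∧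
    0.539403 ≤ mu2 2 (-2) (-1/2) 0 ∧ -0.39247 ≤ mu3 2 (-2) (-1/2) 0 := by
  have p1 := pc_gt
  have p2 := pc_lt
  have q1 := qc_gt
  have q2 := qc_lt
  unfold mu0 mu1 mu2 mu3
  refine ⟨?_, ?_, ?_, ?_⟩ <;> linarith

lemma d_small {s : ℝ} (h0 : 0 ≤ s) (h1 : s ≤ 1) : s * (0.31 - 0.04 * s) ≤ DD s + 1/2 * (KK s - 2) := by
  have hD := raw3 (α := 0) (β := 2) (γ := -5/2) (κ := 0) (s := s)
    (fun u hu => hq_neg hu)
    (fun u hu => wq_nonneg (cc_nonneg u) (cc23 hu))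
  have hK := raw3 (α := 2) (β := -2) (γ := -1/2) (κ := 0) (s := s)
    (fun u hu => by have := wk_nonneg (cc_nonneg u) ((cc23' hu).trans (by norm_num)); linarith)
    (fun u hu => wk_nonneg (cc_nonneg u) (cc23 hu))
  obtain ⟨m0, m1, m2, m3⟩ := muD
  obtain ⟨k0, k1, k2, k3⟩ := muK
  have g1 := mul_le_mul_of_nonneg_left ((combo h0 m0 m1 m2 m3).trans hD) h0
  have g2 := mul_le_mul_of_nonneg_left ((combo h0 k0 k1 k2 k3).trans hK) h0
  have e1 := exp_ge3 (-s)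
  have key : 0 ≤ (0.503465 + 1.639096/2 - 1 - 0.31) + (-0.121217 - 0.656943/2 + 1/2 + 0.04) * s +
      (0.107347/2 + 0.539403/4 - 1/6) * s ^ 2 + (-0.062694/6 - 0.39247/12) * s ^ 3 :=
    cub _ _ _ _ 0 1 h0 h1 (by norm_num) (by norm_num) (by norm_num) (by norm_num) (by norm_num)
  have key2 := mul_nonneg h0 key
  rw [DD_eq, KK_eq]
  linarith only [g1, g2, e1, key2]

lemma d_eq (s : ℝ) : DD s + 1/2 * (KK s - 2) = s * (wI 1 1 (-11/4) s + (-1) * eI s) := by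
  have h := wI_comb 0 2 (-5/2) 2 (-2) (-1/2) 1 (1/2) s
  have e : wI 1 1 (-11/4) s = wI (1 * 0 + 1/2 * 2) (1 * 2 + 1/2 * -2)
    (1 * (-5/2) + 1/2 * (-1/2)) s := by norm_num
  have h2 := eI_eq s
  rw [DD_eq, KK_eq, e, ← h]
  linear_combination h2

lemma d_large {s : ℝ} (h0 : 0 ≤ s) : 0.2268 + 0.0724 * s ≤ wI 1 1 (-11/4) s + (-1) * eI s := by
  have hc := cc_cont
  unfold wI eI
  have i2 : ∀ a b, IntervalIntegrable (fun u => exp (s * u) * (1 + 1 * cc u + (-11/4) * cc u ^ 2))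
    volume a b := fun a b => cc_ii (by fun_prop) _ _ _ _ _
  rw [← intervalIntegral.integral_add_adjacent_intervals (i2 (-1) 0) (i2 0 (1/2))]
  have q2 : (∫ u in (-1:ℝ)..0, exp (s * u) * (1 + 1 * cc u + (-11/4) * cc u ^ 2)) +
      (-1) * (∫ u in (-1:ℝ)..0, exp (s * u))
      = ∫ u in (-1:ℝ)..0, exp (s * u) * (cc u + (-11/4) * cc u ^ 2) := by
    rw [← intervalIntegral.integral_const_mul, ← intervalIntegral.integral_add (i2 _ _)
      (Continuous.intervalIntegrable (by fun_prop) _ _)]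
    congr 1
    ext u
    ring
  have i3 : ∀ a b, IntervalIntegrable (fun u => exp (s * u) * (cc u + (-11/4) * cc u ^ 2))
    volume a b := fun a b => Continuous.intervalIntegrable (by fun_prop) _ _
  have q3 : -(3/32) ≤ ∫ u in (-1:ℝ)..0, exp (s * u) * (cc u + (-11/4) * cc u ^ 2) := by
    rw [← intervalIntegral.integral_add_adjacent_intervals (i3 (-1) (-(1/2))) (i3 (-(1/2)) 0)]
    have r1 : 0 ≤ ∫ u in (-1:ℝ)..(-(1/2)), exp (s * u) * (cc u + (-11/4) * cc u ^ 2) := by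
      apply intervalIntegral.integral_nonneg (by norm_num)
      intro u hu
      have g1 := cc_nonneg u
      have g2 := cc_le_third hu.2
      exact mul_nonneg (exp_pos _).le (by nlinarith)
    have r2 : -(3/32) ≤ ∫ u in (-(1/2):ℝ)..0, exp (s * u) * (cc u + (-11/4) * cc u ^ 2) := by
      have r3 : ∫ _ in (-(1/2):ℝ)..0, (-(3/16):ℝ) = -(3/32) := by
        rw [intervalIntegral.integral_const]; norm_num
      rw [← r3]
      apply intervalIntegral.integral_mono_on (by norm_num)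
        (Continuous.intervalIntegrable (by fun_prop) _ _) (i3 _ _)
      intro u hu
      have g1 := cc_nonneg u
      have g2 := cc_le_half hu.2
      have g3 : -(3/16) ≤ cc u + (-11/4) * cc u ^ 2 := by nlinarith
      have g4 : exp (s * u) ≤ 1 := exp_le_one_iff.mpr (mul_nonpos_of_nonneg_of_nonpos h0 hu.2)
      have g5 := exp_pos (s * u)
      nlinarith
    linarith
  have q4 : ∫ u in (0:ℝ)..(1/2), (13/16 + (13/16 * s + (-7/12)) * u + (-7/12 * s - 11/36) * u ^ 2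
      + (-11/36 * s) * u ^ 3 + 0 * u ^ 4 + 0 * u ^ 5 + 0 * u ^ 6 + 0 * u ^ 7) ≤
      ∫ u in (0:ℝ)..(1/2), exp (s * u) * (1 + 1 * cc u + (-11/4) * cc u ^ 2) := by
    apply intervalIntegral.integral_mono_on (by norm_num)
      (Continuous.intervalIntegrable (by fun_prop) _ _) (i2 _ _)
    intro u hu
    have g1 := cA_up hu.1 hu.2
    have g2 := cc_ge_half hu.1
    have g3 := hu.1
    have g4 := hu.2
    have g5 : 13/16 + (-7/12) * u + (-11/36) * u ^ 2 ≤ 1 + 1 * cc u + (-11/4) * cc u ^ 2 := by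
      nlinarith [mul_nonneg (sub_nonneg.mpr g1) (by linarith : 0 ≤ 11/4 * (cc u + 1/2 + u/3) - 1)]
    have g6 : 0 ≤ 13/16 + (-7/12) * u + (-11/36) * u ^ 2 := by nlinarith
    have g7 := add_one_le_exp (s * u)
    have g8 : 0 ≤ s * u := mul_nonneg h0 g3
    calc _ = (s * u + 1) * (13/16 + (-7/12) * u + (-11/36) * u ^ 2) := by ring
      _ ≤ exp (s * u) * (13/16 + (-7/12) * u + (-11/36) * u ^ 2) :=
          mul_le_mul_of_nonneg_right g7 g6
      _ ≤ _ := mul_le_mul_of_nonneg_left g5 (exp_pos _).le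
  rw [polyP] at q4
  linarith only [q2, q3, q4, h0]

lemma f4d {s : ℝ} (h0 : 0 ≤ s) :
    s * (0.31 - 0.04 * s) ≤ DD s + 1/2 * (KK s - 2) ∧ s * 0.125 ≤ DD s + 1/2 * (KK s - 2) := by
  rcases le_total s 1 with h | h
  · have := d_small h0 h
    refine ⟨this, le_trans ?_ this⟩
    exact mul_le_mul_of_nonneg_left (by linarith) h0
  · have hl := d_large h0
    rw [d_eq]
    constructor
    · exact mul_le_mul_of_nonneg_left (by linarith) h0
    · exact mul_le_mul_of_nonneg_left (by linarith) h0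

/-! ### `DD - (KK - 2)/2` -/

lemma c_eq (s : ℝ) : DD s - 1/2 * (KK s - 2) = s * (wI (-1) 3 (-9/4) s + 1 * eI s) := by
  have h := wI_comb 0 2 (-5/2) 2 (-2) (-1/2) 1 (-1/2) s
  have e : wI (-1) 3 (-9/4) s = wI (1 * 0 + -1/2 * 2) (1 * 2 + -1/2 * -2)
    (1 * (-5/2) + -1/2 * (-1/2)) s := by norm_num
  have h2 := eI_eq s
  rw [DD_eq, KK_eq, e, ← h]
  linear_combination -h2

/-- the explicit minorant -/
noncomputable def GG (s : ℝ) : ℝ := ∫ u in (-1:ℝ)..0, exp (s * u) * (15/16 + 6/16 * u - 9/16 * u ^ 2)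

lemma tail_bd {u : ℝ} (h0 : 0 ≤ u) (h1 : u ≤ 1/2) :
    exp (5 * u) * (1 - 3 * cc u + 9/4 * cc u ^ 2) ≤ 0.068 := by
  have h2 := cA_low h0 h1
  have h3 := cc_le h1
  have hpi := pi_pos
  have hpi2 : π ≤ 60/19 := by have := pi_lt_d2; linarith
  have h4 : 19/60 * u ≤ u / π := by
    rw [le_div_iff₀ hpi]
    nlinarith
  have h5 : 1 - 3/2 * cc u ≤ 1/4 * (1 - 19/10 * u) := by linarith
  have h6 : 0 ≤ 1 - 3/2 * cc u := by linarith
  have h7 : (1 - 19/10 * u) * exp (5/2 * u) ≤ 0.76 * exp (6/19) := by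
    have g := add_one_le_exp (6/19 - 5/2 * u)
    have e : exp (6/19) = exp (6/19 - 5/2 * u) * exp (5/2 * u) := by
      rw [← Real.exp_add]; congr 1; ring
    rw [e, ← mul_assoc]
    apply mul_le_mul_of_nonneg_right _ (exp_pos _).le
    linarith
  have h8 : exp (6/19) ≤ 1.3714 := by
    have := exp_le5' (x := 6/19) (by norm_num) (by norm_num)
    refine this.trans ?_
    norm_num
  have h9 : (1 - 3/2 * cc u) * exp (5/2 * u) ≤ 1/4 * (0.76 * 1.3714) := by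
    calc (1 - 3/2 * cc u) * exp (5/2 * u) ≤ (1/4 * (1 - 19/10 * u)) * exp (5/2 * u) :=
          mul_le_mul_of_nonneg_right h5 (exp_pos _).le
      _ = 1/4 * ((1 - 19/10 * u) * exp (5/2 * u)) := by ring
      _ ≤ 1/4 * (0.76 * exp (6/19)) := by linarith
      _ ≤ _ := by linarith
  have h10 : 0 ≤ (1 - 3/2 * cc u) * exp (5/2 * u) := mul_nonneg h6 (exp_pos _).le
  have h11 := pow_le_pow_left₀ h10 h9 2
  have e : exp (5 * u) * (1 - 3 * cc u + 9/4 * cc u ^ 2) =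
      ((1 - 3/2 * cc u) * exp (5/2 * u)) ^ 2 := by
    rw [mul_pow, ← Real.exp_nat_mul]
    have : ((2:ℕ):ℝ) * (5/2 * u) = 5 * u := by push_cast; ring
    rw [this]; ring
  rw [e]
  refine h11.trans ?_
  norm_num

lemma c_GG {s : ℝ} (h1 : s ≤ 5) : GG s - 0.034 ≤ wI (-1) 3 (-9/4) s + 1 * eI s := by
  have hc := cc_cont
  unfold wI eI GG
  have i2 : ∀ a b, IntervalIntegrable (fun u => exp (s * u) * (-1 + 3 * cc u + (-9/4) * cc u ^ 2))
    volume a b := fun a b => cc_ii (by fun_prop) _ _ _ _ _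
  rw [← intervalIntegral.integral_add_adjacent_intervals (i2 (-1) 0) (i2 0 (1/2))]
  have q2 : (∫ u in (-1:ℝ)..0, exp (s * u) * (-1 + 3 * cc u + (-9/4) * cc u ^ 2)) +
      1 * (∫ u in (-1:ℝ)..0, exp (s * u))
      = ∫ u in (-1:ℝ)..0, exp (s * u) * (3 * cc u + (-9/4) * cc u ^ 2) := by
    rw [← intervalIntegral.integral_const_mul, ← intervalIntegral.integral_add (i2 _ _)
      (Continuous.intervalIntegrable (by fun_prop) _ _)]
    congr 1
    ext u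
    ring
  have q3 : ∫ u in (-1:ℝ)..0, exp (s * u) * (15/16 + 6/16 * u - 9/16 * u ^ 2) ≤
      ∫ u in (-1:ℝ)..0, exp (s * u) * (3 * cc u + (-9/4) * cc u ^ 2) := by
    apply intervalIntegral.integral_mono_on (by norm_num)
      (Continuous.intervalIntegrable (by fun_prop) _ _)
      (Continuous.intervalIntegrable (by fun_prop) _ _)
    intro u hu
    apply mul_le_mul_of_nonneg_left _ (exp_pos _).le
    have g1 := cB hu.1 hu.2
    have g2 := cc_le_half hu.2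
    nlinarith [mul_nonneg (sub_nonneg.mpr g1)
      (by linarith [hu.2] : 0 ≤ 3 - 9/4 * (cc u + (1 + u) / 2))]
  have q4 : -0.034 ≤ ∫ u in (0:ℝ)..(1/2), exp (s * u) * (-1 + 3 * cc u + (-9/4) * cc u ^ 2) := by
    have r3 : ∫ _ in (0:ℝ)..(1/2), (-0.068:ℝ) = -0.034 := by
      rw [intervalIntegral.integral_const]; norm_num
    rw [← r3]
    apply intervalIntegral.integral_mono_on (by norm_num)
      (Continuous.intervalIntegrable (by fun_prop) _ _) (i2 _ _)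
    intro u hu
    have g1 := tail_bd hu.1 hu.2
    have g2 : exp (s * u) ≤ exp (5 * u) := exp_le_exp.mpr (mul_le_mul_of_nonneg_right h1 hu.1)
    have g3 : 0 ≤ 1 - 3 * cc u + 9/4 * cc u ^ 2 := by nlinarith [sq_nonneg (1 - 3/2 * cc u)]
    have g4 := mul_le_mul_of_nonneg_right g2 g3
    linarith
  linarith only [q2, q3, q4]

end Pool.Agent.Run7.h126
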