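import Mathlib
import Pool.Agent.Run7.h126.Scal5

set_option autoImplicit false

open MeasureTheory Set Real

namespace Pool.Agent.Run7.h126

lemma GG_small {s : ℝ} (h0 : 0 ≤ s) (h1 : s ≤ 14/5) : 0.344 - 0.04 * s ≤ GG s := by
  have q : ∫ u in (-1:ℝ)..0, (15/16 + (15/16 * s + 6/16) * u +
      (15/32 * s ^ 2 + 6/16 * s - 9/16) * u ^ 2 +
      (15/96 * s ^ 3 + 3/16 * s ^ 2 - 9/16 * s) * u ^ 3 +
      (15/384 * s ^ 4 + 1/16 * s ^ 3 - 9/32 * s ^ 2) * u ^ 4 +
      (15/1920 * s ^ 5 + 6/384 * s ^ 4 - 9/96 * s ^ 3) * u ^ 5 +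
      (6/1920 * s ^ 5 - 9/384 * s ^ 4) * u ^ 6 + (-9/1920 * s ^ 5) * u ^ 7) ≤ GG s := by
    unfold GG
    apply intervalIntegral.integral_mono_on (by norm_num)
      (Continuous.intervalIntegrable (by fun_prop) _ _)
      (Continuous.intervalIntegrable (by fun_prop) _ _)
    intro u hu
    have g1 : 0 ≤ 15/16 + 6/16 * u - 9/16 * u ^ 2 := by nlinarith [hu.1, hu.2]
    refine le_trans (le_of_eq ?_) (mul_le_mul_of_nonneg_right (exp_ge5 (s * u)) g1)
    ring
  have e := intervalIntegral.integral_symm (μ := volume) (f := fun u : ℝ => (15/16 +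
      (15/16 * s + 6/16) * u +
      (15/32 * s ^ 2 + 6/16 * s - 9/16) * u ^ 2 +
      (15/96 * s ^ 3 + 3/16 * s ^ 2 - 9/16 * s) * u ^ 3 +
      (15/384 * s ^ 4 + 1/16 * s ^ 3 - 9/32 * s ^ 2) * u ^ 4 +
      (15/1920 * s ^ 5 + 6/384 * s ^ 4 - 9/96 * s ^ 3) * u ^ 5 +
      (6/1920 * s ^ 5 - 9/384 * s ^ 4) * u ^ 6 + (-9/1920 * s ^ 5) * u ^ 7)) 0 (-1)
  rw [polyP] at e
  rw [e] at q
  have t : ∀ k l : ℕ, 0 ≤ s ^ k * (14/5 - s) ^ l := by
    intro k l
    have : 0 ≤ 14/5 - s := by linarith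
    positivity
  have t0 := t 0 5
  have t1 := t 1 4
  have t2 := t 2 3
  have t3 := t 3 2
  have t4 := t 4 1
  have t5 := t 5 0
  refine le_trans ?_ q
  ring_nf at t0 t1 t2 t3 t4 t5 ⊢
  linarith only [t0, t1, t2, t3, t4, t5]

lemma GG_eq {s : ℝ} (h : 0 < s) : GG s = 1/16 * (15 / s - 6 / s ^ 2 - 18 / s ^ 3) +
    exp (-s) * (1/16 * (24 / s ^ 2 + 18 / s ^ 3)) := by
  unfold GG
  rw [intervalIntegral.integral_eq_sub_of_hasDerivAt
    (f := fun u => exp (s * u) * ((15/16 + 6/16 * u - 9/16 * u ^ 2) / s - (6/16 - 18/16 * u) / s ^ 2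
      + (-18/16) / s ^ 3))]
  · simp only [mul_zero, exp_zero, mul_neg, mul_one]
    field_simp
    ring
  · intro x _
    have h1 : HasDerivAt (fun u : ℝ => exp (s * u)) (exp (s * x) * (s * 1)) x :=
      ((hasDerivAt_id x).const_mul s).exp
    have h2 : HasDerivAt (fun u : ℝ => 15/16 + 6/16 * u - 9/16 * u ^ 2)
        (6/16 * 1 - 9/16 * (2 * x)) x := by
      have := (((hasDerivAt_id x).const_mul (6/16)).const_add (15/16)).sub
        ((hasDerivAt_pow 2 x).const_mul (9/16))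
      refine this.congr_deriv ?_
      push_cast
      ring
    have h3 : HasDerivAt (fun u : ℝ => 6/16 - 18/16 * u) (-(18/16 * 1)) x :=
      ((hasDerivAt_id x).const_mul (18/16)).const_sub (6/16)
    have h4 := h1.mul (((h2.div_const s).sub (h3.div_const (s ^ 2))).add_const ((-18/16) / s ^ 3))
    refine h4.congr_deriv ?_
    simp only [Pi.sub_apply]
    field_simp
    ring
  · apply Continuous.intervalIntegrable; fun_prop

lemma GG_large {s : ℝ} (h0 : 14/5 ≤ s) (h1 : s ≤ 5) : 0.344 - 0.04 * s ≤ GG s ∧ 0.159 ≤ GG s := by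
  have hs : 0 < s := by linarith
  rw [GG_eq hs]
  have e1 : 0 ≤ exp (-s) * (1/16 * (24 / s ^ 2 + 18 / s ^ 3)) := by positivity
  have e2 : 1/16 * (15 / s - 6 / s ^ 2 - 18 / s ^ 3) = (15 * s ^ 2 - 6 * s - 18) / (16 * s ^ 3) := by
    field_simp
  rw [e2]
  have e3 : 0.344 - 0.04 * s ≤ (15 * s ^ 2 - 6 * s - 18) / (16 * s ^ 3) := by
    rw [le_div_iff₀ (by positivity)]
    have t : ∀ k l : ℕ, 0 ≤ (s - 14/5) ^ k * (5 - s) ^ l := by
      intro k l
      have : 0 ≤ 5 - s := by linarith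
      have : 0 ≤ s - 14/5 := by linarith
      positivity
    have t0 := t 0 4
    have t1 := t 1 3
    have t2 := t 2 2
    have t3 := t 3 1
    have t4 := t 4 0
    ring_nf at t0 t1 t2 t3 t4 ⊢
    linarith only [t0, t1, t2, t3, t4]
  have e4 : 0.159 ≤ (15 * s ^ 2 - 6 * s - 18) / (16 * s ^ 3) := by
    rw [le_div_iff₀ (by positivity)]
    have key : 0 ≤ (-18) + (-6) * s + 15 * s ^ 2 + (-2.544) * s ^ 3 :=
      cub _ _ _ _ (14/5) 5 h0 h1 (by norm_num) (by norm_num) (by norm_num) (by norm_num)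
        (by norm_num)
    linarith only [key]
  constructor
  · linarith only [e1, e3]
  · linarith only [e1, e4]

lemma f4c {s : ℝ} (h0 : 0 ≤ s) (h1 : s ≤ 5) :
    s * (0.31 - 0.04 * s) ≤ DD s - 1/2 * (KK s - 2) ∧ s * 0.125 ≤ DD s - 1/2 * (KK s - 2) := by
  have hc := c_GG h1
  rw [c_eq]
  rcases le_total s (14/5) with h | h
  · have hg := GG_small h0 h
    constructor
    · exact mul_le_mul_of_nonneg_left (by linarith) h0
    · exact mul_le_mul_of_nonneg_left (by linarith) h0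
  · obtain ⟨g1, g2⟩ := GG_large h h1
    constructor
    · exact mul_le_mul_of_nonneg_left (by linarith) h0
    · exact mul_le_mul_of_nonneg_left (by linarith) h0

end Pool.Agent.Run7.h126
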