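import Mathlib
import Pool.Agent.Run7.h126.Gint
import Pool.Agent.Run7.h126.Scal6
import Pool.Agent.Run7.h126.Main2

set_option autoImplicit false

open MeasureTheory Set Real
open scoped Pointwise

namespace Pool.Agent.Run7.h126

lemma QM_eq : QM = (volume : Measure (ℝ × ℝ)).restrict (Ioi 0 ×ˢ Ioi 0) := by
  unfold QM
  rw [Measure.prod_restrict]
  rfl

lemma QM_scale {σ : ℝ} (hσ : 0 < σ) (F : ℝ × ℝ → ℝ) :
    ∫ p, F p ∂QM = σ ^ 2 * ∫ p, F (σ * p.1, σ * p.2) ∂QM := by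
  rw [QM_eq]
  have h := Measure.setIntegral_comp_smul_of_pos (volume : Measure (ℝ × ℝ)) F
    (Ioi (0:ℝ) ×ˢ Ioi (0:ℝ)) hσ
  have e1 : σ • (Ioi (0:ℝ) ×ˢ Ioi (0:ℝ)) = Ioi (0:ℝ) ×ˢ Ioi (0:ℝ) := by
    ext p
    rw [mem_smul_set_iff_inv_smul_mem₀ hσ.ne']
    simp only [mem_prod, mem_Ioi, Prod.smul_fst, Prod.smul_snd, smul_eq_mul]
    constructor
    · rintro ⟨h1, h2⟩
      have i := inv_pos.mpr hσ
      exact ⟨pos_of_mul_pos_right h1 i.le, pos_of_mul_pos_right h2 i.le⟩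
    · rintro ⟨h1, h2⟩
      have i := inv_pos.mpr hσ
      exact ⟨mul_pos i h1, mul_pos i h2⟩
  have e2 : Module.finrank ℝ (ℝ × ℝ) = 2 := by
    simp
  rw [e1, e2] at h
  have e3 : ∫ p in Ioi (0:ℝ) ×ˢ Ioi (0:ℝ), F (σ * p.1, σ * p.2) =
      ∫ p in Ioi (0:ℝ) ×ˢ Ioi (0:ℝ), F (σ • p) := rfl
  rw [e3, h, smul_eq_mul, ← mul_assoc, mul_inv_cancel₀ (by positivity), one_mul]

lemma QM_swap (F : ℝ × ℝ → ℝ) : ∫ p, F p.swap ∂QM = ∫ p, F p ∂QM := by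
  unfold QM
  exact integral_prod_swap F

lemma QM_swap_int {F : ℝ × ℝ → ℝ} (hF : Integrable F QM) : Integrable (fun p => F p.swap) QM := by
  unfold QM at hF ⊢
  exact hF.swap

/-- **Schur test.** -/
lemma schur {H : ℝ × ℝ → ℝ} (hH : Integrable H QM) {α : ℝ → ℝ} (hα : Measurable α)
    (hb : ∀ t, |α t| ≤ 1) (hJ : ∀ t, 0 < t → 0 ≤ ∫ t' in Ioi (0:ℝ), H (t, t')) :
    Integrable (fun p => H p * α p.1 ^ 2 + H p.swap * α p.2 ^ 2) QM ∧
    0 ≤ ∫ p, (H p * α p.1 ^ 2 + H p.swap * α p.2 ^ 2) ∂QM := by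
  have h1 : Integrable (fun p : ℝ × ℝ => H p * α p.1 ^ 2) QM := by
    refine hH.mul_bdd (c := 1) ?_ ?_
    · exact ((hα.comp measurable_fst).pow_const 2).aestronglyMeasurable
    · refine Filter.Eventually.of_forall fun p => ?_
      rw [Real.norm_eq_abs, abs_pow]
      exact pow_le_one₀ (abs_nonneg _) (hb _)
  have h2 : Integrable (fun p : ℝ × ℝ => H p.swap * α p.2 ^ 2) QM := QM_swap_int h1
  refine ⟨h1.add h2, ?_⟩
  rw [integral_add h1 h2]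
  have e : ∫ p : ℝ × ℝ, H p.swap * α p.2 ^ 2 ∂QM = ∫ p, H p * α p.1 ^ 2 ∂QM :=
    QM_swap (fun p => H p * α p.1 ^ 2)
  rw [e]
  have h3 : 0 ≤ ∫ p, H p * α p.1 ^ 2 ∂QM := by
    unfold QM at h1 ⊢
    rw [integral_prod _ h1]
    apply setIntegral_nonneg measurableSet_Ioi
    intro t ht
    simp only
    rw [integral_mul_const]
    exact mul_nonneg (hJ t ht) (sq_nonneg _)
  linarith

end Pool.Agent.Run7.h126
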