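import Mathlib
import Pool.Agent.Run7.h126.Schur

set_option autoImplicit false

open MeasureTheory Set Real

namespace Pool.Agent.Run7.h126

noncomputable def i1f (t : ℝ) : ℝ := if t < 1 then 1 else 0
noncomputable def i2f (t : ℝ) : ℝ := if 1 < t ∧ t < 3 then 1 else 0
noncomputable def X2 (t : ℝ) : ℝ := t ^ 2 * G0 (1/2) t
noncomputable def X3 (t : ℝ) : ℝ := t ^ 3 * G0 (1/2) t
noncomputable def qf (t : ℝ) : ℝ := if t < 1 then 1.2 + 0.0964 * t else 1.706 + 0.3525 * t
noncomputable def maf (t : ℝ) : ℝ := if t ≤ 4 then 0.484 else 0.265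
noncomputable def mbf (t : ℝ) : ℝ := if t ≤ 4 then 0.031 * t else 0

lemma i1f_meas : Measurable i1f := Measurable.ite measurableSet_Iio measurable_const measurable_const
lemma i2f_meas : Measurable i2f := Measurable.ite measurableSet_Ioo measurable_const measurable_const
lemma qf_meas : Measurable qf := Measurable.ite measurableSet_Iio (by fun_prop) (by fun_prop)
lemma maf_meas : Measurable maf := Measurable.ite measurableSet_Iic measurable_const measurable_const
lemma mbf_meas : Measurable mbf := Measurable.ite measurableSet_Iic (by fun_prop) measurable_const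
lemma X2_cont : Continuous X2 := by unfold X2; have := G0_cont (1/2); fun_prop
lemma X3_cont : Continuous X3 := by unfold X3; have := G0_cont (1/2); fun_prop

lemma X2_int : IntegrableOn X2 (Ioi 0) := i2_int (by norm_num)
lemma X3_int : IntegrableOn X3 (Ioi 0) := (i3 (by norm_num)).1
lemma X2_val : ∫ t in Ioi (0:ℝ), X2 t = m0 := v2
lemma X3_val : ∫ t in Ioi (0:ℝ), X3 t = 2 := v3

lemma X2_nonneg (t : ℝ) : 0 ≤ X2 t := by
  unfold X2
  have := (G0_pos (1/2) t).le
  positivity

lemma i1f_abs (t : ℝ) : |i1f t| ≤ 1 := by unfold i1f; split_ifs <;> simp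
lemma i2f_abs (t : ℝ) : |i2f t| ≤ 1 := by unfold i2f; split_ifs <;> simp

/-- integrability after multiplication by a bounded function -/
lemma int_bdd {f g : ℝ → ℝ} (hf : IntegrableOn f (Ioi 0)) (hg : Measurable g) {c : ℝ}
    (hb : ∀ t, 0 < t → |g t| ≤ c) : IntegrableOn (fun t => f t * g t) (Ioi 0) := by
  refine Integrable.mul_bdd (c := c) hf hg.aestronglyMeasurable ?_
  filter_upwards [ae_restrict_mem measurableSet_Ioi] with t ht
  exact hb t ht

/-- first truncated second moment -/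
noncomputable def B1 : ℝ := ∫ t in Ioi (0:ℝ), X2 t * i1f t
/-- second truncated second moment -/
noncomputable def B2 : ℝ := ∫ t in Ioi (0:ℝ), X2 t * i2f t

lemma B1_eq : B1 = ∫ t in (0:ℝ)..1, X2 t := by
  unfold B1
  have h : ∀ t, X2 t * i1f t = (Iio (1:ℝ)).indicator X2 t := by
    intro t
    unfold i1f
    by_cases ht : t < 1
    · rw [if_pos ht, mul_one, indicator_of_mem (show t ∈ Iio 1 from ht)]
    · rw [if_neg ht, mul_zero, indicator_of_notMem (show t ∉ Iio 1 from ht)]
  simp only [h]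
  rw [setIntegral_indicator measurableSet_Iio, intervalIntegral.integral_of_le (by norm_num),
    integral_Ioc_eq_integral_Ioo]
  congr 1

lemma B1_le : B1 ≤ 0.2492 := by
  rw [B1_eq]
  have h : ∫ t in (0:ℝ)..1, X2 t ≤ ∫ t in (0:ℝ)..1,
      (t ^ 2 - 1/2 * t ^ 4 + 1/8 * t ^ 6 - 1/48 * t ^ 8 + 1/384 * t ^ 10) := by
    apply intervalIntegral.integral_mono_on (by norm_num) (X2_cont.intervalIntegrable _ _)
      (Continuous.intervalIntegrable (by fun_prop) _ _)
    intro t _
    unfold X2 G0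
    have := exp_le4 (x := -(1/2) * t ^ 2) (by nlinarith [sq_nonneg t])
    have h2 := mul_le_mul_of_nonneg_left this (sq_nonneg t)
    refine h2.trans (le_of_eq ?_)
    ring
  refine h.trans ?_
  have ii : ∀ f : ℝ → ℝ, Continuous f → IntervalIntegrable f volume 0 1 :=
    fun f hf => hf.intervalIntegrable _ _
  rw [intervalIntegral.integral_add (ii _ (by fun_prop)) (ii _ (by fun_prop)),
    intervalIntegral.integral_sub (ii _ (by fun_prop)) (ii _ (by fun_prop)),
    intervalIntegral.integral_add (ii _ (by fun_prop)) (ii _ (by fun_prop)),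
    intervalIntegral.integral_sub (ii _ (by fun_prop)) (ii _ (by fun_prop))]
  simp only [intervalIntegral.integral_const_mul, integral_pow]
  norm_num

lemma B1_nonneg : 0 ≤ B1 := by
  rw [B1_eq]
  exact intervalIntegral.integral_nonneg (by norm_num) fun t _ => X2_nonneg t

lemma B2_ge : 0.966 ≤ B2 := by
  have h1 : IntegrableOn (fun t => X2 t * i1f t) (Ioi 0) := int_bdd X2_int i1f_meas (fun t _ => i1f_abs t)
  have h2 : IntegrableOn (fun t => X2 t * i2f t) (Ioi 0) := int_bdd X2_int i2f_meas (fun t _ => i2f_abs t)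
  have h3 : m0 - B1 - B2 = ∫ t in Ioi (0:ℝ), (X2 t - X2 t * i1f t - X2 t * i2f t) := by
    have hs : IntegrableOn (fun t => X2 t - X2 t * i1f t) (Ioi 0) := X2_int.sub h1
    rw [integral_sub hs h2, integral_sub X2_int h1, X2_val]
    rfl
  have h4 : ∫ t in Ioi (0:ℝ), (X2 t - X2 t * i1f t - X2 t * i2f t) =
      ∫ t in Ioi (0:ℝ), (Ici (3:ℝ)).indicator X2 t := by
    apply integral_congr_ae
    apply ae_restrict_of_ae
    have hne : ∀ᵐ t : ℝ ∂volume, t ≠ 1 := by
      rw [ae_iff]; simp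
    filter_upwards [hne] with t ht
    unfold i1f i2f
    by_cases a1 : t < 1
    · rw [if_pos a1, if_neg (by rintro ⟨h, _⟩; linarith), indicator_of_notMem]
      · ring
      · intro h
        have : (3:ℝ) ≤ t := h
        linarith
    · rw [if_neg a1]
      have a1' : 1 < t := lt_of_le_of_ne (not_lt.mp a1) (Ne.symm ht)
      by_cases a2 : t < 3
      · rw [if_pos ⟨a1', a2⟩, indicator_of_notMem]
        · ring
        · intro h
          have : (3:ℝ) ≤ t := h
          linarith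
      · rw [if_neg (by rintro ⟨_, h⟩; exact a2 h), indicator_of_mem (show t ∈ Ici 3 from not_lt.mp a2)]
        ring
  have h5 : ∫ t in Ioi (0:ℝ), (Ici (3:ℝ)).indicator X2 t = ∫ t in Ioi (3:ℝ), X2 t := by
    rw [setIntegral_indicator measurableSet_Ici, ← integral_Ici_eq_integral_Ioi]
    congr 2
    ext t
    simp only [mem_inter_iff, mem_Ioi, mem_Ici]
    constructor
    · exact fun h => h.2
    · intro h; exact ⟨by linarith, h⟩
  have h6 := tail2 (b := 1/2) (T := 3) (by norm_num) (by norm_num)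
  have h7 : G0 (1/2) 3 ≤ 0.01142 := by
    unfold G0
    rw [show -(1/2:ℝ) * 3 ^ 2 = -(5 * (9/10)) by norm_num, exp_neg]
    have e1 := exp_ge5 (9/10)
    have e2 : (2.4587:ℝ) ≤ exp (9/10) := le_trans (by norm_num) e1
    have e3 : exp (5 * (9/10)) = exp (9/10) ^ 5 := by
      rw [← Real.exp_nat_mul]; norm_num
    rw [e3]
    have e4 := pow_le_pow_left₀ (by norm_num) e2 5
    rw [inv_le_comm₀ (by positivity) (by norm_num)]
    refine le_trans ?_ e4
    norm_num
  have h8 := m0_gt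
  have h9 := B1_le
  have h10 : ∫ t in Ioi (3:ℝ), X2 t ≤ (3 / (2 * (1/2)) + 1 / (4 * (1/2) ^ 2 * 3)) * G0 (1/2) 3 := h6
  rw [h4, h5] at h3
  norm_num at h10
  linarith

lemma qf_pos {t : ℝ} (ht : 0 < t) : 0 < qf t := by
  unfold qf; split_ifs <;> linarith

lemma G0q_int : IntegrableOn (fun t => G0 (1/2) t * qf t) (Ioi 0) := by
  have h0 : IntegrableOn (G0 (1/2)) (Ioi 0) := i0_int (by norm_num)
  have h1 : IntegrableOn (fun t => t * G0 (1/2) t) (Ioi 0) := (i1 (by norm_num)).1
  have h2 : IntegrableOn (fun t => 1.706 * G0 (1/2) t + 0.3525 * (t * G0 (1/2) t)) (Ioi 0) :=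
    (h0.const_mul _).add (h1.const_mul _)
  refine h2.mono' ((G0_meas _).mul qf_meas).aestronglyMeasurable ?_
  filter_upwards [ae_restrict_mem measurableSet_Ioi] with t ht
  have ht' : 0 < t := ht
  have hG := (G0_pos (1/2) t)
  rw [Real.norm_of_nonneg (mul_pos hG (qf_pos ht')).le]
  have : qf t ≤ 1.706 + 0.3525 * t := by
    unfold qf; split_ifs <;> linarith
  nlinarith

/-- the constant of the test function -/
noncomputable def Iq : ℝ := ∫ t in Ioi (0:ℝ), G0 (1/2) t * qf t

lemma Iq_le : Iq ≤ 2 := by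
  have h0 : IntegrableOn (G0 (1/2)) (Ioi 0) := i0_int (by norm_num)
  have h1 : IntegrableOn (fun t => t * G0 (1/2) t) (Ioi 0) := (i1 (by norm_num)).1
  have h2 : IntegrableOn (fun t => 1.706 * G0 (1/2) t + 0.3525 * (t * G0 (1/2) t)) (Ioi 0) :=
    (h0.const_mul _).add (h1.const_mul _)
  have hv : ∫ t in Ioi (0:ℝ), (1.706 * G0 (1/2) t + 0.3525 * (t * G0 (1/2) t)) =
      1.706 * m0 + 0.3525 := by
    rw [integral_add (h0.const_mul _) (h1.const_mul _), integral_const_mul, integral_const_mul,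
      v0, v1]
    ring
  have h3 : ∀ t, 1.706 * G0 (1/2) t + 0.3525 * (t * G0 (1/2) t) - G0 (1/2) t * qf t =
      (Iio (1:ℝ)).indicator (fun t => G0 (1/2) t * (0.506 + 0.2561 * t)) t := by
    intro t
    unfold qf
    by_cases ht : t < 1
    · rw [if_pos ht, indicator_of_mem (show t ∈ Iio 1 from ht)]
      ring
    · rw [if_neg ht, indicator_of_notMem (show t ∉ Iio 1 from ht)]
      ring
  have h4 : 1.706 * m0 + 0.3525 - Iq = ∫ t in (0:ℝ)..1, G0 (1/2) t * (0.506 + 0.2561 * t) := by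
    unfold Iq
    rw [← hv, ← integral_sub h2 G0q_int]
    simp only [h3]
    rw [setIntegral_indicator measurableSet_Iio, intervalIntegral.integral_of_le (by norm_num),
      integral_Ioc_eq_integral_Ioo]
    congr 1
  have h5 : ∫ t in (0:ℝ)..1, (0.506 + 0.2561 * t + (-0.253) * t ^ 2 + (-0.12805) * t ^ 3 + 0 * t ^ 4
      + 0 * t ^ 5 + 0 * t ^ 6 + 0 * t ^ 7) ≤
      ∫ t in (0:ℝ)..1, G0 (1/2) t * (0.506 + 0.2561 * t) := by
    have hG := G0_cont (1/2)
    apply intervalIntegral.integral_mono_on (by norm_num)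
      (Continuous.intervalIntegrable (by fun_prop) _ _)
      (Continuous.intervalIntegrable (by fun_prop) _ _)
    intro t ht
    unfold G0
    have e1 := add_one_le_exp (-(1/2) * t ^ 2)
    have e2 : 0 ≤ 0.506 + 0.2561 * t := by linarith [ht.1]
    have e3 := mul_le_mul_of_nonneg_right e1 e2
    refine le_trans (le_of_eq ?_) e3
    ring
  rw [polyP] at h5
  have h6 := m0_lt
  norm_num at h5
  linarith

/-- the key scalar inequality -/
lemma gam3 {t : ℝ} (ht : 0 < t) :
    1 ≤ (maf t * m0 - 2 * mbf t + 0.235 * (i1f t * B2 - i2f t * B1)) * qf t := by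
  have h1 := m0_gt
  have h2 := B1_le
  have h3 := B2_ge
  unfold maf mbf i1f i2f qf
  rcases lt_or_ge t 1 with a | a
  · rw [if_pos (by linarith : t ≤ 4), if_pos (by linarith : t ≤ 4), if_pos a,
      if_neg (by rintro ⟨h, _⟩; linarith), if_pos a]
    have e : 0.6065972 - 0.062 * t + 0.22701 ≤ 0.484 * m0 - 2 * (0.031 * t) +
      0.235 * (1 * B2 - 0 * B1) := by linarith
    refine le_trans ?_ (mul_le_mul_of_nonneg_right e (by linarith))
    nlinarith
  · rw [if_neg (not_lt.mpr a), if_neg (not_lt.mpr a)]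
    rcases le_or_gt t 4 with b | b
    · rw [if_pos b, if_pos b]
      split_ifs with c
      · obtain ⟨c1, c2⟩ := c
        have e : 0.6065972 - 0.062 * t - 0.058562 ≤ 0.484 * m0 - 2 * (0.031 * t) +
          0.235 * (0 * B2 - 1 * B1) := by linarith
        refine le_trans ?_ (mul_le_mul_of_nonneg_right e (by linarith))
        nlinarith
      · have e : 0.6065972 - 0.062 * t ≤ 0.484 * m0 - 2 * (0.031 * t) +
          0.235 * (0 * B2 - 0 * B1) := by linarith
        refine le_trans ?_ (mul_le_mul_of_nonneg_right e (by linarith))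
        nlinarith
    · rw [if_neg (not_le.mpr b), if_neg (not_le.mpr b), if_neg (by rintro ⟨_, h⟩; linarith)]
      have e : 0.332 ≤ 0.265 * m0 - 2 * 0 + 0.235 * (0 * B2 - 0 * B1) := by linarith
      refine le_trans ?_ (mul_le_mul_of_nonneg_right e (by linarith))
      nlinarith

/-- separable integrands -/
def Sep (H : ℝ × ℝ → ℝ) (V : ℝ → ℝ) : Prop := Integrable H QM ∧
  ∀ t, IntegrableOn (fun t' => H (t, t')) (Ioi 0) ∧ ∫ t' in Ioi (0:ℝ), H (t, t') = V t

lemma Sep.mk {f g : ℝ → ℝ} (hf : IntegrableOn f (Ioi 0)) (hg : IntegrableOn g (Ioi 0)) (c v : ℝ)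
    (hv : ∫ t in Ioi (0:ℝ), g t = v) : Sep (fun p => c * (f p.1 * g p.2)) (fun t => c * (f t * v)) := by
  refine ⟨?_, fun t => ⟨?_, ?_⟩⟩
  · unfold QM
    exact (Integrable.mul_prod hf hg).const_mul c
  · exact (hg.const_mul (f t)).const_mul c
  · simp only
    rw [integral_const_mul, integral_const_mul, hv]

lemma Sep.add {H H' : ℝ × ℝ → ℝ} {V V' : ℝ → ℝ} (h : Sep H V) (h' : Sep H' V') :
    Sep (fun p => H p + H' p) (fun t => V t + V' t) := by
  refine ⟨h.1.add h'.1, fun t => ⟨(h.2 t).1.add (h'.2 t).1, ?_⟩⟩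
  rw [integral_add (h.2 t).1 (h'.2 t).1, (h.2 t).2, (h'.2 t).2]

/-- the separable minorant for odd degree at least three -/
noncomputable def H3 (r : ℝ) (p : ℝ × ℝ) : ℝ :=
  r * (X2 p.1 * maf p.1 * X2 p.2) + (-r) * (X2 p.1 * mbf p.1 * X3 p.2) +
  0.235 * r * (X2 p.1 * i1f p.1 * (X2 p.2 * i2f p.2)) +
  (-0.235) * r * (X2 p.1 * i2f p.1 * (X2 p.2 * i1f p.2)) +
  (-2) * r ^ 3 * (X2 p.1 * (qf p.1)⁻¹ * (G0 (1/2) p.2 * qf p.2))

lemma H3_sep (r : ℝ) : Sep (H3 r) (fun t =>
    r * (X2 t * maf t * m0) + (-r) * (X2 t * mbf t * 2) +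
    0.235 * r * (X2 t * i1f t * B2) + (-0.235) * r * (X2 t * i2f t * B1) +
    (-2) * r ^ 3 * (X2 t * (qf t)⁻¹ * Iq)) := by
  have h1 : IntegrableOn (fun t => X2 t * maf t) (Ioi 0) := int_bdd X2_int maf_meas (c := 1)
    (fun t _ => by unfold maf; split_ifs <;> norm_num [abs_le])
  have h2 : IntegrableOn (fun t => X2 t * mbf t) (Ioi 0) := int_bdd X2_int mbf_meas (c := 1)
    (fun t ht => by
      unfold mbf
      split_ifs
      · rw [abs_le]; constructor <;> linarith
      · norm_num)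
  have h3 : IntegrableOn (fun t => X2 t * i1f t) (Ioi 0) := int_bdd X2_int i1f_meas
    (fun t _ => i1f_abs t)
  have h4 : IntegrableOn (fun t => X2 t * i2f t) (Ioi 0) := int_bdd X2_int i2f_meas
    (fun t _ => i2f_abs t)
  have h5 : IntegrableOn (fun t => X2 t * (qf t)⁻¹) (Ioi 0) := int_bdd X2_int qf_meas.inv (c := 1)
    (fun t ht => by
      rw [abs_of_pos (inv_pos.mpr (qf_pos ht))]
      apply inv_le_one_of_one_le₀
      unfold qf; split_ifs <;> linarith)
  exact ((((Sep.mk h1 X2_int r m0 X2_val).add (Sep.mk h2 X3_int (-r) 2 X3_val)).add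
    (Sep.mk h3 h4 (0.235 * r) B2 rfl)).add (Sep.mk h4 h3 ((-0.235) * r) B1 rfl)).add
    (Sep.mk h5 G0q_int ((-2) * r ^ 3) Iq rfl)

lemma J3_nonneg {r : ℝ} (hr0 : 0 ≤ r) (hr1 : r ≤ 1/2) {t : ℝ} (ht : 0 < t) :
    0 ≤ ∫ t' in Ioi (0:ℝ), H3 r (t, t') := by
  rw [((H3_sep r).2 t).2]
  have hq := qf_pos ht
  have hg := gam3 ht
  have hI := Iq_le
  have hX := X2_nonneg t
  have e : r * (X2 t * maf t * m0) + (-r) * (X2 t * mbf t * 2) +
    0.235 * r * (X2 t * i1f t * B2) + (-0.235) * r * (X2 t * i2f t * B1) +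
    (-2) * r ^ 3 * (X2 t * (qf t)⁻¹ * Iq) = (r * X2 t * (qf t)⁻¹) *
    ((maf t * m0 - 2 * mbf t + 0.235 * (i1f t * B2 - i2f t * B1)) * qf t - 2 * r ^ 2 * Iq) := by
    field_simp
    ring
  beta_reduce
  rw [e]
  apply mul_nonneg
  · positivity
  · have : 2 * r ^ 2 * Iq ≤ 1 := by
      have h1 : r ^ 2 ≤ 1/4 := by nlinarith
      have h2 : r ^ 2 * Iq ≤ r ^ 2 * 2 := mul_le_mul_of_nonneg_left hI (sq_nonneg r)
      linarith
    linarith

/-- the sign pattern -/
noncomputable def chi (p : ℝ × ℝ) : ℝ := i1f p.1 * i2f p.2 - i2f p.1 * i1f p.2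

/-- the asymmetric coefficient -/
noncomputable def kap (r : ℝ) (p : ℝ × ℝ) : ℝ := 0.235 * (r * (p.1 * p.2)) * chi p

lemma chi_cases (p : ℝ × ℝ) : chi p = 0 ∨ (chi p = 1 ∧ p.1 < 1 ∧ p.2 < 3) ∨
    (chi p = -1 ∧ p.1 < 3 ∧ p.2 < 1) := by
  unfold chi i1f i2f
  by_cases h1 : p.1 < 1
  · rw [if_pos h1, if_neg (show ¬ (1 < p.1 ∧ p.1 < 3) from fun h => by linarith [h.1])]
    by_cases h2 : 1 < p.2 ∧ p.2 < 3
    · rw [if_pos h2]
      right; left
      exact ⟨by ring, h1, h2.2⟩
    · rw [if_neg h2]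
      left; ring
  · rw [if_neg h1]
    by_cases h2 : 1 < p.1 ∧ p.1 < 3
    · rw [if_pos h2]
      by_cases h3 : p.2 < 1
      · rw [if_pos h3]
        right; right
        exact ⟨by ring, h2.2, h3⟩
      · rw [if_neg h3]
        left; ring
    · rw [if_neg h2]
      left; ring

end Pool.Agent.Run7.h126
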