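import Mathlib
import Pool.Agent.Run7.h126.Odd3

set_option autoImplicit false

open MeasureTheory Set Real

namespace Pool.Agent.Run7.h126

lemma km_nonneg {s : ℝ} (h0 : 0 ≤ s) : 0 ≤ km s := by
  rw [km_eq]
  apply mul_nonneg h0
  apply wI_nonneg
  intro u hu
  have h1 := cc_nonneg u
  have h2 := cc_le hu.2
  nlinarith

lemma kap_swap (r : ℝ) (p : ℝ × ℝ) : kap r p.swap = -kap r p := by
  unfold kap chi
  simp only [Prod.fst_swap, Prod.snd_swap]
  ring

lemma kap_facts {r : ℝ} (hr0 : 0 ≤ r) (hr1 : r ≤ 1/2) {p : ℝ × ℝ} (h1 : 0 < p.1) (h2 : 0 < p.2) :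
    |kap r p| ≤ km (r * (p.1 * p.2)) ∧
    kap r p ^ 2 ≤ 4 * ((al (r * (p.1 * p.2)) - hh (r * (p.1 * p.2))) *
      (hh (r * (p.1 * p.2)) - de (r * (p.1 * p.2)))) ∧
    |kap r p| ≤ DD (r * (p.1 * p.2)) := by
  have h12 : 0 < p.1 * p.2 := mul_pos h1 h2
  have hs0 : 0 ≤ r * (p.1 * p.2) := mul_nonneg hr0 h12.le
  set s := r * (p.1 * p.2) with hs
  have a1 := al_ge hs0
  have a2 := de_le hs0
  have key : (chi p = 1 ∨ chi p = -1) → p.1 * p.2 ≤ 3 → |kap r p| ≤ km s ∧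
    kap r p ^ 2 ≤ 4 * ((al s - hh s) * (hh s - de s)) ∧ |kap r p| ≤ DD s := by
    intro hc h3
    have hs1 : s ≤ 3/2 := by
      rw [hs]
      nlinarith
    have e1 : |kap r p| = 0.235 * s := by
      unfold kap
      rw [← hs, abs_mul, abs_of_nonneg (by positivity)]
      rcases hc with h | h <;> rw [h] <;> simp
    have e2 : kap r p ^ 2 = (0.235 * s) ^ 2 := by rw [← sq_abs, e1]
    refine ⟨?_, ?_, ?_⟩
    · rw [e1]; exact km_ge hs0 hs1
    · rw [e2]
      have g1 := al_hh hs0 hs1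
      have g2 := hh_de hs0 hs1
      have g3 : (0.06 * s) * (0.24 * s) ≤ (al s - hh s) * (hh s - de s) := by
        apply mul_le_mul g1 g2 (by positivity)
        exact le_trans (by positivity) g1
      nlinarith [sq_nonneg s]
    · rw [e1]
      have := DD_const hs0
      linarith
  rcases chi_cases p with h | ⟨h, h3, h4⟩ | ⟨h, h3, h4⟩
  · have e : kap r p = 0 := by unfold kap; rw [h, mul_zero]
    rw [e, abs_zero]
    refine ⟨km_nonneg hs0, ?_, DD_nonneg hs0⟩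
    have : 0 ≤ (al s - hh s) * (hh s - de s) := mul_nonneg (by linarith) (by linarith)
    nlinarith
  · exact key (Or.inl h) (by nlinarith)
  · exact key (Or.inr h) (by nlinarith)

/-- the linear minorant -/
lemma lo_le {r : ℝ} (hr0 : 0 ≤ r) (hr1 : r ≤ 1/2) {t t' : ℝ} (h1 : 0 < t) (h2 : 0 < t') :
    r * (t * t') * (maf t - mbf t * t') ≤ DD (r * (t * t')) - 1/8 * max (KK (r * (t * t')) - 2) 0 := by
  have h12 : 0 < t * t' := mul_pos h1 h2
  have hs0 : 0 ≤ r * (t * t') := mul_nonneg hr0 h12.le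
  have hs1 : r * (t * t') ≤ 1/2 * (t * t') := mul_le_mul_of_nonneg_right hr1 h12.le
  set s := r * (t * t') with hs
  have c1 : s * (0.484 - 0.062 * s) ≤ DD s - 1/8 * max (KK s - 2) 0 := by
    rcases le_total (KK s - 2) 0 with h | h
    · rw [max_eq_right h]; have := DD_line hs0; linarith
    · rw [max_eq_left h]; exact DQ_line hs0
  have c2 : s * 0.265 ≤ DD s - 1/8 * max (KK s - 2) 0 := by
    rcases le_total (KK s - 2) 0 with h | h
    · rw [max_eq_right h]; have := DD_const hs0; linarith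
    · rw [max_eq_left h]; exact DQ_const hs0
  unfold maf mbf
  by_cases h : t ≤ 4
  · rw [if_pos h, if_pos h]
    refine le_trans ?_ c1
    apply mul_le_mul_of_nonneg_left _ hs0
    linarith
  · rw [if_neg h, if_neg h]
    refine le_trans ?_ c2
    apply mul_le_mul_of_nonneg_left _ hs0
    linarith

/-- pointwise inequality for odd degree at least three -/
lemma odd3_pt {r x : ℝ} (hr0 : 0 ≤ r) (hr1 : r ≤ 1/2) (hx : x ≤ r ^ 3) {p : ℝ × ℝ}
    (h1 : 0 < p.1) (h2 : 0 < p.2) (hx0 : 0 ≤ x) (a b : ℝ) :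
    H3 r p * a ^ 2 + H3 r p.swap * b ^ 2 ≤
    (p.1 * G0 (1/2) p.1) * (p.2 * G0 (1/2) p.2) * ((DD (r * (p.1 * p.2)) + kap r p) * a ^ 2 +
      (DD (r * (p.1 * p.2)) - kap r p) * b ^ 2 - 2 * x * KK (r * (p.1 * p.2)) * (a * b)) := by
  obtain ⟨t, t'⟩ := p
  simp only at h1 h2
  have h12 : 0 < t * t' := mul_pos h1 h2
  have hs0 : 0 ≤ r * (t * t') := mul_nonneg hr0 h12.le
  have l1 := lo_le hr0 hr1 h1 h2
  have l2 := lo_le hr0 hr1 h2 h1
  rw [mul_comm t' t] at l2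
  have hG := G0_pos (1/2) t
  have hG' := G0_pos (1/2) t'
  have hq := qf_pos h1
  have hq' := qf_pos h2
  have hK := KK_nonneg hs0
  have hD := DD_nonneg hs0
  set s := r * (t * t') with hs
  set w : ℝ := (t * qf t') * (qf t * t')⁻¹ with hw
  have hw0 : 0 < w := by rw [hw]; positivity
  have hwi : w⁻¹ = (t' * qf t) * (qf t' * t)⁻¹ := by
    rw [hw]; field_simp
  have e1 : H3 r (t, t') = (t * G0 (1/2) t) * (t' * G0 (1/2) t') *
      (s * (maf t - mbf t * t') + kap r (t, t') - 2 * r ^ 3 * w) := by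
    rw [hw, hs]
    unfold H3 kap chi X2 X3
    field_simp
    ring
  have e2 : H3 r (t', t) = (t * G0 (1/2) t) * (t' * G0 (1/2) t') *
      (s * (maf t' - mbf t' * t) - kap r (t, t') - 2 * r ^ 3 * w⁻¹) := by
    rw [hwi, hs]
    unfold H3 kap chi X2 X3
    field_simp
    ring
  simp only [Prod.swap_prod_mk]
  rw [e1, e2]
  have hN : 0 ≤ (t * G0 (1/2) t) * (t' * G0 (1/2) t') := by positivity
  have main : (s * (maf t - mbf t * t') + kap r (t, t') - 2 * r ^ 3 * w) * a ^ 2 +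
      (s * (maf t' - mbf t' * t) - kap r (t, t') - 2 * r ^ 3 * w⁻¹) * b ^ 2 ≤
      (DD s + kap r (t, t')) * a ^ 2 + (DD s - kap r (t, t')) * b ^ 2 - 2 * x * KK s * (a * b) := by
    set M := max (KK s - 2) 0 with hM
    have hM0 : 0 ≤ M := le_max_right _ _
    have hKM : KK s ≤ 2 + M := by have := le_max_left (KK s - 2) 0; linarith
    have g1 := mul_le_mul_of_nonneg_right l1 (sq_nonneg a)
    have g2 := mul_le_mul_of_nonneg_right l2 (sq_nonneg b)
    have r3 : r ^ 3 ≤ 1/8 := by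
      have := pow_le_pow_left₀ hr0 hr1 3
      norm_num at this
      exact this
    have r30 : 0 ≤ r ^ 3 := by positivity
    have g3 : 2 * |a * b| ≤ w * a ^ 2 + w⁻¹ * b ^ 2 := by
      have k1 : 0 ≤ w * (|a| - w⁻¹ * |b|) ^ 2 := by positivity
      have k2 : w * (|a| - w⁻¹ * |b|) ^ 2 = w * a ^ 2 + w⁻¹ * b ^ 2 - 2 * |a * b| := by
        rw [abs_mul, ← sq_abs a, ← sq_abs b]
        field_simp
        ring
      linarith
    have g4 : 2 * |a * b| ≤ a ^ 2 + b ^ 2 := by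
      rw [abs_mul, ← sq_abs a, ← sq_abs b]
      nlinarith [sq_nonneg (|a| - |b|)]
    have g5 : a * b ≤ |a * b| := le_abs_self _
    have g0 : 0 ≤ |a * b| := abs_nonneg _
    -- chain
    have c1 : 2 * x * KK s * (a * b) ≤ 2 * r ^ 3 * ((2 + M) * |a * b|) := by
      have k1 : 2 * x * KK s * (a * b) ≤ 2 * x * KK s * |a * b| :=
        mul_le_mul_of_nonneg_left g5 (by positivity)
      have k2 : KK s * |a * b| ≤ (2 + M) * |a * b| := mul_le_mul_of_nonneg_right hKM g0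
      have k3 : x * (KK s * |a * b|) ≤ r ^ 3 * ((2 + M) * |a * b|) :=
        mul_le_mul hx k2 (by positivity) r30
      linarith
    have c2 : r ^ 3 * (2 * (2 * |a * b|)) ≤ r ^ 3 * (2 * (w * a ^ 2 + w⁻¹ * b ^ 2)) :=
      mul_le_mul_of_nonneg_left (by linarith) r30
    have c3 : r ^ 3 * (M * (2 * |a * b|)) ≤ 1/8 * (M * (a ^ 2 + b ^ 2)) :=
      mul_le_mul r3 (mul_le_mul_of_nonneg_left g4 hM0) (by positivity) (by norm_num)
    linarith
  have := mul_le_mul_of_nonneg_left main hN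
  linarith

/-- positivity through a minorant -/
lemma mono_or {F H : ℝ × ℝ → ℝ} (hH : Integrable H QM) (h0 : 0 ≤ ∫ p, H p ∂QM)
    (h : ∀ p : ℝ × ℝ, 0 < p.1 → 0 < p.2 → H p ≤ F p) : 0 ≤ ∫ p, F p ∂QM := by
  by_cases hF : Integrable F QM
  · refine h0.trans (integral_mono_ae hH hF ?_)
    filter_upwards [QM_pos] with p hp
    exact h p hp.1 hp.2
  · rw [integral_undef hF]

lemma odd3_int {r x : ℝ} (hr0 : 0 ≤ r) (hr1 : r ≤ 1/2) (hx : x ≤ r ^ 3) (hx0 : 0 ≤ x)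
    {α : ℝ → ℝ} (hα : Measurable α) (hb : ∀ t, |α t| ≤ 1) :
    0 ≤ ∫ p : ℝ × ℝ, (p.1 * G0 (1/2) p.1) * (p.2 * G0 (1/2) p.2) *
      ((DD (r * (p.1 * p.2)) + kap r p) * α p.1 ^ 2 +
      (DD (r * (p.1 * p.2)) - kap r p) * α p.2 ^ 2 -
      2 * x * KK (r * (p.1 * p.2)) * (α p.1 * α p.2)) ∂QM := by
  obtain ⟨h1, h2⟩ := schur (H3_sep r).1 hα hb (fun t ht => J3_nonneg hr0 hr1 ht)
  exact mono_or h1 h2 fun p hp1 hp2 => odd3_pt hr0 hr1 hx hp1 hp2 hx0 _ _

end Pool.Agent.Run7.h126
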