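import Mathlib
import Pool.Agent.Run7.h126.Odd3b

set_option autoImplicit false

open MeasureTheory Set Real

namespace Pool.Agent.Run7.h126

noncomputable def naf (t : ℝ) : ℝ := if t ≤ 9/2 then 0.31 else 0.125
noncomputable def nbf (t : ℝ) : ℝ := if t ≤ 9/2 then 0.02 * t else 0
noncomputable def j1f (t : ℝ) : ℝ := if t ≤ 9/2 then 1 else 0
noncomputable def j2f (t : ℝ) : ℝ := if t ≤ 9/2 then 0 else 1
noncomputable def y1f (t : ℝ) : ℝ := if 3.16 ≤ t then 1 else 0
noncomputable def y2f (t : ℝ) : ℝ := if 9/2 ≤ t then 1 else 0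
noncomputable def Y2 (t : ℝ) : ℝ := t ^ 2 * G0 (1/4) t

lemma naf_meas : Measurable naf := Measurable.ite measurableSet_Iic measurable_const measurable_const
lemma nbf_meas : Measurable nbf := Measurable.ite measurableSet_Iic (by fun_prop) measurable_const
lemma j1f_meas : Measurable j1f := Measurable.ite measurableSet_Iic measurable_const measurable_const
lemma j2f_meas : Measurable j2f := Measurable.ite measurableSet_Iic measurable_const measurable_const
lemma y1f_meas : Measurable y1f := Measurable.ite measurableSet_Ici measurable_const measurable_const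
lemma y2f_meas : Measurable y2f := Measurable.ite measurableSet_Ici measurable_const measurable_const

lemma Y2_int : IntegrableOn Y2 (Ioi 0) := i2_int (by norm_num)

noncomputable def E1 : ℝ := ∫ t in Ioi (0:ℝ), Y2 t * y1f t
noncomputable def E2 : ℝ := ∫ t in Ioi (0:ℝ), Y2 t * y2f t

lemma tail_ind {T : ℝ} (hT : 0 < T) (f : ℝ → ℝ) :
    ∫ t in Ioi (0:ℝ), f t * (if T ≤ t then (1:ℝ) else 0) = ∫ t in Ioi T, f t := by
  have h : ∀ t, f t * (if T ≤ t then (1:ℝ) else 0) = (Ici T).indicator f t := by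
    intro t
    by_cases ht : T ≤ t
    · rw [if_pos ht, mul_one, indicator_of_mem (show t ∈ Ici T from ht)]
    · rw [if_neg ht, mul_zero, indicator_of_notMem (show t ∉ Ici T from ht)]
  simp only [h]
  rw [setIntegral_indicator measurableSet_Ici, ← integral_Ici_eq_integral_Ioi]
  congr 2
  ext t
  simp only [mem_inter_iff, mem_Ioi, mem_Ici]
  constructor
  · exact fun h => h.2
  · intro h; exact ⟨lt_of_lt_of_le hT h, h⟩

lemma E1_le : E1 ≤ 0.66 := by
  have h : E1 = ∫ t in Ioi (3.16:ℝ), Y2 t := tail_ind (by norm_num) Y2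
  rw [h]
  have h6 : ∫ t in Ioi (3.16:ℝ), Y2 t ≤ (3.16 / (2 * (1/4)) + 1 / (4 * (1/4) ^ 2 * 3.16)) *
    G0 (1/4) 3.16 := tail2 (b := 1/4) (T := 3.16) (by norm_num) (by norm_num)
  have h7 : G0 (1/4) 3.16 ≤ 0.0865 := by
    unfold G0
    rw [show -(1/4:ℝ) * 3.16 ^ 2 = -(2.4964) by norm_num, exp_neg,
      inv_le_comm₀ (exp_pos _) (by norm_num)]
    refine le_trans ?_ (exp_ge5 2.4964)
    norm_num
  norm_num at h6 h7
  linarith

lemma E2_le : E2 ≤ 0.0648 := by
  have h : E2 = ∫ t in Ioi (9/2:ℝ), Y2 t := tail_ind (by norm_num) Y2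
  rw [h]
  have h6 : ∫ t in Ioi (9/2:ℝ), Y2 t ≤ ((9/2) / (2 * (1/4)) + 1 / (4 * (1/4) ^ 2 * (9/2))) *
    G0 (1/4) (9/2) := tail2 (b := 1/4) (T := 9/2) (by norm_num) (by norm_num)
  have h7 : G0 (1/4) (9/2) ≤ 0.0065 := by
    unfold G0
    rw [show -(1/4:ℝ) * (9/2) ^ 2 = -(4 * (81/64)) by norm_num, exp_neg]
    have e1 := exp_ge5 (81/64)
    have e2 : (3.53:ℝ) ≤ exp (81/64) := le_trans (by norm_num) e1
    have e3 : exp (4 * (81/64)) = exp (81/64) ^ 4 := by
      rw [← Real.exp_nat_mul]; norm_num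
    rw [e3]
    have e4 := pow_le_pow_left₀ (by norm_num) e2 4
    rw [inv_le_comm₀ (by positivity) (by norm_num)]
    refine le_trans ?_ e4
    norm_num
  norm_num at h6 h7
  linarith

/-- the key scalar inequality for degree one -/
lemma gam1 {t : ℝ} (ht : 0 < t) :
    0.15 ≤ naf t * m0 - 2 * nbf t - 0.07 * (j1f t * E1 + j2f t * E2) +
      0.235 * (i1f t * B2 - i2f t * B1) := by
  have h1 := m0_gt
  have h2 := B1_le
  have h3 := B2_ge
  have h4 := E1_le
  have h5 := E2_le
  unfold naf nbf j1f j2f i1f i2f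
  rcases lt_or_ge t 1 with a | a
  · rw [if_pos (by linarith : t ≤ 9/2), if_pos (by linarith : t ≤ 9/2),
      if_pos (by linarith : t ≤ 9/2), if_pos (by linarith : t ≤ 9/2), if_pos a,
      if_neg (by rintro ⟨h, _⟩; linarith)]
    linarith
  · rw [if_neg (not_lt.mpr a)]
    rcases le_or_gt t (9/2) with b | b
    · rw [if_pos b, if_pos b, if_pos b, if_pos b]
      split_ifs with c
      · obtain ⟨c1, c2⟩ := c
        linarith
      · linarith
    · rw [if_neg (not_le.mpr b), if_neg (not_le.mpr b), if_neg (not_le.mpr b),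
        if_neg (not_le.mpr b), if_neg (by rintro ⟨_, h⟩; linarith)]
      linarith

/-- the coefficient -/
noncomputable def c1f (t t' : ℝ) : ℝ :=
  naf t - nbf t * t' - 0.07 * exp (t' ^ 2 / 4) * (j1f t * y1f t' + j2f t * y2f t')

lemma jy_nonneg (t t' : ℝ) : 0 ≤ j1f t * y1f t' + j2f t * y2f t' := by
  unfold j1f y1f j2f y2f
  split_ifs <;> norm_num

/-- large product: the pair inequality -/
lemma pair_large {r : ℝ} (hr0 : 0 ≤ r) (hr1 : r ≤ 1/2) {t t' : ℝ} (h1 : 0 < t) (h2 : 0 < t')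
    (hs : 5 ≤ r * (t * t')) (hle : t' ≤ t) (a b : ℝ) :
    r * (t * t') * c1f t t' * a ^ 2 + r * (t * t') * c1f t' t * b ^ 2 ≤
    DD (r * (t * t')) * a ^ 2 + DD (r * (t * t')) * b ^ 2
      - 2 * r * (KK (r * (t * t')) - 2) * (a * b) := by
  have h12 : 0 < t * t' := mul_pos h1 h2
  have hs1 : r * (t * t') ≤ 1/2 * (t * t') := mul_le_mul_of_nonneg_right hr1 h12.le
  set s := r * (t * t') with hsdef
  have hs0 : 0 ≤ s := by linarith
  have h10 : 10 ≤ t * t' := by linarith
  have ht2 : 10 ≤ t ^ 2 := by nlinarith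
  have ht3 : 3.16 ≤ t := by nlinarith
  have hD5 := DD_five hs
  have hDu := DD_upper hs0
  have hK := KK_DD hs0
  have hK0 := KK_nonneg hs0
  -- first coefficient
  have f1 : s * c1f t t' ≤ 5/24 * DD s := by
    have g : c1f t t' ≤ 0.125 := by
      unfold c1f naf nbf
      have g0 := jy_nonneg t t'
      have g1 : 0 ≤ 0.07 * exp (t' ^ 2 / 4) * (j1f t * y1f t' + j2f t * y2f t') := by positivity
      split_ifs
      · nlinarith
      · linarith
    have := mul_le_mul_of_nonneg_left g hs0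
    linarith
  -- second coefficient
  have f2 : s * c1f t' t ≤ -(41/57) * DD s := by
    have gj : j1f t' * y1f t + j2f t' * y2f t = 1 := by
      unfold j1f j2f y1f y2f
      rw [if_pos ht3]
      by_cases h : t' ≤ 9/2
      · rw [if_pos h, if_pos h]; ring
      · rw [if_neg h, if_neg h, if_pos (by linarith)]; ring
    have g : c1f t' t ≤ 0.125 - 0.07 * exp (t ^ 2 / 4) := by
      unfold c1f
      rw [gj]
      unfold naf nbf
      split_ifs
      · nlinarith
      · linarith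
    have hE : 11 ≤ exp (t ^ 2 / 4) := by
      have e1 := exp_ge5 (5/2)
      have e2 : exp (5/2) ≤ exp (t ^ 2 / 4) := exp_le_exp.mpr (by linarith)
      norm_num at e1
      linarith
    have hE2 : exp (s / 2) ≤ exp (t ^ 2 / 4) := exp_le_exp.mpr (by nlinarith)
    set E := exp (t ^ 2 / 4) with hEdef
    have g2 := mul_le_mul_of_nonneg_left g hs0
    have g3 : 5 * (0.07 * E - 0.125) ≤ s * (0.07 * E - 0.125) :=
      mul_le_mul_of_nonneg_right hs (by linarith)
    linarith
  have hab : |2 * r * (KK s - 2) * (a * b)| ≤ 7/3 * DD s * |a * b| := by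
    rw [abs_mul, abs_mul, abs_of_nonneg (by linarith : 0 ≤ 2 * r)]
    apply mul_le_mul_of_nonneg_right _ (abs_nonneg _)
    have k1 : |KK s - 2| ≤ 7/3 * DD s := by
      rw [abs_le]
      constructor <;> linarith
    calc 2 * r * |KK s - 2| ≤ 1 * |KK s - 2| :=
          mul_le_mul_of_nonneg_right (by linarith) (abs_nonneg _)
      _ ≤ _ := by rw [one_mul]; exact k1
  have h3 := le_abs_self (2 * r * (KK s - 2) * (a * b))
  have h4 : 7/3 * |a * b| ≤ 19/24 * a ^ 2 + 98/57 * b ^ 2 := by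
    rw [abs_mul, ← sq_abs a, ← sq_abs b]
    nlinarith [sq_nonneg (|a| - 28/19 * |b|)]
  have hD0 : 0 ≤ DD s := by linarith
  have h5 := mul_le_mul_of_nonneg_left h4 hD0
  have h6 := mul_le_mul_of_nonneg_right f1 (sq_nonneg a)
  have h7 := mul_le_mul_of_nonneg_right f2 (sq_nonneg b)
  linarith

/-- small product: the pair inequality -/
lemma pair_small {r : ℝ} (hr0 : 0 ≤ r) (hr1 : r ≤ 1/2) {t t' : ℝ} (h1 : 0 < t) (h2 : 0 < t')
    (hs : r * (t * t') ≤ 5) (a b : ℝ) :
    r * (t * t') * c1f t t' * a ^ 2 + r * (t * t') * c1f t' t * b ^ 2 ≤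
    DD (r * (t * t')) * a ^ 2 + DD (r * (t * t')) * b ^ 2
      - 2 * r * (KK (r * (t * t')) - 2) * (a * b) := by
  have h12 : 0 < t * t' := mul_pos h1 h2
  have hs1 : r * (t * t') ≤ 1/2 * (t * t') := mul_le_mul_of_nonneg_right hr1 h12.le
  have hs0 : 0 ≤ r * (t * t') := mul_nonneg hr0 h12.le
  set s := r * (t * t') with hsdef
  obtain ⟨c1, c2⟩ := f4c hs0 hs
  obtain ⟨d1, d2⟩ := f4d hs0
  have m1 : s * (0.31 - 0.04 * s) ≤ DD s - 1/2 * |KK s - 2| := by
    rcases abs_cases (KK s - 2) with ⟨h, _⟩ | ⟨h, _⟩ <;> rw [h] <;> linarith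
  have m2 : s * 0.125 ≤ DD s - 1/2 * |KK s - 2| := by
    rcases abs_cases (KK s - 2) with ⟨h, _⟩ | ⟨h, _⟩ <;> rw [h] <;> linarith
  have key : ∀ x y : ℝ, x * y = t * t' → s * c1f x y ≤ DD s - 1/2 * |KK s - 2| := by
    intro x y hxy
    have g0 := jy_nonneg x y
    have g1 : 0 ≤ 0.07 * exp (y ^ 2 / 4) * (j1f x * y1f y + j2f x * y2f y) := by positivity
    unfold c1f naf nbf
    split_ifs
    · refine le_trans ?_ m1
      apply mul_le_mul_of_nonneg_left _ hs0
      have : 0.02 * x * y = 0.02 * (t * t') := by rw [mul_assoc, hxy]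
      linarith
    · refine le_trans ?_ m2
      apply mul_le_mul_of_nonneg_left _ hs0
      linarith
  have k1 := key t t' rfl
  have k2 := key t' t (mul_comm _ _)
  have g4 : 2 * |a * b| ≤ a ^ 2 + b ^ 2 := by
    rw [abs_mul, ← sq_abs a, ← sq_abs b]
    nlinarith [sq_nonneg (|a| - |b|)]
  have hab : 2 * r * (KK s - 2) * (a * b) ≤ |KK s - 2| * |a * b| := by
    refine (le_abs_self _).trans ?_
    rw [abs_mul, abs_mul, abs_of_nonneg (by linarith : 0 ≤ 2 * r)]
    apply mul_le_mul_of_nonneg_right _ (abs_nonneg _)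
    calc 2 * r * |KK s - 2| ≤ 1 * |KK s - 2| :=
          mul_le_mul_of_nonneg_right (by linarith) (abs_nonneg _)
      _ = _ := one_mul _
  have h5 := mul_le_mul_of_nonneg_left g4 (abs_nonneg (KK s - 2))
  have h6 := mul_le_mul_of_nonneg_right k1 (sq_nonneg a)
  have h7 := mul_le_mul_of_nonneg_right k2 (sq_nonneg b)
  linarith

lemma pair_all {r : ℝ} (hr0 : 0 ≤ r) (hr1 : r ≤ 1/2) {t t' : ℝ} (h1 : 0 < t) (h2 : 0 < t')
    (a b : ℝ) :
    r * (t * t') * c1f t t' * a ^ 2 + r * (t * t') * c1f t' t * b ^ 2 ≤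
    DD (r * (t * t')) * a ^ 2 + DD (r * (t * t')) * b ^ 2
      - 2 * r * (KK (r * (t * t')) - 2) * (a * b) := by
  rcases le_total (r * (t * t')) 5 with h | h
  · exact pair_small hr0 hr1 h1 h2 h a b
  · rcases le_total t' t with h' | h'
    · exact pair_large hr0 hr1 h1 h2 h h' a b
    · have e : t' * t = t * t' := mul_comm _ _
      have := pair_large hr0 hr1 h2 h1 (by rw [e]; exact h) h' b a
      rw [e] at this
      have e2 : b * a = a * b := mul_comm _ _
      rw [e2] at this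
      linarith

end Pool.Agent.Run7.h126
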