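import Mathlib
import Pool.Agent.Run7.h126.Odd1

set_option autoImplicit false

open MeasureTheory Set Real

namespace Pool.Agent.Run7.h126

/-- the separable minorant for degree one -/
noncomputable def H1 (r : ℝ) (p : ℝ × ℝ) : ℝ :=
  r * (X2 p.1 * naf p.1 * X2 p.2) + (-r) * (X2 p.1 * nbf p.1 * X3 p.2) +
  (-0.07) * r * (X2 p.1 * j1f p.1 * (Y2 p.2 * y1f p.2)) +
  (-0.07) * r * (X2 p.1 * j2f p.1 * (Y2 p.2 * y2f p.2)) +
  0.235 * r * (X2 p.1 * i1f p.1 * (X2 p.2 * i2f p.2)) +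
  (-0.235) * r * (X2 p.1 * i2f p.1 * (X2 p.2 * i1f p.2))

lemma H1_sep (r : ℝ) : Sep (H1 r) (fun t =>
    r * (X2 t * naf t * m0) + (-r) * (X2 t * nbf t * 2) +
    (-0.07) * r * (X2 t * j1f t * E1) + (-0.07) * r * (X2 t * j2f t * E2) +
    0.235 * r * (X2 t * i1f t * B2) + (-0.235) * r * (X2 t * i2f t * B1)) := by
  have h1 : IntegrableOn (fun t => X2 t * naf t) (Ioi 0) := int_bdd X2_int naf_meas (c := 1)
    (fun t _ => by unfold naf; split_ifs <;> norm_num [abs_le])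
  have h2 : IntegrableOn (fun t => X2 t * nbf t) (Ioi 0) := int_bdd X2_int nbf_meas (c := 1)
    (fun t ht => by
      unfold nbf
      split_ifs
      · rw [abs_le]; constructor <;> linarith
      · norm_num)
  have h3 : IntegrableOn (fun t => X2 t * i1f t) (Ioi 0) := int_bdd X2_int i1f_meas
    (fun t _ => i1f_abs t)
  have h4 : IntegrableOn (fun t => X2 t * i2f t) (Ioi 0) := int_bdd X2_int i2f_meas
    (fun t _ => i2f_abs t)
  have h5 : IntegrableOn (fun t => X2 t * j1f t) (Ioi 0) := int_bdd X2_int j1f_meas (c := 1)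
    (fun t _ => by unfold j1f; split_ifs <;> norm_num)
  have h6 : IntegrableOn (fun t => X2 t * j2f t) (Ioi 0) := int_bdd X2_int j2f_meas (c := 1)
    (fun t _ => by unfold j2f; split_ifs <;> norm_num)
  have h7 : IntegrableOn (fun t => Y2 t * y1f t) (Ioi 0) := int_bdd Y2_int y1f_meas (c := 1)
    (fun t _ => by unfold y1f; split_ifs <;> norm_num)
  have h8 : IntegrableOn (fun t => Y2 t * y2f t) (Ioi 0) := int_bdd Y2_int y2f_meas (c := 1)
    (fun t _ => by unfold y2f; split_ifs <;> norm_num)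
  exact (((((Sep.mk h1 X2_int r m0 X2_val).add (Sep.mk h2 X3_int (-r) 2 X3_val)).add
    (Sep.mk h5 h7 ((-0.07) * r) E1 rfl)).add (Sep.mk h6 h8 ((-0.07) * r) E2 rfl)).add
    (Sep.mk h3 h4 (0.235 * r) B2 rfl)).add (Sep.mk h4 h3 ((-0.235) * r) B1 rfl)

/-- pointwise inequality for degree one -/
lemma odd1_pt {r : ℝ} (hr0 : 0 ≤ r) (hr1 : r ≤ 1/2) {p : ℝ × ℝ}
    (h1 : 0 < p.1) (h2 : 0 < p.2) (a b : ℝ) :
    H1 r p * a ^ 2 + H1 r p.swap * b ^ 2 -
      4 * r * ((p.1 * G0 (1/2) p.1 * a) * (p.2 * G0 (1/2) p.2 * b)) ≤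
    (p.1 * G0 (1/2) p.1) * (p.2 * G0 (1/2) p.2) * ((DD (r * (p.1 * p.2)) + kap r p) * a ^ 2 +
      (DD (r * (p.1 * p.2)) - kap r p) * b ^ 2 - 2 * r * KK (r * (p.1 * p.2)) * (a * b)) := by
  obtain ⟨t, t'⟩ := p
  simp only at h1 h2
  have hG := G0_pos (1/2) t
  have hG' := G0_pos (1/2) t'
  have hp := pair_all hr0 hr1 h1 h2 a b
  set s := r * (t * t') with hs
  have q : ∀ x : ℝ, G0 (1/4) x = exp (x ^ 2 / 4) * G0 (1/2) x := by
    intro x
    unfold G0
    rw [← Real.exp_add]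
    congr 1
    ring
  have e1 : H1 r (t, t') = (t * G0 (1/2) t) * (t' * G0 (1/2) t') *
      (s * c1f t t' + kap r (t, t')) := by
    rw [hs]
    unfold H1 kap chi X2 X3 Y2 c1f
    simp only
    rw [q t']
    ring
  have e2 : H1 r (t', t) = (t * G0 (1/2) t) * (t' * G0 (1/2) t') *
      (s * c1f t' t - kap r (t, t')) := by
    rw [hs]
    unfold H1 kap chi X2 X3 Y2 c1f
    simp only
    rw [q t]
    ring
  simp only [Prod.swap_prod_mk]
  rw [e1, e2]
  have hN : 0 ≤ (t * G0 (1/2) t) * (t' * G0 (1/2) t') := by positivity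
  have := mul_le_mul_of_nonneg_left hp hN
  linarith

/-! ### The constraint -/

noncomputable def lamr (r : ℝ) : ℝ := √(1 - 2 * r ^ 2) / √(1 - r ^ 2)

noncomputable def hf (r t : ℝ) : ℝ := 1 - lamr r * exp (r ^ 2 * t ^ 2 / 2)

lemma hf_cont (r : ℝ) : Continuous (hf r) := by unfold hf; fun_prop

lemma G0_hf (r t : ℝ) : G0 (1/2) t * hf r t = G0 (1/2) t - lamr r * G0 ((1 - r ^ 2) / 2) t := by
  have : G0 ((1 - r ^ 2) / 2) t = G0 (1/2) t * exp (r ^ 2 * t ^ 2 / 2) := by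
    unfold G0
    rw [← Real.exp_add]
    congr 1
    ring
  unfold hf
  rw [this]
  ring

lemma G0_hf2 (r t : ℝ) : G0 (1/2) t * hf r t ^ 2 = G0 (1/2) t - 2 * lamr r * G0 ((1 - r ^ 2) / 2) t +
    lamr r ^ 2 * G0 ((1 - 2 * r ^ 2) / 2) t := by
  have e1 : G0 ((1 - r ^ 2) / 2) t = G0 (1/2) t * exp (r ^ 2 * t ^ 2 / 2) := by
    unfold G0
    rw [← Real.exp_add]
    congr 1
    ring
  have e2 : G0 ((1 - 2 * r ^ 2) / 2) t = G0 (1/2) t * (exp (r ^ 2 * t ^ 2 / 2) *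
      exp (r ^ 2 * t ^ 2 / 2)) := by
    unfold G0
    rw [← Real.exp_add, ← Real.exp_add]
    congr 1
    ring
  unfold hf
  rw [e1, e2]
  ring

lemma sq14 {r : ℝ} (hr0 : 0 ≤ r) (hr1 : r ≤ 1/2) : r ^ 2 ≤ 1/4 := by nlinarith

lemma hf2_int {r : ℝ} (hr0 : 0 ≤ r) (hr1 : r ≤ 1/2) :
    IntegrableOn (fun t => G0 (1/2) t * hf r t ^ 2) (Ioi 0) := by
  have h := sq14 hr0 hr1
  simp only [G0_hf2]
  exact ((i0_int (by norm_num)).sub ((i0_int (by linarith)).const_mul _)).add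
    ((i0_int (by linarith)).const_mul _)

lemma half_gauss {c : ℝ} (hc : 0 < c) : √(π / (c / 2)) / 2 = m0 / √c := by
  unfold m0
  rw [show π / (c / 2) = π / (1/2) / c by field_simp, sqrt_div (by positivity)]
  ring

lemma Hh_le {r : ℝ} (hr0 : 0 ≤ r) (hr1 : r ≤ 1/2) :
    ∫ t in Ioi (0:ℝ), G0 (1/2) t * hf r t ^ 2 ≤ 0.075 := by
  have h := sq14 hr0 hr1
  have i0 : IntegrableOn (G0 (1/2)) (Ioi 0) := i0_int (by norm_num)
  have i1' : IntegrableOn (G0 ((1 - r ^ 2) / 2)) (Ioi 0) := i0_int (by linarith)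
  have i2' : IntegrableOn (G0 ((1 - 2 * r ^ 2) / 2)) (Ioi 0) := i0_int (by linarith)
  simp only [G0_hf2]
  have hs : IntegrableOn (fun t => G0 (1/2) t - 2 * lamr r * G0 ((1 - r ^ 2) / 2) t) (Ioi 0) :=
    i0.sub (i1'.const_mul _)
  rw [integral_add hs (i2'.const_mul _), integral_sub i0 (i1'.const_mul _), integral_const_mul,
    integral_const_mul, v0, i0_val, i0_val, half_gauss (by linarith), half_gauss (by linarith)]
  unfold lamr
  set A := √(1 - 2 * r ^ 2) with hA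
  set B := √(1 - r ^ 2) with hB
  have hA0 : 0 < A := Real.sqrt_pos.mpr (by linarith)
  have hB0 : 0 < B := Real.sqrt_pos.mpr (by linarith)
  have hA2 : A ^ 2 = 1 - 2 * r ^ 2 := Real.sq_sqrt (by linarith)
  have hB2 : B ^ 2 = 1 - r ^ 2 := Real.sq_sqrt (by linarith)
  have e : m0 - 2 * (A / B) * (m0 / B) + (A / B) ^ 2 * (m0 / A) = m0 * (1 - A / B ^ 2) := by
    field_simp
    ring
  rw [e]
  have h2 : 0.9428 ≤ A / B ^ 2 := by
    rw [le_div_iff₀ (by positivity), hB2]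
    apply Real.le_sqrt_of_sq_le
    nlinarith [mul_nonneg (sub_nonneg.mpr h) (by positivity : 0 ≤ 1 + 2 * r ^ 2)]
  have h3 := m0_lt
  have h4 := m0_gt
  nlinarith

/-- the Gaussian weight with one power -/
noncomputable def N1 (t : ℝ) : ℝ := t * G0 (1/2) t

lemma N1_int : IntegrableOn N1 (Ioi 0) := (i1 (by norm_num)).1

lemma odd1_int {r : ℝ} (hr0 : 0 ≤ r) (hr1 : r ≤ 1/2)
    {α : ℝ → ℝ} (hα : Measurable α) (hb : ∀ t, |α t| ≤ 1)
    (hcon : ∫ t in Ioi (0:ℝ), t * G0 ((1 - r ^ 2) / 2) t * α t = 0) :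
    0 ≤ ∫ p : ℝ × ℝ, (p.1 * G0 (1/2) p.1) * (p.2 * G0 (1/2) p.2) *
      ((DD (r * (p.1 * p.2)) + kap r p) * α p.1 ^ 2 +
      (DD (r * (p.1 * p.2)) - kap r p) * α p.2 ^ 2 -
      2 * r * KK (r * (p.1 * p.2)) * (α p.1 * α p.2)) ∂QM := by
  have hsq := sq14 hr0 hr1
  have hNα : IntegrableOn (fun t => N1 t * α t) (Ioi 0) := int_bdd N1_int hα (fun t _ => hb t)
  have hNg : IntegrableOn (fun t => t * G0 ((1 - r ^ 2) / 2) t * α t) (Ioi 0) :=
    int_bdd (i1 (by linarith)).1 hα (fun t _ => hb t)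
  -- the constrained mean
  have hmean : ∫ t in Ioi (0:ℝ), N1 t * α t = ∫ t in Ioi (0:ℝ), N1 t * hf r t * α t := by
    have e : ∀ t, N1 t * hf r t * α t = N1 t * α t - lamr r * (t * G0 ((1 - r ^ 2) / 2) t * α t) := by
      intro t
      have := G0_hf r t
      unfold N1
      linear_combination (t * α t) * this
    simp only [e]
    rw [integral_sub hNα (hNg.const_mul _), integral_const_mul, hcon]
    ring
  have hNh : IntegrableOn (fun t => N1 t * hf r t * α t) (Ioi 0) := by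
    have e : ∀ t, N1 t * hf r t * α t = N1 t * α t - lamr r * (t * G0 ((1 - r ^ 2) / 2) t * α t) := by
      intro t
      have := G0_hf r t
      unfold N1
      linear_combination (t * α t) * this
    simp only [e]
    exact hNα.sub (hNg.const_mul _)
  -- the extended minorant
  set V := ∫ t in Ioi (0:ℝ), G0 (1/2) t * hf r t ^ 2 with hV
  have hVle : V ≤ 0.075 := Hh_le hr0 hr1
  have hsep := (H1_sep r).add (Sep.mk X2_int (hf2_int hr0 hr1) (-2 * r) V rfl)
  have hJ : ∀ t, 0 < t → 0 ≤ ∫ t' in Ioi (0:ℝ), (H1 r (t, t') +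
      (-2 * r) * (X2 t * (G0 (1/2) t' * hf r t' ^ 2))) := by
    intro t ht
    have h := (hsep.2 t).2
    simp only at h
    rw [h]
    have hg := gam1 ht
    have hX := X2_nonneg t
    have e : r * (X2 t * naf t * m0) + (-r) * (X2 t * nbf t * 2) +
      (-0.07) * r * (X2 t * j1f t * E1) + (-0.07) * r * (X2 t * j2f t * E2) +
      0.235 * r * (X2 t * i1f t * B2) + (-0.235) * r * (X2 t * i2f t * B1) +
      -2 * r * (X2 t * V) = (r * X2 t) * ((naf t * m0 - 2 * nbf t - 0.07 * (j1f t * E1 + j2f t * E2) +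
      0.235 * (i1f t * B2 - i2f t * B1)) - 2 * V) := by ring
    rw [e]
    apply mul_nonneg (mul_nonneg hr0 hX)
    linarith
  obtain ⟨s1, s2⟩ := schur hsep.1 hα hb hJ
  simp only [Prod.fst_swap, Prod.snd_swap] at s1 s2
  -- the rank one part
  have hrank : Integrable (fun p : ℝ × ℝ => (N1 p.1 * hf r p.1 * α p.1) *
      (N1 p.2 * hf r p.2 * α p.2)) QM := by
    unfold QM
    exact Integrable.mul_prod hNh hNh
  have hrank' : Integrable (fun p : ℝ × ℝ => (N1 p.1 * α p.1) * (N1 p.2 * α p.2)) QM := by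
    unfold QM
    exact Integrable.mul_prod hNα hNα
  have hswitch : ∫ p : ℝ × ℝ, (N1 p.1 * α p.1) * (N1 p.2 * α p.2) ∂QM =
      ∫ p : ℝ × ℝ, (N1 p.1 * hf r p.1 * α p.1) * (N1 p.2 * hf r p.2 * α p.2) ∂QM := by
    unfold QM
    rw [integral_prod_mul (fun t => N1 t * α t) (fun t => N1 t * α t),
      integral_prod_mul (fun t => N1 t * hf r t * α t) (fun t => N1 t * hf r t * α t), hmean]
  -- H1 part integrable
  have hH1 : Integrable (fun p : ℝ × ℝ => H1 r p * α p.1 ^ 2 + H1 r p.swap * α p.2 ^ 2) QM := by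
    have h1 : Integrable (fun p : ℝ × ℝ => H1 r p * α p.1 ^ 2) QM := by
      refine (H1_sep r).1.mul_bdd (c := 1) ?_ ?_
      · exact ((hα.comp measurable_fst).pow_const 2).aestronglyMeasurable
      · refine Filter.Eventually.of_forall fun p => ?_
        rw [Real.norm_eq_abs, abs_pow]
        exact pow_le_one₀ (abs_nonneg _) (hb _)
    exact h1.add (QM_swap_int h1)
  have hlow : Integrable (fun p : ℝ × ℝ => H1 r p * α p.1 ^ 2 + H1 r p.swap * α p.2 ^ 2 -
      4 * r * ((N1 p.1 * α p.1) * (N1 p.2 * α p.2))) QM := hH1.sub (hrank'.const_mul _)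
  have hlow0 : 0 ≤ ∫ p : ℝ × ℝ, (H1 r p * α p.1 ^ 2 + H1 r p.swap * α p.2 ^ 2 -
      4 * r * ((N1 p.1 * α p.1) * (N1 p.2 * α p.2))) ∂QM := by
    rw [integral_sub hH1 (hrank'.const_mul _), integral_const_mul, hswitch, ← integral_const_mul,
      ← integral_sub hH1 (hrank.const_mul _)]
    refine s2.trans (integral_mono_ae s1 (hH1.sub (hrank.const_mul _)) ?_)
    filter_upwards [QM_pos] with p hp
    have hG := (G0_pos (1/2) p.1).le
    have hG' := (G0_pos (1/2) p.2).le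
    have k : 2 * ((p.1 * α p.1 * hf r p.2) * (p.2 * α p.2 * hf r p.1)) ≤
      (p.1 * α p.1 * hf r p.2) ^ 2 + (p.2 * α p.2 * hf r p.1) ^ 2 := by
      nlinarith [sq_nonneg (p.1 * α p.1 * hf r p.2 - p.2 * α p.2 * hf r p.1)]
    have k2 := mul_le_mul_of_nonneg_left k (mul_nonneg (mul_nonneg (by linarith : 0 ≤ 2 * r) hG) hG')
    unfold N1 X2
    linarith
  refine mono_or hlow hlow0 fun p hp1 hp2 => ?_
  exact odd1_pt hr0 hr1 hp1 hp2 _ _

end Pool.Agent.Run7.h126
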