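import Mathlib
import Pool.Agent.Run7.h126.Odd1b

set_option autoImplicit false

open MeasureTheory Set Real

namespace Pool.Agent.Run7.h126

lemma wI_cont (α β γ : ℝ) : Continuous (fun s => wI α β γ s) := by
  have hc := cc_cont
  unfold wI
  apply intervalIntegral.continuous_parametric_intervalIntegral_of_continuous'
  fun_prop

lemma DD_cont : Continuous DD := by
  have : DD = fun s => s * wI 0 2 (-5/2) s := by ext s; exact DD_eq s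
  rw [this]
  exact continuous_id.mul (wI_cont _ _ _)

lemma KK_cont : Continuous KK := by
  have : KK = fun s => 2 * exp (-s) + s * wI 2 (-2) (-1/2) s := by ext s; exact KK_eq s
  rw [this]
  have := wI_cont 2 (-2) (-1/2)
  fun_prop

lemma chi_meas : Measurable chi := by
  unfold chi
  exact ((i1f_meas.comp measurable_fst).mul (i2f_meas.comp measurable_snd)).sub
    ((i2f_meas.comp measurable_fst).mul (i1f_meas.comp measurable_snd))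

/-- the asymmetric coefficient in the original coordinates -/
noncomputable def kapR (ρ σ : ℝ) (p : ℝ × ℝ) : ℝ := kap (-ρ) (p.1 / σ, p.2 / σ)

lemma kapR_meas (ρ σ : ℝ) : Measurable (kapR ρ σ) := by
  unfold kapR kap
  apply Measurable.mul
  · fun_prop
  · exact chi_meas.comp (by fun_prop)

noncomputable def cA1 (ρ σ : ℝ) (p : ℝ × ℝ) : ℝ :=
  π ^ 2 * (Wt ρ p.1 p.2 * (DD (-ρ / (1 - ρ ^ 2) * (p.1 * p.2)) + kapR ρ σ p))
noncomputable def cA2 (ρ σ : ℝ) (p : ℝ × ℝ) : ℝ :=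
  π ^ 2 * (Wt ρ p.1 p.2 * (DD (-ρ / (1 - ρ ^ 2) * (p.1 * p.2)) - kapR ρ σ p))
noncomputable def cKK (ρ : ℝ) (p : ℝ × ℝ) : ℝ :=
  π ^ 2 * (Wt ρ p.1 p.2 * KK (-ρ / (1 - ρ ^ 2) * (p.1 * p.2)))

section
variable {ρ σ : ℝ}

lemma arg_eq (hσ : 0 < σ) (hρ : σ ^ 2 = 1 - ρ ^ 2) (p : ℝ × ℝ) :
    -ρ * (p.1 / σ * (p.2 / σ)) = -ρ / (1 - ρ ^ 2) * (p.1 * p.2) := by
  rw [← hρ]
  field_simp

lemma kapR_facts (hσ : 0 < σ) (hρ : σ ^ 2 = 1 - ρ ^ 2) (h0 : ρ ≤ 0) (h1 : -(1/2) ≤ ρ)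
    {p : ℝ × ℝ} (hp1 : 0 < p.1) (hp2 : 0 < p.2) :
    |kapR ρ σ p| ≤ km (-ρ / (1 - ρ ^ 2) * (p.1 * p.2)) ∧
    kapR ρ σ p ^ 2 ≤ 4 * ((al (-ρ / (1 - ρ ^ 2) * (p.1 * p.2)) - hh (-ρ / (1 - ρ ^ 2) * (p.1 * p.2))) *
      (hh (-ρ / (1 - ρ ^ 2) * (p.1 * p.2)) - de (-ρ / (1 - ρ ^ 2) * (p.1 * p.2)))) ∧
    |kapR ρ σ p| ≤ DD (-ρ / (1 - ρ ^ 2) * (p.1 * p.2)) := by
  have h := kap_facts (r := -ρ) (by linarith) (by linarith) (p := (p.1 / σ, p.2 / σ))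
    (div_pos hp1 hσ) (div_pos hp2 hσ)
  simp only [arg_eq hσ hρ p] at h
  exact h

lemma Wt_env (hρ' : 0 < 1 - ρ ^ 2) (h0 : ρ ≤ 0) {p : ℝ × ℝ} (hp1 : 0 < p.1) (hp2 : 0 < p.2) :
    Wt ρ p.1 p.2 * exp (-ρ / (1 - ρ ^ 2) * (p.1 * p.2) / 2) ≤
      1 / (4 * π ^ 2 * (1 - ρ ^ 2)) * (env ρ p.1 * env ρ p.2) := by
  have hl : -ρ / (1 - ρ ^ 2) / 2 ≤ 1 / (2 * (1 - ρ ^ 2)) := by
    have : -ρ ≤ 1 := by nlinarith
    rw [div_div, mul_comm (1 - ρ ^ 2) 2]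
    gcongr
  have h := env2_le hρ' hl hp1 hp2
  have e : Wt ρ p.1 p.2 * exp (-ρ / (1 - ρ ^ 2) * (p.1 * p.2) / 2) =
      1 / (4 * π ^ 2 * (1 - ρ ^ 2)) * (p.1 * p.2 * exp (-(p.1 ^ 2 + p.2 ^ 2) / (2 * (1 - ρ ^ 2))) *
        exp (-ρ / (1 - ρ ^ 2) / 2 * (p.1 * p.2))) := by
    unfold Wt
    rw [show -ρ / (1 - ρ ^ 2) * (p.1 * p.2) / 2 = -ρ / (1 - ρ ^ 2) / 2 * (p.1 * p.2) by ring]
    field_simp
  rw [e]
  exact mul_le_mul_of_nonneg_left h (by positivity)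

lemma Wt_nn (hρ' : 0 < 1 - ρ ^ 2) {p : ℝ × ℝ} (hp1 : 0 < p.1) (hp2 : 0 < p.2) :
    0 ≤ Wt ρ p.1 p.2 := by
  unfold Wt; positivity

lemma Wt_meas : Measurable (fun p : ℝ × ℝ => Wt ρ p.1 p.2) := by
  unfold Wt; fun_prop

lemma arg_nn (hρ' : 0 < 1 - ρ ^ 2) (h0 : ρ ≤ 0) {p : ℝ × ℝ} (hp1 : 0 < p.1) (hp2 : 0 < p.2) :
    0 ≤ -ρ / (1 - ρ ^ 2) * (p.1 * p.2) := by
  have : 0 ≤ -ρ := by linarith
  positivity

lemma cA1_coef (hσ : 0 < σ) (hρ : σ ^ 2 = 1 - ρ ^ 2) (h0 : ρ ≤ 0) (h1 : -(1/2) ≤ ρ) :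
    Coef ρ (cA1 ρ σ) := by
  have hρ' : 0 < 1 - ρ ^ 2 := by rw [← hρ]; positivity
  refine ⟨?_, π ^ 2 * (4/5 * (1 / (4 * π ^ 2 * (1 - ρ ^ 2)))), fun p hp1 hp2 => ?_⟩
  · unfold cA1
    refine measurable_const.mul (Wt_meas.mul ((DD_cont.measurable.comp (by fun_prop)).add
      (kapR_meas ρ σ)))
  · obtain ⟨-, -, k3⟩ := kapR_facts hσ hρ h0 h1 hp1 hp2
    have hs := arg_nn hρ' h0 hp1 hp2
    have hW := Wt_nn hρ' hp1 hp2
    have hD := DD_upper hs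
    have hE := Wt_env hρ' h0 hp1 hp2
    set s := -ρ / (1 - ρ ^ 2) * (p.1 * p.2) with hsdef
    have g := abs_le.mp k3
    unfold cA1
    rw [← hsdef]
    constructor
    · exact mul_nonneg (sq_nonneg _) (mul_nonneg hW (by linarith [g.1]))
    · have : DD s + kapR ρ σ p ≤ 4/5 * exp (s / 2) := by linarith [g.2]
      calc π ^ 2 * (Wt ρ p.1 p.2 * (DD s + kapR ρ σ p)) ≤
          π ^ 2 * (Wt ρ p.1 p.2 * (4/5 * exp (s / 2))) := by gcongr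
        _ = π ^ 2 * (4/5 * (Wt ρ p.1 p.2 * exp (s / 2))) := by ring
        _ ≤ π ^ 2 * (4/5 * (1 / (4 * π ^ 2 * (1 - ρ ^ 2)) * (env ρ p.1 * env ρ p.2))) := by gcongr
        _ = _ := by ring

lemma cA2_coef (hσ : 0 < σ) (hρ : σ ^ 2 = 1 - ρ ^ 2) (h0 : ρ ≤ 0) (h1 : -(1/2) ≤ ρ) :
    Coef ρ (cA2 ρ σ) := by
  have hρ' : 0 < 1 - ρ ^ 2 := by rw [← hρ]; positivity
  refine ⟨?_, π ^ 2 * (4/5 * (1 / (4 * π ^ 2 * (1 - ρ ^ 2)))), fun p hp1 hp2 => ?_⟩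
  · unfold cA2
    refine measurable_const.mul (Wt_meas.mul ((DD_cont.measurable.comp (by fun_prop)).sub
      (kapR_meas ρ σ)))
  · obtain ⟨-, -, k3⟩ := kapR_facts hσ hρ h0 h1 hp1 hp2
    have hs := arg_nn hρ' h0 hp1 hp2
    have hW := Wt_nn hρ' hp1 hp2
    have hD := DD_upper hs
    have hE := Wt_env hρ' h0 hp1 hp2
    set s := -ρ / (1 - ρ ^ 2) * (p.1 * p.2) with hsdef
    have g := abs_le.mp k3
    unfold cA2
    rw [← hsdef]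
    constructor
    · exact mul_nonneg (sq_nonneg _) (mul_nonneg hW (by linarith [g.2]))
    · have : DD s - kapR ρ σ p ≤ 4/5 * exp (s / 2) := by linarith [g.1]
      calc π ^ 2 * (Wt ρ p.1 p.2 * (DD s - kapR ρ σ p)) ≤
          π ^ 2 * (Wt ρ p.1 p.2 * (4/5 * exp (s / 2))) := by gcongr
        _ = π ^ 2 * (4/5 * (Wt ρ p.1 p.2 * exp (s / 2))) := by ring
        _ ≤ π ^ 2 * (4/5 * (1 / (4 * π ^ 2 * (1 - ρ ^ 2)) * (env ρ p.1 * env ρ p.2))) := by gcongr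
        _ = _ := by ring

lemma cKK_coef (hρ' : 0 < 1 - ρ ^ 2) (h0 : ρ ≤ 0) : Coef ρ (cKK ρ) := by
  refine ⟨?_, π ^ 2 * (2 * (1 / (4 * π ^ 2 * (1 - ρ ^ 2)))), fun p hp1 hp2 => ?_⟩
  · unfold cKK
    refine measurable_const.mul (Wt_meas.mul (KK_cont.measurable.comp (by fun_prop)))
  · have hs := arg_nn hρ' h0 hp1 hp2
    have hW := Wt_nn hρ' hp1 hp2
    have hD := KK_upper hs
    have hD0 := KK_nonneg hs
    have hE := Wt_env hρ' h0 hp1 hp2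
    set s := -ρ / (1 - ρ ^ 2) * (p.1 * p.2) with hsdef
    unfold cKK
    rw [← hsdef]
    constructor
    · positivity
    · calc π ^ 2 * (Wt ρ p.1 p.2 * KK s) ≤ π ^ 2 * (Wt ρ p.1 p.2 * (2 * exp (s / 2))) := by gcongr
        _ = π ^ 2 * (2 * (Wt ρ p.1 p.2 * exp (s / 2))) := by ring
        _ ≤ π ^ 2 * (2 * (1 / (4 * π ^ 2 * (1 - ρ ^ 2)) * (env ρ p.1 * env ρ p.2))) := by gcongr
        _ = _ := by ring

/-- even degree, pointwise -/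
lemma even_pt {A H E κ x : ℝ} (h1 : H ≤ A) (h2 : E ≤ H) (hκ : κ ^ 2 ≤ 4 * ((A - H) * (H - E)))
    (hκ2 : |κ| ≤ A - E) (hx0 : 0 ≤ x) (hx1 : x ≤ 1) (a b : ℝ) :
    4 * x * H * (a * b) ≤ (A - E + κ) * a ^ 2 + (A - E - κ) * b ^ 2 + 2 * x * (A + E) * (a * b) := by
  have k1 : 0 ≤ (A - H) * (a + b) ^ 2 + (H - E) * (a - b) ^ 2 + κ * ((a + b) * (a - b)) := by
    have p1 : 0 ≤ A - H := by linarith
    have p2 : 0 ≤ H - E := by linarith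
    have q1 : |κ * ((a + b) * (a - b))| ≤ (A - H) * (a + b) ^ 2 + (H - E) * (a - b) ^ 2 := by
      apply abs_le_of_sq_le_sq _ (by positivity)
      have e : (κ * ((a + b) * (a - b))) ^ 2 = κ ^ 2 * ((a + b) ^ 2 * (a - b) ^ 2) := by ring
      rw [e]
      have g := mul_le_mul_of_nonneg_right hκ
        (by positivity : 0 ≤ (a + b) ^ 2 * (a - b) ^ 2)
      refine g.trans ?_
      nlinarith [sq_nonneg ((A - H) * (a + b) ^ 2 - (H - E) * (a - b) ^ 2)]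
    have := (abs_le.mp q1).1
    linarith
  have g := abs_le.mp hκ2
  have k2 : 0 ≤ (A - E + κ) * a ^ 2 + (A - E - κ) * b ^ 2 := by
    have g1 := mul_nonneg (by linarith [g.1] : 0 ≤ A - E + κ) (sq_nonneg a)
    have g2 := mul_nonneg (by linarith [g.2] : 0 ≤ A - E - κ) (sq_nonneg b)
    linarith
  have k3 := mul_nonneg hx0 k1
  have k4 := mul_nonneg (by linarith : 0 ≤ 1 - x) k2
  linarith

lemma mode_even (hσ : 0 < σ) (hρ : σ ^ 2 = 1 - ρ ^ 2) (h0 : ρ ≤ 0) (h1 : -(1/2) ≤ ρ) {k : ℕ}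
    (hk : Even k) {a : ℝ → ℝ} (ha : Measurable a) (hb : ∀ R, |a R| ≤ 1) :
    0 ≤ ∫ p, (cA1 ρ σ p * a p.1 ^ 2 + cA2 ρ σ p * a p.2 ^ 2 +
      cKK ρ p * (2 * (ρ ^ k * (a p.1 * a p.2)))) ∂QM := by
  have hρ' : 0 < 1 - ρ ^ 2 := by rw [← hρ]; positivity
  obtain ⟨g1, g2⟩ := psd hρ' h0 ha hb
  have hx0 : 0 ≤ ρ ^ k := hk.pow_nonneg ρ
  have hx1 : ρ ^ k ≤ 1 := by
    rw [← hk.pow_abs]
    exact pow_le_one₀ (abs_nonneg _) (by rw [abs_le]; constructor <;> linarith)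
  refine mono_or (g1.const_mul (π ^ 2 * (4 * ρ ^ k))) ?_ ?_
  · rw [integral_const_mul]
    positivity
  · intro p hp1 hp2
    obtain ⟨-, k2, k3⟩ := kapR_facts hσ hρ h0 h1 hp1 hp2
    have hs := arg_nn hρ' h0 hp1 hp2
    have hW := Wt_nn hρ' hp1 hp2
    have e1 := al_ge hs
    have e2 := de_le hs
    unfold cA1 cA2 cKK
    unfold DD at k3 ⊢
    unfold KK
    set s := -ρ / (1 - ρ ^ 2) * (p.1 * p.2) with hsdef
    have h := even_pt e1 e2 k2 k3 hx0 hx1 (a p.1) (a p.2)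
    have h' := mul_le_mul_of_nonneg_left h (mul_nonneg (sq_nonneg π) hW)
    linarith

lemma scaled (hσ : 0 < σ) (hρ : σ ^ 2 = 1 - ρ ^ 2) (k : ℕ) (a : ℝ → ℝ) :
    ∫ p, (cA1 ρ σ p * a p.1 ^ 2 + cA2 ρ σ p * a p.2 ^ 2 +
      cKK ρ p * (2 * (ρ ^ k * (a p.1 * a p.2)))) ∂QM =
    σ ^ 2 * (1/4 * ∫ p : ℝ × ℝ, (p.1 * G0 (1/2) p.1) * (p.2 * G0 (1/2) p.2) *
      ((DD (-ρ * (p.1 * p.2)) + kap (-ρ) p) * a (σ * p.1) ^ 2 +
      (DD (-ρ * (p.1 * p.2)) - kap (-ρ) p) * a (σ * p.2) ^ 2 -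
      2 * (-(ρ ^ k)) * KK (-ρ * (p.1 * p.2)) * (a (σ * p.1) * a (σ * p.2))) ∂QM) := by
  rw [QM_scale hσ]
  congr 1
  rw [← integral_const_mul]
  refine integral_congr_ae (Filter.Eventually.of_forall fun p => ?_)
  simp only
  have hpi := pi_pos
  have e1 : -ρ / (1 - ρ ^ 2) * (σ * p.1 * (σ * p.2)) = -ρ * (p.1 * p.2) := by
    rw [← hρ]
    field_simp
  have e2 : kapR ρ σ (σ * p.1, σ * p.2) = kap (-ρ) p := by
    unfold kapR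
    simp only
    rw [mul_div_cancel_left₀ _ hσ.ne', mul_div_cancel_left₀ _ hσ.ne']
  have e3 : π ^ 2 * Wt ρ (σ * p.1) (σ * p.2) =
      1/4 * ((p.1 * G0 (1/2) p.1) * (p.2 * G0 (1/2) p.2)) := by
    unfold Wt G0
    have : exp (-((σ * p.1) ^ 2 + (σ * p.2) ^ 2) / (2 * (1 - ρ ^ 2))) =
        exp (-(1/2) * p.1 ^ 2) * exp (-(1/2) * p.2 ^ 2) := by
      rw [← Real.exp_add, ← hρ]
      congr 1
      field_simp
      ring
    rw [this, ← hρ]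
    field_simp
  unfold cA1 cA2 cKK
  simp only
  rw [e1, e2, ← mul_assoc (π ^ 2), ← mul_assoc (π ^ 2), ← mul_assoc (π ^ 2), e3]
  ring

lemma mode_odd (hσ : 0 < σ) (hρ : σ ^ 2 = 1 - ρ ^ 2) (h0 : ρ ≤ 0) (h1 : -(1/2) ≤ ρ) {k : ℕ}
    (hk : Odd k) {a : ℝ → ℝ} (ha : Measurable a) (hb : ∀ R, |a R| ≤ 1)
    (hcon : k = 1 → ∫ R in Ioi (0:ℝ), R * exp (-R ^ 2 / 2) * a R = 0) :
    0 ≤ ∫ p, (cA1 ρ σ p * a p.1 ^ 2 + cA2 ρ σ p * a p.2 ^ 2 +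
      cKK ρ p * (2 * (ρ ^ k * (a p.1 * a p.2)))) ∂QM := by
  rw [scaled hσ hρ]
  apply mul_nonneg (sq_nonneg σ)
  apply mul_nonneg (by norm_num)
  have hα : Measurable (fun t => a (σ * t)) := ha.comp (by fun_prop)
  have hαb : ∀ t, |a (σ * t)| ≤ 1 := fun t => hb _
  have hpow : -(ρ ^ k) = (-ρ) ^ k := by rw [hk.neg_pow]
  rw [hpow]
  by_cases hk1 : k = 1
  · subst hk1
    rw [pow_one]
    refine odd1_int (r := -ρ) (by linarith) (by linarith) hα hαb ?_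
    have h := integral_comp_mul_left_Ioi (fun R => R * exp (-R ^ 2 / 2) * a R) 0 hσ
    rw [mul_zero, hcon rfl, smul_zero] at h
    have e : ∀ t : ℝ, σ * t * exp (-(σ * t) ^ 2 / 2) * a (σ * t) =
        σ * (t * G0 ((1 - (-ρ) ^ 2) / 2) t * a (σ * t)) := by
      intro t
      unfold G0
      rw [neg_sq, ← hρ]
      rw [show -(σ * t) ^ 2 / 2 = -(σ ^ 2 / 2) * t ^ 2 by ring]
      ring
    simp only [e] at h
    rw [integral_const_mul] at h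
    rcases mul_eq_zero.mp h with h' | h'
    · exact absurd h' hσ.ne'
    · exact h'
  · have hk3 : 3 ≤ k := by
      rcases hk with ⟨m, rfl⟩
      omega
    refine odd3_int (r := -ρ) (by linarith) (by linarith) ?_ ?_ hα hαb
    · exact pow_le_pow_of_le_one (by linarith) (by linarith) hk3
    · exact pow_nonneg (by linarith) k

/-- **The data for correlations in `[-1/2, 0]`.** -/
theorem modeOK_half (hσ : 0 < σ) (hρ : σ ^ 2 = 1 - ρ ^ 2) (h0 : ρ ≤ 0) (h1 : -(1/2) ≤ ρ) :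
    ModeOK ρ (cA1 ρ σ) (cA2 ρ σ) (cKK ρ) where
  c1 := cA1_coef hσ hρ h0 h1
  c2 := cA2_coef hσ hρ h0 h1
  c3 := cKK_coef (by rw [← hρ]; positivity) h0
  pt := by
    intro p hp1 hp2 χ η b b' hχ hη he hf hs hs'
    have hρ' : 0 < 1 - ρ ^ 2 := by rw [← hρ]; positivity
    have hs0 := arg_nn hρ' h0 hp1 hp2
    have hW := Wt_nn hρ' hp1 hp2
    obtain ⟨k1, -, -⟩ := kapR_facts hσ hρ h0 h1 hp1 hp2
    have hJ := J_lower2 hχ hη he hf hs hs' hs0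
    unfold cA1 cA2 cKK DD KK
    set s := -ρ / (1 - ρ ^ 2) * (p.1 * p.2) with hsdef
    have e1 : ∑ i, (π ^ 2 * (Wt ρ p.1 p.2 * (al s - de s + kapR ρ σ p)) * (b i - 1/3) ^ 2 +
        π ^ 2 * (Wt ρ p.1 p.2 * (al s - de s - kapR ρ σ p)) * (b' i - 1/3) ^ 2 +
        π ^ 2 * (Wt ρ p.1 p.2 * (al s + de s)) * (2 * ((b i - 1/3) * (b' i - 1/3)))) =
        Wt ρ p.1 p.2 * (π ^ 2 * (al s * (∑ i, ((b i - 1/3) + (b' i - 1/3)) ^ 2)
        - de s * (∑ i, ((b i - 1/3) - (b' i - 1/3)) ^ 2)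
        + kapR ρ σ p * ∑ i, ((b i - 1/3) ^ 2 - (b' i - 1/3) ^ 2))) := by
      simp only [Fin.sum_univ_three]
      ring
    rw [e1, ← mul_add]
    apply mul_le_mul_of_nonneg_left _ hW
    refine le_trans ?_ hJ
    have e2 : kapR ρ σ p * ∑ i, ((b i - 1/3) ^ 2 - (b' i - 1/3) ^ 2) ≤
        km s * |∑ i, ((b i - 1/3) ^ 2 - (b' i - 1/3) ^ 2)| := by
      refine (le_abs_self _).trans ?_
      rw [abs_mul]
      exact mul_le_mul_of_nonneg_right k1 (abs_nonneg _)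
    have e3 := mul_le_mul_of_nonneg_left e2 (sq_nonneg π)
    linarith
  mode := by
    intro k a ha hb hcon
    rcases Nat.even_or_odd k with hk | hk
    · exact mode_even hσ hρ h0 h1 hk ha hb
    · exact mode_odd hσ hρ h0 h1 hk ha hb hcon

end

end Pool.Agent.Run7.h126
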